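import Pool.Agent.Work.MP_8e9dbb.B.Beta

/-!
# MP_8e9dbb_gt, block ARC (helper79): lifts of geodesics on open intervals
-/

open MeasureTheory Filter Topology Metric Set
open scoped ContDiff

namespace Pool.MP8e

namespace ArcAux

variable {D : QD} {X : Type} [MetricSpace X] {Pr : ℝ × ℝ → X}

theorem per_nat (hF : Facts D X Pr) (p θ : ℝ) (m : ℕ) :
    Pr (p, θ + m * (2 * Real.pi)) = Pr (p, θ) := by
  induction m with
  | zero => simp
  | succ m ih =>
    have : θ + ((m + 1 : ℕ) : ℝ) * (2 * Real.pi) = (θ + m * (2 * Real.pi)) + 2 * Real.pi := by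
      push_cast
      ring
    rw [this, hF.per, ih]

theorem per_int (hF : Facts D X Pr) (p θ : ℝ) (m : ℤ) :
    Pr (p, θ + m * (2 * Real.pi)) = Pr (p, θ) := by
  obtain ⟨n, rfl | rfl⟩ := m.eq_nat_or_neg
  · exact_mod_cast per_nat hF p θ n
  · have h1 := per_nat hF p (θ + ((-(n : ℤ) : ℤ) : ℝ) * (2 * Real.pi)) n
    rw [← h1]
    congr 2
    push_cast
    ring

theorem InS_R {p θ : ℝ} (h : D.InS (p, θ)) : 0 < D.R p :=
  D.posR _ ⟨h.1, h.2.le.trans (D.βh_memB θ).2⟩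

theorem InS_A {p θ : ℝ} (h : D.InS (p, θ)) : 0 < D.A p :=
  D.posA _ ⟨h.1.le, h.2.le.trans (D.βh_memB θ).2⟩

/-- uniqueness of velocities -/
theorem vel_unique (hUNI : Stmt_UNI) (hF : Facts D X Pr) {c : ℝ → X} {S : Set ℝ} (hS : IsOpen S)
    {p θ v w p' θ' v' w' : ℝ → ℝ}
    (h : ∀ t ∈ S, D.InS (p t, θ t) ∧ Pr (p t, θ t) = c t ∧ EqAt D p θ v w t)
    (h' : ∀ t ∈ S, D.InS (p' t, θ' t) ∧ Pr (p' t, θ' t) = c t ∧ EqAt D p' θ' v' w' t)
    {u : ℝ} (hu : u ∈ S) : p u = p' u ∧ v u = v' u ∧ w u = w' u ∧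
      ∃ m : ℤ, θ u = θ' u + m * (2 * Real.pi) := by
  obtain ⟨r, hr, hrS⟩ := Metric.isOpen_iff.1 hS u hu
  have hpre : IsPreconnected (ball u r) := (convex_ball u r).isPreconnected
  have huB : u ∈ ball u r := mem_ball_self hr
  obtain ⟨m, hm⟩ := hUNI D X Pr hF (ball u r) hpre p' θ' p θ
    (fun s hs => (h' s (hrS hs)).2.2.dθ.continuousAt.continuousWithinAt)
    (fun s hs => (h s (hrS hs)).2.2.dθ.continuousAt.continuousWithinAt)
    (fun s hs => ⟨(h' s (hrS hs)).1, (h s (hrS hs)).1,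
      (h' s (hrS hs)).2.1.trans (h s (hrS hs)).2.1.symm⟩)
  have hE := (h u hu).2.2
  have hE' := (h' u hu).2.2
  have hp : p =ᶠ[𝓝 u] p' := by
    filter_upwards [ball_mem_nhds u hr] with s hs
    exact (hm s hs).1
  have hθ : θ =ᶠ[𝓝 u] fun s => θ' s + m * (2 * Real.pi) := by
    filter_upwards [ball_mem_nhds u hr] with s hs
    exact (hm s hs).2
  have e1 : p u = p' u := (hm u huB).1
  have hA := InS_A (h u hu).1
  have hR := InS_R (h u hu).1
  have e2 : v u / D.A (p u) = v' u / D.A (p' u) :=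
    (hE.dp.congr_of_eventuallyEq hp.symm).unique hE'.dp
  have e3 : w u / D.R (p u) = w' u / D.R (p' u) := by
    have h1 : HasDerivAt (fun s => θ' s + m * (2 * Real.pi)) (w' u / D.R (p' u)) u :=
      hE'.dθ.add_const _
    exact (hE.dθ.congr_of_eventuallyEq hθ.symm).unique h1
  refine ⟨e1, ?_, ?_, m, (hm u huB).2⟩
  · rw [← e1] at e2
    exact (div_left_inj' hA.ne').1 e2
  · rw [← e1] at e3
    exact (div_left_inj' hR.ne').1 e3

end ArcAux

open ArcAux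

theorem arc_proof (hLOC : Stmt_LOC) (hUNI : Stmt_UNI) : Stmt_ARC := by
  intro D X _ Pr hF c hc I hIo hIc t₀ ht₀ hI q hq hcq
  have hloc : ∀ t, t ∈ I → ∃ δ > 0, ∃ p θ v w : ℝ → ℝ, ∀ s ∈ ball t δ,
      D.InS (p s, θ s) ∧ Pr (p s, θ s) = c s ∧ EqAt D p θ v w s := by
    intro t ht
    obtain ⟨q', hq', hcq'⟩ := hI t ht
    obtain ⟨δ, hδ, p, θ, v, w, _, _, h⟩ := hLOC D X Pr hF c hc t q' hq' hcq'
    exact ⟨δ, hδ, p, θ, v, w, h⟩
  choose! δ hδ p θ v w hl using hloc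
  -- agreement of local lifts
  have hagree : ∀ s ∈ I, ∀ t ∈ I, ∀ u ∈ ball s (δ s) ∩ ball t (δ t),
      p s u = p t u ∧ v s u = v t u ∧ w s u = w t u ∧ ∃ m : ℤ, θ s u = θ t u + m * (2 * Real.pi) := by
    intro s hs t ht u hu
    exact vel_unique hUNI hF (isOpen_ball.inter isOpen_ball)
      (fun r hr => hl s hs r hr.1) (fun r hr => hl t ht r hr.2) hu
  have hcen : ∀ t ∈ I, t ∈ ball t (δ t) := fun t ht => mem_ball_self (hδ t ht)
  have hag : ∀ t ∈ I, ∀ s ∈ I, s ∈ ball t (δ t) →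
      p s s = p t s ∧ v s s = v t s ∧ w s s = w t s ∧
        ∃ m : ℤ, θ s s = θ t s + m * (2 * Real.pi) := fun t ht s hs hst =>
    hagree s hs t ht s ⟨hcen s hs, hst⟩
  have hnh : ∀ t ∈ I, I ∩ ball t (δ t) ∈ 𝓝 t := fun t ht =>
    inter_mem (hIo.mem_nhds ht) (ball_mem_nhds _ (hδ t ht))
  have hP : ∀ t ∈ I, (fun s => p s s) =ᶠ[𝓝 t] p t := by
    intro t ht
    filter_upwards [hnh t ht] with s hs
    exact (hag t ht s hs.1 hs.2).1
  have hV : ∀ t ∈ I, (fun s => v s s) =ᶠ[𝓝 t] v t := by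
    intro t ht
    filter_upwards [hnh t ht] with s hs
    exact (hag t ht s hs.1 hs.2).2.1
  have hW : ∀ t ∈ I, (fun s => w s s) =ᶠ[𝓝 t] w t := by
    intro t ht
    filter_upwards [hnh t ht] with s hs
    exact (hag t ht s hs.1 hs.2).2.2.1
  have hdP : ∀ t ∈ I, HasDerivAt (fun s => p s s) (v t t / D.A (p t t)) t := fun t ht =>
    (hl t ht t (hcen t ht)).2.2.dp.congr_of_eventuallyEq (hP t ht)
  have hdV : ∀ t ∈ I, HasDerivAt (fun s => v s s) (D.f (p t t) * w t t ^ 2 / D.R (p t t)) t :=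
    fun t ht => (hl t ht t (hcen t ht)).2.2.dv.congr_of_eventuallyEq (hV t ht)
  have hdW : ∀ t ∈ I, HasDerivAt (fun s => w s s)
      (-(D.f (p t t) * v t t * w t t / D.R (p t t))) t :=
    fun t ht => (hl t ht t (hcen t ht)).2.2.dw.congr_of_eventuallyEq (hW t ht)
  have hRpos : ∀ t ∈ I, 0 < D.R (p t t) := fun t ht => InS_R (hl t ht t (hcen t ht)).1
  have hint : ContinuousOn (fun s => w s s / D.R (p s s)) I := by
    intro t ht
    have h1 : ContinuousAt (fun s => D.R (p s s)) t :=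
      (D.contR.continuousAt).comp (hdP t ht).continuousAt
    exact ((hdW t ht).continuousAt.div h1 (hRpos t ht).ne').continuousWithinAt
  have hord : I.OrdConnected := hIc.ordConnected
  let Θ : ℝ → ℝ := fun t => q.2 + ∫ u in t₀..t, w u u / D.R (p u u)
  have hdΘ : ∀ t ∈ I, HasDerivAt Θ (w t t / D.R (p t t)) t := by
    intro t ht
    have h1 : IntervalIntegrable (fun u => w u u / D.R (p u u)) volume t₀ t :=
      (hint.mono (hord.uIcc_subset ht₀ ht)).intervalIntegrable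
    have h2 := intervalIntegral.integral_hasDerivAt_right h1
      (hint.stronglyMeasurableAtFilter hIo t ht) (hint.continuousAt (hIo.mem_nhds ht))
    exact h2.const_add _
  have hΘ0 : Θ t₀ = q.2 := by
    change q.2 + ∫ u in t₀..t₀, w u u / D.R (p u u) = q.2
    rw [intervalIntegral.integral_same, add_zero]
  have hstart : p t₀ t₀ = q.1 ∧ ∃ m : ℤ, θ t₀ t₀ = q.2 + m * (2 * Real.pi) := by
    have h1 := hl t₀ ht₀ t₀ (hcen t₀ ht₀)
    have h2 : Pr (q.1, q.2) = Pr (p t₀ t₀, θ t₀ t₀) := by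
      rw [h1.2.1]
      exact hcq.symm
    exact hF.inj q.1 q.2 (p t₀ t₀) (θ t₀ t₀) hq.1 hq.2 h1.1.1.le h1.1.2.le h2
  -- local constancy
  have hconst : ∀ t ∈ I, ∃ r > 0, ball t r ⊆ I ∧ ∀ s ∈ ball t r,
      ((∃ m : ℤ, Θ s = θ s s + m * (2 * Real.pi)) ↔ ∃ m : ℤ, Θ t = θ t t + m * (2 * Real.pi)) := by
    intro t ht
    obtain ⟨r, hr, hrs⟩ := Metric.mem_nhds_iff.1 (hnh t ht)
    refine ⟨r, hr, fun s hs => (hrs hs).1, fun s hs => ?_⟩
    have hder : ∀ u ∈ ball t r, HasDerivAt (fun u => Θ u - θ t u) 0 u := by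
      intro u hu
      have h1 := hdΘ u (hrs hu).1
      have h2 := (hl t ht u (hrs hu).2).2.2.dθ
      have h3 := hag t ht u (hrs hu).1 (hrs hu).2
      have h4 := h1.sub h2
      rw [h3.1, h3.2.2.1, sub_self] at h4
      exact h4
    have h1 : Θ s - θ t s = Θ t - θ t t := by
      refine isOpen_ball.is_const_of_deriv_eq_zero (convex_ball t r).isPreconnected
        (f := fun u => Θ u - θ t u)
        (fun u hu => (hder u hu).differentiableAt.differentiableWithinAt)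
        (fun u hu => (hder u hu).deriv) hs (mem_ball_self hr)
    obtain ⟨m', hm'⟩ := (hag t ht s (hrs hs).1 (hrs hs).2).2.2.2
    constructor
    · rintro ⟨m, hm⟩
      refine ⟨m + m', ?_⟩
      push_cast
      linarith
    · rintro ⟨m, hm⟩
      refine ⟨m - m', ?_⟩
      push_cast
      linarith
  have hG : ∀ t ∈ I, ∃ m : ℤ, Θ t = θ t t + m * (2 * Real.pi) := by
    let U : Set ℝ := {t | t ∈ I ∧ ∃ m : ℤ, Θ t = θ t t + m * (2 * Real.pi)}
    let U' : Set ℝ := {t | t ∈ I ∧ ¬ ∃ m : ℤ, Θ t = θ t t + m * (2 * Real.pi)}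
    have hU : IsOpen U := by
      rw [Metric.isOpen_iff]
      rintro t ⟨ht, h1⟩
      obtain ⟨r, hr, hrI, h2⟩ := hconst t ht
      exact ⟨r, hr, fun s hs => ⟨hrI hs, (h2 s hs).2 h1⟩⟩
    have hU' : IsOpen U' := by
      rw [Metric.isOpen_iff]
      rintro t ⟨ht, h1⟩
      obtain ⟨r, hr, hrI, h2⟩ := hconst t ht
      exact ⟨r, hr, fun s hs => ⟨hrI hs, fun h3 => h1 ((h2 s hs).1 h3)⟩⟩
    intro t ht
    by_contra hcon
    have hcov : I ⊆ U ∪ U' := by
      intro s hs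
      by_cases h1 : ∃ m : ℤ, Θ s = θ s s + m * (2 * Real.pi)
      · exact Or.inl ⟨hs, h1⟩
      · exact Or.inr ⟨hs, h1⟩
    have h0 : t₀ ∈ U := by
      obtain ⟨m, hm⟩ := hstart.2
      refine ⟨ht₀, -m, ?_⟩
      rw [hΘ0, hm]
      push_cast
      ring
    obtain ⟨s, _, hs1, hs2⟩ := hIc U U' hU hU' hcov ⟨t₀, ht₀, h0⟩ ⟨t, ht, ht, hcon⟩
    exact hs2.2 hs1.2
  refine ⟨fun s => p s s, Θ, fun s => v s s, fun s => w s s, hstart.1, hΘ0, fun t ht => ?_⟩
  obtain ⟨m, hm⟩ := hG t ht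
  have h1 := hl t ht t (hcen t ht)
  refine ⟨?_, ?_, ?_⟩
  · refine ⟨h1.1.1, ?_⟩
    change p t t < D.βh (Θ t)
    rw [hm, D.βh_add_two_pi]
    exact h1.1.2
  · change Pr (p t t, Θ t) = c t
    rw [hm, per_int hF]
    exact h1.2.1
  · exact ⟨h1.2.2.unit, hdP t ht, hdΘ t ht, hdV t ht, hdW t ht⟩

end Pool.MP8e
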