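import Pool.Agent.Work.MP_8e9dbb.Iface

/-!
# MP_8e9dbb_gt, phase T: arcs (helper19)

Monotone functions along the arcs of `Iface.lean`: Clairaut constant, `(R v)' = f`,
`(κ θ - arcsin v)' = (κ - f) θ'`.
-/

open MeasureTheory Filter Topology Metric Set
open scoped ContDiff

namespace Pool.MP8e

/-! ### Calculus -/

theorem cmp_deriv {a b : ℝ} {g h g' h' : ℝ → ℝ} (hg : ContinuousOn g (Icc a b))
    (hh : ContinuousOn h (Icc a b)) (dg : ∀ t ∈ Ioo a b, HasDerivAt g (g' t) t)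
    (dh : ∀ t ∈ Ioo a b, HasDerivAt h (h' t) t) (hle : ∀ t ∈ Ioo a b, g' t ≤ h' t)
    {s t : ℝ} (hs : s ∈ Icc a b) (ht : t ∈ Icc a b) (hst : s ≤ t) :
    g t - g s ≤ h t - h s := by
  have hm : MonotoneOn (fun x => h x - g x) (Icc a b) := by
    refine monotoneOn_of_deriv_nonneg (f := fun x => h x - g x) (convex_Icc a b) (hh.sub hg) ?_ ?_
    · rw [interior_Icc]
      intro x hx
      exact ((dh x hx).sub (dg x hx)).differentiableAt.differentiableWithinAt
    · rw [interior_Icc]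
      intro x hx
      have : HasDerivAt (fun x => h x - g x) (h' x - g' x) x := (dh x hx).sub (dg x hx)
      rw [this.deriv]
      linarith [hle x hx]
  have := hm hs ht hst
  simp only at this
  linarith

theorem cmp_deriv_lt {a b : ℝ} {g h g' h' : ℝ → ℝ} (hg : ContinuousOn g (Icc a b))
    (hh : ContinuousOn h (Icc a b)) (dg : ∀ t ∈ Ioo a b, HasDerivAt g (g' t) t)
    (dh : ∀ t ∈ Ioo a b, HasDerivAt h (h' t) t) (hle : ∀ t ∈ Ioo a b, g' t < h' t)
    {s t : ℝ} (hs : s ∈ Icc a b) (ht : t ∈ Icc a b) (hst : s < t) :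
    g t - g s < h t - h s := by
  have hm : StrictMonoOn (fun x => h x - g x) (Icc a b) := by
    refine strictMonoOn_of_deriv_pos (f := fun x => h x - g x) (convex_Icc a b) (hh.sub hg) ?_
    rw [interior_Icc]
    intro x hx
    have : HasDerivAt (fun x => h x - g x) (h' x - g' x) x := (dh x hx).sub (dg x hx)
    rw [this.deriv]
    linarith [hle x hx]
  have := hm hs ht hst
  simp only at this
  linarith

/-- first time at a level -/
theorem first_le {a b m : ℝ} {g : ℝ → ℝ} (_hab : a ≤ b) (hg : ContinuousOn g (Icc a b))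
    (ha : m < g a) (hb : ∃ t ∈ Icc a b, g t ≤ m) :
    ∃ s ∈ Ioc a b, g s = m ∧ ∀ t ∈ Ico a s, m < g t := by
  set S := {t | t ∈ Icc a b ∧ g t ≤ m} with hS
  have hSc : IsCompact S := by
    have : IsClosed S := by
      have h1 : S = Icc a b ∩ g ⁻¹' (Iic m) := by
        ext x; simp [hS]
      rw [h1]
      exact hg.preimage_isClosed_of_isClosed isClosed_Icc isClosed_Iic
    exact isCompact_Icc.of_isClosed_subset this (fun x hx => hx.1)
  obtain ⟨t0, ht0, ht0'⟩ := hb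
  obtain ⟨s, hs⟩ := hSc.exists_isLeast ⟨t0, ht0, ht0'⟩
  have hsS := hs.1
  have has : a < s := by
    rcases hsS.1.1.eq_or_lt with h | h
    · exfalso; have := hsS.2; rw [← h] at this; linarith
    · exact h
  have hlt : ∀ t ∈ Ico a s, m < g t := by
    intro t ht
    by_contra hn
    push Not at hn
    have : s ≤ t := hs.2 ⟨⟨ht.1, ht.2.le.trans hsS.1.2⟩, hn⟩
    linarith [ht.2]
  refine ⟨s, ⟨has, hsS.1.2⟩, le_antisymm hsS.2 ?_, hlt⟩
  have hc : ContinuousWithinAt g (Icc a s) s :=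
    (hg s hsS.1).mono (Icc_subset_Icc le_rfl hsS.1.2)
  have hc' : Tendsto g (𝓝[Ico a s] s) (𝓝 (g s)) := hc.mono Ico_subset_Icc_self
  have : (𝓝[Ico a s] s).NeBot := by
    rw [← mem_closure_iff_nhdsWithin_neBot, closure_Ico has.ne]
    exact ⟨has.le, le_rfl⟩
  refine ge_of_tendsto hc' ?_
  filter_upwards [self_mem_nhdsWithin] with t ht
  exact (hlt t ht).le

/-- last time at a level -/
theorem last_le {a b m : ℝ} {g : ℝ → ℝ} (hab : a ≤ b) (hg : ContinuousOn g (Icc a b))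
    (hb : m < g b) (ha : ∃ t ∈ Icc a b, g t ≤ m) :
    ∃ s ∈ Ico a b, g s = m ∧ ∀ t ∈ Ioc s b, m < g t := by
  have hg' : ContinuousOn (fun t => g (-t)) (Icc (-b) (-a)) := by
    refine hg.comp continuous_neg.continuousOn (fun t ht => ?_)
    exact ⟨by linarith [ht.2], by linarith [ht.1]⟩
  obtain ⟨t0, ht0, ht0'⟩ := ha
  obtain ⟨s, hs, hs1, hs2⟩ := first_le (g := fun t => g (-t)) (m := m) (by linarith) hg'
    (by simpa using hb) ⟨-t0, ⟨by linarith [ht0.2], by linarith [ht0.1]⟩, by simpa using ht0'⟩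
  refine ⟨-s, ⟨by linarith [hs.2], by linarith [hs.1]⟩, hs1, fun t ht => ?_⟩
  have := hs2 (-t) ⟨by linarith [ht.2], by linarith [ht.1]⟩
  simpa using this

/-- first time where `g` gets above a level -/
theorem first_ge {a b m : ℝ} {g : ℝ → ℝ} (hab : a ≤ b) (hg : ContinuousOn g (Icc a b))
    (ha : g a < m) (hb : ∃ t ∈ Icc a b, m ≤ g t) :
    ∃ s ∈ Ioc a b, g s = m ∧ ∀ t ∈ Ico a s, g t < m := by
  obtain ⟨t0, ht0, ht0'⟩ := hb
  obtain ⟨s, hs, hs1, hs2⟩ := first_le (g := fun t => -g t) (m := -m) hab hg.neg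
    (by simpa using ha) ⟨t0, ht0, by simpa using ht0'⟩
  exact ⟨s, hs, by linarith, fun t ht => by linarith [hs2 t ht]⟩

/-- last time where `g` is above a level -/
theorem last_ge {a b m : ℝ} {g : ℝ → ℝ} (hab : a ≤ b) (hg : ContinuousOn g (Icc a b))
    (hb : g b < m) (ha : ∃ t ∈ Icc a b, m ≤ g t) :
    ∃ s ∈ Ico a b, g s = m ∧ ∀ t ∈ Ioc s b, g t < m := by
  obtain ⟨t0, ht0, ht0'⟩ := ha
  obtain ⟨s, hs, hs1, hs2⟩ := last_le (g := fun t => -g t) (m := -m) hab hg.neg
    (by simpa using hb) ⟨t0, ht0, by simpa using ht0'⟩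
  exact ⟨s, hs, by linarith, fun t ht => by linarith [hs2 t ht]⟩

/-! ### Arcs -/

namespace Arc

variable {D : QD} {a b : ℝ} {p θ v w : ℝ → ℝ}

theorem sub (h : Arc D a b p θ v w) {c d : ℝ} (hac : a ≤ c) (hcd : c < d) (hdb : d ≤ b) :
    Arc D c d p θ v w where
  lt := hcd
  cp := h.cp.mono (Icc_subset_Icc hac hdb)
  cθ := h.cθ.mono (Icc_subset_Icc hac hdb)
  cv := h.cv.mono (Icc_subset_Icc hac hdb)
  cw := h.cw.mono (Icc_subset_Icc hac hdb)
  pos := fun t ht => h.pos t ⟨hac.trans ht.1, ht.2.trans hdb⟩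
  unit := fun t ht => h.unit t ⟨hac.trans ht.1, ht.2.trans hdb⟩
  dp := fun t ht => h.dp t ⟨hac.trans_lt ht.1, ht.2.trans_le hdb⟩
  dθ := fun t ht => h.dθ t ⟨hac.trans_lt ht.1, ht.2.trans_le hdb⟩
  dv := fun t ht => h.dv t ⟨hac.trans_lt ht.1, ht.2.trans_le hdb⟩
  dw := fun t ht => h.dw t ⟨hac.trans_lt ht.1, ht.2.trans_le hdb⟩

/-- reflection `θ ↦ -θ` -/
theorem mirror (h : Arc D a b p θ v w) : Arc D a b p (fun t => -θ t) v (fun t => -w t) where
  lt := h.lt
  cp := h.cp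
  cθ := h.cθ.neg
  cv := h.cv
  cw := h.cw.neg
  pos := h.pos
  unit := fun t ht => by have := h.unit t ht; nlinarith
  dp := h.dp
  dθ := fun t ht => by
    have := (h.dθ t ht).neg
    exact this.congr_deriv (by ring)
  dv := fun t ht => (h.dv t ht).congr_deriv (by ring)
  dw := fun t ht => by
    have := (h.dw t ht).neg
    exact this.congr_deriv (by ring)

theorem posA (h : Arc D a b p θ v w) {t : ℝ} (ht : t ∈ Icc a b) : 0 < D.A (p t) :=
  D.posA _ ⟨(h.pos t ht).1.le, (h.pos t ht).2⟩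

theorem posR (h : Arc D a b p θ v w) {t : ℝ} (ht : t ∈ Icc a b) : 0 < D.R (p t) :=
  D.posR _ ⟨(h.pos t ht).1, (h.pos t ht).2⟩

theorem dR (h : Arc D a b p θ v w) {t : ℝ} (ht : t ∈ Ioo a b) :
    HasDerivAt (fun t => D.R (p t)) (D.f (p t) * v t) t := by
  have h1 : HasDerivAt D.R (deriv D.R (p t)) (p t) :=
    (D.smR.differentiable (by simp) (p t)).hasDerivAt
  have h2 := h1.comp t (h.dp t ht)
  refine h2.congr_deriv ?_
  have := (h.posA (Ioo_subset_Icc_self ht)).ne'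
  unfold QD.f
  field_simp

theorem cR (h : Arc D a b p θ v w) : ContinuousOn (fun t => D.R (p t)) (Icc a b) :=
  D.smR.continuous.comp_continuousOn h.cp

theorem dK (h : Arc D a b p θ v w) {t : ℝ} (ht : t ∈ Ioo a b) :
    HasDerivAt (fun t => D.R (p t) * w t) 0 t := by
  refine ((h.dR ht).mul (h.dw t ht)).congr_deriv ?_
  have := (h.posR (Ioo_subset_Icc_self ht)).ne'
  field_simp
  ring

/-- Clairaut -/
theorem K_eq (h : Arc D a b p θ v w) {s t : ℝ} (hs : s ∈ Icc a b) (ht : t ∈ Icc a b) :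
    D.R (p s) * w s = D.R (p t) * w t := by
  have hc : ContinuousOn (fun t => D.R (p t) * w t) (Icc a b) := h.cR.mul h.cw
  have key : ∀ {s t : ℝ}, s ∈ Icc a b → t ∈ Icc a b → s ≤ t →
      D.R (p s) * w s = D.R (p t) * w t := by
    intro s t hs ht hst
    have e1 := cmp_deriv hc (continuousOn_const (c := (0:ℝ))) (fun t ht => h.dK ht)
      (fun t _ => hasDerivAt_const t (0:ℝ)) (fun _ _ => le_rfl) hs ht hst
    beta_reduce at e1
    have e2 := cmp_deriv (continuousOn_const (c := (0:ℝ))) hc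
      (fun t _ => hasDerivAt_const t (0:ℝ)) (fun t ht => h.dK ht) (fun _ _ => le_rfl) hs ht hst
    linarith
  rcases le_total s t with h1 | h1
  · exact key hs ht h1
  · exact (key ht hs h1).symm

theorem dRv (h : Arc D a b p θ v w) {t : ℝ} (ht : t ∈ Ioo a b) :
    HasDerivAt (fun t => D.R (p t) * v t) (D.f (p t)) t := by
  refine ((h.dR ht).mul (h.dv t ht)).congr_deriv ?_
  have := (h.posR (Ioo_subset_Icc_self ht)).ne'
  have hu := h.unit t (Ioo_subset_Icc_self ht)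
  field_simp
  linear_combination (D.f (p t)) * hu

theorem cRv (h : Arc D a b p θ v w) : ContinuousOn (fun t => D.R (p t) * v t) (Icc a b) :=
  h.cR.mul h.cv

theorem Rv_sq (h : Arc D a b p θ v w) {t : ℝ} (ht : t ∈ Icc a b) :
    (D.R (p t) * v t) ^ 2 = D.R (p t) ^ 2 - (D.R (p t) * w t) ^ 2 := by
  have hu := h.unit t ht
  linear_combination (D.R (p t) ^ 2) * hu

section pos
variable (h : Arc D a b p θ v w) (hw : ∀ t ∈ Icc a b, 0 < w t)
include h

theorem cψ : ContinuousOn (fun t => Real.arcsin (v t)) (Icc a b) :=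
  Real.continuous_arcsin.comp_continuousOn h.cv

include hw

theorem v_mem {t : ℝ} (ht : t ∈ Icc a b) : -1 < v t ∧ v t < 1 := by
  have hu := h.unit t ht
  have h1 := hw t ht
  constructor <;> nlinarith

theorem dψ {t : ℝ} (ht : t ∈ Ioo a b) :
    HasDerivAt (fun t => Real.arcsin (v t)) (D.f (p t) * w t / D.R (p t)) t := by
  have htI := Ioo_subset_Icc_self ht
  have hm := v_mem h hw htI
  have h1 := (Real.hasDerivAt_arcsin hm.1.ne' hm.2.ne).comp t (h.dv t ht)
  refine h1.congr_deriv ?_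
  have hu := h.unit t htI
  have hwp := hw t htI
  have e : √(1 - v t ^ 2) = w t := by
    have : 1 - v t ^ 2 = w t ^ 2 := by linarith
    rw [this, Real.sqrt_sq hwp.le]
  rw [e]
  have := (h.posR htI).ne'
  field_simp

theorem cosψ {t : ℝ} (ht : t ∈ Icc a b) : Real.cos (Real.arcsin (v t)) = w t := by
  rw [Real.cos_arcsin]
  have hu := h.unit t ht
  have : 1 - v t ^ 2 = w t ^ 2 := by linarith
  rw [this, Real.sqrt_sq (hw t ht).le]

theorem sinψ {t : ℝ} (ht : t ∈ Icc a b) : Real.sin (Real.arcsin (v t)) = v t := by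
  have hm := v_mem h hw ht
  exact Real.sin_arcsin hm.1.le hm.2.le

theorem ψ_mem {t : ℝ} (ht : t ∈ Icc a b) :
    -(Real.pi / 2) < Real.arcsin (v t) ∧ Real.arcsin (v t) < Real.pi / 2 := by
  have hm := v_mem h hw ht
  exact ⟨Real.neg_pi_div_two_lt_arcsin.2 hm.1, Real.arcsin_lt_pi_div_two.2 hm.2⟩

theorem θ_mono {s t : ℝ} (hs : s ∈ Icc a b) (ht : t ∈ Icc a b) (hst : s < t) : θ s < θ t := by
  have := cmp_deriv_lt (continuousOn_const (c := (0:ℝ))) h.cθ
    (fun t _ => hasDerivAt_const t (0:ℝ)) (fun t ht => h.dθ t ht)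
    (fun t ht => div_pos (hw t (Ioo_subset_Icc_self ht)) (h.posR (Ioo_subset_Icc_self ht)))
    hs ht hst
  linarith

end pos

end Arc

end Pool.MP8e
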