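import Pool.Agent.Work.MP_8e9dbb.IfaceB

/-!
# Basic facts about the quarter domain data (block BETA, helper30)
-/

open MeasureTheory Filter Topology Metric Set
open scoped ContDiff

namespace Pool.MP8e

/-! ### `fold` -/

theorem fold_negB (θ : ℝ) : fold (-θ) = fold θ := by simp [fold]

theorem fold_add_pi (θ : ℝ) : fold (θ + Real.pi) = fold θ := by simp [fold]

theorem fold_continuous : Continuous fold := by
  unfold fold
  exact Real.continuous_arccos.comp (continuous_abs.comp Real.continuous_cos)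

theorem fold_memB (θ : ℝ) : fold θ ∈ Icc 0 (Real.pi / 2) := by
  refine ⟨Real.arccos_nonneg _, ?_⟩
  unfold fold
  exact Real.arccos_le_pi_div_two.mpr (abs_nonneg _)

theorem fold_of_mem {θ : ℝ} (h0 : 0 ≤ θ) (h1 : θ ≤ Real.pi / 2) : fold θ = θ := by
  unfold fold
  rw [abs_of_nonneg (Real.cos_nonneg_of_mem_Icc ⟨by linarith, h1⟩)]
  exact Real.arccos_cos h0 (by linarith [Real.pi_pos])

theorem fold_add_int (θ : ℝ) (j : ℤ) : fold (θ + j * Real.pi) = fold θ := by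
  have key : |Real.cos (θ + j * Real.pi)| = |Real.cos θ| := by
    rw [Real.cos_add, Real.sin_int_mul_pi, mul_zero, sub_zero, abs_mul, Real.abs_cos_int_mul_pi,
      mul_one]
  unfold fold
  rw [key]

/-- first alternative -/
theorem fold_eq₁ {θ : ℝ} {j : ℤ} (h0 : j * Real.pi ≤ θ) (h1 : θ ≤ j * Real.pi + Real.pi / 2) :
    fold θ = θ - j * Real.pi := by
  have e : θ = (θ - j * Real.pi) + j * Real.pi := by ring
  rw [e, fold_add_int, fold_of_mem (by linarith) (by linarith)]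
  ring

theorem fold_eq₂ {θ : ℝ} {j : ℤ} (h0 : j * Real.pi - Real.pi / 2 ≤ θ) (h1 : θ ≤ j * Real.pi) :
    fold θ = j * Real.pi - θ := by
  have e : θ = -(j * Real.pi - θ) + j * Real.pi := by ring
  rw [e, fold_add_int, fold_negB, fold_of_mem (by linarith) (by linarith)]
  ring

namespace QD

variable (D : QD)

theorem contA : Continuous D.A := D.smA.continuous
theorem contR : Continuous D.R := D.smR.continuous

theorem θf_memB : D.θf ∈ Icc 0 (Real.pi / 2) := by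
  have := Real.pi_pos
  rcases D.cls with ⟨_, _, h, h'⟩ | ⟨_, _, h⟩
  · exact ⟨by linarith, h'.le⟩
  · rw [h]; exact ⟨by linarith, le_refl _⟩

theorem θf_geB : Real.pi / 4 ≤ D.θf := by
  have := Real.pi_pos
  rcases D.cls with ⟨_, _, h, h'⟩ | ⟨_, _, h⟩
  · exact h
  · rw [h]; linarith

theorem pf_posB : 0 < D.pf := D.e₀_pos.trans D.e₀_lt

theorem pf_lt_β {θ : ℝ} (h : θ ∈ Icc 0 (Real.pi / 2)) : D.pf < D.β θ := (D.β_mem θ h).1

theorem β_le_ℓ {θ : ℝ} (h : θ ∈ Icc 0 (Real.pi / 2)) : D.β θ ≤ D.ℓ := (D.β_mem θ h).2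

theorem pf_lt_ℓB : D.pf < D.ℓ := (D.pf_lt_β D.θf_memB).trans_le (D.β_le_ℓ D.θf_memB)

theorem βf_mem : D.β D.θf ∈ Icc D.pf D.ℓ := ⟨(D.pf_lt_β D.θf_memB).le, D.β_le_ℓ D.θf_memB⟩

theorem R_βf : D.R (D.β D.θf) = D.ρf := by
  have h := D.floor D.θf D.θf_memB
  rwa [sub_self, mul_zero, Real.cos_zero, mul_one] at h

theorem hasDerivAt_σB (p : ℝ) : HasDerivAt D.σ (D.A p) p :=
  intervalIntegral.integral_hasDerivAt_right (D.contA.intervalIntegrable _ _)
    D.contA.stronglyMeasurable.stronglyMeasurableAtFilter D.contA.continuousAt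

theorem hasDerivAt_RB (p : ℝ) : HasDerivAt D.R (deriv D.R p) p :=
  (D.smR.differentiable (by simp)).differentiableAt.hasDerivAt

theorem hasDerivAt_A (p : ℝ) : HasDerivAt D.A (deriv D.A p) p :=
  (D.smA.differentiable (by simp)).differentiableAt.hasDerivAt

theorem σ_βf : D.σ (D.β D.θf) = 0 := intervalIntegral.integral_same

/-- `R = ρf + κ σ` on the flat part -/
theorem R_eq {p : ℝ} (hp : p ∈ Icc D.pf D.ℓ) : D.R p = D.ρf + D.κ * D.σ p := by
  have key : ∀ x ∈ Icc D.pf D.ℓ, (fun x => D.R x - D.κ * D.σ x) x =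
      (fun x => D.R x - D.κ * D.σ x) D.pf := by
    refine constant_of_has_deriv_right_zero (f := fun x => D.R x - D.κ * D.σ x) ?_ ?_
    · exact fun x _ => ((D.hasDerivAt_RB x).sub ((D.hasDerivAt_σB x).const_mul D.κ)).continuousAt.continuousWithinAt
    · intro x hx
      have h := (D.hasDerivAt_RB x).sub ((D.hasDerivAt_σB x).const_mul D.κ)
      rw [D.flat x ⟨hx.1, hx.2.le⟩, sub_self] at h
      exact h.hasDerivWithinAt
  have h1 := key p hp
  have h2 := key (D.β D.θf) D.βf_mem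
  simp only at h1 h2
  rw [D.σ_βf, D.R_βf, mul_zero, sub_zero] at h2
  linarith

/-- a positive lower bound of `A` -/
theorem exists_A_lower : ∃ m > 0, ∀ p ∈ Icc 0 D.ℓ, m ≤ D.A p := by
  have hne : (Icc 0 D.ℓ).Nonempty := ⟨0, le_refl _, (D.pf_posB.trans D.pf_lt_ℓB).le⟩
  obtain ⟨x, hx, hm⟩ := isCompact_Icc.exists_isMinOn hne D.contA.continuousOn
  exact ⟨D.A x, D.posA x hx, fun p hp => hm hp⟩

theorem σ_sub (p q : ℝ) : D.σ q - D.σ p = ∫ u in p..q, D.A u := by
  unfold σ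
  rw [intervalIntegral.integral_interval_sub_left] <;> exact D.contA.intervalIntegrable _ _

theorem σ_lower {m : ℝ} (hm : ∀ p ∈ Icc 0 D.ℓ, m ≤ D.A p) {p q : ℝ} (hp : 0 ≤ p) (hpq : p ≤ q)
    (hq : q ≤ D.ℓ) : m * (q - p) ≤ D.σ q - D.σ p := by
  rw [D.σ_sub]
  have h := intervalIntegral.integral_mono_on hpq
    (f := fun _ => m) (g := D.A) (μ := volume) intervalIntegrable_const
    (D.contA.intervalIntegrable _ _)
    (fun u hu => hm u ⟨hp.trans hu.1, hu.2.trans hq⟩)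
  rw [intervalIntegral.integral_const, smul_eq_mul] at h
  linarith

theorem σ_strictMonoOnB : StrictMonoOn D.σ (Icc 0 D.ℓ) := by
  obtain ⟨m, hm, hA⟩ := D.exists_A_lower
  intro p hp q hq hpq
  have := D.σ_lower hA hp.1 hpq.le hq.2
  nlinarith [mul_pos hm (sub_pos.mpr hpq)]

theorem R_β_pos {θ : ℝ} (h : θ ∈ Icc 0 (Real.pi / 2)) : 0 < D.R (D.β θ) :=
  D.posR _ ⟨D.pf_posB.trans (D.pf_lt_β h), D.β_le_ℓ h⟩

theorem cos_pos' {θ : ℝ} (h : θ ∈ Icc 0 (Real.pi / 2)) : 0 < Real.cos (D.κ * (θ - D.θf)) := by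
  have h1 := D.floor θ h
  have h2 := D.R_β_pos h
  have h3 := D.ρf_pos
  by_contra h4
  rw [not_lt] at h4
  nlinarith [mul_nonneg h2.le (neg_nonneg.mpr h4)]

theorem β_memB' {θ : ℝ} (h : θ ∈ Icc 0 (Real.pi / 2)) : D.β θ ∈ Icc D.pf D.ℓ :=
  ⟨(D.pf_lt_β h).le, D.β_le_ℓ h⟩

theorem β_continuousOn : ContinuousOn D.β (Icc 0 (Real.pi / 2)) := by
  by_cases hκ : D.κ = 0
  · exact (continuousOn_const (c := D.β D.θf)).congr fun θ hθ => D.β_const hκ θ hθ
  obtain ⟨m, hm, hA⟩ := D.exists_A_lower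
  have hs : ∀ θ ∈ Icc 0 (Real.pi / 2), D.σ (D.β θ) =
      (D.ρf / Real.cos (D.κ * (θ - D.θf)) - D.ρf) / D.κ := by
    intro θ hθ
    have h1 := D.floor θ hθ
    have h2 := D.R_eq (D.β_memB' hθ)
    have h3 := D.cos_pos' hθ
    have h4 : D.R (D.β θ) = D.ρf / Real.cos (D.κ * (θ - D.θf)) := by
      rw [eq_div_iff h3.ne', h1]
    rw [← h4, h2]
    field_simp
    ring
  have hc : ContinuousOn (fun θ => D.σ (D.β θ)) (Icc 0 (Real.pi / 2)) := by
    refine ContinuousOn.congr (f := fun θ => (D.ρf / Real.cos (D.κ * (θ - D.θf)) - D.ρf) / D.κ)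
      ?_ hs
    refine ContinuousOn.div_const (ContinuousOn.sub (ContinuousOn.div continuousOn_const ?_ ?_)
      continuousOn_const) _
    · exact (Real.continuous_cos.comp (by fun_prop)).continuousOn
    · exact fun θ hθ => (D.cos_pos' hθ).ne'
  have hb : ∀ p ∈ Icc D.pf D.ℓ, ∀ q ∈ Icc D.pf D.ℓ, m * |p - q| ≤ |D.σ p - D.σ q| := by
    intro p hp q hq
    rcases le_total p q with h | h
    · have := D.σ_lower hA (D.pf_posB.le.trans hp.1) h hq.2
      rw [abs_of_nonpos (by linarith : p - q ≤ 0), abs_of_nonpos]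
      · linarith
      · nlinarith [mul_nonneg hm.le (sub_nonneg.mpr h)]
    · have := D.σ_lower hA (D.pf_posB.le.trans hq.1) h hp.2
      rw [abs_of_nonneg (by linarith : 0 ≤ p - q), abs_of_nonneg]
      · linarith
      · nlinarith [mul_nonneg hm.le (sub_nonneg.mpr h)]
  rw [Metric.continuousOn_iff] at hc ⊢
  intro θ hθ ε hε
  obtain ⟨δ, hδ, h⟩ := hc θ hθ (m * ε) (by positivity)
  refine ⟨δ, hδ, fun θ' hθ' hd => ?_⟩
  have h1 := h θ' hθ' hd
  have h2 := hb _ (D.β_memB' hθ') _ (D.β_memB' hθ)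
  rw [Real.dist_eq] at h1 ⊢
  by_contra h3
  rw [not_lt] at h3
  nlinarith [mul_le_mul_of_nonneg_left h3 hm.le]

theorem βh_continuous : Continuous D.βh := by
  have h : ContinuousOn (fun θ => D.β (fold θ)) univ :=
    D.β_continuousOn.comp fold_continuous.continuousOn (fun θ _ => fold_memB θ)
  exact continuousOn_univ.mp h

theorem βh_negB (θ : ℝ) : D.βh (-θ) = D.βh θ := by unfold βh; rw [fold_negB]

theorem βh_add_pi (θ : ℝ) : D.βh (θ + Real.pi) = D.βh θ := by unfold βh; rw [fold_add_pi]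

theorem βh_add_int (θ : ℝ) (j : ℤ) : D.βh (θ + j * Real.pi) = D.βh θ := by
  unfold βh; rw [fold_add_int]

theorem βh_add_two_pi (θ : ℝ) (m : ℤ) : D.βh (θ + m * (2 * Real.pi)) = D.βh θ := by
  have h := D.βh_add_int θ (2 * m)
  push_cast at h
  rw [show θ + m * (2 * Real.pi) = θ + 2 * m * Real.pi by ring]
  exact h

theorem βh_memB (θ : ℝ) : D.pf < D.βh θ ∧ D.βh θ ≤ D.ℓ := D.β_mem _ (fold_memB θ)

theorem βh_posB (θ : ℝ) : 0 < D.βh θ := D.pf_posB.trans (D.βh_memB θ).1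

theorem isOpen_InS : IsOpen {q : ℝ × ℝ | D.InS q} := by
  have h : {q : ℝ × ℝ | D.InS q} = {q : ℝ × ℝ | 0 < q.1} ∩ {q | q.1 < D.βh q.2} := rfl
  rw [h]
  exact (isOpen_lt continuous_const continuous_fst).inter
    (isOpen_lt continuous_fst (D.βh_continuous.comp continuous_snd))

/-- the floor equation in terms of the foot -/
theorem floor_foot {θ c : ℝ} (h : D.IsFoot θ c) :
    D.R (D.βh θ) * Real.cos (D.κ * (θ - c)) = D.ρf := by
  have hf := D.floor (fold θ) (fold_memB θ)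
  rcases h with ⟨j, ⟨rfl, h1, h2⟩ | ⟨rfl, h1, h2⟩ | ⟨h0, h1, rfl⟩⟩
  · rw [βh, show θ - (D.θf + j * Real.pi) = fold θ - D.θf by
      rw [fold_eq₁ h1.le h2.le]; ring]
    exact hf
  · rw [βh, show D.κ * (θ - (-D.θf + j * Real.pi)) = -(D.κ * (fold θ - D.θf)) by
      rw [fold_eq₂ h1.le h2.le]; ring, Real.cos_neg]
    exact hf
  · rw [sub_self, mul_zero]
    have e : fold θ = D.θf := by
      rw [h1, fold_eq₁ (j := j) (by have := Real.pi_pos; linarith) (by linarith), h0]; ring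
    rw [e, sub_self, mul_zero] at hf
    rw [βh, e]
    exact hf

end QD

theorem beta_proof : Stmt_BETA := fun D => ⟨D.βh_negB, D.βh_add_pi, D.βh_continuous, D.βh_memB,
  D.isOpen_InS, fun _ hp => D.R_eq hp⟩

end Pool.MP8e
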