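import Pool.Agent.Work.MP_8e9dbb.IfaceB

/-! Block CAL of MP_8e9dbb: a calibration is `1`-Lipschitz for the distance of `X`. -/

open MeasureTheory Filter Topology Metric Set
open scoped ContDiff

namespace Pool.MP8e

namespace Cal

theorem nm_nonneg (D : QD) (p : ℝ) (u : ℝ × ℝ) : 0 ≤ D.nm p u := Real.sqrt_nonneg _

theorem nm_lower (D : QD) {p : ℝ} (hp : 0 < p) (hp' : p ≤ D.ℓ) :
    ∃ m > 0, ∀ u, m * ‖u‖ ≤ D.nm p u := by
  have hA := D.posA p ⟨hp.le, hp'⟩
  have hR := D.posR p ⟨hp, hp'⟩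
  refine ⟨min (D.A p) (D.R p), lt_min hA hR, fun u => ?_⟩
  have h1 : |D.A p * u.1| ≤ D.nm p u := by
    apply Real.abs_le_sqrt
    nlinarith [sq_nonneg (D.R p * u.2)]
  have h2 : |D.R p * u.2| ≤ D.nm p u := by
    apply Real.abs_le_sqrt
    nlinarith [sq_nonneg (D.A p * u.1)]
  rw [abs_mul, abs_of_pos hA] at h1
  rw [abs_mul, abs_of_pos hR] at h2
  rw [Prod.norm_def, Real.norm_eq_abs, Real.norm_eq_abs]
  rcases le_total |u.1| |u.2| with h | h
  · rw [max_eq_right h]
    refine le_trans ?_ h2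
    exact mul_le_mul_of_nonneg_right (min_le_right _ _) (abs_nonneg _)
  · rw [max_eq_left h]
    refine le_trans ?_ h1
    exact mul_le_mul_of_nonneg_right (min_le_left _ _) (abs_nonneg _)

/-- near a point of the strip the differential bound becomes a Lipschitz bound with a constant
close to one -/
theorem local_bound {D : QD} {X : Type} [MetricSpace X] {Pr : ℝ × ℝ → X} (hF : Facts D X Pr)
    (hβ : ∀ θ, D.βh θ ≤ D.ℓ) {z : ℝ × ℝ} (hz : D.InS z) {F : ℝ × ℝ → ℝ}
    (hFc : ContDiffAt ℝ 1 F z) (hb : ∀ u, |fderiv ℝ F z u| ≤ D.nm z.1 u) {ε : ℝ} (hε : 0 < ε) :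
    ∃ δ > 0, ∀ x ∈ ball z δ, ∀ y ∈ ball z δ, |F x - F y| ≤ (1 + ε) * dist (Pr x) (Pr y) := by
  obtain ⟨m, hm, hmu⟩ := nm_lower D hz.1 (hz.2.le.trans (hβ z.2))
  -- choose the error
  obtain ⟨e, he, he2⟩ : ∃ e > 0, 2 * e ≤ ε * (m - e) := by
    refine ⟨ε * m / (2 + ε), by positivity, ?_⟩
    have : ε * (m - ε * m / (2 + ε)) = 2 * (ε * m / (2 + ε)) := by
      field_simp
      ring
    rw [this]
  have hem : 0 < m - e := by
    by_contra h
    push Not at h
    nlinarith
  obtain ⟨δ1, hδ1, h1⟩ := hF.strip z hz.1 hz.2 e he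
  have hst : HasStrictFDerivAt F (fderiv ℝ F z) z := hFc.hasStrictFDerivAt (by simp)
  have h2 := hst.isLittleO.def he
  rw [Metric.eventually_nhds_iff_ball] at h2
  obtain ⟨δ2, hδ2, h2⟩ := h2
  refine ⟨min δ1 δ2, lt_min hδ1 hδ2, fun x hx y hy => ?_⟩
  have hs := h1 x y (lt_of_lt_of_le hx (min_le_left _ _)) (lt_of_lt_of_le hy (min_le_left _ _))
  have hf := h2 (x, y) (by
    rw [← ball_prod_same]
    exact ⟨ball_subset_ball (min_le_right _ _) hx, ball_subset_ball (min_le_right _ _) hy⟩)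
  simp only at hf
  rw [Real.norm_eq_abs] at hf
  have hb' := hb (x - y)
  have hl := hmu (x - y)
  have hs1 := (abs_le.1 hs).1
  have hs2 := (abs_le.1 hs).2
  have hn := norm_nonneg (x - y)
  have hFxy : |F x - F y| ≤ D.nm z.1 (x - y) + e * ‖x - y‖ := by
    have : F x - F y = (F x - F y - (fderiv ℝ F z) (x - y)) + (fderiv ℝ F z) (x - y) := by ring
    rw [this]
    exact (abs_add_le _ _).trans (by linarith)
  -- `(m - e) * ‖x - y‖ ≤ dist`
  have h5 : (m - e) * ‖x - y‖ ≤ dist (Pr x) (Pr y) := by nlinarith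
  have h6 : 2 * e * ‖x - y‖ ≤ ε * dist (Pr x) (Pr y) := by
    calc 2 * e * ‖x - y‖ ≤ ε * (m - e) * ‖x - y‖ := mul_le_mul_of_nonneg_right he2 hn
      _ = ε * ((m - e) * ‖x - y‖) := by ring
      _ ≤ ε * dist (Pr x) (Pr y) := mul_le_mul_of_nonneg_left h5 hε.le
  linarith

/-- a small closed ball in the strip on which `Pr` is a homeomorphism onto the image -/
theorem good_ball (hBETA : Stmt_BETA) {D : QD} {X : Type} [MetricSpace X] {Pr : ℝ × ℝ → X}
    (hF : Facts D X Pr) {q : ℝ × ℝ} (hq : D.InS q) {r : ℝ} (hr : 0 < r) :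
    ∃ r1 > 0, r1 ≤ 1 ∧ closedBall q r1 ⊆ ball q r ∧ (∀ x ∈ closedBall q r1, D.InS x) ∧
      ContinuousOn Pr (closedBall q r1) ∧ InjOn Pr (closedBall q r1) := by
  obtain ⟨-, -, -, hβ, hopen, -⟩ := hBETA D
  obtain ⟨r0, hr0, hr0s⟩ := Metric.mem_nhds_iff.1 (hopen.mem_nhds hq)
  refine ⟨min (r / 2) (min (r0 / 2) 1), by positivity, ?_, ?_, ?_, ?_, ?_⟩
  · exact (min_le_right _ _).trans (min_le_right _ _)
  · apply closedBall_subset_ball
    have := min_le_left (r / 2) (min (r0 / 2) 1)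
    linarith
  · intro x hx
    apply hr0s
    have h1 := (min_le_right (r / 2) (min (r0 / 2) 1)).trans (min_le_left _ _)
    have h2 := mem_closedBall.1 hx
    exact mem_ball.2 (by linarith)
  · apply hF.cont.mono
    intro x hx
    have hin : D.InS x := by
      apply hr0s
      have h1 := (min_le_right (r / 2) (min (r0 / 2) 1)).trans (min_le_left _ _)
      have h2 := mem_closedBall.1 hx
      exact mem_ball.2 (by linarith)
    exact ⟨hin.1.le, hin.2.le⟩
  · intro x hx y hy hxy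
    have hin : ∀ z ∈ closedBall q (min (r / 2) (min (r0 / 2) 1)), D.InS z := by
      intro z hz
      apply hr0s
      have h1 := (min_le_right (r / 2) (min (r0 / 2) 1)).trans (min_le_left _ _)
      have h2 := mem_closedBall.1 hz
      exact mem_ball.2 (by linarith)
    have hle1 : min (r / 2) (min (r0 / 2) 1) ≤ 1 := (min_le_right _ _).trans (min_le_right _ _)
    have hix := hin x hx
    have hiy := hin y hy
    obtain ⟨h1, n, h2⟩ := hF.inj x.1 x.2 y.1 y.2 hix.1 hix.2 hiy.1.le hiy.2.le hxy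
    have hd : dist y x ≤ 2 := by
      have := dist_triangle_right y x q
      have h3 := mem_closedBall.1 hx
      have h4 := mem_closedBall.1 hy
      linarith
    have hd2 : |y.2 - x.2| ≤ 2 := by
      rw [Prod.dist_eq] at hd
      have := (le_max_right (dist y.1 x.1) (dist y.2 x.2)).trans hd
      rwa [Real.dist_eq] at this
    have hpi := Real.pi_gt_three
    have hn : n = 0 := by
      by_contra hne
      have h5 : (1 : ℝ) ≤ |(n : ℝ)| := by
        rw [← Int.cast_abs]
        exact_mod_cast Int.one_le_abs hne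
      rw [h2, show x.2 + n * (2 * Real.pi) - x.2 = n * (2 * Real.pi) by ring, abs_mul,
        abs_of_pos (by positivity : (0 : ℝ) < 2 * Real.pi)] at hd2
      nlinarith
    rw [hn] at h2
    refine Prod.ext h1.symm ?_
    rw [h2]
    simp

/-- the inverse of `Pr` is uniformly continuous on a small closed ball -/
theorem unif_inv {X : Type} [MetricSpace X] {Pr : ℝ × ℝ → X} {K : Set (ℝ × ℝ)}
    (hK : IsCompact K) (hc : ContinuousOn Pr K) (hi : InjOn Pr K) {η : ℝ} (hη : 0 < η) :
    ∃ om > 0, ∀ x ∈ K, ∀ y ∈ K, dist (Pr x) (Pr y) < om → dist x y < η := by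
  let S : Set ((ℝ × ℝ) × (ℝ × ℝ)) := (K ×ˢ K) ∩ {p | η ≤ dist p.1 p.2}
  have hS : IsCompact S := by
    apply (hK.prod hK).inter_right
    exact isClosed_le continuous_const (continuous_dist)
  have hcS : ContinuousOn (fun p : (ℝ × ℝ) × (ℝ × ℝ) => dist (Pr p.1) (Pr p.2)) S := by
    exact continuous_dist.comp_continuousOn
      ((hc.comp continuous_fst.continuousOn (fun p hp => hp.1.1)).prodMk
        (hc.comp continuous_snd.continuousOn (fun p hp => hp.1.2)))
  rcases S.eq_empty_or_nonempty with hemp | hne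
  · refine ⟨1, one_pos, fun x hx y hy _ => ?_⟩
    by_contra h
    push Not at h
    have : (x, y) ∈ S := ⟨⟨hx, hy⟩, h⟩
    rw [hemp] at this
    exact this
  · obtain ⟨p0, hp0, hmin⟩ := hS.exists_isMinOn hne hcS
    refine ⟨dist (Pr p0.1) (Pr p0.2), ?_, fun x hx y hy hd => ?_⟩
    · apply dist_pos.2
      intro h
      have h1 := hi hp0.1.1 hp0.1.2 h
      have h2 : η ≤ dist p0.1 p0.2 := hp0.2
      rw [h1, dist_self] at h2
      linarith
    · by_contra h
      push Not at h
      have h1 := hmin (show (x, y) ∈ S from ⟨⟨hx, hy⟩, h⟩)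
      simp only [Set.mem_ofPred_eq] at h1
      linarith

end Cal

open Cal in
theorem cal_proof (hBETA : Stmt_BETA) : Stmt_CAL := by
  intro D X _ _ Pr hF hmid q hq F r hr hFc hb
  obtain ⟨-, -, -, hβ, hopen, -⟩ := hBETA D
  obtain ⟨r1, hr1, hr1', hsub, hin, hcont, hinj⟩ := good_ball hBETA hF hq hr
  obtain ⟨ρ, hρ, hopn⟩ := hF.opn q hq.1 hq.2 r1 hr1
  -- small balls about `q` are mapped near `Pr q`
  have hcq : ContinuousAt Pr q := hcont.continuousAt (closedBall_mem_nhds q hr1)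
  obtain ⟨δ, hδ, hδc⟩ := Metric.continuousAt_iff.1 hcq (ρ / 4) (by positivity)
  refine ⟨min δ r1, lt_min hδ hr1, fun x hx y hy => ?_⟩
  have hxK : x ∈ ball q r1 := ball_subset_ball (min_le_right _ _) hx
  have hyK : y ∈ ball q r1 := ball_subset_ball (min_le_right _ _) hy
  have hxq := hδc (ball_subset_ball (min_le_left _ _) hx : x ∈ ball q δ)
  have hyq := hδc (ball_subset_ball (min_le_left _ _) hy : y ∈ ball q δ)
  have hdxy : dist (Pr x) (Pr q) + dist (Pr x) (Pr y) < ρ := by
    have := dist_triangle_right (Pr x) (Pr y) (Pr q)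
    linarith
  apply le_of_forall_pos_le_add
  intro e he
  -- work with `ε` such that `ε * dist ≤ e`
  obtain ⟨ε, hε, hεe⟩ : ∃ ε > 0, ε * dist (Pr x) (Pr y) ≤ e := by
    refine ⟨e / (1 + dist (Pr x) (Pr y)), by positivity, ?_⟩
    rw [div_mul_eq_mul_div, div_le_iff₀ (by positivity)]
    nlinarith [dist_nonneg (x := Pr x) (y := Pr y)]
  -- uniform local bound
  have hloc : ∀ z ∈ closedBall q r1, ∃ δ > 0, ∀ x ∈ ball z δ, ∀ y ∈ ball z δ,
      |F x - F y| ≤ (1 + ε) * dist (Pr x) (Pr y) := by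
    intro z hz
    refine local_bound hF (fun θ => (hβ θ).2) (hin z hz) ?_ (hb z (hsub hz)) hε
    exact hFc.contDiffAt (isOpen_ball.mem_nhds (hsub hz))
  choose! dl hdl hdl2 using hloc
  obtain ⟨η, hη, hη2⟩ := lebesgue_number_lemma_of_metric (isCompact_closedBall q r1)
    (c := fun z : closedBall q r1 => ball (z : ℝ × ℝ) (dl z)) (fun z => isOpen_ball)
    (fun z hz => mem_iUnion.2 ⟨⟨z, hz⟩, mem_ball_self (hdl z hz)⟩)
  obtain ⟨om, hom, hom2⟩ := unif_inv (isCompact_closedBall q r1) hcont hinj hη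
  have hstep : ∀ a ∈ ball q r1, ∀ b ∈ ball q r1, dist (Pr a) (Pr b) < om →
      |F a - F b| ≤ (1 + ε) * dist (Pr a) (Pr b) := by
    intro a ha b hb' hab
    have ha' := ball_subset_closedBall ha
    have hb'' := ball_subset_closedBall hb'
    have h1 := hom2 a ha' b hb'' hab
    obtain ⟨z, hz⟩ := hη2 a ha'
    exact hdl2 z z.2 a (hz (mem_ball_self hη)) b (hz (mem_ball'.2 h1))
  have key : ∀ n : ℕ, ∀ a ∈ ball q r1, ∀ b ∈ ball q r1, dist (Pr a) (Pr b) < 2 ^ n * om →
      dist (Pr a) (Pr q) + dist (Pr a) (Pr b) < ρ →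
      |F a - F b| ≤ (1 + ε) * dist (Pr a) (Pr b) := by
    intro n
    induction n with
    | zero =>
      intro a ha b hb' hab _
      exact hstep a ha b hb' (by simpa using hab)
    | succ n ih =>
      intro a ha b hb' hab hρ'
      obtain ⟨w, hw1, hw2⟩ := hmid (Pr a) (Pr b)
      have hn0 := dist_nonneg (x := Pr a) (y := Pr b)
      have hwb : w ∈ ball (Pr q) ρ := by
        rw [mem_ball]
        have := dist_triangle_left w (Pr q) (Pr a)
        linarith
      obtain ⟨c, hc, rfl⟩ := hopn hwb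
      have hpow : (2 : ℝ) ^ (n + 1) * om = 2 * (2 ^ n * om) := by ring
      have h1 := ih a ha c hc (by rw [hw1]; linarith) (by rw [hw1]; linarith)
      have h2 := ih c hc b hb' (by rw [hw2]; linarith) (by
        rw [hw2]
        have := dist_triangle_left (Pr c) (Pr q) (Pr a)
        linarith)
      have h3 : |F a - F b| ≤ |F a - F c| + |F c - F b| := by
        have : F a - F b = (F a - F c) + (F c - F b) := by ring
        rw [this]
        exact abs_add_le _ _
      rw [hw1] at h1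
      rw [hw2] at h2
      linarith
  obtain ⟨n, hn⟩ := pow_unbounded_of_one_lt (dist (Pr x) (Pr y) / om) (one_lt_two (α := ℝ))
  rw [div_lt_iff₀ hom] at hn
  have := key n x hxK y hyK hn hdxy
  linarith

end Pool.MP8e
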