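import Pool.Agent.Work.MP_8e9dbb.B.FlatArc

/-!
# MP_8e9dbb_gt, part B, class I (phases R', S')

`CapsI` : the analytic input (part C). Arcs between two contacts; closing analysis.
-/

open MeasureTheory Filter Topology Metric Set
open scoped ContDiff

namespace Pool.MP8e

/-- Analytic input of class I. A cap visit is an arc with `p = pf` at both ends and `p < pf`
inside; `K = R(pf) w`. -/
structure CapsI (D : QD) : Prop where
  hκ : D.κ < 0
  R_le : ∀ p ∈ Icc 0 D.pf, D.R p ≤ 1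
  R_crit : ∀ p ∈ Ioc 0 D.pf, deriv D.R p = 0 → D.R p = 1
  visit : ∀ (a b : ℝ) (p θ v w : ℝ → ℝ), Arc D a b p θ v w → p a = D.pf → p b = D.pf →
    (∀ t ∈ Ioo a b, p t < D.pf) → 0 < w a → Real.pi ≤ b - a
  full : ∀ (a b : ℝ) (p θ v w : ℝ → ℝ), Arc D a b p θ v w → p a = D.pf → p b = D.pf →
    (∀ t ∈ Ioo a b, p t < D.pf) → 0 < w a →
    2 * Real.pi ≤ b - a + 2 * (√(D.R D.pf ^ 2 - (D.R D.pf * w a) ^ 2) / -D.κ)
  osc : ∀ (a b : ℝ) (p θ v w : ℝ → ℝ), Arc D a b p θ v w → p a = p b → p a ≤ D.pf → v a = 0 →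
    (∀ t ∈ Ioo a b, p t < p a) → 0 < w a → 2 * Real.pi ≤ b - a
  close1 : ∀ (a b : ℝ) (p θ v w : ℝ → ℝ), Arc D a b p θ v w → p a = D.pf → p b = D.pf →
    (∀ t ∈ Ioo a b, p t < D.pf) → 0 < w a →
    D.R D.pf * w a ≤ D.ρf * Real.tan (-D.κ * (Real.pi / 2 - D.θf)) →
    2 * D.θf < θ b - θ a - 2 * (Real.arcsin (w a) / -D.κ) ∧
      θ b - θ a - 2 * (Real.arcsin (w a) / -D.κ) < 2 * D.θf + 2 * Real.pi
  close2 : ∀ (a b : ℝ) (p θ v w : ℝ → ℝ), Arc D a b p θ v w → p a = D.pf → p b = D.pf →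
    (∀ t ∈ Ioo a b, p t < D.pf) → 0 < w a →
    D.R D.pf * w a ≤ D.ρf * Real.tan (-D.κ * D.θf) →
    -(2 * D.θf) < θ b - θ a - 2 * (Real.arcsin (w a) / -D.κ) ∧
      θ b - θ a - 2 * (Real.arcsin (w a) / -D.κ) < 2 * Real.pi - 2 * D.θf
  close3 : ∀ (a b : ℝ) (p θ v w : ℝ → ℝ), Arc D a b p θ v w → p a = D.pf → p b = D.pf →
    (∀ t ∈ Ioo a b, p t < D.pf) → ∀ om : ℝ, 0 < om → om ≤ -D.κ * (Real.pi / 2 - D.θf) →
    D.R D.pf * w a = D.R (D.β (Real.pi / 2)) * Real.sin om →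
    0 < θ b - θ a - 2 * (Real.arcsin (w a) / -D.κ) + 2 * (om / -D.κ) - Real.pi ∧
      θ b - θ a - 2 * (Real.arcsin (w a) / -D.κ) + 2 * (om / -D.κ) - Real.pi < 2 * Real.pi

/-- The reduced rotation of a cap visit. -/
noncomputable def QD.Φ (D : QD) (a b : ℝ) (θ w : ℝ → ℝ) : ℝ :=
  θ b - θ a - 2 / (-D.κ) * Real.arcsin (w a)

/-- The form of `CapsI` used below. -/
structure CapsJ (D : QD) : Prop where
  κ_neg : D.κ < 0
  visN : ∀ a b p θ v w, Cap D a b p θ v w → Real.pi ≤ b - a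
  visL : ∀ a b p θ v w, Cap D a b p θ v w →
    2 * Real.pi ≤ b - a + 2 / (-D.κ) * √(D.R D.pf ^ 2 - (D.R D.pf * w a) ^ 2)
  osc : ∀ a b p θ v w, Arc D a b p θ v w → p a = p b → p a ≤ D.pf → v a = 0 →
    (∀ t ∈ Ioo a b, p t < p a) → 2 * Real.pi ≤ b - a
  R_le : ∀ p ∈ Ioc 0 D.pf, D.R p ≤ 1
  R_one : ∀ p ∈ Ioc 0 D.pf, deriv D.R p = 0 → D.R p = 1
  D1 : ∀ a b p θ v w, Cap D a b p θ v w →
    D.R D.pf * w a ≤ D.ρf * Real.tan (-D.κ * (Real.pi / 2 - D.θf)) →
    2 * D.θf < D.Φ a b θ w ∧ D.Φ a b θ w < 2 * D.θf + 2 * Real.pi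
  D2 : ∀ a b p θ v w, Cap D a b p θ v w →
    D.R D.pf * w a ≤ D.ρf * Real.tan (-D.κ * D.θf) →
    -(2 * D.θf) < D.Φ a b θ w ∧ D.Φ a b θ w < 2 * Real.pi - 2 * D.θf
  D3 : ∀ a b p θ v w, Cap D a b p θ v w → ∀ x, 0 < x → x ≤ -D.κ * (Real.pi / 2 - D.θf) →
    D.R D.pf * w a = D.R (D.β (Real.pi / 2)) * Real.sin x →
    0 < D.Φ a b θ w + 2 / (-D.κ) * x - Real.pi ∧
    D.Φ a b θ w + 2 / (-D.κ) * x - Real.pi < 2 * Real.pi

theorem CapsI.toJ {D : QD} (C : CapsI D) : CapsJ D where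
  κ_neg := C.hκ
  visN := fun a b p θ v w h =>
    C.visit a b p θ v w h.arc h.pa h.pb h.ins (h.wpos a ⟨le_rfl, h.arc.lt.le⟩)
  visL := fun a b p θ v w h => by
    have h1 := C.full a b p θ v w h.arc h.pa h.pb h.ins (h.wpos a ⟨le_rfl, h.arc.lt.le⟩)
    rwa [show 2 / (-D.κ) * √(D.R D.pf ^ 2 - (D.R D.pf * w a) ^ 2) =
      2 * (√(D.R D.pf ^ 2 - (D.R D.pf * w a) ^ 2) / -D.κ) by ring]
  osc := fun a b p θ v w h hpb hle hva hin => by
    have hu := h.unit a ⟨le_rfl, h.lt.le⟩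
    rw [hva] at hu
    rcases lt_trichotomy (w a) 0 with hw | hw | hw
    · exact C.osc a b p _ v _ h.reflI hpb hle hva hin (by simpa using hw)
    · rw [hw] at hu; norm_num at hu
    · exact C.osc a b p θ v w h hpb hle hva hin hw
  R_le := fun p hp => C.R_le p ⟨hp.1.le, hp.2⟩
  R_one := C.R_crit
  D1 := fun a b p θ v w h hK => by
    have h1 := C.close1 a b p θ v w h.arc h.pa h.pb h.ins (h.wpos a ⟨le_rfl, h.arc.lt.le⟩) hK
    have h2 : D.Φ a b θ w = θ b - θ a - 2 * (Real.arcsin (w a) / -D.κ) := by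
      unfold QD.Φ; ring
    rwa [h2]
  D2 := fun a b p θ v w h hK => by
    have h1 := C.close2 a b p θ v w h.arc h.pa h.pb h.ins (h.wpos a ⟨le_rfl, h.arc.lt.le⟩) hK
    have h2 : D.Φ a b θ w = θ b - θ a - 2 * (Real.arcsin (w a) / -D.κ) := by
      unfold QD.Φ; ring
    rwa [h2]
  D3 := fun a b p θ v w h x hx hx2 hK => by
    have h1 := C.close3 a b p θ v w h.arc h.pa h.pb h.ins x hx hx2 hK
    have h2 : D.Φ a b θ w + 2 / (-D.κ) * x - Real.pi =
        θ b - θ a - 2 * (Real.arcsin (w a) / -D.κ) + 2 * (x / -D.κ) - Real.pi := by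
      unfold QD.Φ; ring
    rwa [h2]

/-! ## continuity helpers -/

/-- a continuous function with `cos > 0` which is somewhere in `(-π/2, π/2)` stays there -/
theorem abs_lt_of_cos_posI {g : ℝ → ℝ} {S : Set ℝ} (hS : IsPreconnected S)
    (hg : ContinuousOn g S) (hc : ∀ t ∈ S, 0 < Real.cos (g t)) {m e : ℝ} (hm : m ∈ S)
    (he : e ∈ S) (h : |g m| < Real.pi / 2) : |g e| < Real.pi / 2 := by
  by_contra hcon
  push Not at hcon
  have h1 : ContinuousOn (fun t => |g t|) S := hg.abs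
  obtain ⟨t, ht, h2⟩ := hS.intermediate_value hm he h1 ⟨h.le, hcon⟩
  have h3 := hc t ht
  rw [← Real.cos_abs] at h3
  simp only at h2
  rw [h2, Real.cos_pi_div_two] at h3
  exact lt_irrefl _ h3

namespace Arc

variable {D : QD} {a b : ℝ} {p θ v w : ℝ → ℝ}

/-- time reversal -/
theorem revI (h : Arc D a b p θ v w) :
    Arc D (-b) (-a) (fun t => p (-t)) (fun t => θ (-t)) (fun t => -v (-t)) (fun t => -w (-t)) where
  lt := neg_lt_neg h.lt
  cp := h.cp.comp continuous_neg.continuousOn (fun t ht => ⟨by linarith [ht.2], by linarith [ht.1]⟩)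
  cθ := h.cθ.comp continuous_neg.continuousOn (fun t ht => ⟨by linarith [ht.2], by linarith [ht.1]⟩)
  cv := (h.cv.comp continuous_neg.continuousOn
    (fun t ht => ⟨by linarith [ht.2], by linarith [ht.1]⟩)).neg
  cw := (h.cw.comp continuous_neg.continuousOn
    (fun t ht => ⟨by linarith [ht.2], by linarith [ht.1]⟩)).neg
  pos := fun t ht => h.pos (-t) ⟨by linarith [ht.2], by linarith [ht.1]⟩
  unit := fun t ht => by
    rw [neg_sq, neg_sq]
    exact h.unit (-t) ⟨by linarith [ht.2], by linarith [ht.1]⟩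
  dp := fun t ht => by
    have := (h.dp (-t) ⟨by linarith [ht.2], by linarith [ht.1]⟩).scomp t (hasDerivAt_neg t)
    exact this.congr_deriv (by simp [neg_div])
  dθ := fun t ht => by
    have := (h.dθ (-t) ⟨by linarith [ht.2], by linarith [ht.1]⟩).scomp t (hasDerivAt_neg t)
    exact this.congr_deriv (by simp [neg_div])
  dv := fun t ht => by
    have := ((h.dv (-t) ⟨by linarith [ht.2], by linarith [ht.1]⟩).scomp t
      (hasDerivAt_neg t)).fun_neg
    exact this.congr_deriv (by simp)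
  dw := fun t ht => by
    have := ((h.dw (-t) ⟨by linarith [ht.2], by linarith [ht.1]⟩).scomp t
      (hasDerivAt_neg t)).fun_neg
    exact this.congr_deriv (by simp)

/-- translation in time -/
theorem shiftI (h : Arc D a b p θ v w) (s : ℝ) :
    Arc D (a + s) (b + s) (fun t => p (t - s)) (fun t => θ (t - s)) (fun t => v (t - s))
      (fun t => w (t - s)) where
  lt := by linarith [h.lt]
  cp := h.cp.comp (by fun_prop) (fun t ht => ⟨by linarith [ht.1], by linarith [ht.2]⟩)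
  cθ := h.cθ.comp (by fun_prop) (fun t ht => ⟨by linarith [ht.1], by linarith [ht.2]⟩)
  cv := h.cv.comp (by fun_prop) (fun t ht => ⟨by linarith [ht.1], by linarith [ht.2]⟩)
  cw := h.cw.comp (by fun_prop) (fun t ht => ⟨by linarith [ht.1], by linarith [ht.2]⟩)
  pos := fun t ht => h.pos (t - s) ⟨by linarith [ht.1], by linarith [ht.2]⟩
  unit := fun t ht => h.unit (t - s) ⟨by linarith [ht.1], by linarith [ht.2]⟩
  dp := fun t ht =>
    (h.dp (t - s) ⟨by linarith [ht.1], by linarith [ht.2]⟩).comp_sub_const t s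
  dθ := fun t ht =>
    (h.dθ (t - s) ⟨by linarith [ht.1], by linarith [ht.2]⟩).comp_sub_const t s
  dv := fun t ht =>
    (h.dv (t - s) ⟨by linarith [ht.1], by linarith [ht.2]⟩).comp_sub_const t s
  dw := fun t ht =>
    (h.dw (t - s) ⟨by linarith [ht.1], by linarith [ht.2]⟩).comp_sub_const t s

/-! ## flat part: real part -/

theorem flat_reI (h : Arc D a b p θ v w) (hf : ∀ t ∈ Icc a b, D.pf ≤ p t) (c : ℝ) {t : ℝ}
    (ht : t ∈ Icc a b) :
    D.R (p t) * Real.cos (D.κ * (θ t - c)) = D.R (p a) * Real.cos (D.κ * (θ a - c)) +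
      D.κ * (t - a) * (D.qq c (θ a) (v a) (w a)).re := by
  have := congrArg Complex.re (h.flat_UI hf c ht)
  rw [QD.UU_reI, Complex.add_re, QD.UU_reI, Complex.re_ofReal_mul] at this
  exact this

/-- An arc between two contacts leaves the flat part (class I). -/
theorem exitI (hκ : D.κ < 0) (h : Arc D a b p θ v w) (ha : p a = D.βh (θ a))
    (hb : p b = D.βh (θ b)) (hi : ∀ t ∈ Ioo a b, p t < D.βh (θ t)) :
    ∃ t ∈ Ioo a b, p t < D.pf := by
  by_contra hcon
  push Not at hcon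
  have hf : ∀ t ∈ Icc a b, D.pf ≤ p t := by
    intro t ht
    rcases eq_or_lt_of_le ht.1 with h1 | h1
    · rw [← h1, ha]; exact (D.βh_gtI _).le
    rcases eq_or_lt_of_le ht.2 with h2 | h2
    · rw [h2, hb]; exact (D.βh_gtI _).le
    exact hcon t ⟨h1, h2⟩
  set m := (a + b) / 2 with hm
  have hab := h.lt
  have hmI : m ∈ Ioo a b := ⟨by rw [hm]; linarith, by rw [hm]; linarith⟩
  have hmI' := Ioo_subset_Icc_self hmI
  obtain ⟨c, hc, hcn⟩ := D.exists_nearI (θ m)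
  set u : ℝ → ℝ := fun t => D.R (p t) * Real.cos (D.κ * (θ t - c)) with hu
  have haff : ∀ t ∈ Icc a b, u t = u a + D.κ * (t - a) * (D.qq c (θ a) (v a) (w a)).re :=
    fun t ht => h.flat_reI hf c ht
  set r := D.κ * (D.qq c (θ a) (v a) (w a)).re with hr
  have haff' : ∀ t ∈ Icc a b, u t = u a + (t - a) * r := by
    intro t ht; rw [haff t ht, hr]; ring
  -- value at m
  have habsm : |D.κ * (θ m - c)| = |D.κ * (fold (θ m) - D.θf)| := by
    rw [abs_mul, abs_mul, hcn]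
  have hcosm : Real.cos (D.κ * (θ m - c)) = Real.cos (D.κ * (fold (θ m) - D.θf)) := by
    rw [← Real.cos_abs, habsm, Real.cos_abs]
  have hlt := D.near_ltI hκ (θ m)
  have hcpos : 0 < Real.cos (D.κ * (fold (θ m) - D.θf)) := by
    rw [abs_lt] at hlt
    exact Real.cos_pos_of_mem_Ioo ⟨hlt.1, hlt.2⟩
  have hum : D.ρf < u m := by
    rw [hu]; simp only
    rw [hcosm, ← D.floorhI (θ m)]
    apply mul_lt_mul_of_pos_right _ hcpos
    exact D.R_antiI hκ ⟨hf m hmI', (h.pos m hmI').2⟩ ⟨(D.βh_gtI _).le, D.βh_leI _⟩ (hi m hmI)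
  -- values at the ends
  have hend : ∀ e ∈ Icc a b, p e = D.βh (θ e) → u e ≤ D.ρf := by
    intro e he hpe
    by_contra hce
    push Not at hce
    have hsub : uIcc m e ⊆ Icc a b := by
      rw [← uIcc_of_le hab.le]
      exact uIcc_subset_uIcc (by rw [uIcc_of_le hab.le]; exact hmI')
        (by rw [uIcc_of_le hab.le]; exact he)
    have hpos : ∀ t ∈ uIcc m e, D.ρf < u t := by
      intro t ht
      have h1 := haff' t (hsub ht)
      have h2 := haff' m hmI'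
      have h3 := haff' e he
      rcases le_total m e with hme | hme
      · rw [uIcc_of_le hme] at ht
        rcases eq_or_lt_of_le hme with h4 | h4
        · have : t = m := le_antisymm (by linarith [ht.2]) ht.1
          rw [this]; exact hum
        · nlinarith [mul_nonneg (sub_nonneg.2 ht.1) (sub_nonneg.2 ht.2), ht.1, ht.2,
            mul_pos (sub_pos.2 h4) (sub_pos.2 hum), mul_pos (sub_pos.2 h4) (sub_pos.2 hce),
            mul_nonneg (sub_nonneg.2 ht.1) (sub_pos.2 hce).le,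
            mul_nonneg (sub_nonneg.2 ht.2) (sub_pos.2 hum).le]
      · rw [uIcc_of_ge hme] at ht
        rcases eq_or_lt_of_le hme with h4 | h4
        · have : t = m := le_antisymm ht.2 (by linarith [ht.1])
          rw [this]; exact hum
        · nlinarith [mul_nonneg (sub_nonneg.2 ht.1) (sub_nonneg.2 ht.2), ht.1, ht.2,
            mul_pos (sub_pos.2 h4) (sub_pos.2 hum), mul_pos (sub_pos.2 h4) (sub_pos.2 hce),
            mul_nonneg (sub_nonneg.2 ht.2) (sub_pos.2 hce).le,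
            mul_nonneg (sub_nonneg.2 ht.1) (sub_pos.2 hum).le]
    have hcp : ∀ t ∈ uIcc m e, 0 < Real.cos (D.κ * (θ t - c)) := by
      intro t ht
      have h1 : 0 < u t := D.ρf_pos.trans (hpos t ht)
      exact (mul_pos_iff_of_pos_left (h.RposI (hsub ht))).1 h1
    have hcont : ContinuousOn (fun t => D.κ * (θ t - c)) (uIcc m e) :=
      ((h.cθ.mono hsub).sub continuousOn_const).const_mul D.κ |>.congr (fun _ _ => rfl)
    have h5 : |D.κ * (θ e - c)| < Real.pi / 2 :=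
      abs_lt_of_cos_posI isPreconnected_uIcc hcont hcp left_mem_uIcc right_mem_uIcc
        (by rw [habsm]; exact hlt)
    have h6 := D.cos_leI hκ hc (θ := θ e) (by linarith [Real.pi_pos])
    have h7 : u e ≤ D.ρf := by
      rw [hu]; simp only
      rw [← D.floorhI (θ e), hpe]
      exact mul_le_mul_of_nonneg_left h6 (by rw [← hpe]; exact (h.RposI he).le)
    linarith
  have hua := hend a ⟨le_rfl, hab.le⟩ ha
  have hub := hend b ⟨hab.le, le_rfl⟩ hb
  have h1 := haff' m hmI'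
  have h2 := haff' b ⟨hab.le, le_rfl⟩
  rw [hm] at h1
  nlinarith

/-- the Clairaut constant vanishes nowhere or everywhere -/
theorem w_signI (h : Arc D a b p θ v w) {s t : ℝ} (hs : s ∈ Icc a b) (ht : t ∈ Icc a b)
    (h0 : 0 < w s) : 0 < w t := by
  have h1 := h.clairautI hs
  have h2 := h.clairautI ht
  have h3 : 0 < D.R (p t) * w t := by
    rw [h2, ← h1]; exact mul_pos (h.RposI hs) h0
  exact (mul_pos_iff_of_pos_left (h.RposI ht)).1 h3

/-- an arc which goes up and comes back has non zero Clairaut constant -/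
theorem w_neI (h : Arc D a b p θ v w) {t₀ : ℝ} (ht : t₀ ∈ Ioo a b) (h1 : p t₀ < p a)
    (h2 : p t₀ < p b) {t : ℝ} (htI : t ∈ Icc a b) : w t ≠ 0 := by
  obtain ⟨s, hs, hmin⟩ := isCompact_Icc.exists_isMinOn (nonempty_Icc.2 h.lt.le) h.cp
  have hsa : s ≠ a := by
    rintro rfl
    exact absurd (hmin (Ioo_subset_Icc_self ht)) (not_le.2 h1)
  have hsb : s ≠ b := by
    rintro rfl
    exact absurd (hmin (Ioo_subset_Icc_self ht)) (not_le.2 h2)
  have hs' : s ∈ Ioo a b := ⟨lt_of_le_of_ne hs.1 (Ne.symm hsa), lt_of_le_of_ne hs.2 hsb⟩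
  have hloc : IsLocalMin p s := hmin.isLocalMin (Icc_mem_nhds hs'.1 hs'.2)
  have hd := hloc.hasDerivAt_eq_zero (h.dp s hs')
  have hv : v s = 0 := by
    rcases div_eq_zero_iff.1 hd with h3 | h3
    · exact h3
    · exact absurd h3 (h.AposI hs).ne'
  have hw : w s ≠ 0 := by
    intro hw
    have := h.unit s hs
    rw [hv, hw] at this
    norm_num at this
  intro hwt
  have h3 := h.clairautI hs
  have h4 := h.clairautI htI
  rw [hwt, mul_zero] at h4
  rw [← h4] at h3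
  rcases mul_eq_zero.1 h3 with h5 | h5
  · exact absurd h5 (h.RposI hs).ne'
  · exact hw h5

end Arc

/-- the component of `{p < q}` around a point -/
theorem exists_visitI {p : ℝ → ℝ} {a b t₀ q : ℝ} (hp : ContinuousOn p (Icc a b)) (ha : q ≤ p a)
    (hb : q ≤ p b) (ht : t₀ ∈ Icc a b) (h : p t₀ < q) :
    ∃ s₁ s₂, a ≤ s₁ ∧ s₁ < t₀ ∧ t₀ < s₂ ∧ s₂ ≤ b ∧ p s₁ = q ∧ p s₂ = q ∧
      ∀ t ∈ Ioo s₁ s₂, p t < q := by
  -- left end
  have hL : ∃ s₁, a ≤ s₁ ∧ s₁ < t₀ ∧ p s₁ = q ∧ ∀ t ∈ Ioc s₁ t₀, p t < q := by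
    set S := {t ∈ Icc a t₀ | q ≤ p t} with hS
    have hpc : ContinuousOn p (Icc a t₀) := hp.mono (Icc_subset_Icc_right ht.2)
    have hSc : IsCompact S := by
      have : S = Icc a t₀ ∩ p ⁻¹' (Ici q) := by ext t; simp [hS]
      rw [this]
      exact isCompact_Icc.of_isClosed_subset
        (hpc.preimage_isClosed_of_isClosed isClosed_Icc isClosed_Ici) inter_subset_left
    have hSne : S.Nonempty := ⟨a, ⟨le_rfl, ht.1⟩, ha⟩
    have hmem := hSc.sSup_mem hSne
    set s₁ := sSup S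
    have h1 : ∀ t ∈ Ioc s₁ t₀, p t < q := by
      intro t htt
      by_contra hcon
      push Not at hcon
      have : t ∈ S := ⟨⟨hmem.1.1.trans htt.1.le, htt.2⟩, hcon⟩
      exact absurd (le_csSup hSc.bddAbove this) (not_le.2 htt.1)
    have h2 : s₁ < t₀ := by
      rcases eq_or_lt_of_le hmem.1.2 with h3 | h3
      · have := hmem.2
        rw [h3] at this
        exact absurd this (not_le.2 h)
      · exact h3
    refine ⟨s₁, hmem.1.1, h2, ?_, h1⟩
    obtain ⟨x, hx, hxq⟩ := intermediate_value_Icc' h2.le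
      (hpc.mono (Icc_subset_Icc_left hmem.1.1)) ⟨h.le, hmem.2⟩
    rcases eq_or_lt_of_le hx.1 with h3 | h3
    · rw [h3]; exact hxq
    · exact absurd hxq (h1 x ⟨h3, hx.2⟩).ne
  have hR : ∃ s₂, t₀ < s₂ ∧ s₂ ≤ b ∧ p s₂ = q ∧ ∀ t ∈ Ico t₀ s₂, p t < q := by
    set S := {t ∈ Icc t₀ b | q ≤ p t} with hS
    have hpc : ContinuousOn p (Icc t₀ b) := hp.mono (Icc_subset_Icc_left ht.1)
    have hSc : IsCompact S := by
      have : S = Icc t₀ b ∩ p ⁻¹' (Ici q) := by ext t; simp [hS]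
      rw [this]
      exact isCompact_Icc.of_isClosed_subset
        (hpc.preimage_isClosed_of_isClosed isClosed_Icc isClosed_Ici) inter_subset_left
    have hSne : S.Nonempty := ⟨b, ⟨ht.2, le_rfl⟩, hb⟩
    have hmem := hSc.sInf_mem hSne
    set s₂ := sInf S
    have h1 : ∀ t ∈ Ico t₀ s₂, p t < q := by
      intro t htt
      by_contra hcon
      push Not at hcon
      have : t ∈ S := ⟨⟨htt.1, htt.2.le.trans hmem.1.2⟩, hcon⟩
      exact absurd (csInf_le hSc.bddBelow this) (not_le.2 htt.2)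
    have h2 : t₀ < s₂ := by
      rcases eq_or_lt_of_le hmem.1.1 with h3 | h3
      · have := hmem.2
        rw [← h3] at this
        exact absurd this (not_le.2 h)
      · exact h3
    refine ⟨s₂, h2, hmem.1.2, ?_, h1⟩
    obtain ⟨x, hx, hxq⟩ := intermediate_value_Icc h2.le
      (hpc.mono (Icc_subset_Icc_right hmem.1.2)) ⟨h.le, hmem.2⟩
    rcases eq_or_lt_of_le hx.2 with h3 | h3
    · rw [← h3]; exact hxq
    · exact absurd hxq (h1 x ⟨hx.1, h3⟩).ne
  obtain ⟨s₁, h1, h2, h3, h4⟩ := hL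
  obtain ⟨s₂, h5, h6, h7, h8⟩ := hR
  refine ⟨s₁, s₂, h1, h2, h5, h6, h3, h7, ?_⟩
  intro t htt
  rcases le_total t t₀ with h9 | h9
  · exact h4 t ⟨htt.1, h9⟩
  · exact h8 t ⟨h9, htt.2⟩

namespace CapsJ

variable {D : QD} {a b : ℝ} {p θ v w : ℝ → ℝ}

/-- every cap visit lasts at least `π` -/
theorem visit_ge (C : CapsJ D) (h : Arc D a b p θ v w) (ha : p a = D.pf) (hb : p b = D.pf)
    (hi : ∀ t ∈ Ioo a b, p t < D.pf) : Real.pi ≤ b - a := by
  have hab := h.lt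
  have hm : (a + b) / 2 ∈ Ioo a b := ⟨by linarith, by linarith⟩
  have hne : w a ≠ 0 := h.w_neI hm (by rw [ha]; exact hi _ hm) (by rw [hb]; exact hi _ hm)
    ⟨le_rfl, hab.le⟩
  rcases lt_or_gt_of_ne hne with h1 | h1
  · exact C.visN a b p _ v _ ⟨h.reflI, ha, hb, hi, fun t ht =>
      h.reflI.w_signI ⟨le_rfl, hab.le⟩ ht (by linarith)⟩
  · exact C.visN a b p θ v w ⟨h, ha, hb, hi, fun t ht => h.w_signI ⟨le_rfl, hab.le⟩ ht h1⟩

/-- An arc between two contacts either lasts `2π` or has exactly one cap visit; it always lasts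
at least `π`. -/
theorem one_visit (C : CapsJ D) (h : Arc D a b p θ v w) (ha : p a = D.βh (θ a))
    (hb : p b = D.βh (θ b)) (hi : ∀ t ∈ Ioo a b, p t < D.βh (θ t)) :
    Real.pi ≤ b - a ∧ (2 * Real.pi ≤ b - a ∨ ∃ s₁ s₂, a < s₁ ∧ s₁ < s₂ ∧ s₂ < b ∧ p s₁ = D.pf ∧
      p s₂ = D.pf ∧ (∀ t ∈ Ioo s₁ s₂, p t < D.pf) ∧ (∀ t ∈ Icc a s₁, D.pf ≤ p t) ∧
      (∀ t ∈ Icc s₂ b, D.pf ≤ p t)) := by
  obtain ⟨t₀, ht₀, hp₀⟩ := h.exitI C.κ_neg ha hb hi
  have hpa : D.pf < p a := by rw [ha]; exact D.βh_gtI _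
  have hpb : D.pf < p b := by rw [hb]; exact D.βh_gtI _
  obtain ⟨s₁, s₂, h1, h2, h3, h4, h5, h6, h7⟩ :=
    exists_visitI h.cp hpa.le hpb.le (Ioo_subset_Icc_self ht₀) hp₀
  have h12 : s₁ < s₂ := h2.trans h3
  have has : a < s₁ := lt_of_le_of_ne h1 (by rintro rfl; exact hpa.ne h5.symm)
  have hsb : s₂ < b := lt_of_le_of_ne h4 (by rintro rfl; exact hpb.ne h6.symm)
  have hv := C.visit_ge (h.restrictI h1 h12 h4) h5 h6 h7
  refine ⟨by linarith, ?_⟩
  by_cases hl : ∀ t ∈ Icc a s₁, D.pf ≤ p t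
  · by_cases hr : ∀ t ∈ Icc s₂ b, D.pf ≤ p t
    · exact Or.inr ⟨s₁, s₂, has, h12, hsb, h5, h6, h7, hl, hr⟩
    · left
      push Not at hr
      obtain ⟨t₁, ht₁, hp₁⟩ := hr
      obtain ⟨r₁, r₂, g1, g2, g3, g4, g5, g6, g7⟩ :=
        exists_visitI (h.cp.mono (Icc_subset_Icc_left (h1.trans h12.le))) h6.ge hpb.le ht₁ hp₁
      have hv2 := C.visit_ge (h.restrictI ((h1.trans h12.le).trans g1) (g2.trans g3) g4) g5 g6 g7
      linarith
  · left
    push Not at hl
    obtain ⟨t₁, ht₁, hp₁⟩ := hl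
    obtain ⟨r₁, r₂, g1, g2, g3, g4, g5, g6, g7⟩ :=
      exists_visitI (h.cp.mono (Icc_subset_Icc_right (h12.le.trans h4))) hpa.le h5.ge ht₁ hp₁
    have hv2 := C.visit_ge (h.restrictI g1 (g2.trans g3) (g4.trans (h12.le.trans h4))) g5 g6 g7
    linarith

end CapsJ

/-! ## the flat pieces at a perpendicular floor hit -/

namespace Arc

variable {D : QD} {a b : ℝ} {p θ v w : ℝ → ℝ}

/-- the arc leaves the floor perpendicularly at `a` and reaches `p = pf` at `b` -/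
theorem flat_startI (hκ : D.κ < 0) (h : Arc D a b p θ v w) (hf : ∀ t ∈ Icc a b, D.pf ≤ p t)
    {c : ℝ} (hre : (D.qq c (θ a) (v a) (w a)).re = -1) (him : (D.qq c (θ a) (v a) (w a)).im = 0)
    (hc : |D.κ * (θ a - c)| < Real.pi / 2) : D.κ * (θ b - c) = Real.arcsin (w b) := by
  have hab := h.lt
  have haI : a ∈ Icc a b := ⟨le_rfl, hab.le⟩
  have hbI : b ∈ Icc a b := ⟨hab.le, le_rfl⟩
  have hca : 0 < Real.cos (D.κ * (θ a - c)) := by
    rw [abs_lt] at hc
    exact Real.cos_pos_of_mem_Ioo ⟨hc.1, hc.2⟩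
  have hcp : ∀ t ∈ Icc a b, 0 < Real.cos (D.κ * (θ t - c)) := by
    intro t ht
    have h1 := h.flat_reI hf c ht
    rw [hre] at h1
    have h2 : 0 < D.R (p t) * Real.cos (D.κ * (θ t - c)) := by
      rw [h1]
      have h3 : 0 < D.R (p a) * Real.cos (D.κ * (θ a - c)) := mul_pos (h.RposI haI) hca
      nlinarith [mul_nonneg (neg_pos.2 hκ).le (sub_nonneg.2 ht.1)]
    exact (mul_pos_iff_of_pos_left (h.RposI ht)).1 h2
  have hcont : ContinuousOn (fun t => D.κ * (θ t - c)) (Icc a b) :=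
    (h.cθ.sub continuousOn_const).const_mul D.κ |>.congr (fun _ _ => rfl)
  have h5 : |D.κ * (θ b - c)| < Real.pi / 2 :=
    abs_lt_of_cos_posI isPreconnected_Icc hcont hcp haI hbI hc
  have h6 := h.flat_qI hf c hbI
  have h7 := D.w_eqI c (θ b) (v b) (w b)
  rw [h6, hre, him] at h7
  have h8 : w b = Real.sin (D.κ * (θ b - c)) := by rw [h7]; ring
  rw [abs_lt] at h5
  rw [h8, Real.arcsin_sin (by linarith [h5.1]) (by linarith [h5.2])]

/-- the arc arrives perpendicularly at the floor at `b`, starting from `p = pf` at `a` -/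
theorem flat_endI (hκ : D.κ < 0) (h : Arc D a b p θ v w) (hf : ∀ t ∈ Icc a b, D.pf ≤ p t)
    {c : ℝ} (hre : (D.qq c (θ b) (v b) (w b)).re = 1) (him : (D.qq c (θ b) (v b) (w b)).im = 0)
    (hc : |D.κ * (θ b - c)| < Real.pi / 2) : D.κ * (θ a - c) = -Real.arcsin (w a) := by
  have h1 := h.revI.flat_startI hκ (c := c)
    (fun t ht => hf (-t) ⟨by linarith [ht.2], by linarith [ht.1]⟩)
    (by
      rw [QD.qq_reI] at hre ⊢
      simp only [neg_neg]
      linarith)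
    (by
      rw [QD.qq_imI] at him ⊢
      simp only [neg_neg]
      linarith)
    (by simpa using hc)
  simp only [neg_neg] at h1
  rw [h1, Real.arcsin_neg]

end Arc

theorem QD.βh_piI (D : QD) {θ θ' : ℝ} {n : ℤ} (h : θ' = -θ + 2 * Real.pi * n) :
    D.βh θ' = D.βh θ := by
  have h1 : θ' = -θ + ((2 * n : ℤ) : ℝ) * Real.pi := by rw [h]; push_cast; ring
  rw [h1, D.βh_addI, D.βh_negI]

namespace CapsJ

variable {D : QD} {a b : ℝ} {p θ v w : ℝ → ℝ}

theorem closeF_pos (C : CapsJ D) (h : Arc D a b p θ v w) (ha : p a = D.βh (θ a))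
    (hb : p b = D.βh (θ b)) (hi : ∀ t ∈ Ioo a b, p t < D.βh (θ t)) {c : ℝ} {n : ℤ}
    (hc : D.IsFoot (θ b) c) (hθ : θ a = -θ b + 2 * Real.pi * n)
    (hqr : (D.qq (-c + 2 * Real.pi * n) (θ a) (v a) (w a)).re =
      -(D.qq c (θ b) (v b) (w b)).re)
    (hqi : (D.qq (-c + 2 * Real.pi * n) (θ a) (v a) (w a)).im =
      -(D.qq c (θ b) (v b) (w b)).im)
    (hw : 0 < w a) : 2 * Real.pi ≤ b - a := by
  have hκ := C.κ_neg
  have hpi := Real.pi_pos
  obtain ⟨_, h0 | ⟨s₁, s₂, hs1, hs12, hs2, hp1, hp2, hcap, hfl, hfr⟩⟩ := C.one_visit h ha hb hi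
  · exact h0
  exfalso
  have hab := h.lt
  have haI : a ∈ Icc a b := ⟨le_rfl, hab.le⟩
  have hbI : b ∈ Icc a b := ⟨hab.le, le_rfl⟩
  have hs1I : s₁ ∈ Icc a b := ⟨hs1.le, (hs12.trans hs2).le⟩
  have hs2I : s₂ ∈ Icc a b := ⟨(hs1.trans hs12).le, hs2.le⟩
  set c' := -c + 2 * Real.pi * n with hc'
  set lam := (D.qq c (θ b) (v b) (w b)).re with hlam
  set mu := (D.qq c (θ b) (v b) (w b)).im with hmu
  have hφ : D.κ * (θ a - c') = -(D.κ * (θ b - c)) := by rw [hθ, hc']; ring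
  have hnear := QD.IsFoot_nearI hκ hc
  have hnb : |θ b - c| = |fold (θ b) - D.θf| := hnear.self_of_nhds
  have habs : |D.κ * (θ b - c)| = |D.κ * (fold (θ b) - D.θf)| := by
    rw [abs_mul, abs_mul, hnb]
  have hlt : |D.κ * (θ b - c)| < Real.pi / 2 := by rw [habs]; exact D.near_ltI hκ _
  have hcosb : Real.cos (D.κ * (θ b - c)) = Real.cos (D.κ * (fold (θ b) - D.θf)) := by
    rw [← Real.cos_abs, habs, Real.cos_abs]
  have hRb : D.R (p b) * Real.cos (D.κ * (θ b - c)) = D.ρf := by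
    rw [hcosb, hb]; exact D.floorhI _
  have hpab : p a = p b := by rw [ha, hb]; exact D.βh_piI hθ
  -- K at both ends
  have hK := h.clairautI hbI
  have hwb := D.w_eqI c (θ b) (v b) (w b)
  have hwa := D.w_eqI c' (θ a) (v a) (w a)
  rw [hqr, hqi, hφ, Real.cos_neg, Real.sin_neg] at hwa
  rw [← hlam, ← hmu] at hwb
  have hmu0 : mu = 0 := by
    rw [hpab, hwa, hwb] at hK
    have h1 : D.R (p b) * Real.cos (D.κ * (θ b - c)) * mu = 0 := by linarith
    rw [hRb] at h1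
    rcases mul_eq_zero.1 h1 with h2 | h2
    · exact absurd h2 D.ρf_pos.ne'
    · exact h2
  have hnorm : lam ^ 2 + mu ^ 2 = 1 := by
    rw [hlam, hmu, D.qq_normI]; exact h.unit b hbI
  rw [hmu0] at hnorm
  -- sign of lam
  have hrest := h.restrictI (hs1.trans hs12).le hs2 le_rfl
  have hlam_pos : 0 < lam := by
    have hcb : ContinuousWithinAt θ (Iio b) b := by
      have := (h.cθ b hbI).mono (Ioo_subset_Icc_self (a := a) (b := b))
      exact this.mono_of_mem_nhdsWithin (Ioo_mem_nhdsLT hab)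
    have h1 : ∀ᶠ t in 𝓝[<] b, |θ t - c| = |fold (θ t) - D.θf| := hcb.eventually hnear
    obtain ⟨t, ht, htI⟩ := (h1.and (Ioo_mem_nhdsLT hs2)).exists
    have htI' : t ∈ Icc s₂ b := Ioo_subset_Icc_self htI
    have htab : t ∈ Ioo a b := ⟨(hs1.trans hs12).trans htI.1, htI.2⟩
    have hcost : Real.cos (D.κ * (θ t - c)) = Real.cos (D.κ * (fold (θ t) - D.θf)) := by
      rw [← Real.cos_abs, abs_mul, ht, ← abs_mul, Real.cos_abs]
    have hlt' := D.near_ltI hκ (θ t)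
    have hcp : 0 < Real.cos (D.κ * (fold (θ t) - D.θf)) := by
      rw [abs_lt] at hlt'
      exact Real.cos_pos_of_mem_Ioo ⟨hlt'.1, hlt'.2⟩
    have h2 : D.ρf < D.R (p t) * Real.cos (D.κ * (θ t - c)) := by
      rw [hcost, ← D.floorhI (θ t)]
      apply mul_lt_mul_of_pos_right _ hcp
      exact D.R_antiI hκ ⟨hfr t htI', (h.pos t ⟨htab.1.le, htab.2.le⟩).2⟩
        ⟨(D.βh_gtI _).le, D.βh_leI _⟩ (hi t htab)
    have h3 := hrest.flat_reI hfr c htI'
    have h4 := hrest.flat_reI hfr c (t := b) ⟨hs2.le, le_rfl⟩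
    have h5 : (D.qq c (θ s₂) (v s₂) (w s₂)).re = lam := by
      rw [hlam, hrest.flat_qI hfr c (t := b) ⟨hs2.le, le_rfl⟩]
    rw [h5] at h3 h4
    rw [hRb] at h4
    have h6 : D.κ * (b - t) * lam < 0 := by
      have e : D.κ * (b - t) * lam = D.κ * (b - s₂) * lam - D.κ * (t - s₂) * lam := by ring
      rw [e]; linarith
    have h7 : D.κ * (b - t) < 0 := mul_neg_of_neg_of_pos hκ (by linarith [htI.2])
    exact (pos_iff_neg_of_mul_neg (by rw [mul_comm] at h6; exact h6)).2 h7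
  have hlam1 : lam = 1 := by
    have : lam ^ 2 = 1 := by linarith
    exact (pow_eq_one_iff_of_nonneg hlam_pos.le two_ne_zero).1 this
  -- the flat pieces
  have e1 : D.κ * (θ s₁ - c') = Real.arcsin (w s₁) := by
    refine (h.restrictI le_rfl hs1 hs1I.2).flat_startI hκ hfl ?_ ?_ ?_
    · rw [hqr, hlam1]
    · rw [hqi, hmu0, neg_zero]
    · rw [hφ, abs_neg]; exact hlt
  have e2 : D.κ * (θ s₂ - c) = -Real.arcsin (w s₂) := by
    refine hrest.flat_endI hκ hfr ?_ ?_ hlt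
    · rw [← hlam, hlam1]
    · rw [← hmu, hmu0]
  have hww : w s₂ = w s₁ := by
    have g1 := h.clairautI hs1I
    have g2 := h.clairautI hs2I
    rw [hp1] at g1
    rw [hp2] at g2
    have hR : 0 < D.R D.pf := by rw [← hp1]; exact h.RposI hs1I
    have : D.R D.pf * w s₂ = D.R D.pf * w s₁ := by rw [g2, g1]
    exact mul_left_cancel₀ hR.ne' this
  have hΦ : D.Φ s₁ s₂ θ w = c - c' := by
    unfold QD.Φ
    rw [hww] at e2
    have hk : D.κ ≠ 0 := hκ.ne
    have f1 : θ s₁ = c' + Real.arcsin (w s₁) / D.κ := by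
      have : θ s₁ - c' = Real.arcsin (w s₁) / D.κ := by
        rw [eq_div_iff hk]; linarith
      linarith
    have f2 : θ s₂ = c - Real.arcsin (w s₁) / D.κ := by
      have : θ s₂ - c = -(Real.arcsin (w s₁) / D.κ) := by
        rw [← neg_div, eq_div_iff hk]; linarith
      linarith
    rw [f1, f2, div_neg]; ring
  have hcap' : Cap D s₁ s₂ p θ v w := ⟨h.restrictI hs1.le hs12 hs2.le, hp1, hp2, hcap,
    fun t ht => h.w_signI haI ⟨hs1.le.trans ht.1, ht.2.trans hs2.le⟩ hw⟩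
  -- K = rf tan (k delta)
  have hwbpos : 0 < w b := h.w_signI haI hbI hw
  have hwb' : w b = Real.sin (-D.κ * (θ b - c)) := by
    rw [hwb, hmu0, hlam1]
    have : -D.κ * (θ b - c) = -(D.κ * (θ b - c)) := by ring
    rw [this, Real.sin_neg]; ring
  have hKt : D.R D.pf * w s₁ = D.ρf * Real.tan (-D.κ * (θ b - c)) := by
    have g1 := h.clairautI hs1I
    rw [hp1] at g1
    rw [g1, ← hK, hwb', ← hRb, Real.tan_eq_sin_div_cos]
    have h1 : -D.κ * (θ b - c) = -(D.κ * (θ b - c)) := by ring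
    rw [h1, Real.cos_neg]
    have hcne : Real.cos (D.κ * (θ b - c)) ≠ 0 := by
      intro h0
      rw [h0, mul_zero] at hRb
      exact D.ρf_pos.ne hRb
    field_simp
  have hδ : 0 < -D.κ * (θ b - c) := by
    rw [hwb'] at hwbpos
    by_contra hneg
    push Not at hneg
    have : Real.sin (-D.κ * (θ b - c)) ≤ 0 := by
      apply Real.sin_nonpos_of_nonpos_of_neg_pi_le hneg
      rw [abs_lt] at hlt
      linarith [hlt.1, hlt.2]
    linarith
  have hδ' : 0 < θ b - c := (mul_pos_iff_of_pos_left (neg_pos.2 hκ)).1 hδ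
  have hk1 : -D.κ ≤ 1 := by linarith [D.κ_geI]
  have hcl := D.classII hκ
  have htan : ∀ x, θ b - c ≤ x → x < Real.pi / 2 →
      D.R D.pf * w s₁ ≤ D.ρf * Real.tan (-D.κ * x) := by
    intro x hx hx2
    rw [hKt]
    apply mul_le_mul_of_nonneg_left _ D.ρf_pos.le
    have g1 : -D.κ * (θ b - c) ≤ -D.κ * x := mul_le_mul_of_nonneg_left hx (by linarith)
    have g2 : -D.κ * x < Real.pi / 2 := by
      have : -D.κ * x ≤ 1 * x := mul_le_mul_of_nonneg_right hk1 (by linarith)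
      linarith
    rcases eq_or_lt_of_le g1 with g3 | g3
    · rw [g3]
    · exact (Real.tan_lt_tan_of_nonneg_of_lt_pi_div_two hδ.le g2 g3).le
  obtain ⟨j, ⟨h1, h2, h3⟩ | ⟨h1, h2, h3⟩ | ⟨h1, _, _⟩⟩ := hc
  · have hx : θ b - c ≤ Real.pi / 2 - D.θf := by rw [h1]; linarith
    obtain ⟨g1, g2⟩ := C.D1 s₁ s₂ p θ v w hcap' (htan _ hx (by linarith))
    rw [hΦ, hc', h1] at g1 g2
    have g3 : (0 : ℝ) < (j - n : ℤ) := by
      push_cast
      by_contra hcon
      push Not at hcon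
      nlinarith
    have g4 : ((j - n : ℤ) : ℝ) < 1 := by
      push_cast
      by_contra hcon
      push Not at hcon
      nlinarith
    have g5 : (0 : ℤ) < j - n := by exact_mod_cast g3
    have g6 : (j - n : ℤ) < 1 := by exact_mod_cast g4
    omega
  · have hx : θ b - c ≤ D.θf := by rw [h1]; linarith
    obtain ⟨g1, g2⟩ := C.D2 s₁ s₂ p θ v w hcap' (htan _ hx (by linarith))
    rw [hΦ, hc', h1] at g1 g2
    have g3 : (0 : ℝ) < (j - n : ℤ) := by
      push_cast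
      by_contra hcon
      push Not at hcon
      nlinarith
    have g4 : ((j - n : ℤ) : ℝ) < 1 := by
      push_cast
      by_contra hcon
      push Not at hcon
      nlinarith
    have g5 : (0 : ℤ) < j - n := by exact_mod_cast g3
    have g6 : (j - n : ℤ) < 1 := by exact_mod_cast g4
    omega
  · linarith [hcl.2]

/-- Single contact, at a point of the floor which is not a corner. -/
theorem closeF (C : CapsJ D) (h : Arc D a b p θ v w) (ha : p a = D.βh (θ a))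
    (hb : p b = D.βh (θ b)) (hi : ∀ t ∈ Ioo a b, p t < D.βh (θ t)) {c : ℝ} {n : ℤ}
    (hc : D.IsFoot (θ b) c) (hθ : θ a = -θ b + 2 * Real.pi * n)
    (hq : D.qq (-c + 2 * Real.pi * n) (θ a) (v a) (w a) = -D.qq c (θ b) (v b) (w b)) :
    2 * Real.pi ≤ b - a := by
  obtain ⟨t₀, ht₀, hp₀⟩ := h.exitI C.κ_neg ha hb hi
  have hpa : D.pf < p a := by rw [ha]; exact D.βh_gtI _
  have hpb : D.pf < p b := by rw [hb]; exact D.βh_gtI _
  have hne : w a ≠ 0 := h.w_neI ht₀ (hp₀.trans hpa) (hp₀.trans hpb) ⟨le_rfl, h.lt.le⟩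
  have hqr := congrArg Complex.re hq
  have hqi := congrArg Complex.im hq
  rw [Complex.neg_re] at hqr
  rw [Complex.neg_im] at hqi
  rcases lt_or_gt_of_ne hne with h1 | h1
  · refine C.closeF_pos (c := -c) (n := -n) h.reflI ?_ ?_ ?_ (QD.IsFoot_negI hc) ?_ ?_ ?_
      (by linarith)
    · rw [ha, D.βh_negI]
    · rw [hb, D.βh_negI]
    · intro t ht; rw [D.βh_negI]; exact hi t ht
    · rw [hθ]; push_cast; ring
    · have e : -(-c) + 2 * Real.pi * ((-n : ℤ) : ℝ) = -(-c + 2 * Real.pi * n) := by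
        push_cast; ring
      rw [e, QD.qq_refl_reI, QD.qq_refl_reI]
      exact hqr
    · have e : -(-c) + 2 * Real.pi * ((-n : ℤ) : ℝ) = -(-c + 2 * Real.pi * n) := by
        push_cast; ring
      rw [e, QD.qq_refl_imI, QD.qq_refl_imI, hqi]
  · exact C.closeF_pos h ha hb hi hc hθ hqr hqi h1

end CapsJ

end Pool.MP8e
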