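import Pool.Agent.Work.MP_8e9dbb.B.ClassIQ
import Pool.Agent.Work.MP_8e9dbb.IfaceI

/-!
# MP_8e9dbb_gt, part B, class I: closed geodesics which do not touch the floor
-/

open MeasureTheory Filter Topology Metric Set
open scoped ContDiff

namespace Pool.MP8e

theorem right_posI {g : ℝ → ℝ} {c t₀ : ℝ} (h : HasDerivAt g c t₀) (hc : 0 < c) :
    ∃ δ > 0, ∀ t ∈ Ioo t₀ (t₀ + δ), g t₀ < g t := by
  have h1 := h.tendsto_slope
  have h2 : ∀ᶠ t in 𝓝[≠] t₀, 0 < slope g t₀ t := h1.eventually (lt_mem_nhds hc)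
  rw [eventually_nhdsWithin_iff] at h2
  obtain ⟨δ, hδ, h3⟩ := Metric.eventually_nhds_iff_ball.1 h2
  refine ⟨δ, hδ, fun t ht => ?_⟩
  have h4 : 0 < slope g t₀ t := by
    apply h3 t
    · rw [mem_ball, Real.dist_eq, abs_of_pos (by linarith [ht.1])]; linarith [ht.2]
    · exact (ne_of_gt ht.1)
  rw [slope_def_field] at h4
  have h5 : 0 < t - t₀ := by linarith [ht.1]
  have := (div_pos_iff_of_pos_right h5).1 h4
  linarith

theorem left_posI {g : ℝ → ℝ} {c t₀ : ℝ} (h : HasDerivAt g c t₀) (hc : c < 0) :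
    ∃ δ > 0, ∀ t ∈ Ioo (t₀ - δ) t₀, g t₀ < g t := by
  have h1 := h.tendsto_slope
  have h2 : ∀ᶠ t in 𝓝[≠] t₀, slope g t₀ t < 0 := h1.eventually (gt_mem_nhds hc)
  rw [eventually_nhdsWithin_iff] at h2
  obtain ⟨δ, hδ, h3⟩ := Metric.eventually_nhds_iff_ball.1 h2
  refine ⟨δ, hδ, fun t ht => ?_⟩
  have h4 : slope g t₀ t < 0 := by
    apply h3 t
    · rw [mem_ball, Real.dist_eq, abs_of_neg (by linarith [ht.2])]; linarith [ht.1]
    · exact (ne_of_lt ht.2)
  rw [slope_def_field] at h4
  have h5 : t - t₀ < 0 := by linarith [ht.2]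
  have : 0 < g t - g t₀ := by
    by_contra hcon
    push Not at hcon
    have := div_nonneg_of_nonpos hcon h5.le
    linarith
  linarith

namespace Arc

variable {D : QD} {a b : ℝ} {p θ v w : ℝ → ℝ}

/-- `R v` is affine in the flat part -/
theorem flat_RvI (h : Arc D a b p θ v w) (hf : ∀ t ∈ Icc a b, D.pf ≤ p t) {t : ℝ}
    (ht : t ∈ Icc a b) :
    D.R (p t) * v t = D.R (p a) * v a + D.κ * (t - a) := by
  have key := const_of_deriv0I (f := fun t => D.R (p t) * v t - D.κ * (t - a)) (a := a) (b := b)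
    ((h.contRpI.mul h.cv).sub (by fun_prop)) ?_ t ht
  · simp only [sub_self, mul_zero, sub_zero] at key
    linarith
  · intro x hx
    have hx' := Ioo_subset_Icc_self hx
    have h1 := (h.hasDerivAt_RI hx).fun_mul (h.dv x hx)
    have h2 : HasDerivAt (fun t : ℝ => D.κ * (t - a)) (D.κ * 1) x :=
      ((hasDerivAt_id x).sub_const a).const_mul D.κ
    refine (h1.fun_sub h2).congr_deriv ?_
    rw [h.f_eqI hx' (hf x hx')]
    have hR := h.RposI hx'
    have hu := h.unit x hx'
    field_simp
    linear_combination D.κ * hu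

end Arc

namespace CapsJ

variable {D : QD} {a b : ℝ} {p θ v w : ℝ → ℝ}

theorem visL' (C : CapsJ D) (h : Arc D a b p θ v w) (ha : p a = D.pf) (hb : p b = D.pf)
    (hi : ∀ t ∈ Ioo a b, p t < D.pf) :
    2 * Real.pi ≤ b - a + 2 / (-D.κ) * √(D.R D.pf ^ 2 - (D.R D.pf * w a) ^ 2) := by
  have hab := h.lt
  have hm : (a + b) / 2 ∈ Ioo a b := ⟨by linarith, by linarith⟩
  have hne : w a ≠ 0 := h.w_neI hm (by rw [ha]; exact hi _ hm) (by rw [hb]; exact hi _ hm)
    ⟨le_rfl, hab.le⟩
  rcases lt_or_gt_of_ne hne with h1 | h1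
  · have := C.visL a b p _ v _ ⟨h.reflI, ha, hb, hi, fun t ht =>
      h.reflI.w_signI ⟨le_rfl, hab.le⟩ ht (by linarith)⟩
    simpa using this
  · exact C.visL a b p θ v w ⟨h, ha, hb, hi, fun t ht => h.w_signI ⟨le_rfl, hab.le⟩ ht h1⟩

/-- a closed geodesic without contacts has length at least `2π` -/
theorem free (C : CapsJ D) {L : ℝ} (hL : 0 < L) (hF : FreeData D L) : 2 * Real.pi ≤ L := by
  obtain ⟨p, θ, v, w, hE, hper, m, hm⟩ := hF
  have hκ := C.κ_neg
  have hk : 0 < -D.κ := neg_pos.2 hκ
  have hpi := Real.pi_pos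
  have hpos : ∀ t, 0 < p t ∧ p t ≤ D.ℓ := fun t =>
    ⟨(hE t).1.1, (hE t).1.2.le.trans (D.βh_leI _)⟩
  have hdp := fun t => (hE t).2.dp
  have hdθ := fun t => (hE t).2.dθ
  have hdv := fun t => (hE t).2.dv
  have hdw := fun t => (hE t).2.dw
  have hcp : Continuous p := continuous_iff_continuousAt.2 fun t => (hdp t).continuousAt
  have hcθ : Continuous θ := continuous_iff_continuousAt.2 fun t => (hdθ t).continuousAt
  have hcv : Continuous v := continuous_iff_continuousAt.2 fun t => (hdv t).continuousAt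
  have hcw : Continuous w := continuous_iff_continuousAt.2 fun t => (hdw t).continuousAt
  have harc : ∀ a b, a < b → Arc D a b p θ v w := fun a b hab =>
    ⟨hab, hcp.continuousOn, hcθ.continuousOn, hcv.continuousOn, hcw.continuousOn,
      fun t _ => hpos t, fun t _ => (hE t).2.unit, fun t _ => hdp t, fun t _ => hdθ t,
      fun t _ => hdv t, fun t _ => hdw t⟩
  have hA : ∀ t, 0 < D.A (p t) := fun t => D.posA _ ⟨(hpos t).1.le, (hpos t).2⟩
  have hR : ∀ t, 0 < D.R (p t) := fun t => D.posR _ (hpos t)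
  -- the maximum of p
  obtain ⟨tM, _, hmax0⟩ := isCompact_Icc.exists_isMaxOn (nonempty_Icc.2 hL.le)
    (hcp.continuousOn (s := Icc 0 L))
  have hpp : Function.Periodic p L := fun t => (hper t).1
  have hmax : ∀ t, p t ≤ p tM := by
    intro t
    obtain ⟨y, hy, hty⟩ := hpp.exists_mem_Ico₀ hL t
    rw [hty]
    exact hmax0 (Ico_subset_Icc_self hy)
  have hvM : v tM = 0 := by
    have hloc : IsLocalMax p tM := Eventually.of_forall hmax
    have hd := hloc.hasDerivAt_eq_zero (hdp tM)
    rcases div_eq_zero_iff.1 hd with h3 | h3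
    · exact h3
    · exact absurd h3 (hA tM).ne'
  have hwM : w tM ^ 2 = 1 := by
    have := (hE tM).2.unit
    rw [hvM] at this
    linarith
  have hwM' : |w tM| = 1 := by
    have : |w tM| ^ 2 = 1 := by rw [sq_abs]; exact hwM
    exact (pow_eq_one_iff_of_nonneg (abs_nonneg _) two_ne_zero).1 this
  -- Clairaut
  have hK : ∀ t, D.R (p t) * w t = D.R (p tM) * w tM := by
    intro t
    have hlt : min t tM - 1 < max t tM + 1 := by
      have := min_le_max (a := t) (b := tM)
      linarith
    have h := harc (min t tM - 1) (max t tM + 1) hlt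
    have h1 := h.clairautI (t := t)
      ⟨by linarith [min_le_left t tM], by linarith [le_max_left t tM]⟩
    have h2 := h.clairautI (t := tM)
      ⟨by linarith [min_le_right t tM], by linarith [le_max_right t tM]⟩
    rw [h1, h2]
  rcases le_or_gt (p tM) D.pf with hcase | hcase
  · -- the geodesic stays in the cap
    rcases lt_trichotomy (D.f (p tM)) 0 with hf | hf | hf
    · -- strict maximum: an oscillation
      have hder : HasDerivAt (fun t => -v t) (-(D.f (p tM) * w tM ^ 2 / D.R (p tM))) tM :=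
        (hdv tM).fun_neg
      have hc : 0 < -(D.f (p tM) * w tM ^ 2 / D.R (p tM)) := by
        rw [hwM, mul_one, ← neg_div]
        exact div_pos (by linarith) (hR tM)
      obtain ⟨δ, hδ, h1⟩ := right_posI hder hc
      have hvneg : ∀ t ∈ Ioo tM (tM + δ), v t < 0 := by
        intro t ht
        have := h1 t ht
        rw [hvM] at this
        linarith
      have hanti : StrictAntiOn p (Icc tM (tM + δ)) := by
        apply strictAntiOn_of_deriv_neg (convex_Icc _ _) hcp.continuousOn
        intro x hx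
        rw [interior_Icc] at hx
        rw [(hdp x).deriv]
        exact div_neg_of_neg_of_pos (hvneg x hx) (hA x)
      have hsmall : ∀ t ∈ Ioc tM (tM + δ), p t < p tM := fun t ht =>
        hanti ⟨le_rfl, by linarith⟩ ⟨ht.1.le, ht.2⟩ ht.1
      have hδL : tM + δ < tM + L := by
        by_contra hcon
        push Not at hcon
        have := hsmall (tM + L) ⟨by linarith, hcon⟩
        rw [hpp tM] at this
        exact lt_irrefl _ this
      set S := {t ∈ Icc (tM + δ) (tM + L) | p tM ≤ p t} with hS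
      have hSc : IsCompact S := by
        have : S = Icc (tM + δ) (tM + L) ∩ p ⁻¹' (Ici (p tM)) := by ext t; simp [hS]
        rw [this]
        exact isCompact_Icc.inter_right (isClosed_Ici.preimage hcp)
      have hSne : S.Nonempty := ⟨tM + L, ⟨hδL.le, le_rfl⟩, (hpp tM).ge⟩
      have hmem := hSc.sInf_mem hSne
      set b := sInf S
      have hpb : p b = p tM := le_antisymm (hmax b) hmem.2
      have hin : ∀ t ∈ Ioo tM b, p t < p tM := by
        intro t ht
        rcases le_or_gt t (tM + δ) with h2 | h2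
        · exact hsmall t ⟨ht.1, h2⟩
        · by_contra hcon
          push Not at hcon
          have : t ∈ S := ⟨⟨h2.le, ht.2.le.trans hmem.1.2⟩, hcon⟩
          exact absurd (csInf_le hSc.bddBelow this) (not_le.2 ht.2)
      have hMb : tM < b := by linarith [hmem.1.1]
      have := C.osc tM b p θ v w (harc tM b hMb) hpb.symm hcase hvM hin
      linarith [hmem.1.2]
    · -- the waist
      have hd0 : deriv D.R (p tM) = 0 := by
        have := hf
        unfold QD.f at this
        rcases div_eq_zero_iff.1 this with h3 | h3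
        · exact h3
        · exact absurd h3 (hA tM).ne'
      have hR1 : D.R (p tM) = 1 := C.R_one _ ⟨(hpos tM).1, hcase⟩ hd0
      set K := w tM with hKdef
      have hKt : ∀ t, D.R (p t) * w t = K := by intro t; rw [hK t, hR1, one_mul]
      have hall : ∀ t, D.R (p t) = 1 ∧ w t = K := by
        intro t
        have h1 : D.R (p t) ≤ 1 := C.R_le _ ⟨(hpos t).1, (hmax t).trans hcase⟩
        have h2 := hKt t
        have h3 : |D.R (p t)| * |w t| = 1 := by rw [← abs_mul, h2, hwM']
        rw [abs_of_pos (hR t)] at h3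
        have h4 : |w t| ≤ 1 := by
          have := (hE t).2.unit
          have : w t ^ 2 ≤ 1 := by nlinarith [sq_nonneg (v t)]
          rw [← sq_abs] at this
          exact (pow_le_one_iff_of_nonneg (abs_nonneg _) two_ne_zero).1 this
        have h5 : D.R (p t) = 1 := by
          apply le_antisymm h1
          calc (1 : ℝ) = D.R (p t) * |w t| := h3.symm
            _ ≤ D.R (p t) * 1 := mul_le_mul_of_nonneg_left h4 (hR t).le
            _ = D.R (p t) := mul_one _
        refine ⟨h5, ?_⟩
        rw [h5, one_mul] at h2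
        exact h2
      obtain ⟨x, _, hx⟩ := exists_hasDerivAt_eq_slope θ (fun _ => K) hL hcθ.continuousOn
        (fun t _ => (hdθ t).congr_deriv (by rw [(hall t).1, (hall t).2, div_one]))
      have h0 := hm 0
      rw [zero_add] at h0
      rw [h0, sub_zero, add_sub_cancel_left, eq_div_iff hL.ne'] at hx
      have h1 : L = |(m : ℝ)| * (2 * Real.pi) := by
        have := congrArg abs hx
        rw [abs_mul, abs_mul, hwM', one_mul, abs_of_pos hL,
          abs_of_pos (by linarith : (0 : ℝ) < 2 * Real.pi)] at this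
        exact this
      have h2 : m ≠ 0 := by
        rintro rfl
        rw [Int.cast_zero, abs_zero, zero_mul] at h1
        exact hL.ne' h1
      have h3 : (1 : ℝ) ≤ |(m : ℝ)| := by
        have : (1 : ℤ) ≤ |m| := Int.one_le_abs h2
        exact_mod_cast this
      rw [h1]
      nlinarith
    · -- impossible: the maximum is not a maximum
      exfalso
      have hc : 0 < D.f (p tM) * w tM ^ 2 / D.R (p tM) := by
        rw [hwM, mul_one]
        exact div_pos hf (hR tM)
      obtain ⟨δ, hδ, h1⟩ := right_posI (hdv tM) hc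
      have hmono : StrictMonoOn p (Icc tM (tM + δ)) := by
        apply strictMonoOn_of_deriv_pos (convex_Icc _ _) hcp.continuousOn
        intro x hx
        rw [interior_Icc] at hx
        rw [(hdp x).deriv]
        have := h1 x hx
        rw [hvM] at this
        exact div_pos this (hA x)
      have h2 := hmono ⟨le_rfl, by linarith⟩ ⟨by linarith, le_rfl⟩ (by linarith : tM < tM + δ)
      exact absurd (hmax (tM + δ)) (not_le.2 h2)
  · -- the geodesic reaches the flat part
    -- some point is in the cap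
    have hex : ∃ t₀, p t₀ < D.pf := by
      by_contra hcon
      push Not at hcon
      have hRf : 0 < D.R D.pf := D.posR _ ⟨D.pf_posI, D.pf_lt_ℓI.le⟩
      set T := (2 * D.R D.pf + 1) / (-D.κ) with hT
      have hTpos : 0 < T := div_pos (by linarith) hk
      have h := harc 0 T hTpos
      have h1 := h.flat_UI (fun t _ => hcon t) 0 (t := T) ⟨hTpos.le, le_rfl⟩
      have hn : ∀ p θ : ℝ, 0 < D.R p → ‖D.UU 0 p θ‖ = D.R p := by
        intro p θ hp
        unfold QD.UU
        rw [norm_mul, Complex.norm_real, Complex.norm_exp_ofReal_mul_I, mul_one,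
          Real.norm_of_nonneg hp.le]
      have hq : ‖D.qq 0 (θ 0) (v 0) (w 0)‖ = 1 := by
        have h2 := D.qq_normI 0 (θ 0) (v 0) (w 0)
        rw [(hE 0).2.unit] at h2
        have h3 : ‖D.qq 0 (θ 0) (v 0) (w 0)‖ ^ 2 = 1 := by
          rw [← h2, Complex.sq_norm, Complex.normSq_apply]; ring
        exact (pow_eq_one_iff_of_nonneg (norm_nonneg _) two_ne_zero).1 h3
      have h2 : ((D.κ * (T - 0) : ℝ) : ℂ) * D.qq 0 (θ 0) (v 0) (w 0) =
          D.UU 0 (p T) (θ T) - D.UU 0 (p 0) (θ 0) := by rw [h1]; ring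
      have h3 := congrArg norm h2
      rw [norm_mul, hq, mul_one, Complex.norm_real, sub_zero, norm_mul,
        Real.norm_of_nonneg hTpos.le, Real.norm_of_nonpos hκ.le] at h3
      have h4 : -D.κ * T = 2 * D.R D.pf + 1 := by
        have hk1 : -D.κ ≠ 0 := neg_ne_zero.2 hκ.ne
        rw [hT]; exact mul_div_cancel₀ _ hk1
      have h5 := norm_sub_le (D.UU 0 (p T) (θ T)) (D.UU 0 (p 0) (θ 0))
      rw [hn _ _ (hR T), hn _ _ (hR 0)] at h5
      have h6 : ∀ t, D.R (p t) ≤ D.R D.pf := by
        intro t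
        rcases eq_or_lt_of_le (hcon t) with h7 | h7
        · rw [h7]
        · exact (D.R_antiI hκ ⟨le_rfl, D.pf_lt_ℓI.le⟩ ⟨h7.le, (hpos t).2⟩ h7).le
      linarith [h6 T, h6 0]
    obtain ⟨t₀, ht₀⟩ := hex
    obtain ⟨t₁, ht₁, hpt⟩ := hpp.exists_mem_Ico hL t₀ tM
    rw [hpt] at ht₀
    have hLM : tM < tM + L := by linarith
    have hA1 := harc tM (tM + L) hLM
    have hpL : p (tM + L) = p tM := hpp tM
    obtain ⟨s₁, s₂, g1, g2, g3, g4, g5, g6, g7⟩ := exists_visitI (a := tM) (b := tM + L)
      hcp.continuousOn hcase.le (by rw [hpL]; exact hcase.le) (Ico_subset_Icc_self ht₁) ht₀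
    have hs12 : s₁ < s₂ := g2.trans g3
    have hvis := C.visL' (harc s₁ s₂ hs12) g5 g6 g7
    -- v at s₂
    have hRfpos : 0 < D.R D.pf := D.posR _ ⟨D.pf_posI, D.pf_lt_ℓI.le⟩
    have hRM : D.R (p tM) < D.R D.pf :=
      D.R_antiI hκ ⟨le_rfl, D.pf_lt_ℓI.le⟩ ⟨hcase.le, (hpos tM).2⟩ hcase
    have hK1 := hK s₁
    have hK2 := hK s₂
    rw [g5] at hK1
    rw [g6] at hK2
    have hww : w s₂ = w s₁ := mul_left_cancel₀ hRfpos.ne' (hK2.trans hK1.symm)
    have hv2ne : v s₂ ≠ 0 := by
      intro h0
      have hu := (hE s₂).2.unit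
      rw [h0] at hu
      have h1 : |w s₂| = 1 := by
        have : |w s₂| ^ 2 = 1 := by rw [sq_abs]; linarith
        exact (pow_eq_one_iff_of_nonneg (abs_nonneg _) two_ne_zero).1 this
      have h2 := congrArg abs hK2
      rw [abs_mul, abs_mul, h1, hwM', mul_one, mul_one, abs_of_pos hRfpos, abs_of_pos (hR tM)]
        at h2
      linarith
    have hv2pos : 0 < v s₂ := by
      rcases lt_or_gt_of_ne hv2ne with h1 | h1
      · exfalso
        obtain ⟨δ, hδ, h2⟩ := left_posI (hdp s₂) (div_neg_of_neg_of_pos h1 (hA s₂))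
        have h3 : max (s₂ - δ) s₁ < s₂ := max_lt (by linarith) hs12
        obtain ⟨t, ht⟩ := exists_between h3
        have h4 := h2 t ⟨(le_max_left _ _).trans_lt ht.1, ht.2⟩
        have h5 := g7 t ⟨(le_max_right _ _).trans_lt ht.1, ht.2⟩
        rw [g6] at h4
        linarith
      · exact h1
    obtain ⟨δ, hδ, hright⟩ := right_posI (hdp s₂) (div_pos hv2pos (hA s₂))
    rw [g6] at hright
    -- the next time in the cap
    have ht1L : s₂ ≤ t₁ + L := by linarith [ht₁.1]
    have hp1L : p (t₁ + L) = p t₁ := hpp t₁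
    have hδ1 : s₂ + δ / 2 ≤ t₁ + L := by
      by_contra hcon
      push Not at hcon
      rcases eq_or_lt_of_le ht1L with h1 | h1
      · rw [← h1, g6] at hp1L; linarith
      · have := hright (t₁ + L) ⟨h1, by linarith⟩
        rw [hp1L] at this
        linarith
    set S := {t ∈ Icc (s₂ + δ / 2) (t₁ + L) | p t ≤ D.pf} with hS
    have hSc : IsCompact S := by
      have : S = Icc (s₂ + δ / 2) (t₁ + L) ∩ p ⁻¹' (Iic D.pf) := by ext t; simp [hS]
      rw [this]
      exact isCompact_Icc.inter_right (isClosed_Iic.preimage hcp)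
    have hSne : S.Nonempty := ⟨t₁ + L, ⟨hδ1, le_rfl⟩, by rw [hp1L]; exact ht₀.le⟩
    have hmem := hSc.sInf_mem hSne
    set s₃ := sInf S
    have hs23 : s₂ < s₃ := by linarith [hmem.1.1]
    have habove : ∀ t ∈ Ioo s₂ s₃, D.pf < p t := by
      intro t ht
      rcases lt_or_ge t (s₂ + δ) with h2 | h2
      · exact hright t ⟨ht.1, h2⟩
      · by_contra hcon
        push Not at hcon
        have : t ∈ S := ⟨⟨by linarith, ht.2.le.trans hmem.1.2⟩, hcon⟩
        exact absurd (csInf_le hSc.bddBelow this) (not_le.2 ht.2)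
    have hp3 : p s₃ = D.pf := by
      apply le_antisymm hmem.2
      have h1 : ∀ᶠ t in 𝓝[<] s₃, D.pf ≤ p t := by
        filter_upwards [Ioo_mem_nhdsLT hs23] with t ht
        exact (habove t ht).le
      exact ge_of_tendsto ((hcp.tendsto s₃).mono_left nhdsWithin_le_nhds) h1
    have hflat : ∀ t ∈ Icc s₂ s₃, D.pf ≤ p t := by
      intro t ht
      rcases eq_or_lt_of_le ht.1 with h1 | h1
      · rw [← h1, g6]
      rcases eq_or_lt_of_le ht.2 with h2 | h2
      · rw [h2, hp3]
      exact (habove t ⟨h1, h2⟩).le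
    have hRv := (harc s₂ s₃ hs23).flat_RvI hflat (t := s₃) ⟨hs23.le, le_rfl⟩
    rw [hp3, g6] at hRv
    have hK3 := hK s₃
    rw [hp3] at hK3
    have hww3 : w s₃ = w s₂ := mul_left_cancel₀ hRfpos.ne' (hK3.trans hK2.symm)
    have hvv : v s₃ ^ 2 = v s₂ ^ 2 := by
      have u1 := (hE s₃).2.unit
      have u2 := (hE s₂).2.unit
      rw [hww3] at u1
      linarith
    have hv3 : v s₃ = -v s₂ := by
      rcases sq_eq_sq_iff_eq_or_eq_neg.1 hvv with h1 | h1
      · exfalso
        rw [h1] at hRv
        have : D.κ * (s₃ - s₂) < 0 := mul_neg_of_neg_of_pos hκ (by linarith)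
        linarith
      · exact h1
    rw [hv3] at hRv
    have hsqrt : √(D.R D.pf ^ 2 - (D.R D.pf * w s₁) ^ 2) = D.R D.pf * v s₂ := by
      have u2 := (hE s₂).2.unit
      have : D.R D.pf ^ 2 - (D.R D.pf * w s₁) ^ 2 = (D.R D.pf * v s₂) ^ 2 := by
        rw [← hww]
        linear_combination (D.R D.pf ^ 2) * (-u2)
      rw [this, Real.sqrt_sq (mul_pos hRfpos hv2pos).le]
    rw [hsqrt] at hvis
    have hdur : 2 / (-D.κ) * (D.R D.pf * v s₂) = s₃ - s₂ := by
      have : 2 * (D.R D.pf * v s₂) = (s₃ - s₂) * (-D.κ) := by linarith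
      rw [div_mul_eq_mul_div, this, mul_div_assoc, div_self hk.ne', mul_one]
    rw [hdur] at hvis
    -- the period is at least s₃ - s₁
    have hfin : s₃ ≤ s₁ + L := by
      by_contra hcon
      push Not at hcon
      have h1 : p (s₁ + L) = D.pf := by rw [hpp s₁, g5]
      rcases lt_trichotomy (s₁ + L) s₂ with h2 | h2 | h2
      · have := g7 (s₁ + L) ⟨by linarith, h2⟩
        linarith
      · -- just after
        have h3 : s₂ < min (s₂ + δ) (s₂ + (s₂ - s₁)) := lt_min (by linarith) (by linarith)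
        obtain ⟨t, ht⟩ := exists_between h3
        have h4 := hright t ⟨ht.1, ht.2.trans_le (min_le_left _ _)⟩
        have h5 : t - L ∈ Ioo s₁ s₂ :=
          ⟨by linarith [ht.1], by linarith [ht.2.trans_le (min_le_right _ _)]⟩
        have h6 := g7 (t - L) h5
        have h7 : p t = p (t - L) := by
          have := hpp (t - L)
          rw [sub_add_cancel] at this
          exact this
        rw [h7] at h4
        linarith
      · have := habove (s₁ + L) ⟨h2, hcon⟩
        linarith
    linarith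

/-- one contact, periodic: from the contact law -/
theorem one_contact (C : CapsJ D) (h : Exc D a b p θ v w) (m : ℤ)
    (hc : Contact D (θ b) (v b) (w b) (θ a + m * (2 * Real.pi)) (v a) (w a)) :
    2 * Real.pi ≤ b - a := by
  rcases hc with ⟨c₀, n, hfoot, hθ, _, hvw⟩ | ⟨_, jm, jp, Xm, Xp, h1, h2, h3, h4, h5, h6, h7, h8, h9⟩
  · refine C.closeF (c := c₀) (n := n - m) h.arc h.pa h.pb h.ins hfoot ?_ ?_
    · push_cast
      linarith
    · have hθa : θ a = -θ b + 2 * Real.pi * ((n - m : ℤ) : ℝ) := by push_cast; linarith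
      unfold QD.qq
      rw [hvw, hθa]
      have e1 : D.κ * (-θ b + 2 * Real.pi * ((n - m : ℤ) : ℝ) -
          (-c₀ + 2 * Real.pi * ((n - m : ℤ) : ℝ))) = -(D.κ * (θ b - c₀)) := by ring
      rw [e1]
      have e2 : (2 * D.κ * (θ b - c₀) : ℝ) = D.κ * (θ b - c₀) + D.κ * (θ b - c₀) := by ring
      rw [e2]
      set X := D.κ * (θ b - c₀)
      have e3 : Complex.exp (((-X : ℝ) : ℂ) * Complex.I) *
          Complex.exp (((X + X : ℝ) : ℂ) * Complex.I) = Complex.exp ((X : ℂ) * Complex.I) := by
        rw [← Complex.exp_add]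
        congr 1
        push_cast
        ring
      rw [mul_neg, ← mul_assoc, e3]
  · have hgap : ∀ k : ℤ, Real.pi ≤ |Xm + 2 * D.αQ * jm - (Xp + 2 * D.αQ * jp) + k * (4 * D.αQ)| := by
      intro k
      refine h9.trans ?_
      unfold angleGap
      exact ciInf_le ⟨0, by rintro _ ⟨n, rfl⟩; exact abs_nonneg _⟩ k
    refine C.closeQ (jm := jm) (jp := jp - 2 * m) (Xm := Xm) (Xp := Xp) h.arc h.pa h.pb h.ins
      h1 ?_ h3 h4 h5 h6 h7 h8 ?_ ?_
    · push_cast
      linarith
    · intro he
      have he' : Even (jm - jp) := by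
        have e : jm - jp = (jm - (jp - 2 * m)) - 2 * m := by ring
        rw [e]
        exact he.sub (even_two_mul m)
      obtain ⟨k, hk⟩ := he'
      have h10 := hgap (-k)
      have e : Xm + 2 * D.αQ * jm - (Xp + 2 * D.αQ * jp) + ((-k : ℤ) : ℝ) * (4 * D.αQ) = Xm - Xp := by
        have : (jm : ℝ) - jp = k + k := by exact_mod_cast hk
        push_cast
        linear_combination (2 * D.αQ) * this
      rwa [e] at h10
    · intro ho
      have ho' : Odd (jm - jp) := by
        have e : jm - jp = (jm - (jp - 2 * m)) - 2 * m := by ring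
        rw [e]
        exact ho.sub_even (even_two_mul m)
      obtain ⟨k, hk⟩ := ho'
      have hk' : (jm : ℝ) - jp = 2 * k + 1 := by exact_mod_cast hk
      have h10 := hgap (-k)
      have h11 := hgap (-k - 1)
      have e1 : Xm + 2 * D.αQ * jm - (Xp + 2 * D.αQ * jp) + ((-k : ℤ) : ℝ) * (4 * D.αQ) =
          Xm - Xp + 2 * D.αQ := by
        push_cast
        linear_combination (2 * D.αQ) * hk'
      have e2 : Xm + 2 * D.αQ * jm - (Xp + 2 * D.αQ * jp) + ((-k - 1 : ℤ) : ℝ) * (4 * D.αQ) =
          Xm - Xp - 2 * D.αQ := by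
        push_cast
        linear_combination (2 * D.αQ) * hk'
      rw [e1] at h10
      rw [e2] at h11
      have h12 := abs_lt.1 h3
      have h13 := abs_lt.1 h4
      rw [abs_of_pos (by linarith)] at h10
      rw [abs_of_neg (by linarith)] at h11
      rw [abs_le]
      constructor <;> linarith

end CapsJ

/-- **Class I, lower bound** -/
theorem ilow_proof : Stmt_ILOW := by
  intro D C0 L hG
  have C := C0.toJ
  obtain ⟨hL, hF | ⟨n, τ, p, θ, v, w, hn, hmono, hτ, hexc, hcon, hper, hperθ⟩⟩ := hG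
  · exact C.free hL hF
  have hvis : ∀ i, Real.pi ≤ τ (i + 1) - τ i := fun i =>
    (C.one_visit (hexc i).arc (hexc i).pa (hexc i).pb (hexc i).ins).1
  rcases Nat.lt_or_ge n 2 with h2 | h2
  · have hn1 : n = 1 := by omega
    subst hn1
    obtain ⟨m, hm⟩ := hperθ 0
    have hτ1 : τ 1 = τ 0 + L := by simpa using hτ 0
    have h0I : τ 0 ∈ Icc (τ 0) (τ (0 + 1)) := ⟨le_rfl, (hmono (by norm_num)).le⟩
    obtain ⟨_, hv1, hw1⟩ := hper 0 (τ 0) h0I
    have hθ1 := hm (τ 0) h0I
    have hc := hcon 0
    simp only [zero_add] at hv1 hw1 hθ1 hc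
    rw [hτ1] at hc
    rw [hv1, hw1, hθ1] at hc
    have hex := hexc 0
    simp only [zero_add] at hex
    rw [hτ1] at hex
    have := C.one_contact hex m hc
    linarith
  · have h3 : τ 2 ≤ τ n := hmono.monotone h2
    have h4 : τ n = τ 0 + L := by simpa using hτ 0
    have h5 := hvis 0
    have h6 := hvis 1
    simp only [zero_add] at h5
    have h7 : τ (1 + 1) = τ 2 := rfl
    rw [h7] at h6
    linarith

end Pool.MP8e
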