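import Pool.Agent.Work.MP_8e9dbb.B.ClassI

/-!
# MP_8e9dbb_gt, part B, class I: one passage through `Q`
-/

open MeasureTheory Filter Topology Metric Set
open scoped ContDiff

namespace Pool.MP8e

/-- a continuous function with `g a = 0` and `sin g > 0` on `(a, s]` stays in `(0, π)` -/
theorem mem_of_sin_posI {g : ℝ → ℝ} {a s : ℝ} (has : a < s) (hg : ContinuousOn g (Icc a s))
    (h0 : g a = 0) (hs : ∀ t ∈ Ioc a s, 0 < Real.sin (g t)) : 0 < g s ∧ g s < Real.pi := by
  have hpi := Real.pi_pos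
  have hss := hs s ⟨has, le_rfl⟩
  have hupper : g s < Real.pi := by
    by_contra hcon
    push Not at hcon
    obtain ⟨t, ht, h1⟩ := intermediate_value_Icc has.le hg
      (show Real.pi ∈ Icc (g a) (g s) from ⟨by rw [h0]; exact hpi.le, hcon⟩)
    rcases eq_or_lt_of_le ht.1 with h2 | h2
    · rw [← h2, h0] at h1; exact hpi.ne h1
    · have := hs t ⟨h2, ht.2⟩
      rw [h1, Real.sin_pi] at this
      exact lt_irrefl _ this
  refine ⟨?_, hupper⟩
  by_contra hcon
  push Not at hcon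
  have h1 : g s < -Real.pi / 2 := by
    by_contra h2
    push Not at h2
    have : Real.sin (g s) ≤ 0 :=
      Real.sin_nonpos_of_nonpos_of_neg_pi_le hcon (by linarith)
    linarith
  obtain ⟨t, ht, h2⟩ := intermediate_value_Icc' has.le hg
    (show -Real.pi / 2 ∈ Icc (g s) (g a) from ⟨h1.le, by rw [h0]; linarith⟩)
  rcases eq_or_lt_of_le ht.1 with h3 | h3
  · rw [← h3, h0] at h2; linarith
  · have := hs t ⟨h3, ht.2⟩
    rw [h2, neg_div, Real.sin_neg, Real.sin_pi_div_two] at this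
    linarith

namespace Arc

variable {D : QD} {a b : ℝ} {p θ v w : ℝ → ℝ}

/-- A ray leaving `Q` with the angle `x ∈ (0, π)` with the axis, until `p = pf`. -/
theorem rayQI (hκ : D.κ < 0) (h : Arc D a b p θ v w) (hf : ∀ t ∈ Icc a b, D.pf ≤ p t)
    (hpa : D.pf < p a) (hpb : p b = D.pf) {x : ℝ} (hx0 : 0 < x) (hxpi : x < Real.pi)
    (hv : v a = -Real.cos x) (hw : w a = Real.sin x) :
    -D.κ * (θ b - θ a) = x - Real.arcsin (w b) ∧
    -D.κ * (b - a) = √(D.R D.pf ^ 2 - (D.R D.pf * w b) ^ 2) - D.R (p a) * Real.cos x := by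
  have hab := h.lt
  have hpi := Real.pi_pos
  have haI : a ∈ Icc a b := ⟨le_rfl, hab.le⟩
  have hbI : b ∈ Icc a b := ⟨hab.le, le_rfl⟩
  have hk : 0 < -D.κ := neg_pos.2 hκ
  have hsx : 0 < Real.sin x := Real.sin_pos_of_pos_of_lt_pi hx0 hxpi
  set c := θ a with hc
  have hq_re : (D.qq c (θ a) (v a) (w a)).re = -Real.cos x := by
    rw [QD.qq_reI, hc, sub_self, mul_zero, Real.cos_zero, Real.sin_zero, hv]; ring
  have hq_im : (D.qq c (θ a) (v a) (w a)).im = Real.sin x := by
    rw [QD.qq_imI, hc, sub_self, mul_zero, Real.cos_zero, Real.sin_zero, hw]; ring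
  set g : ℝ → ℝ := fun t => -D.κ * (θ t - c) with hg
  have hcosg : ∀ t ∈ Icc a b, D.R (p t) * Real.cos (g t) =
      D.R (p a) + -D.κ * (t - a) * Real.cos x := by
    intro t ht
    have h1 := h.flat_reI hf c ht
    rw [hq_re, hc, sub_self, mul_zero, Real.cos_zero] at h1
    have h2 : g t = -(D.κ * (θ t - θ a)) := by rw [hg, hc]; ring
    rw [h2, Real.cos_neg]
    linarith
  have hsing : ∀ t ∈ Icc a b, D.R (p t) * Real.sin (g t) = -D.κ * (t - a) * Real.sin x := by
    intro t ht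
    have h1 := congrArg Complex.im (h.flat_UI hf c ht)
    rw [QD.UU_imI, Complex.add_im, QD.UU_imI, Complex.im_ofReal_mul, hq_im] at h1
    rw [hc, sub_self, mul_zero, Real.sin_zero] at h1
    have h2 : g t = -(D.κ * (θ t - θ a)) := by rw [hg, hc]; ring
    rw [h2, Real.sin_neg]
    linarith
  have hgc : ContinuousOn g (Icc a b) :=
    (h.cθ.sub continuousOn_const).const_mul (-D.κ) |>.congr (fun _ _ => rfl)
  have hga : g a = 0 := by rw [hg]; simp only; rw [hc, sub_self, mul_zero]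
  obtain ⟨hg0, hgpi⟩ := mem_of_sin_posI hab hgc hga (by
    intro t ht
    have ht' : t ∈ Icc a b := ⟨ht.1.le, ht.2⟩
    have h1 : 0 < D.R (p t) * Real.sin (g t) := by
      rw [hsing t ht']
      exact mul_pos (mul_pos hk (by linarith [ht.1])) hsx
    exact (mul_pos_iff_of_pos_left (h.RposI ht')).1 h1)
  have e1 := hcosg b hbI
  have e2 := hsing b hbI
  rw [hpb] at e1 e2
  set ρ := D.R (p a) with hρ
  set Rf := D.R D.pf with hRf
  have hRfpos : 0 < Rf := by rw [hRf, ← hpb]; exact h.RposI hbI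
  have hρpos : 0 < ρ := h.RposI haI
  have hlt : ρ < Rf := D.R_antiI hκ ⟨le_rfl, D.pf_lt_ℓI.le⟩ ⟨hpa.le, (h.pos a haI).2⟩ hpa
  have hK : Rf * w b = ρ * Real.sin x := by
    have := h.clairautI hbI
    rw [hpb, hw] at this
    exact this
  have f1 : Rf * Real.cos (x - g b) = ρ * Real.cos x + -D.κ * (b - a) := by
    rw [Real.cos_sub]
    have := Real.sin_sq_add_cos_sq x
    calc Rf * (Real.cos x * Real.cos (g b) + Real.sin x * Real.sin (g b))
        = Real.cos x * (Rf * Real.cos (g b)) + Real.sin x * (Rf * Real.sin (g b)) := by ring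
      _ = ρ * Real.cos x + -D.κ * (b - a) := by
          rw [e1, e2]
          linear_combination (-D.κ * (b - a)) * this
  have f2 : Rf * Real.sin (x - g b) = ρ * Real.sin x := by
    rw [Real.sin_sub]
    calc Rf * (Real.sin x * Real.cos (g b) - Real.cos x * Real.sin (g b))
        = Real.sin x * (Rf * Real.cos (g b)) - Real.cos x * (Rf * Real.sin (g b)) := by ring
      _ = ρ * Real.sin x := by
          rw [e1, e2]; ring
  have f3 : Real.sin (x - g b) = w b := by
    have : Rf * Real.sin (x - g b) = Rf * w b := by rw [f2, hK]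
    exact mul_left_cancel₀ hRfpos.ne' this
  have hkτ : 0 < -D.κ * (b - a) := mul_pos hk (by linarith)
  have hsq : (Rf * Real.cos (x - g b)) ^ 2 = Rf ^ 2 - (Rf * w b) ^ 2 := by
    rw [← f3]
    have := Real.sin_sq_add_cos_sq (x - g b)
    linear_combination (Rf ^ 2) * this
  have hnn : 0 ≤ Rf * Real.cos (x - g b) := by
    by_contra hcon
    push Not at hcon
    rw [f1] at hcon
    have g1 : (ρ * Real.cos x + -D.κ * (b - a)) ^ 2 < (ρ * Real.cos x) ^ 2 := by
      rw [sq_lt_sq, abs_of_neg hcon, abs_of_neg (by linarith : ρ * Real.cos x < 0)]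
      linarith
    rw [← f1, hsq, hK] at g1
    have g2 := Real.sin_sq_add_cos_sq x
    have g3 : Rf ^ 2 < ρ ^ 2 := by
      calc Rf ^ 2 < (ρ * Real.cos x) ^ 2 + (ρ * Real.sin x) ^ 2 := by linarith
        _ = ρ ^ 2 := by linear_combination (ρ ^ 2) * g2
    have g4 : ρ ^ 2 < Rf ^ 2 := by
      apply pow_lt_pow_left₀ hlt hρpos.le two_ne_zero
    linarith
  have hcnn : 0 ≤ Real.cos (x - g b) := by
    by_contra hcon
    push Not at hcon
    have := mul_neg_of_pos_of_neg hRfpos hcon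
    linarith
  have hrange : -(Real.pi / 2) ≤ x - g b ∧ x - g b ≤ Real.pi / 2 := by
    constructor
    · by_contra hcon
      push Not at hcon
      have h1 : Real.cos (-(x - g b)) < 0 :=
        Real.cos_neg_of_pi_div_two_lt_of_lt (by linarith) (by linarith)
      rw [Real.cos_neg] at h1
      linarith
    · by_contra hcon
      push Not at hcon
      have h1 : Real.cos (x - g b) < 0 :=
        Real.cos_neg_of_pi_div_two_lt_of_lt hcon (by linarith)
      linarith
  constructor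
  · have h1 : Real.arcsin (w b) = x - g b := by
      rw [← f3, Real.arcsin_sin hrange.1 hrange.2]
    rw [h1, hg]
    ring
  · have h1 : √(Rf ^ 2 - (Rf * w b) ^ 2) = Rf * Real.cos (x - g b) := by
      rw [← hsq, Real.sqrt_sq hnn]
    rw [h1, f1]; ring

end Arc

namespace CapsJ

variable {D : QD} {a b : ℝ} {p θ v w : ℝ → ℝ}

theorem βh_QI (D : QD) (j : ℤ) : D.βh (Real.pi / 2 + j * Real.pi) = D.β (Real.pi / 2) := by
  unfold QD.βh
  rw [fold_add_intI, fold_of_memI ⟨by linarith [Real.pi_pos], le_rfl⟩]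

theorem closeQ_pos (C : CapsJ D) (h : Arc D a b p θ v w) (ha : p a = D.βh (θ a))
    (hb : p b = D.βh (θ b)) (hi : ∀ t ∈ Ioo a b, p t < D.βh (θ t)) {jm jp : ℤ} {Xm Xp : ℝ}
    (hθb : θ b = Real.pi / 2 + jm * Real.pi) (hθa : θ a = Real.pi / 2 + jp * Real.pi)
    (hXm : |Xm| < D.αQ) (hXp : |Xp| < D.αQ) (hvb : v b = Real.cos Xm) (hwb : w b = -Real.sin Xm)
    (hva : v a = -Real.cos Xp) (hwa : w a = Real.sin Xp)
    (heven : Even (jm - jp) → Real.pi ≤ |Xm - Xp|)
    (hodd : Odd (jm - jp) → |Xm - Xp| ≤ 2 * D.αQ - Real.pi)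
    (hw : 0 < w a) : 2 * Real.pi ≤ b - a := by
  have hκ := C.κ_neg
  have hpi := Real.pi_pos
  have hcl := D.classII hκ
  have hk : 0 < -D.κ := neg_pos.2 hκ
  have hk1 : -D.κ ≤ 1 := by linarith [D.κ_geI]
  obtain ⟨_, h0 | ⟨s₁, s₂, hs1, hs12, hs2, hp1, hp2, hcap, hfl, hfr⟩⟩ := C.one_visit h ha hb hi
  · exact h0
  have hab := h.lt
  have haI : a ∈ Icc a b := ⟨le_rfl, hab.le⟩
  have hbI : b ∈ Icc a b := ⟨hab.le, le_rfl⟩
  have hs1I : s₁ ∈ Icc a b := ⟨hs1.le, (hs12.trans hs2).le⟩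
  have hs2I : s₂ ∈ Icc a b := ⟨(hs1.trans hs12).le, hs2.le⟩
  have hαQ : D.αQ < Real.pi := by
    unfold QD.αQ
    have : -D.κ * (Real.pi / 2 - D.θf) ≤ 1 * (Real.pi / 2 - D.θf) :=
      mul_le_mul_of_nonneg_right hk1 (by linarith [hcl.2])
    linarith [hcl.1]
  rw [abs_lt] at hXm hXp
  -- signs of the angles
  have hwb0 : 0 < w b := h.w_signI haI hbI hw
  have hXp0 : 0 < Xp := by
    by_contra hcon
    push Not at hcon
    have := Real.sin_nonpos_of_nonpos_of_neg_pi_le hcon (by linarith)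
    linarith
  have hXm0 : 0 < -Xm := by
    by_contra hcon
    push Not at hcon
    have := Real.sin_nonneg_of_nonneg_of_le_pi (x := Xm) (by linarith) (by linarith)
    linarith
  -- the two rays
  have hpaQ : p a = D.β (Real.pi / 2) := by rw [ha, hθa, βh_QI]
  have hpbQ : p b = D.β (Real.pi / 2) := by rw [hb, hθb, βh_QI]
  have hpa : D.pf < p a := by rw [ha]; exact D.βh_gtI _
  have hpb : D.pf < p b := by rw [hb]; exact D.βh_gtI _
  obtain ⟨r1, r2⟩ := (h.restrictI le_rfl hs1 hs1I.2).rayQI hκ hfl hpa hp1 hXp0 (by linarith)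
    hva hwa
  have harc2 := (h.restrictI (hs1.trans hs12).le hs2 le_rfl).revI.reflI
  have hq := harc2.rayQI hκ (x := -Xm)
    (fun t ht => hfr (-t) ⟨by linarith [ht.2], by linarith [ht.1]⟩)
    (by simpa using hpb) (by simpa using hp2) hXm0 (by linarith)
    (by simp [hvb]) (by simp [hwb])
  simp only [neg_neg] at hq
  obtain ⟨r3, r4⟩ := hq
  have hww : w s₂ = w s₁ := by
    have g1 := h.clairautI hs1I
    have g2 := h.clairautI hs2I
    rw [hp1] at g1
    rw [hp2] at g2
    have hR : 0 < D.R D.pf := by rw [← hp1]; exact h.RposI hs1I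
    have : D.R D.pf * w s₂ = D.R D.pf * w s₁ := by rw [g2, g1]
    exact mul_left_cancel₀ hR.ne' this
  rw [hww] at r3 r4
  have hcap' : Cap D s₁ s₂ p θ v w := ⟨h.restrictI hs1.le hs12 hs2.le, hp1, hp2, hcap,
    fun t ht => h.w_signI haI ⟨hs1.le.trans ht.1, ht.2.trans hs2.le⟩ hw⟩
  have hsin : Real.sin Xp = Real.sin (-Xm) := by
    have g := h.clairautI hbI
    rw [hpbQ, hpaQ, hwb, hwa] at g
    have hR : 0 < D.R (D.β (Real.pi / 2)) := by rw [← hpaQ]; exact h.RposI haI
    rw [Real.sin_neg]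
    exact (mul_left_cancel₀ hR.ne' g).symm
  have habs : |Xm - Xp| = Xp + -Xm := by
    rw [abs_of_neg (by linarith)]; ring
  rw [habs] at heven hodd
  set y := -Xm with hy
  set K := √(D.R D.pf ^ 2 - (D.R D.pf * w s₁) ^ 2) with hKdef
  rcases Int.even_or_odd (jm - jp) with he | ho
  · -- same sheet: the length is at least the length without hole
    have h1 := heven he
    have hcos : Real.cos Xp + Real.cos y ≤ 0 := by
      rw [Real.cos_add_cos]
      have c1 : Real.cos ((Xp + y) / 2) ≤ 0 :=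
        Real.cos_nonpos_of_pi_div_two_le_of_le (by linarith) (by linarith)
      have c2 : 0 ≤ Real.cos ((Xp - y) / 2) :=
        Real.cos_nonneg_of_mem_Icc ⟨by linarith, by linarith⟩
      nlinarith
    have h2 := C.visL s₁ s₂ p θ v w hcap'
    have h3 : -D.κ * ((s₁ - a) + (b - s₂)) ≥ 2 * K := by
      have hR : 0 < D.R (p a) := h.RposI haI
      have hRab : D.R (p b) = D.R (p a) := by rw [hpaQ, hpbQ]
      have r4' : -D.κ * (b - s₂) = K - D.R (p a) * Real.cos y := by
        rw [← hRab]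
        have e : -s₂ - -b = b - s₂ := by ring
        rw [e] at r4
        exact r4
      nlinarith
    have h4 : 2 / (-D.κ) * K ≤ (s₁ - a) + (b - s₂) := by
      rw [div_mul_eq_mul_div, div_le_iff₀ hk]
      linarith
    linarith
  · -- opposite sheets
    exfalso
    have h1 := hodd ho
    have hα : 2 * D.αQ - Real.pi = 2 * (-D.κ * (Real.pi / 2 - D.θf)) := by
      unfold QD.αQ; ring
    rw [hα] at h1
    have h2 : -D.κ * (Real.pi / 2 - D.θf) ≤ 1 * (Real.pi / 2 - D.θf) :=
      mul_le_mul_of_nonneg_right hk1 (by linarith [hcl.2])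
    have hxy : Xp = y := by
      have h3 : Real.sin Xp - Real.sin y = 0 := by rw [hsin, sub_self]
      rw [Real.sin_sub_sin] at h3
      have c1 : 0 < Real.cos ((Xp + y) / 2) :=
        Real.cos_pos_of_mem_Ioo ⟨by linarith, by linarith [hcl.1]⟩
      have h4 : Real.sin ((Xp - y) / 2) = 0 := by
        rcases mul_eq_zero.1 h3 with h5 | h5
        · rcases mul_eq_zero.1 h5 with h6 | h6
          · norm_num at h6
          · exact h6
        · exact absurd h5 c1.ne'
      rw [Real.sin_eq_zero_iff_of_lt_of_lt (by linarith) (by linarith)] at h4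
      linarith
    have hX : Xp ≤ -D.κ * (Real.pi / 2 - D.θf) := by
      have : Xp + y = 2 * Xp := by rw [← hxy]; ring
      linarith
    obtain ⟨g1, g2⟩ := C.D3 s₁ s₂ p θ v w hcap' Xp hXp0 hX (by
      have g := h.clairautI hs1I
      rw [hp1, hpaQ, hwa] at g
      exact g)
    have hΦ : D.Φ s₁ s₂ θ w + 2 / (-D.κ) * Xp - Real.pi = (jm - jp - 1) * Real.pi := by
      unfold QD.Φ
      have e1 : θ s₁ - θ a = (Xp - Real.arcsin (w s₁)) / (-D.κ) := by
        rw [eq_div_iff hk.ne']; linarith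
      have e2 : θ b - θ s₂ = (y - Real.arcsin (w s₁)) / (-D.κ) := by
        rw [eq_div_iff hk.ne']; linarith
      have e3 : θ s₂ - θ s₁ = θ b - θ a - (Xp - Real.arcsin (w s₁)) / (-D.κ) -
          (y - Real.arcsin (w s₁)) / (-D.κ) := by linarith
      rw [e3, hθb, hθa, ← hxy]
      have hkne : D.κ ≠ 0 := hκ.ne
      field_simp
      ring
    rw [hΦ] at g1 g2
    obtain ⟨m, hm⟩ := ho
    have hm' : ((jm : ℝ) - jp - 1) = 2 * m := by
      have : ((jm - jp : ℤ) : ℝ) = ((2 * m + 1 : ℤ) : ℝ) := by rw [hm]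
      push_cast at this
      linarith
    rw [hm'] at g1 g2
    have g3 : (0 : ℝ) < m := by
      by_contra hcon
      push Not at hcon
      nlinarith
    have g4 : (m : ℝ) < 1 := by
      by_contra hcon
      push Not at hcon
      nlinarith
    have g5 : (0 : ℤ) < m := by exact_mod_cast g3
    have g6 : m < (1 : ℤ) := by exact_mod_cast g4
    omega

/-- Single contact, at `Q`. -/
theorem closeQ (C : CapsJ D) (h : Arc D a b p θ v w) (ha : p a = D.βh (θ a))
    (hb : p b = D.βh (θ b)) (hi : ∀ t ∈ Ioo a b, p t < D.βh (θ t)) {jm jp : ℤ} {Xm Xp : ℝ}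
    (hθb : θ b = Real.pi / 2 + jm * Real.pi) (hθa : θ a = Real.pi / 2 + jp * Real.pi)
    (hXm : |Xm| < D.αQ) (hXp : |Xp| < D.αQ) (hvb : v b = Real.cos Xm) (hwb : w b = -Real.sin Xm)
    (hva : v a = -Real.cos Xp) (hwa : w a = Real.sin Xp)
    (heven : Even (jm - jp) → Real.pi ≤ |Xm - Xp|)
    (hodd : Odd (jm - jp) → |Xm - Xp| ≤ 2 * D.αQ - Real.pi) : 2 * Real.pi ≤ b - a := by
  obtain ⟨t₀, ht₀, hp₀⟩ := h.exitI C.κ_neg ha hb hi
  have hpa : D.pf < p a := by rw [ha]; exact D.βh_gtI _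
  have hpb : D.pf < p b := by rw [hb]; exact D.βh_gtI _
  have hne : w a ≠ 0 := h.w_neI ht₀ (hp₀.trans hpa) (hp₀.trans hpb) ⟨le_rfl, h.lt.le⟩
  rcases lt_or_gt_of_ne hne with h1 | h1
  · refine C.closeQ_pos (jm := -jm - 1) (jp := -jp - 1) (Xm := -Xm) (Xp := -Xp) h.reflI
      ?_ ?_ ?_ ?_ ?_ ?_ ?_ ?_ ?_ ?_ ?_ ?_ ?_ (by linarith)
    · rw [ha, D.βh_negI]
    · rw [hb, D.βh_negI]
    · intro t ht; rw [D.βh_negI]; exact hi t ht
    · rw [hθb]; push_cast; ring
    · rw [hθa]; push_cast; ring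
    · rwa [abs_neg]
    · rwa [abs_neg]
    · rw [Real.cos_neg]; exact hvb
    · rw [hwb, Real.sin_neg]
    · rw [Real.cos_neg]; exact hva
    · rw [hwa, Real.sin_neg]
    · intro he
      have : |-Xm - -Xp| = |Xm - Xp| := by rw [← abs_neg]; congr 1; ring
      rw [this]
      apply heven
      have e : jm - jp = -(-jm - 1 - (-jp - 1)) := by ring
      rw [e]; exact he.neg
    · intro he
      have : |-Xm - -Xp| = |Xm - Xp| := by rw [← abs_neg]; congr 1; ring
      rw [this]
      apply hodd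
      have e : jm - jp = -(-jm - 1 - (-jp - 1)) := by ring
      rw [e]; exact he.neg
  · exact C.closeQ_pos h ha hb hi hθb hθa hXm hXp hvb hwb hva hwa heven hodd h1

end CapsJ

end Pool.MP8e
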