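import Pool.Agent.Work.MP_8e9dbb.IfaceB

/-! Block CMP: the distance is at most the length of a Lipschitz curve in the strip. -/

open MeasureTheory Filter Topology Metric Set
open scoped ContDiff

namespace Pool.MP8e

namespace CMPAux

theorem nm_le (D : QD) (p : ℝ) (u : ℝ × ℝ) : D.nm p u ≤ (|D.A p| + |D.R p|) * ‖u‖ := by
  unfold QD.nm
  have h1 : |u.1| ≤ ‖u‖ := norm_fst_le u
  have h2 : |u.2| ≤ ‖u‖ := norm_snd_le u
  have h3 : |D.A p * u.1| ≤ |D.A p| * ‖u‖ := by
    rw [abs_mul]
    exact mul_le_mul_of_nonneg_left h1 (abs_nonneg _)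
  have h4 : |D.R p * u.2| ≤ |D.R p| * ‖u‖ := by
    rw [abs_mul]
    exact mul_le_mul_of_nonneg_left h2 (abs_nonneg _)
  have h5 : 0 ≤ (|D.A p| + |D.R p|) * ‖u‖ := by positivity
  rw [Real.sqrt_le_left h5, ← sq_abs (D.A p * u.1), ← sq_abs (D.R p * u.2)]
  have h6 := abs_nonneg (D.A p * u.1)
  have h7 := abs_nonneg (D.R p * u.2)
  nlinarith [mul_nonneg h6 h7]

theorem nm_nonneg (D : QD) (p : ℝ) (u : ℝ × ℝ) : 0 ≤ D.nm p u := Real.sqrt_nonneg _

theorem nm_smul (D : QD) (p : ℝ) (c : ℝ) (u : ℝ × ℝ) : D.nm p (c • u) = |c| * D.nm p u := by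
  unfold QD.nm
  rw [← Real.sqrt_sq_eq_abs, ← Real.sqrt_mul (sq_nonneg c)]
  congr 1
  simp only [Prod.smul_fst, Prod.smul_snd, smul_eq_mul]
  ring

theorem nm_cont (D : QD) (p : ℝ) : Continuous fun u : ℝ × ℝ => D.nm p u := by
  unfold QD.nm
  fun_prop

/-- uniformly locally Lipschitz curves on an interval are Lipschitz -/
theorem lip_of_loc {X : Type} [MetricSpace X] {γ : ℝ → X} {a b M : ℝ}
    (h : ∀ t ∈ Icc a b, ∃ δ > 0, ∀ s ∈ Icc a b, ∀ s' ∈ Icc a b, |s - t| < δ → |s' - t| < δ →
      dist (γ s) (γ s') ≤ M * |s - s'|) :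
    ∀ s ∈ Icc a b, ∀ s' ∈ Icc a b, dist (γ s) (γ s') ≤ M * |s - s'| := by
  have hcont : ContinuousOn γ (Icc a b) := by
    intro t ht
    obtain ⟨δ, hδ, hM⟩ := h t ht
    rw [Metric.continuousWithinAt_iff]
    intro ε hε
    refine ⟨min δ (ε / (|M| + 1)), lt_min hδ (by positivity), fun {s} hs hst => ?_⟩
    rw [Real.dist_eq] at hst
    have h1 := hM s hs t ht (hst.trans_le (min_le_left _ _)) (by simpa using hδ)
    have h2 : |s - t| < ε / (|M| + 1) := hst.trans_le (min_le_right _ _)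
    calc dist (γ s) (γ t) ≤ M * |s - t| := h1
      _ ≤ (|M| + 1) * |s - t| := by
        apply mul_le_mul_of_nonneg_right _ (abs_nonneg _)
        linarith [le_abs_self M]
      _ < (|M| + 1) * (ε / (|M| + 1)) := by
        apply mul_lt_mul_of_pos_left h2
        positivity
      _ = ε := by
        field_simp
  have key : ∀ s ∈ Icc a b, ∀ s' ∈ Icc s b, dist (γ s) (γ s') ≤ M * (s' - s) := by
    intro s hs
    have hsub : Icc s b ⊆ {u | dist (γ s) (γ u) ≤ M * (u - s)} := by
      apply IsClosed.Icc_subset_of_forall_exists_gt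
      · have h1 : ContinuousOn (fun u => dist (γ s) (γ u) - M * (u - s)) (Icc s b) :=
          (continuous_dist.comp_continuousOn (continuousOn_const.prodMk
            (hcont.mono (Icc_subset_Icc_left hs.1)))).sub
            (by fun_prop)
        have h2 := h1.preimage_isClosed_of_isClosed isClosed_Icc (isClosed_Iic (a := (0 : ℝ)))
        convert h2 using 1
        ext u
        simp only [mem_inter_iff, mem_ofPred_eq, mem_preimage, mem_Iic, sub_nonpos]
        exact and_comm
      · simp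
      · rintro x ⟨hx1, hx2⟩ y hy
        have hxI : x ∈ Icc a b := ⟨hs.1.trans hx2.1, hx2.2.le⟩
        obtain ⟨δ, hδ, hM⟩ := h x hxI
        rw [mem_Ioi] at hy
        refine ⟨min (x + δ / 2) (min y b), ?_, ?_, ?_⟩
        · have e1 : min (x + δ / 2) (min y b) ∈ Icc a b :=
            ⟨le_min (by linarith [hxI.1]) (le_min (by linarith [hxI.1]) (by linarith [hxI.1, hx2.2])),
              (min_le_right _ _).trans (min_le_right _ _)⟩
          have e2 : x < min (x + δ / 2) (min y b) := lt_min (by linarith) (lt_min hy hx2.2)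
          have e3 : |min (x + δ / 2) (min y b) - x| < δ := by
            rw [abs_of_pos (by linarith)]
            have := min_le_left (x + δ / 2) (min y b)
            linarith
          have e4 := hM x hxI _ e1 (by simpa using hδ) e3
          rw [abs_sub_comm, abs_of_pos (by linarith)] at e4
          have e5 : dist (γ s) (γ x) ≤ M * (x - s) := hx1
          have e6 := dist_triangle (γ s) (γ x) (γ (min (x + δ / 2) (min y b)))
          change dist (γ s) (γ (min (x + δ / 2) (min y b))) ≤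
            M * (min (x + δ / 2) (min y b) - s)
          linarith
        · exact lt_min (by linarith) (lt_min hy hx2.2)
        · exact (min_le_right _ _).trans (min_le_left _ _)
    intro s' hs'
    exact hsub hs'
  intro s hs s' hs'
  rcases le_total s s' with hle | hle
  · rw [abs_sub_comm, abs_of_nonneg (by linarith)]
    exact key s hs s' ⟨hle, hs'.2⟩
  · rw [abs_of_nonneg (by linarith), dist_comm]
    exact key s' hs' s ⟨hle, hs.2⟩

theorem main (D : QD) {X : Type} [MetricSpace X] {Pr : ℝ × ℝ → X} (F : Facts D X Pr)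
    {a b : ℝ} (hab : a < b) {p θ : ℝ → ℝ} {Cp Ct : NNReal}
    (hp : LipschitzWith Cp p) (hθ : LipschitzWith Ct θ)
    (hin : ∀ t ∈ Icc a b, D.InS (p t, θ t)) :
    dist (Pr (p a, θ a)) (Pr (p b, θ b)) ≤ ∫ t in a..b, D.nm (p t) (deriv p t, deriv θ t) := by
  have cA := D.smA.continuous
  have cR := D.smR.continuous
  have hc : ContinuousOn (fun t => |D.A (p t)| + |D.R (p t)|) (Icc a b) :=
    ((cA.comp hp.continuous).abs.add (cR.comp hp.continuous).abs).continuousOn
  obtain ⟨B, hB⟩ := (isCompact_Icc (a := a) (b := b)).exists_bound_of_continuousOn hc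
  have hB' : ∀ t ∈ Icc a b, |D.A (p t)| + |D.R (p t)| ≤ B := fun t ht =>
    (le_abs_self _).trans (hB t ht)
  have haI : a ∈ Icc a b := ⟨le_rfl, hab.le⟩
  have hbI : b ∈ Icc a b := ⟨hab.le, le_rfl⟩
  have hB0 : 0 ≤ B := (add_nonneg (abs_nonneg _) (abs_nonneg _)).trans (hB' a haI)
  set K : ℝ := max Cp Ct with hK
  have hK0 : 0 ≤ K := le_max_of_le_left Cp.2
  set x : ℝ → ℝ × ℝ := fun t => (p t, θ t) with hx
  have hxc : Continuous x := hp.continuous.prodMk hθ.continuous
  have hxL : ∀ s s', ‖x s - x s'‖ ≤ K * |s - s'| := by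
    intro s s'
    rw [hx, Prod.mk_sub_mk, Prod.norm_mk]
    apply max_le
    · have := hp.dist_le_mul s s'
      rw [Real.dist_eq, Real.dist_eq] at this
      exact this.trans (mul_le_mul_of_nonneg_right (le_max_left _ _) (abs_nonneg _))
    · have := hθ.dist_le_mul s s'
      rw [Real.dist_eq, Real.dist_eq] at this
      exact this.trans (mul_le_mul_of_nonneg_right (le_max_right _ _) (abs_nonneg _))
  set γ : ℝ → X := fun t => Pr (x t) with hγ
  have hloc : ∀ t ∈ Icc a b, ∃ δ > 0, ∀ s ∈ Icc a b, ∀ s' ∈ Icc a b, |s - t| < δ →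
      |s' - t| < δ → dist (γ s) (γ s') ≤ (B + 1) * K * |s - s'| := by
    intro t ht
    obtain ⟨h1, h2⟩ := hin t ht
    obtain ⟨δ₀, hδ₀, hS⟩ := F.strip (x t) h1 h2 1 one_pos
    obtain ⟨δ, hδ, hδ'⟩ := Metric.continuous_iff.mp hxc t δ₀ hδ₀
    refine ⟨δ, hδ, fun s _ s' _ hs hs' => ?_⟩
    have h3 := hS (x s) (x s') (hδ' s (by rwa [Real.dist_eq])) (hδ' s' (by rwa [Real.dist_eq]))
    have h4 := (abs_le.mp h3).2
    have h5 := nm_le D (x t).1 (x s - x s')
    have h6 := hB' t ht
    have h7 := hxL s s'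
    have h8 : (|D.A (x t).1| + |D.R (x t).1|) * ‖x s - x s'‖ ≤ B * ‖x s - x s'‖ :=
      mul_le_mul_of_nonneg_right h6 (norm_nonneg _)
    have h9 : (B + 1) * ‖x s - x s'‖ ≤ (B + 1) * (K * |s - s'|) :=
      mul_le_mul_of_nonneg_left h7 (by linarith)
    change dist (Pr (x s)) (Pr (x s')) ≤ _
    linarith
  have hL := lip_of_loc hloc
  have hM0 : 0 ≤ (B + 1) * K := by positivity
  set g : ℝ → ℝ := fun t => dist (γ a) (γ t) with hg
  have hgL : LipschitzOnWith (Real.toNNReal ((B + 1) * K)) g (uIcc a b) := by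
    rw [uIcc_of_le hab.le]
    apply LipschitzOnWith.of_dist_le_mul
    intro s hs s' hs'
    rw [Real.coe_toNNReal _ hM0, Real.dist_eq, Real.dist_eq, hg]
    simp only
    have h1 := hL s hs s' hs'
    have h2 : |dist (γ a) (γ s) - dist (γ a) (γ s')| ≤ dist (γ s) (γ s') := by
      rw [dist_comm (γ a), dist_comm (γ a)]
      exact abs_dist_sub_le _ _ _
    exact h2.trans h1
  have hgA := hgL.absolutelyContinuousOnInterval
  have hgi := hgA.integral_deriv_eq_sub
  have hga : g a = 0 := dist_self _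
  have hpA : AbsolutelyContinuousOnInterval p a b :=
    (hp.lipschitzOnWith (s := uIcc a b)).absolutelyContinuousOnInterval
  have hθA : AbsolutelyContinuousOnInterval θ a b :=
    (hθ.lipschitzOnWith (s := uIcc a b)).absolutelyContinuousOnInterval
  have hne : ∀ᵐ t : ℝ, t ≠ b := by simp [ae_iff, measure_singleton]
  have hle : ∀ᵐ t, t ∈ Ioc a b → deriv g t ≤ D.nm (p t) (deriv p t, deriv θ t) := by
    filter_upwards [hgA.ae_differentiableAt, hpA.ae_differentiableAt, hθA.ae_differentiableAt,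
      hne] with t h1 h2 h3 htb htm
    have htI : t ∈ uIcc a b := by
      rw [uIcc_of_le hab.le]
      exact Ioc_subset_Icc_self htm
    have htO : t ∈ Ioo a b := ⟨htm.1, lt_of_le_of_ne htm.2 htb⟩
    have dg := (h1 htI).hasDerivAt
    have dx : HasDerivAt x (deriv p t, deriv θ t) t :=
      (h2 htI).hasDerivAt.prodMk (h3 htI).hasDerivAt
    apply le_of_forall_pos_le_add
    intro ε hε
    set η : ℝ := ε / (‖((deriv p t, deriv θ t) : ℝ × ℝ)‖ + 1) with hη
    have hη0 : 0 < η := by positivity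
    obtain ⟨h4, h5⟩ := hin t (Ioo_subset_Icc_self htO)
    obtain ⟨δ₀, hδ₀, hS⟩ := F.strip (x t) h4 h5 η hη0
    obtain ⟨δ, hδ, hδ'⟩ := Metric.continuous_iff.mp hxc t δ₀ hδ₀
    have t1 := dg.tendsto_slope_zero_right
    have t2 := dx.tendsto_slope_zero_right
    have t3 : Tendsto (fun h : ℝ => D.nm (p t) (h⁻¹ • (x (t + h) - x t)) +
        η * ‖h⁻¹ • (x (t + h) - x t)‖) (𝓝[>] 0)
        (𝓝 (D.nm (p t) (deriv p t, deriv θ t) + η * ‖((deriv p t, deriv θ t) : ℝ × ℝ)‖)) :=
      (((nm_cont D (p t)).tendsto _).comp t2).add ((t2.norm).const_mul η)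
    have h6 : deriv g t ≤ D.nm (p t) (deriv p t, deriv θ t) +
        η * ‖((deriv p t, deriv θ t) : ℝ × ℝ)‖ := by
      refine le_of_tendsto_of_tendsto t1 t3 ?_
      have hmin : 0 < min δ (b - t) := lt_min hδ (sub_pos.mpr htO.2)
      filter_upwards [Ioo_mem_nhdsGT hmin] with h hh
      have hh1 : |t + h - t| < δ := by
        rw [add_sub_cancel_left, abs_of_pos hh.1]
        exact hh.2.trans_le (min_le_left _ _)
      have h7 := hS (x (t + h)) (x t) (hδ' _ (by rwa [Real.dist_eq]))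
        (by rw [dist_self]; exact hδ₀)
      have h8 := (abs_le.mp h7).2
      have h9 : g (t + h) - g t ≤ dist (Pr (x (t + h))) (Pr (x t)) := by
        have := dist_triangle (γ a) (γ t) (γ (t + h))
        rw [hg]
        simp only
        rw [dist_comm (γ t)] at this
        change dist (γ a) (γ (t + h)) - dist (γ a) (γ t) ≤ dist (γ (t + h)) (γ t)
        linarith
      have h10 : D.nm (p t) (h⁻¹ • (x (t + h) - x t)) = h⁻¹ * D.nm (p t) (x (t + h) - x t) := by
        rw [nm_smul, abs_of_pos (inv_pos.mpr hh.1)]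
      have h11 : ‖h⁻¹ • (x (t + h) - x t)‖ = h⁻¹ * ‖x (t + h) - x t‖ := by
        rw [norm_smul, Real.norm_eq_abs, abs_of_pos (inv_pos.mpr hh.1)]
      rw [h10, h11, smul_eq_mul]
      have h12 : (0 : ℝ) < h⁻¹ := inv_pos.mpr hh.1
      have h13 : g (t + h) - g t ≤ D.nm (p t) (x (t + h) - x t) + η * ‖x (t + h) - x t‖ := by
        have : D.nm (x t).1 (x (t + h) - x t) = D.nm (p t) (x (t + h) - x t) := rfl
        linarith
      have h14 := mul_le_mul_of_nonneg_left h13 h12.le
      linarith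
    have h7 : η * ‖((deriv p t, deriv θ t) : ℝ × ℝ)‖ ≤ ε := by
      rw [hη, div_mul_eq_mul_div, div_le_iff₀ (by positivity)]
      have := norm_nonneg ((deriv p t, deriv θ t) : ℝ × ℝ)
      nlinarith
    linarith
  have mA := cA.measurable
  have mR := cR.measurable
  have mp := hp.continuous.measurable
  have mp' := measurable_deriv p
  have mθ' := measurable_deriv θ
  have hni : IntervalIntegrable (fun t => D.nm (p t) (deriv p t, deriv θ t)) volume a b := by
    rw [intervalIntegrable_iff_integrableOn_Ioc_of_le hab.le]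
    have hm : Measurable fun t => D.nm (p t) (deriv p t, deriv θ t) := by
      unfold QD.nm
      fun_prop
    refine Integrable.of_bound hm.aestronglyMeasurable (B * K) ?_
    rw [ae_restrict_iff' measurableSet_Ioc]
    refine Eventually.of_forall fun t ht => ?_
    have h1 := nm_le D (p t) (deriv p t, deriv θ t)
    have h2 := hB' t (Ioc_subset_Icc_self ht)
    have h3 : ‖((deriv p t, deriv θ t) : ℝ × ℝ)‖ ≤ K := by
      rw [Prod.norm_mk]
      exact max_le_max (norm_deriv_le_of_lipschitz hp) (norm_deriv_le_of_lipschitz hθ)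
    rw [Real.norm_eq_abs, abs_of_nonneg (nm_nonneg _ _ _)]
    exact h1.trans (mul_le_mul h2 h3 (norm_nonneg _) hB0)
  have hfin : ∫ t in a..b, deriv g t ≤ ∫ t in a..b, D.nm (p t) (deriv p t, deriv θ t) := by
    apply intervalIntegral.integral_mono_ae_restrict hab.le hgA.intervalIntegrable_deriv hni
    rw [← restrict_Ioc_eq_restrict_Icc]
    rw [EventuallyLE, ae_restrict_iff' measurableSet_Ioc]
    exact hle
  rw [hgi, hga, sub_zero] at hfin
  exact hfin

end CMPAux

open CMPAux in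
theorem cmp_proof : Stmt_CMP := by
  rintro D X _ Pr F a b hab p θ ⟨Cp, hp⟩ ⟨Ct, hθ⟩ hin
  rcases eq_or_lt_of_le hab with rfl | hab
  · rw [dist_self, intervalIntegral.integral_same]
  obtain ⟨P, hP, hPe⟩ := hp.extend_real
  obtain ⟨Q, hQ, hQe⟩ := hθ.extend_real
  have ev : ∀ (f g : ℝ → ℝ), EqOn f g (Icc a b) → ∀ t ∈ Ioo a b, f =ᶠ[𝓝 t] g := by
    intro f g hfg t ht
    filter_upwards [Ioo_mem_nhds ht.1 ht.2] with x hx
    exact hfg (Ioo_subset_Icc_self hx)
  have dP : ∀ t ∈ Ioo a b, deriv P t = deriv p t := fun t ht => (ev p P hPe t ht).deriv_eq.symm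
  have dQ : ∀ t ∈ Ioo a b, deriv Q t = deriv θ t := fun t ht => (ev θ Q hQe t ht).deriv_eq.symm
  have haI : a ∈ Icc a b := ⟨le_rfl, hab.le⟩
  have hbI : b ∈ Icc a b := ⟨hab.le, le_rfl⟩
  have h1 := main D F hab hP hQ (fun t ht => by rw [← hPe ht, ← hQe ht]; exact hin t ht)
  rw [hPe haI, hQe haI, hPe hbI, hQe hbI]
  refine h1.trans (le_of_eq ?_)
  rw [intervalIntegral.integral_of_le hab.le, intervalIntegral.integral_of_le hab.le,
    integral_Ioc_eq_integral_Ioo, integral_Ioc_eq_integral_Ioo]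
  refine setIntegral_congr_fun measurableSet_Ioo fun t ht => ?_
  rw [dP t ht, dQ t ht, ← hPe (Ioo_subset_Icc_self ht)]

end Pool.MP8e
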