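import Mathlib
import Pool.Agent.Work.MP_8e9dbb.IfaceB

/-!
# Block CON: cone points of angle `< 2π` are avoided by geodesics
-/

open MeasureTheory Filter Topology Metric Set
open scoped ContDiff

namespace Pool.MP8e

namespace ConBlk

lemma gap_bdd (α a b : ℝ) : BddBelow (range fun n : ℤ => |a - b + n * α|) :=
  ⟨0, by rintro _ ⟨n, rfl⟩; exact abs_nonneg _⟩

lemma gap_nonneg (α a b : ℝ) : 0 ≤ angleGap α a b := Real.iInf_nonneg fun _ => abs_nonneg _

lemma gap_le_half {α : ℝ} (hα : 0 < α) (a b : ℝ) : angleGap α a b ≤ α / 2 := by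
  refine (ciInf_le (gap_bdd α a b) (-round ((a - b) / α))).trans ?_
  have h := abs_sub_round ((a - b) / α)
  have h2 : a - b + ((-round ((a - b) / α) : ℤ) : ℝ) * α =
      ((a - b) / α - round ((a - b) / α)) * α := by
    push_cast
    field_simp
    ring
  rw [h2, abs_mul, abs_of_pos hα]
  nlinarith

end ConBlk

open ConBlk

theorem blk_CON : Stmt_CON := by
  intro X _ c hc x α hx hα0 hα t ht
  obtain ⟨ε, hε, hgeo⟩ := hc
  obtain ⟨r, hr, ψ, h1, h2, -⟩ := hx
  set s : ℝ := min (ε / 2) (r / 2) with hs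
  have hs0 : 0 < s := lt_min (by linarith) (by linarith)
  have hsε : 2 * s ≤ ε := by
    have := min_le_left (ε / 2) (r / 2)
    rw [← hs] at this; linarith
  have hsr : s < r := by
    have := min_le_right (ε / 2) (r / 2)
    rw [← hs] at this; linarith
  have hy : dist (c (t - s)) x = s := by
    rw [← ht, hgeo]
    · rw [show t - s - t = -s by ring, abs_neg, abs_of_pos hs0]
    · rw [show t - s - t = -s by ring, abs_neg, abs_of_pos hs0]; linarith
  have hz : dist (c (t + s)) x = s := by
    rw [← ht, hgeo]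
    · rw [show t + s - t = s by ring, abs_of_pos hs0]
    · rw [show t + s - t = s by ring, abs_of_pos hs0]; linarith
  have hyz : dist (c (t - s)) (c (t + s)) = 2 * s := by
    rw [hgeo]
    · rw [show t - s - (t + s) = -(2 * s) by ring, abs_neg, abs_of_pos (by linarith)]
    · rw [show t - s - (t + s) = -(2 * s) by ring, abs_neg, abs_of_pos (by linarith)]; exact hsε
  have hyb : c (t - s) ∈ ball x r := by rw [mem_ball, hy]; exact hsr
  have hzb : c (t + s) ∈ ball x r := by rw [mem_ball, hz]; exact hsr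
  have e1 := (h1 _ hyb).2
  have e2 := (h1 _ hzb).2
  have e3 := h2 _ hyb _ hzb
  rw [hy] at e1
  rw [hz] at e2
  rw [hyz, coneDist, ← e1, ← e2] at e3
  have hpi := Real.pi_pos
  have hg := gap_le_half hα0 (ψ (c (t - s))).2 (ψ (c (t + s))).2
  have hg0 := gap_nonneg α (ψ (c (t - s))).2 (ψ (c (t + s))).2
  set g := angleGap α (ψ (c (t - s))).2 (ψ (c (t + s))).2 with hgdef
  have hgpi : g < Real.pi := by linarith
  rw [min_eq_left hgpi.le] at e3
  have hcos : -1 < Real.cos g := by
    rw [← Real.cos_pi]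
    exact Real.cos_lt_cos_of_nonneg_of_le_pi hg0 le_rfl hgpi
  have hlt : √(s ^ 2 + s ^ 2 - 2 * s * s * Real.cos g) < 2 * s := by
    rw [Real.sqrt_lt' (by linarith)]
    nlinarith [mul_pos hs0 hs0]
  linarith

end Pool.MP8e
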