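import Pool.Agent.Work.MP_8e9dbb.IfaceB
import Pool.Agent.Work.MP_8e9dbb.A.Rect

/-!
# MP_8e9dbb_gt, block CRQ: passage of a geodesic through `Q`
-/

open MeasureTheory Filter Topology Metric Set
open scoped ContDiff

namespace Pool.MP8e
namespace CrqAux

/-! ## the angle gap and the law of cosines -/

lemma gap_ge (T a b : ℝ) (hT : 0 < T) :
    T * |(a - b) / T - round ((a - b) / T)| ≤ angleGap T a b := by
  unfold angleGap
  apply le_ciInf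
  intro n
  have h := round_le ((a - b) / T) (-n)
  have e : |a - b + n * T| = T * |(a - b) / T - ((-n : ℤ) : ℝ)| := by
    nth_rewrite 2 [← abs_of_pos hT]
    rw [← abs_mul]
    congr 1
    push_cast
    field_simp
    ring
  rw [e]
  exact mul_le_mul_of_nonneg_left h hT.le

lemma gap_nonneg (T a b : ℝ) : 0 ≤ angleGap T a b := le_ciInf fun _ => abs_nonneg _

lemma gap_zero {T a b : ℝ} (hT : 0 < T) (h : angleGap T a b = 0) : ∃ n : ℤ, a - b = n * T := by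
  have h1 := gap_ge T a b hT
  rw [h] at h1
  have h2 : |(a - b) / T - round ((a - b) / T)| = 0 := by
    have := abs_nonneg ((a - b) / T - round ((a - b) / T))
    nlinarith
  rw [abs_eq_zero, sub_eq_zero] at h2
  refine ⟨round ((a - b) / T), ?_⟩
  rw [← h2]
  field_simp

lemma min_mem (T a b : ℝ) : 0 ≤ min (angleGap T a b) Real.pi ∧
    min (angleGap T a b) Real.pi ≤ Real.pi :=
  ⟨le_min (gap_nonneg T a b) Real.pi_pos.le, min_le_right _ _⟩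

lemma cone_same {T : ℝ} {x y : ℝ × ℝ} (hx : 0 < x.1) (hy : 0 < y.1)
    (h : coneDist T x y = |x.1 - y.1|) : angleGap T x.2 y.2 = 0 := by
  obtain ⟨h0, h1⟩ := min_mem T x.2 y.2
  set m := min (angleGap T x.2 y.2) Real.pi with hm
  have hc : Real.cos m ≤ 1 := Real.cos_le_one m
  unfold coneDist at h
  rw [← hm] at h
  have hnn : 0 ≤ x.1 ^ 2 + y.1 ^ 2 - 2 * x.1 * y.1 * Real.cos m := by
    have : 0 < x.1 * y.1 := mul_pos hx hy
    nlinarith [sq_nonneg (x.1 - y.1)]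
  have h2 := Real.sq_sqrt hnn
  rw [h, sq_abs] at h2
  have h3 : Real.cos m = 1 := by
    have : 0 < x.1 * y.1 := mul_pos hx hy
    have h4 : x.1 * y.1 * (Real.cos m - 1) = 0 := by nlinarith
    rcases mul_eq_zero.1 h4 with h5 | h5
    · linarith
    · linarith
  have h4 : m = 0 := by
    refine (Real.cos_eq_one_iff_of_lt_of_lt (x := m) ?_ ?_).1 h3
    · linarith [Real.pi_pos]
    · linarith [Real.pi_pos]
  rw [hm] at h4
  rcases min_choice (angleGap T x.2 y.2) Real.pi with h5 | h5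
  · rw [h5] at h4; exact h4
  · rw [h5] at h4; exact absurd h4 Real.pi_ne_zero

lemma cone_opp {T s : ℝ} {x y : ℝ × ℝ} (hs : 0 < s) (hx : x.1 = s) (hy : y.1 = s)
    (h : coneDist T x y = 2 * s) : Real.pi ≤ angleGap T x.2 y.2 := by
  obtain ⟨h0, h1⟩ := min_mem T x.2 y.2
  set m := min (angleGap T x.2 y.2) Real.pi with hm
  have hc : Real.cos m ≤ 1 := Real.cos_le_one m
  unfold coneDist at h
  rw [← hm, hx, hy] at h
  have hnn : 0 ≤ s ^ 2 + s ^ 2 - 2 * s * s * Real.cos m := by nlinarith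
  have h2 := Real.sq_sqrt hnn
  rw [h] at h2
  have h3 : Real.cos m = -1 := by
    have h4 : s * s * (Real.cos m + 1) = 0 := by nlinarith
    have : 0 < s * s := mul_pos hs hs
    rcases mul_eq_zero.1 h4 with h5 | h5
    · linarith
    · linarith
  have h4 : m = Real.pi := by
    refine Real.injOn_cos ⟨h0, h1⟩ ⟨Real.pi_pos.le, le_refl _⟩ ?_
    rw [h3, Real.cos_pi]
  have := min_le_left (angleGap T x.2 y.2) Real.pi
  rw [← hm, h4] at this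
  exact this

/-! ## the fold -/

lemma fold_eq {θ : ℝ} (h : θ ∈ Icc (0:ℝ) (Real.pi / 2)) : fold θ = θ := by
  unfold fold
  have h1 : 0 ≤ Real.cos θ := Real.cos_nonneg_of_mem_Icc ⟨by linarith [h.1, Real.pi_pos], h.2⟩
  rw [abs_of_nonneg h1]
  exact Real.arccos_cos h.1 (by linarith [h.2, Real.pi_pos])

lemma βh_eq (D : QD) {θ : ℝ} (h : θ ∈ Icc (0:ℝ) (Real.pi / 2)) : D.βh θ = D.β θ := by
  unfold QD.βh; rw [fold_eq h]

/-- the floor near `Q` and its copy -/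
lemma βh_form (hB : Stmt_BETA) (D : QD) {j : ℤ} (hj : j = 0 ∨ j = 1) {φ : ℝ} (hφ : |φ| < 1) :
    D.βh (Real.pi / 2 + j * Real.pi + φ) = D.β (Real.pi / 2 - |φ|) := by
  obtain ⟨h1, h2, -⟩ := hB D
  have hpi := Real.pi_gt_three
  have e0 : D.βh (Real.pi / 2 + j * Real.pi + φ) = D.βh (Real.pi / 2 + φ) := by
    rcases hj with rfl | rfl
    · simp
    · rw [show Real.pi / 2 + ((1:ℤ):ℝ) * Real.pi + φ = (Real.pi / 2 + φ) + Real.pi by
        push_cast; ring, h2]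
  rw [e0]
  have hmem : Real.pi / 2 - |φ| ∈ Icc (0:ℝ) (Real.pi / 2) :=
    ⟨by linarith, by linarith [abs_nonneg φ]⟩
  rcases le_or_gt φ 0 with h | h
  · rw [← βh_eq D hmem, abs_of_nonpos h]
    congr 1; ring
  · rw [← βh_eq D hmem, abs_of_pos h, ← h1 (Real.pi / 2 + φ),
      ← h2 (-(Real.pi / 2 + φ))]
    congr 1; ring

/-! ## the position of a point near `Q` -/

/-- `x` is at the distance `s` from `Q`, with the angle `Ξ + 2 αQ j` -/
def Pos (D : QD) {X : Type} (Pr : ℝ × ℝ → X) (x : X) (s : ℝ) (j : ℤ) (Ξ : ℝ) : Prop :=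
  ∃ p φ : ℝ, p ∈ Icc D.pf D.ℓ ∧ |φ| < 1 ∧ p ≤ D.β (Real.pi / 2 - |φ|) ∧
    x = Pr (p, Real.pi / 2 + j * Real.pi + φ) ∧
    D.R p * Real.cos (-D.κ * φ) = D.R (D.β (Real.pi / 2)) + -D.κ * s * Real.cos Ξ ∧
    D.R p * Real.sin (-D.κ * φ) = -D.κ * s * Real.sin Ξ ∧ |Ξ| ≤ D.αQ

lemma R_pos (D : QD) {p : ℝ} (hp : p ∈ Icc D.pf D.ℓ) : 0 < D.R p :=
  D.posR p ⟨D.pf_pos.trans_le hp.1, hp.2⟩

/-- `κ Z + ρf = R e^{iκ(θ-c)}` -/
lemma Z_R (D : QD) (hκ : D.κ ≠ 0) {p : ℝ} (hp : p ∈ Icc D.pf D.ℓ) (c θ : ℝ) :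
    (D.κ : ℂ) * D.Z c p θ + D.ρf =
      (D.R p : ℂ) * Complex.exp ((D.κ * (θ - c) : ℝ) * Complex.I) := by
  unfold QD.Z cdev
  rw [if_neg hκ, D.R_flat hp]
  have hk : (D.κ : ℂ) ≠ 0 := by exact_mod_cast hκ
  push_cast
  field_simp
  ring

lemma form (D : QD) (hκ : D.κ < 0) {p θ ξ s : ℝ} (hp : p ∈ Icc D.pf D.ℓ)
    (hA : D.IsAngQ p θ ξ)
    (hs : s = ‖D.Z D.θf p θ - D.Z D.θf (D.β (Real.pi / 2)) (Real.pi / 2)‖) :
    D.R p * Real.cos (-D.κ * (Real.pi / 2 - θ)) =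
      D.R (D.β (Real.pi / 2)) + -D.κ * s * Real.cos ξ ∧
    D.R p * Real.sin (-D.κ * (Real.pi / 2 - θ)) = -D.κ * s * Real.sin ξ := by
  obtain ⟨-, -, hA⟩ := hA
  rw [← hs] at hA
  have hβ := D.β_mem' QD.half_pi_mem
  have h1 := Z_R D hκ.ne hp D.θf θ
  have h2 := Z_R D hκ.ne hβ D.θf (Real.pi / 2)
  have h3 : (D.R p : ℂ) * Complex.exp ((D.κ * (θ - D.θf) : ℝ) * Complex.I) =
      (D.R (D.β (Real.pi / 2)) : ℂ) *
        Complex.exp ((D.κ * (Real.pi / 2 - D.θf) : ℝ) * Complex.I) +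
      D.κ * (s * Complex.exp ((Real.pi + D.κ * (Real.pi / 2 - D.θf) + ξ : ℝ) * Complex.I)) := by
    rw [← hA, ← h1, ← h2]; ring
  have h4 : (D.R p : ℂ) * Complex.exp ((-D.κ * (Real.pi / 2 - θ) : ℝ) * Complex.I) =
      (D.R (D.β (Real.pi / 2)) : ℂ) + (-D.κ * s : ℝ) * Complex.exp ((ξ : ℝ) * Complex.I) := by
    have e1 : Complex.exp ((-D.κ * (Real.pi / 2 - θ) : ℝ) * Complex.I) =
        Complex.exp ((D.κ * (θ - D.θf) : ℝ) * Complex.I) *
          Complex.exp (-((D.κ * (Real.pi / 2 - D.θf) : ℝ) * Complex.I)) := by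
      rw [← Complex.exp_add]
      congr 1
      push_cast; ring
    have e2 : Complex.exp ((Real.pi + D.κ * (Real.pi / 2 - D.θf) + ξ : ℝ) * Complex.I) =
        -(Complex.exp ((D.κ * (Real.pi / 2 - D.θf) : ℝ) * Complex.I) *
          Complex.exp ((ξ : ℝ) * Complex.I)) := by
      rw [← Complex.exp_add, ← neg_one_mul, ← Complex.exp_pi_mul_I, ← Complex.exp_add]
      congr 1
      push_cast; ring
    have e3 : Complex.exp ((D.κ * (Real.pi / 2 - D.θf) : ℝ) * Complex.I) *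
        Complex.exp (-((D.κ * (Real.pi / 2 - D.θf) : ℝ) * Complex.I)) = 1 := by
      rw [← Complex.exp_add]; simp
    rw [e2] at h3
    rw [e1, ← mul_assoc, h3]
    set E := Complex.exp ((D.κ * (Real.pi / 2 - D.θf) : ℝ) * Complex.I)
    set E' := Complex.exp (-((D.κ * (Real.pi / 2 - D.θf) : ℝ) * Complex.I))
    push_cast
    linear_combination ((D.R (D.β (Real.pi / 2)) : ℂ) -
      D.κ * s * Complex.exp ((ξ : ℂ) * Complex.I)) * e3
  constructor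
  · have := congrArg Complex.re h4
    simp only [Complex.add_re, Complex.re_ofReal_mul, Complex.exp_ofReal_mul_I_re,
      Complex.ofReal_re] at this
    exact this
  · have := congrArg Complex.im h4
    simp only [Complex.add_im, Complex.im_ofReal_mul, Complex.exp_ofReal_mul_I_im,
      Complex.ofReal_im, zero_add] at this
    exact this

lemma exists_pos (D : QD) (hκ : D.κ < 0) {X : Type} [MetricSpace X]
    {Pr : ℝ × ℝ → X} (hF : Facts D X Pr) {x : X} {y : ℝ × ℝ} {η : ℝ}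
    (hη1 : η ≤ 1) (hη2 : η ≤ D.β (Real.pi / 2) - D.pf)
    (h : ∃ p θ ξ,
      |p - D.β (Real.pi / 2)| < η ∧ Real.pi / 2 - η < θ ∧ θ ≤ Real.pi / 2 ∧ p ≤ D.β θ ∧
      D.IsAngQ p θ ξ ∧
      y.1 = ‖D.Z D.θf p θ - D.Z D.θf (D.β (Real.pi / 2)) (Real.pi / 2)‖ ∧
      ((x = Pr (p, θ) ∧ y.2 = -ξ) ∨ (x = Pr (p, Real.pi - θ) ∧ y.2 = ξ) ∨
        (x = Pr (p, θ - Real.pi) ∧ y.2 = 2 * D.αQ - ξ) ∨
        (x = Pr (p, -θ) ∧ y.2 = 2 * D.αQ + ξ))) :
    ∃ (j : ℤ) (Ξ : ℝ), (j = 0 ∨ j = 1) ∧ y.2 = Ξ + 2 * D.αQ * j ∧ Pos D Pr x y.1 j Ξ := by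
  obtain ⟨p, θ, ξ, h1, h2, h3, h4, h5, h6, h7⟩ := h
  have hpi := Real.pi_gt_three
  have hθ : θ ∈ Icc (0:ℝ) (Real.pi / 2) := ⟨by linarith, h3⟩
  have hp : p ∈ Icc D.pf D.ℓ :=
    ⟨by linarith [(abs_lt.1 h1).1], h4.trans (D.β_mem' hθ).2⟩
  obtain ⟨f1, f2⟩ := form D hκ hp h5 h6
  obtain ⟨g1, g2, -⟩ := h5
  have hφ : |Real.pi / 2 - θ| = Real.pi / 2 - θ := abs_of_nonneg (by linarith)
  have hφ1 : |Real.pi / 2 - θ| < 1 := by rw [hφ]; linarith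
  have hφ2 : |-(Real.pi / 2 - θ)| < 1 := by rw [abs_neg]; exact hφ1
  have hb : p ≤ D.β (Real.pi / 2 - |Real.pi / 2 - θ|) := by
    rw [hφ]; simpa using h4
  have hb' : p ≤ D.β (Real.pi / 2 - |-(Real.pi / 2 - θ)|) := by rw [abs_neg]; exact hb
  have hξ : |ξ| ≤ D.αQ := abs_le.2 ⟨by linarith, g2⟩
  have hξ' : |-ξ| ≤ D.αQ := by rw [abs_neg]; exact hξ
  have f1' : D.R p * Real.cos (-D.κ * -(Real.pi / 2 - θ)) =
      D.R (D.β (Real.pi / 2)) + -D.κ * y.1 * Real.cos (-ξ) := by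
    rw [mul_neg, Real.cos_neg, Real.cos_neg]; exact f1
  have f2' : D.R p * Real.sin (-D.κ * -(Real.pi / 2 - θ)) = -D.κ * y.1 * Real.sin (-ξ) := by
    rw [mul_neg, Real.sin_neg, Real.sin_neg]; linarith
  rcases h7 with ⟨e1, e2⟩ | ⟨e1, e2⟩ | ⟨e1, e2⟩ | ⟨e1, e2⟩
  · refine ⟨0, -ξ, Or.inl rfl, by rw [e2]; simp, p, -(Real.pi / 2 - θ), hp, hφ2, hb', ?_, f1', f2',
      hξ'⟩
    rw [e1]; congr 2; push_cast; ring
  · refine ⟨0, ξ, Or.inl rfl, by rw [e2]; simp, p, Real.pi / 2 - θ, hp, hφ1, hb, ?_, f1, f2, hξ⟩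
    rw [e1]; congr 2; push_cast; ring
  · refine ⟨1, -ξ, Or.inr rfl, by rw [e2]; push_cast; ring, p, -(Real.pi / 2 - θ), hp, hφ2, hb', ?_,
      f1', f2', hξ'⟩
    rw [e1, ← hF.per]; congr 2; push_cast; ring
  · refine ⟨1, ξ, Or.inr rfl, by rw [e2]; push_cast; ring, p, Real.pi / 2 - θ, hp, hφ1, hb, ?_,
      f1, f2, hξ⟩
    rw [e1, ← hF.per]; congr 2; push_cast; ring


lemma a_bounds (D : QD) (hκ : D.κ < 0) : 0 ≤ -D.κ * (Real.pi / 2 - D.θf) ∧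
    -D.κ * (Real.pi / 2 - D.θf) ≤ Real.pi / 4 ∧
    D.αQ = Real.pi / 2 + -D.κ * (Real.pi / 2 - D.θf) := by
  have hpi := Real.pi_pos
  rcases D.cls with ⟨h0, h1, h2, h3⟩ | ⟨h0, -⟩
  · refine ⟨mul_nonneg (by linarith) (by linarith), ?_, ?_⟩
    · have e1 : 0 ≤ Real.pi / 2 - D.θf := by linarith
      have e2 : Real.pi / 2 - D.θf ≤ Real.pi / 4 := by linarith
      have e3 : -D.κ ≤ 1 := by linarith
      nlinarith
    · unfold QD.αQ; ring
  · linarith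

lemma kφ_lt (D : QD) {φ : ℝ} (hφ : |φ| < 1) : |-D.κ * φ| < 1 := by
  rw [abs_mul, abs_neg]
  have h1 := D.abs_κ_le
  have h2 := abs_nonneg φ
  have h3 := abs_nonneg D.κ
  nlinarith

lemma R_inj (D : QD) (hκ : D.κ < 0) : InjOn D.R (Icc D.pf D.ℓ) := by
  intro p hp p' hp' h
  rw [D.R_flat hp, D.R_flat hp'] at h
  have h1 : D.σ p = D.σ p' := by
    have : D.κ * (D.σ p - D.σ p') = 0 := by linarith
    rcases mul_eq_zero.1 this with h2 | h2
    · exact absurd h2 hκ.ne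
    · linarith
  have hpf := D.pf_pos.le
  exact D.σ_strictMonoOn'.injOn ⟨hpf.trans hp.1, hp.2⟩ ⟨hpf.trans hp'.1, hp'.2⟩ h1

lemma pos_re (D : QD) (hκ : D.κ < 0) {p φ s Ξ : ℝ} (hs : 0 ≤ s) (hp : p ∈ Icc D.pf D.ℓ)
    (hφ : |φ| < 1)
    (h1 : D.R p * Real.cos (-D.κ * φ) = D.R (D.β (Real.pi / 2)) + -D.κ * s * Real.cos Ξ)
    (h2 : D.R p * Real.sin (-D.κ * φ) = -D.κ * s * Real.sin Ξ) (h3 : |Ξ| ≤ D.αQ) :
    D.R p * Real.cos (D.κ * (Real.pi / 2 - |φ| - D.θf)) =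
      D.ρf + -D.κ * s * Real.cos (|Ξ| - -D.κ * (Real.pi / 2 - D.θf)) := by
  have hpi := Real.pi_gt_three
  obtain ⟨a0, a1, a2⟩ := a_bounds D hκ
  have hR := R_pos D hp
  have hk := kφ_lt D hφ
  have h2' : D.R p * Real.sin (-D.κ * |φ|) = -D.κ * s * Real.sin |Ξ| := by
    have e := congrArg abs h2
    have e1 : |Real.sin (-D.κ * φ)| = Real.sin (-D.κ * |φ|) := by
      have : -D.κ * |φ| = |-D.κ * φ| := by rw [abs_mul, abs_of_pos (by linarith : 0 < -D.κ)]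
      rw [this]
      rcases abs_choice (-D.κ * φ) with h | h
      · have hh : 0 ≤ -D.κ * φ := by rw [← h]; exact abs_nonneg _
        rw [h, abs_of_nonneg (Real.sin_nonneg_of_nonneg_of_le_pi hh (by
          rw [← h]; linarith))]
      · have hh : 0 ≤ -(-D.κ * φ) := by rw [← h]; exact abs_nonneg _
        rw [h, ← abs_neg, ← Real.sin_neg, abs_of_nonneg (Real.sin_nonneg_of_nonneg_of_le_pi hh (by
          rw [← h]; linarith))]
    have e2 : |Real.sin Ξ| = Real.sin |Ξ| := by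
      rcases abs_choice Ξ with h | h
      · have hh : 0 ≤ Ξ := by rw [← h]; exact abs_nonneg _
        rw [h, abs_of_nonneg (Real.sin_nonneg_of_nonneg_of_le_pi hh (by
          rw [← h]; linarith))]
      · have hh : 0 ≤ -Ξ := by rw [← h]; exact abs_nonneg _
        rw [h, ← abs_neg, ← Real.sin_neg, abs_of_nonneg (Real.sin_nonneg_of_nonneg_of_le_pi hh (by
          rw [← h]; linarith))]
    rw [abs_mul, abs_mul, abs_of_pos hR, e1, e2, abs_of_nonneg (mul_nonneg (by linarith) hs)] at e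
    exact e
  have h1' : D.R p * Real.cos (-D.κ * |φ|) =
      D.R (D.β (Real.pi / 2)) + -D.κ * s * Real.cos |Ξ| := by
    rw [Real.cos_abs, ← h1]
    congr 1
    rcases abs_choice φ with h | h
    · rw [h]
    · rw [h, mul_neg, Real.cos_neg]
  have hfl := D.floor (Real.pi / 2) QD.half_pi_mem
  rw [show D.κ * (Real.pi / 2 - |φ| - D.θf) =
    -D.κ * |φ| - -D.κ * (Real.pi / 2 - D.θf) by ring, Real.cos_sub, Real.cos_sub]
  rw [show D.κ * (Real.pi / 2 - D.θf) = -(-D.κ * (Real.pi / 2 - D.θf)) by ring,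
    Real.cos_neg] at hfl
  linear_combination Real.cos (-D.κ * (Real.pi / 2 - D.θf)) * h1' +
    Real.sin (-D.κ * (Real.pi / 2 - D.θf)) * h2' + hfl

lemma mem_quarter {φ : ℝ} (hφ : |φ| < 1) : Real.pi / 2 - |φ| ∈ Icc (0:ℝ) (Real.pi / 2) :=
  ⟨by linarith [Real.pi_gt_three], by linarith [abs_nonneg φ]⟩

lemma pos_floor (hB : Stmt_BETA) (D : QD) (hκ : D.κ < 0) {X : Type} {Pr : ℝ × ℝ → X} {x : X}
    {s Ξ : ℝ} (hs : 0 ≤ s) {j : ℤ} (hj : j = 0 ∨ j = 1) (h : Pos D Pr x s j Ξ)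
    (hΞ : |Ξ| = D.αQ) : ∃ θ, x = Pr (D.fl θ) := by
  obtain ⟨p, φ, hp, hφ, hb, hx, h1, h2, h3⟩ := h
  have h4 := pos_re D hκ hs hp hφ h1 h2 h3
  obtain ⟨a0, a1, a2⟩ := a_bounds D hκ
  rw [hΞ, a2, add_sub_cancel_right, Real.cos_pi_div_two, mul_zero, add_zero] at h4
  have hq := mem_quarter hφ
  have hfl := D.floor _ hq
  have hc := D.cos_foot_pos hq
  have h5 : D.R p = D.R (D.β (Real.pi / 2 - |φ|)) := by
    have : (D.R p - D.R (D.β (Real.pi / 2 - |φ|))) *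
      Real.cos (D.κ * (Real.pi / 2 - |φ| - D.θf)) = 0 := by linear_combination h4 - hfl
    rcases mul_eq_zero.1 this with h6 | h6
    · linarith
    · exact absurd h6 hc.ne'
  have h6 := R_inj D hκ hp (D.β_mem' hq) h5
  refine ⟨Real.pi / 2 + j * Real.pi + φ, ?_⟩
  rw [hx]
  unfold QD.fl
  rw [βh_form hB D hj hφ, h6]

lemma pos_strict (D : QD) (hκ : D.κ < 0) {p φ s Ξ : ℝ} (hs : 0 < s) (hp : p ∈ Icc D.pf D.ℓ)
    (hφ : |φ| < 1) (hb : p ≤ D.β (Real.pi / 2 - |φ|))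
    (h1 : D.R p * Real.cos (-D.κ * φ) = D.R (D.β (Real.pi / 2)) + -D.κ * s * Real.cos Ξ)
    (h2 : D.R p * Real.sin (-D.κ * φ) = -D.κ * s * Real.sin Ξ) (h3 : |Ξ| < D.αQ) :
    p < D.β (Real.pi / 2 - |φ|) := by
  rcases hb.lt_or_eq with h | h
  · exact h
  exfalso
  have h4 := pos_re D hκ hs.le hp hφ h1 h2 h3.le
  obtain ⟨a0, a1, a2⟩ := a_bounds D hκ
  have hq := mem_quarter hφ
  have hfl := D.floor _ hq
  rw [← h] at hfl
  have h5 : -D.κ * s * Real.cos (|Ξ| - -D.κ * (Real.pi / 2 - D.θf)) = 0 := by linarith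
  have h6 : 0 < Real.cos (|Ξ| - -D.κ * (Real.pi / 2 - D.θf)) :=
    Real.cos_pos_of_mem_Ioo ⟨by linarith [abs_nonneg Ξ, Real.pi_pos], by linarith⟩
  have h7 : 0 < -D.κ * s := mul_pos (by linarith) hs
  have := mul_pos h7 h6
  linarith

lemma pos_explicit (D : QD) (hκ : D.κ < 0) {p φ X Y : ℝ} (hp : p ∈ Icc D.pf D.ℓ)
    (hφ : |φ| < 1)
    (h1 : D.R p * Real.cos (-D.κ * φ) = X)
    (h2 : D.R p * Real.sin (-D.κ * φ) = Y) :
    0 < X ∧ φ = Real.arctan (Y / X) / -D.κ ∧ D.R p = √(X ^ 2 + Y ^ 2) := by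
  have hR := R_pos D hp
  have hk := abs_lt.1 (kφ_lt D hφ)
  have hpi := Real.pi_gt_three
  have hc : 0 < Real.cos (-D.κ * φ) :=
    Real.cos_pos_of_mem_Ioo ⟨by linarith [hk.1], by linarith [hk.2]⟩
  refine ⟨by rw [← h1]; exact mul_pos hR hc, ?_, ?_⟩
  · rw [← h1, ← h2, mul_div_mul_left _ _ hR.ne', ← Real.tan_eq_sin_div_cos,
      Real.arctan_tan (by linarith [hk.1]) (by linarith [hk.2])]
    have : -D.κ ≠ 0 := by linarith
    rw [eq_div_iff this]; ring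
  · rw [← h1, ← h2, show (D.R p * Real.cos (-D.κ * φ)) ^ 2 + (D.R p * Real.sin (-D.κ * φ)) ^ 2 =
      D.R p ^ 2 * (Real.cos (-D.κ * φ) ^ 2 + Real.sin (-D.κ * φ) ^ 2) by ring,
      Real.cos_sq_add_sin_sq, mul_one, Real.sqrt_sq hR.le]

/-! ## calculus -/

lemma hasDerivAt_of_comp {R p : ℝ → ℝ} {s R' d : ℝ} (hp : ContinuousAt p s)
    (hR : HasStrictDerivAt R R' (p s)) (hR' : R' ≠ 0)
    (h : HasDerivAt (fun u => R (p u)) d s) : HasDerivAt p (d / R') s := by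
  have h1 := hR.eventually_left_inverse hR'
  have h2 := hR.to_localInverse hR'
  have h3 : ∀ᶠ u in 𝓝 s, HasStrictDerivAt.localInverse R R' (p s) hR hR' (R (p u)) = p u :=
    hp.eventually h1
  have h4 : HasDerivAt (fun u => HasStrictDerivAt.localInverse R R' (p s) hR hR' (R (p u)))
      (R'⁻¹ * d) s := HasDerivAt.comp s (h₂ := HasStrictDerivAt.localInverse R R' (p s) hR hR')
        h2.hasDerivAt h
  have h5 := h4.congr_of_eventuallyEq (f₁ := p) (by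
    filter_upwards [h3] with u hu
    exact hu.symm)
  rw [div_eq_inv_mul]; exact h5

lemma R_lower (D : QD) (hκ : D.κ < 0) : ∃ m > 0, ∀ p ∈ Icc D.pf D.ℓ, ∀ p' ∈ Icc D.pf D.ℓ,
    m * |p - p'| ≤ |D.R p - D.R p'| := by
  have hpf := D.pf_pos
  obtain ⟨q, hq, hmin⟩ := (isCompact_Icc (a := D.pf) (b := D.ℓ)).exists_isMinOn
    (nonempty_Icc.2 D.pf_lt_ℓ.le) D.cont_A.continuousOn
  have hA : 0 < D.A q := D.posA q ⟨hpf.le.trans hq.1, hq.2⟩
  refine ⟨-D.κ * D.A q, mul_pos (by linarith) hA, ?_⟩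
  have key : ∀ x ∈ Icc D.pf D.ℓ, ∀ y ∈ Icc D.pf D.ℓ, x ≤ y →
      (-D.κ * D.A q) * (y - x) ≤ (-D.R y) - (-D.R x) := by
    apply (convex_Icc D.pf D.ℓ).mul_sub_le_image_sub_of_le_deriv (f := fun p => -D.R p)
    · exact D.cont_R.neg.continuousOn
    · intro x _
      exact (D.hasDerivAt_R x).neg.differentiableAt.differentiableWithinAt
    · intro x hx
      rw [interior_Icc] at hx
      have hx' : x ∈ Icc D.pf D.ℓ := ⟨hx.1.le, hx.2.le⟩
      have hd : HasDerivAt (fun p => -D.R p) (-(deriv D.R x)) x := (D.hasDerivAt_R x).neg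
      rw [hd.deriv, D.flat x hx', ← neg_mul]
      exact mul_le_mul_of_nonneg_left (hmin hx') (by linarith)
  intro p hp p' hp'
  rcases le_total p p' with h | h
  · have := key p hp p' hp' h
    rw [abs_of_nonpos (by linarith : p - p' ≤ 0)]
    have h2 := le_abs_self (D.R p - D.R p')
    linarith
  · have := key p' hp' p hp h
    rw [abs_of_nonneg (by linarith : 0 ≤ p - p')]
    have h2 := neg_abs_le (D.R p - D.R p')
    linarith

/-- The ray `s ↦ (p, θ)` with the angle `Ξ` at `Q`. -/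
structure Ray (D : QD) {X : Type} (Pr : ℝ × ℝ → X) (y : ℝ → X) (δ : ℝ) (j : ℤ) (Ξ : ℝ)
    (p θ v w : ℝ → ℝ) : Prop where
  cp : ContinuousOn p (Ico 0 δ)
  cθ : ContinuousOn θ (Ico 0 δ)
  cv : ContinuousOn v (Ico 0 δ)
  cw : ContinuousOn w (Ico 0 δ)
  pos : ∀ s ∈ Ico 0 δ, 0 < p s ∧ p s ≤ D.ℓ
  unit : ∀ s, v s ^ 2 + w s ^ 2 = 1
  dp : ∀ s ∈ Ioo 0 δ, HasDerivAt p (v s / D.A (p s)) s
  dθ : ∀ s ∈ Ioo 0 δ, HasDerivAt θ (w s / D.R (p s)) s
  dv : ∀ s ∈ Ioo 0 δ, HasDerivAt v (D.f (p s) * w s ^ 2 / D.R (p s)) s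
  dw : ∀ s ∈ Ioo 0 δ, HasDerivAt w (-(D.f (p s) * v s * w s / D.R (p s))) s
  ins : ∀ s ∈ Ioo 0 δ, p s < D.βh (θ s)
  eq : ∀ s ∈ Ico 0 δ, Pr (p s, θ s) = y s
  p0 : p 0 = D.βh (θ 0)
  θ0 : θ 0 = Real.pi / 2 + j * Real.pi
  v0 : v 0 = -Real.cos Ξ
  w0 : w 0 = Real.sin Ξ

lemma ray (hB : Stmt_BETA) (D : QD) (hκ : D.κ < 0) {X : Type} [MetricSpace X]
    {Pr : ℝ × ℝ → X} (hF : Facts D X Pr) {y : ℝ → X} {δ : ℝ} {j : ℤ}
    (hj : j = 0 ∨ j = 1) {Ξ : ℝ} (hΞ : |Ξ| < D.αQ) (h0 : y 0 = Pr (D.fl (Real.pi / 2)))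
    (hy : ∀ s ∈ Ioo 0 δ, Pos D Pr (y s) s j Ξ) :
    ∃ p θ v w : ℝ → ℝ, Ray D Pr y δ j Ξ p θ v w := by
  have hk : 0 < -D.κ := by linarith
  set RQ := D.R (D.β (Real.pi / 2)) with hRQ
  have hβ := D.β_mem' QD.half_pi_mem
  have hRQ0 : 0 < RQ := R_pos D hβ
  set Xs : ℝ → ℝ := fun s => RQ + -D.κ * s * Real.cos Ξ with hXs
  set Ys : ℝ → ℝ := fun s => -D.κ * s * Real.sin Ξ with hYs
  set φ : ℝ → ℝ := fun s => Real.arctan (Ys s / Xs s) / -D.κ with hφ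
  set ρ : ℝ → ℝ := fun s => √(Xs s ^ 2 + Ys s ^ 2) with hρ
  set P : ℝ → ℝ := fun s => Function.invFunOn D.R (Icc D.pf D.ℓ) (ρ s) with hP
  have hinv : ∀ p ∈ Icc D.pf D.ℓ, Function.invFunOn D.R (Icc D.pf D.ℓ) (D.R p) = p :=
    (R_inj D hκ).leftInvOn_invFunOn
  -- the data at the times `s`
  have hpt : ∀ s ∈ Ioo 0 δ, 0 < Xs s ∧ P s ∈ Icc D.pf D.ℓ ∧ |φ s| < 1 ∧
      P s < D.β (Real.pi / 2 - |φ s|) ∧ y s = Pr (P s, Real.pi / 2 + j * Real.pi + φ s) ∧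
      D.R (P s) = ρ s ∧ ρ s * Real.cos (-D.κ * φ s) = Xs s ∧
      ρ s * Real.sin (-D.κ * φ s) = Ys s := by
    intro s hs
    obtain ⟨p, φ', hp, hφ', hb, hx, e1, e2, e3⟩ := hy s hs
    obtain ⟨g1, g2, g3⟩ := pos_explicit D hκ hp hφ' e1 e2
    have g2' : φ' = φ s := g2
    have g3' : D.R p = ρ s := g3
    have g4 : P s = p := by
      rw [hP]; simp only; rw [← g3', hinv p hp]
    have g5 := pos_strict D hκ hs.1 hp hφ' hb e1 e2 hΞ
    rw [g4, ← g2', ← g3']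
    exact ⟨g1, hp, hφ', g5, hx, rfl, e1, e2⟩
  have hz : Xs 0 = RQ ∧ Ys 0 = 0 ∧ φ 0 = 0 ∧ ρ 0 = RQ ∧ P 0 = D.β (Real.pi / 2) := by
    have a1 : Xs 0 = RQ := by simp [hXs]
    have a2 : Ys 0 = 0 := by simp [hYs]
    have a3 : φ 0 = 0 := by simp [hφ, a2]
    have a4 : ρ 0 = RQ := by
      simp only [hρ]
      rw [a1, a2]; simp [Real.sqrt_sq hRQ0.le]
    refine ⟨a1, a2, a3, a4, ?_⟩
    simp only [hP]
    rw [a4, hRQ, hinv _ hβ]
  obtain ⟨z1, z2, z3, z4, z5⟩ := hz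
  have hX : ∀ s ∈ Ico 0 δ, 0 < Xs s := by
    intro s hs
    rcases hs.1.eq_or_lt with h | h
    · rw [← h, z1]; exact hRQ0
    · exact (hpt s ⟨h, hs.2⟩).1
  have hPm : ∀ s ∈ Ico 0 δ, P s ∈ Icc D.pf D.ℓ ∧ D.R (P s) = ρ s := by
    intro s hs
    rcases hs.1.eq_or_lt with h | h
    · rw [← h, z5, z4]; exact ⟨hβ, rfl⟩
    · have := hpt s ⟨h, hs.2⟩
      exact ⟨this.2.1, this.2.2.2.2.2.1⟩
  have hρ0 : ∀ s ∈ Ico 0 δ, 0 < ρ s := by
    intro s hs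
    obtain ⟨h1, h2⟩ := hPm s hs
    rw [← h2]; exact R_pos D h1
  have cX : Continuous Xs := by
    simp only [hXs]; fun_prop
  have cY : Continuous Ys := by
    simp only [hYs]; fun_prop
  have cφ : ContinuousOn φ (Ico 0 δ) := by
    apply ContinuousOn.div_const
    apply Real.continuous_arctan.comp_continuousOn
    exact cY.continuousOn.div cX.continuousOn fun s hs => (hX s hs).ne'
  have cρ : Continuous ρ := by
    simp only [hρ]; fun_prop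
  have cP : ContinuousOn P (Ico 0 δ) := by
    obtain ⟨m, hm, hlow⟩ := R_lower D hκ
    rw [Metric.continuousOn_iff]
    intro s hs ε hε
    obtain ⟨η, hη, H⟩ := Metric.continuous_iff.1 cρ s (m * ε) (mul_pos hm hε)
    refine ⟨η, hη, fun u hu hus => ?_⟩
    have h1 := H u hus
    have h2 := hlow (P u) (hPm u hu).1 (P s) (hPm s hs).1
    rw [(hPm u hu).2, (hPm s hs).2] at h2
    rw [Real.dist_eq] at h1 ⊢
    have h3 : m * |P u - P s| < m * ε := lt_of_le_of_lt h2 h1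
    exact lt_of_mul_lt_mul_left h3 hm.le
  -- derivatives
  have dX : ∀ s, HasDerivAt Xs (-D.κ * Real.cos Ξ) s := by
    intro s
    have h : HasDerivAt Xs (-D.κ * 1 * Real.cos Ξ) s :=
      (((hasDerivAt_id s).const_mul (-D.κ)).mul_const (Real.cos Ξ)).const_add RQ
    rwa [mul_one] at h
  have dY : ∀ s, HasDerivAt Ys (-D.κ * Real.sin Ξ) s := by
    intro s
    have h : HasDerivAt Ys (-D.κ * 1 * Real.sin Ξ) s :=
      ((hasDerivAt_id s).const_mul (-D.κ)).mul_const (Real.sin Ξ)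
    rwa [mul_one] at h
  have dφ : ∀ s ∈ Ioo 0 δ, HasDerivAt φ (Real.sin (Ξ - -D.κ * φ s) / ρ s) s := by
    intro s hs
    obtain ⟨p1, -, -, -, -, p6, p7, p8⟩ := hpt s hs
    have hr := hρ0 s ⟨hs.1.le, hs.2⟩
    have h : HasDerivAt φ (1 / (1 + (Ys s / Xs s) ^ 2) *
        ((-D.κ * Real.sin Ξ * Xs s - Ys s * (-D.κ * Real.cos Ξ)) / Xs s ^ 2) / -D.κ) s :=
      (((dY s).div (dX s) p1.ne').arctan).div_const (-D.κ)
    refine h.congr_deriv ?_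
    have hsq : ρ s ^ 2 = Xs s ^ 2 + Ys s ^ 2 := by
      simp only [hρ]
      rw [Real.sq_sqrt (by positivity)]
    have e : Real.sin (Ξ - -D.κ * φ s) = (Real.sin Ξ * Xs s - Real.cos Ξ * Ys s) / ρ s := by
      rw [Real.sin_sub, ← p7, ← p8]
      field_simp
    rw [e]
    have hne : Xs s ^ 2 + Ys s ^ 2 ≠ 0 := by positivity
    have hne2 : 1 + (Ys s / Xs s) ^ 2 = (Xs s ^ 2 + Ys s ^ 2) / Xs s ^ 2 := by
      field_simp
    rw [hne2, div_div, ← sq, hsq]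
    have := p1.ne'
    have hk' := hκ.ne
    field_simp
    ring
  have dρ : ∀ s ∈ Ioo 0 δ, HasDerivAt ρ (-D.κ * Real.cos (Ξ - -D.κ * φ s)) s := by
    intro s hs
    obtain ⟨p1, -, -, -, -, p6, p7, p8⟩ := hpt s hs
    have hr := hρ0 s ⟨hs.1.le, hs.2⟩
    have hne : Xs s ^ 2 + Ys s ^ 2 ≠ 0 := by positivity
    have h : HasDerivAt ρ ((((2:ℕ):ℝ) * Xs s ^ (2 - 1) * (-D.κ * Real.cos Ξ) +
        ((2:ℕ):ℝ) * Ys s ^ (2 - 1) * (-D.κ * Real.sin Ξ)) / (2 * √(Xs s ^ 2 + Ys s ^ 2))) s :=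
      (((dX s).pow 2).add ((dY s).pow 2)).sqrt hne
    refine h.congr_deriv ?_
    have e : Real.cos (Ξ - -D.κ * φ s) = (Real.cos Ξ * Xs s + Real.sin Ξ * Ys s) / ρ s := by
      rw [Real.cos_sub, ← p7, ← p8]
      field_simp
    rw [e]
    have hr' : √(Xs s ^ 2 + Ys s ^ 2) = ρ s := rfl
    rw [hr']
    field_simp
    push_cast
    ring
  refine ⟨P, fun s => Real.pi / 2 + j * Real.pi + φ s, fun s => -Real.cos (Ξ - -D.κ * φ s),
    fun s => Real.sin (Ξ - -D.κ * φ s), ?_⟩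
  have hκA : ∀ s ∈ Ico 0 δ, D.A (P s) ≠ 0 ∧ D.R (P s) ≠ 0 ∧ deriv D.R (P s) = D.κ * D.A (P s) := by
    intro s hs
    have h := (hPm s hs).1
    exact ⟨(D.posA _ ⟨D.pf_pos.le.trans h.1, h.2⟩).ne', (R_pos D h).ne', D.flat _ h⟩
  have hf : ∀ s ∈ Ico 0 δ, D.f (P s) = D.κ := by
    intro s hs
    obtain ⟨h1, h2, h3⟩ := hκA s hs
    unfold QD.f
    rw [h3]; field_simp
  have dang : ∀ s ∈ Ioo 0 δ, HasDerivAt (fun u => Ξ - -D.κ * φ u)
      (-(-D.κ * (Real.sin (Ξ - -D.κ * φ s) / ρ s))) s := by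
    intro s hs
    exact ((dφ s hs).const_mul (-D.κ)).const_sub Ξ
  refine ⟨cP, ?_, ?_, ?_, ?_, ?_, ?_, ?_, ?_, ?_, ?_, ?_, ?_, ?_, ?_, ?_⟩
  · exact continuousOn_const.add cφ
  · exact (Real.continuous_cos.comp_continuousOn
      (continuousOn_const.sub (continuousOn_const.mul cφ))).neg
  · exact Real.continuous_sin.comp_continuousOn
      (continuousOn_const.sub (continuousOn_const.mul cφ))
  · intro s hs
    have h := (hPm s hs).1
    exact ⟨D.pf_pos.trans_le h.1, h.2⟩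
  · intro s
    simp only [neg_sq]
    exact Real.cos_sq_add_sin_sq _
  · intro s hs
    have hs' : s ∈ Ico 0 δ := ⟨hs.1.le, hs.2⟩
    obtain ⟨h1, h2, h3⟩ := hκA s hs'
    have hst : HasStrictDerivAt D.R (D.κ * D.A (P s)) (P s) := by
      have := (D.smR.contDiffAt (x := P s)).hasStrictDerivAt (by simp)
      rwa [h3] at this
    have hcomp : HasDerivAt (fun u => D.R (P u)) (-D.κ * Real.cos (Ξ - -D.κ * φ s)) s := by
      refine (dρ s hs).congr_of_eventuallyEq ?_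
      filter_upwards [Ioo_mem_nhds hs.1 hs.2] with u hu
      exact (hPm u ⟨hu.1.le, hu.2⟩).2
    have hcont : ContinuousAt P s := cP.continuousAt (Ico_mem_nhds hs.1 hs.2)
    have := hasDerivAt_of_comp hcont hst (mul_ne_zero hκ.ne h1) hcomp
    refine this.congr_deriv ?_
    have hk' := hκ.ne
    field_simp
  · intro s hs
    have := (dφ s hs).const_add (Real.pi / 2 + j * Real.pi)
    rw [(hPm s ⟨hs.1.le, hs.2⟩).2]
    exact this
  · intro s hs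
    have h := (dang s hs).cos.neg
    rw [(hPm s ⟨hs.1.le, hs.2⟩).2, hf s ⟨hs.1.le, hs.2⟩]
    refine HasDerivAt.congr_deriv h ?_
    ring
  · intro s hs
    have h := (dang s hs).sin
    rw [(hPm s ⟨hs.1.le, hs.2⟩).2, hf s ⟨hs.1.le, hs.2⟩]
    refine HasDerivAt.congr_deriv h ?_
    ring
  · intro s hs
    obtain ⟨p1, p2, p3, p4, p5, p6, p7, p8⟩ := hpt s hs
    rw [βh_form hB D hj p3]
    exact p4
  · intro s hs
    rcases hs.1.eq_or_lt with h | h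
    · rw [← h]
      rw [z5, z3, add_zero, h0]
      unfold QD.fl
      rw [βh_eq D QD.half_pi_mem]
      rcases hj with rfl | rfl
      · simp
      · have e1 := hF.flr (Real.pi / 2)
        rw [βh_eq D QD.half_pi_mem] at e1
        rw [← e1, ← hF.per _ (-(Real.pi / 2))]
        congr 2
        push_cast; ring
    · exact (hpt s ⟨h, hs.2⟩).2.2.2.2.1.symm
  · rw [z5, z3, βh_form hB D hj (by simp)]
    simp
  · rw [z3, add_zero]
  · rw [z3]; simp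
  · rw [z3]; simp

lemma αQ_pos (D : QD) (hκ : D.κ < 0) : 0 < D.αQ := by
  obtain ⟨a0, a1, a2⟩ := a_bounds D hκ
  linarith [Real.pi_pos]

/-- one side of the curve at `Q` -/
lemma side (hB : Stmt_BETA) (D : QD) (hκ : D.κ < 0) {X : Type} [MetricSpace X]
    {Pr : ℝ × ℝ → X} (hF : Facts D X Pr) {η : ℝ} (hη1 : η ≤ 1)
    (hη2 : η ≤ D.β (Real.pi / 2) - D.pf) {r : ℝ} {ψ : X → ℝ × ℝ}
    (h2 : ∀ x ∈ ball (Pr (D.β (Real.pi / 2), Real.pi / 2)) r,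
      ∀ y ∈ ball (Pr (D.β (Real.pi / 2), Real.pi / 2)) r,
        dist x y = coneDist (4 * D.αQ) (ψ x) (ψ y))
    (h4 : ∀ x ∈ ball (Pr (D.β (Real.pi / 2), Real.pi / 2)) r, ∃ p θ ξ,
      |p - D.β (Real.pi / 2)| < η ∧ Real.pi / 2 - η < θ ∧ θ ≤ Real.pi / 2 ∧ p ≤ D.β θ ∧
      D.IsAngQ p θ ξ ∧
      (ψ x).1 = ‖D.Z D.θf p θ - D.Z D.θf (D.β (Real.pi / 2)) (Real.pi / 2)‖ ∧
      ((x = Pr (p, θ) ∧ (ψ x).2 = -ξ) ∨ (x = Pr (p, Real.pi - θ) ∧ (ψ x).2 = ξ) ∨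
        (x = Pr (p, θ - Real.pi) ∧ (ψ x).2 = 2 * D.αQ - ξ) ∨
        (x = Pr (p, -θ) ∧ (ψ x).2 = 2 * D.αQ + ξ)))
    {y : ℝ → X} {δ : ℝ} (hδ : 0 < δ) (h0 : y 0 = Pr (D.fl (Real.pi / 2)))
    (hb : ∀ s ∈ Ioo 0 δ, y s ∈ ball (Pr (D.β (Real.pi / 2), Real.pi / 2)) r)
    (hr : ∀ s ∈ Ioo 0 δ, (ψ (y s)).1 = s)
    (hd : ∀ s ∈ Ioo 0 δ, ∀ s' ∈ Ioo 0 δ, dist (y s) (y s') = |s - s'|) :
    (∀ s ∈ Ioo 0 δ, ∃ θ, y s = Pr (D.fl θ)) ∨
      ∃ (j : ℤ) (Ξ : ℝ) (p θ v w : ℝ → ℝ), |Ξ| < D.αQ ∧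
        (∀ s ∈ Ioo 0 δ, (ψ (y s)).2 = Ξ + 2 * D.αQ * j) ∧ Ray D Pr y δ j Ξ p θ v w := by
  have hα := αQ_pos D hκ
  have hs0 : δ / 2 ∈ Ioo 0 δ := ⟨by linarith, by linarith⟩
  obtain ⟨j₀, Ξ₀, hj₀, e₀, P₀⟩ := exists_pos D hκ hF hη1 hη2 (h4 _ (hb _ hs0))
  have hΞ₀ : |Ξ₀| ≤ D.αQ := by
    obtain ⟨p, φ, -, -, -, -, -, -, h⟩ := P₀
    exact h
  have key : ∀ s ∈ Ioo 0 δ, ∃ (j : ℤ) (Ξ : ℝ) (n : ℤ), (j = 0 ∨ j = 1) ∧
      (ψ (y s)).2 = Ξ + 2 * D.αQ * j ∧ Pos D Pr (y s) s j Ξ ∧ |Ξ| ≤ D.αQ ∧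
      Ξ = Ξ₀ + 2 * D.αQ * ((j₀ - j - 2 * n : ℤ) : ℝ) := by
    intro s hs
    obtain ⟨j, Ξ, hj, e, P⟩ := exists_pos D hκ hF hη1 hη2 (h4 _ (hb _ hs))
    have h5 := h2 _ (hb _ hs0) _ (hb _ hs)
    rw [hd _ hs0 _ hs] at h5
    have h6 : angleGap (4 * D.αQ) (ψ (y (δ / 2))).2 (ψ (y s)).2 = 0 := by
      apply cone_same
      · rw [hr _ hs0]; exact hs0.1
      · rw [hr _ hs]; exact hs.1
      · rw [hr _ hs0, hr _ hs]; exact h5.symm
    obtain ⟨n, hn⟩ := gap_zero (by linarith) h6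
    rw [hr _ hs] at P
    have hΞ : |Ξ| ≤ D.αQ := by
      obtain ⟨p, φ, -, -, -, -, -, -, h⟩ := P
      exact h
    refine ⟨j, Ξ, n, hj, e, P, hΞ, ?_⟩
    rw [e₀, e] at hn
    push_cast
    linear_combination -hn
  rcases hΞ₀.lt_or_eq with hlt | heq
  · right
    have key2 : ∀ s ∈ Ioo 0 δ, (ψ (y s)).2 = Ξ₀ + 2 * D.αQ * j₀ ∧ Pos D Pr (y s) s j₀ Ξ₀ := by
      intro s hs
      obtain ⟨j, Ξ, n, hj, e, P, hΞ, hrel⟩ := key s hs
      have hM : (j₀ - j - 2 * n : ℤ) = 0 := by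
        by_contra hne
        have h1 : (1:ℝ) ≤ |((j₀ - j - 2 * n : ℤ) : ℝ)| := by
          rw [← Int.cast_abs]
          exact_mod_cast Int.one_le_abs hne
        have h2 : |2 * D.αQ * ((j₀ - j - 2 * n : ℤ) : ℝ)| < 2 * D.αQ := by
          have : 2 * D.αQ * ((j₀ - j - 2 * n : ℤ) : ℝ) = Ξ - Ξ₀ := by rw [hrel]; ring
          rw [this]
          have := abs_sub Ξ Ξ₀
          linarith
        rw [abs_mul, abs_of_pos (by linarith : 0 < 2 * D.αQ)] at h2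
        nlinarith
      have hjj : j = j₀ := by omega
      have hΞΞ : Ξ = Ξ₀ := by rw [hrel, hM]; simp
      subst hjj
      subst hΞΞ
      exact ⟨e, P⟩
    obtain ⟨p, θ, v, w, R⟩ := ray hB D hκ hF hj₀ hlt h0 (fun s hs => (key2 s hs).2)
    exact ⟨j₀, Ξ₀, p, θ, v, w, hlt, fun s hs => (key2 s hs).1, R⟩
  · left
    intro s hs
    obtain ⟨j, Ξ, n, hj, e, P, hΞ, hrel⟩ := key s hs
    refine pos_floor hB D hκ hs.1.le hj P ?_
    obtain ⟨e₁, he₁, hodd⟩ : ∃ e₁ : ℤ, Ξ₀ = e₁ * D.αQ ∧ (e₁ = 1 ∨ e₁ = -1) := by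
      rcases abs_choice Ξ₀ with h | h
      · exact ⟨1, by rw [← heq, h]; simp, Or.inl rfl⟩
      · exact ⟨-1, by rw [← heq, h]; simp, Or.inr rfl⟩
    have hN : Ξ = ((e₁ + 2 * (j₀ - j - 2 * n) : ℤ) : ℝ) * D.αQ := by
      rw [hrel, he₁]; push_cast; ring
    rw [hN, abs_mul, abs_of_pos hα] at hΞ ⊢
    have h1 : |((e₁ + 2 * (j₀ - j - 2 * n) : ℤ) : ℝ)| ≤ 1 := by
      by_contra hcon
      push Not at hcon
      nlinarith
    have h2 : |e₁ + 2 * (j₀ - j - 2 * n)| ≤ 1 := by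
      rw [← Int.cast_abs] at h1
      exact_mod_cast h1
    have h3 : |e₁ + 2 * (j₀ - j - 2 * n)| = 1 := by
      have h4 := abs_le.1 h2
      rcases hodd with h | h
      · rw [h] at h4 ⊢
        have : (1 + 2 * (j₀ - j - 2 * n)) = 1 ∨ (1 + 2 * (j₀ - j - 2 * n)) = -1 := by omega
        rcases this with h5 | h5 <;> rw [h5] <;> rfl
      · rw [h] at h4 ⊢
        have : (-1 + 2 * (j₀ - j - 2 * n)) = 1 ∨ (-1 + 2 * (j₀ - j - 2 * n)) = -1 := by omega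
        rcases this with h5 | h5 <;> rw [h5] <;> rfl
    rw [← Int.cast_abs, h3]; simp

end CrqAux

open CrqAux in
theorem crq_proof (hB : Stmt_BETA) : Stmt_CRQ := by
  intro D X _ Pr hF hκ c hc τ hτ
  obtain ⟨ε, hε, hgeo⟩ := hc
  have hβ := D.β_mem (Real.pi / 2) QD.half_pi_mem
  set η : ℝ := min 1 (D.β (Real.pi / 2) - D.pf) with hη
  have hη0 : 0 < η := lt_min one_pos (by linarith)
  obtain ⟨r, hr, ψ, h1, h2, -, h4⟩ := hF.coneQ η hη0
  set δ : ℝ := min (ε / 2) r with hδ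
  have hδ0 : 0 < δ := lt_min (by linarith) hr
  have hδε : δ ≤ ε / 2 := min_le_left _ _
  have hδr : δ ≤ r := min_le_right _ _
  have hQ : c τ = Pr (D.β (Real.pi / 2), Real.pi / 2) := by
    rw [hτ]; unfold QD.fl; rw [βh_eq D QD.half_pi_mem]
  have hball : ∀ t, |t - τ| < δ → c t ∈ ball (Pr (D.β (Real.pi / 2), Real.pi / 2)) r ∧
      (ψ (c t)).1 = |t - τ| := by
    intro t ht
    have e1 : dist (c t) (Pr (D.β (Real.pi / 2), Real.pi / 2)) = |t - τ| := by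
      rw [← hQ]; exact hgeo t τ (by linarith)
    have e2 : c t ∈ ball (Pr (D.β (Real.pi / 2), Real.pi / 2)) r := by
      rw [mem_ball, e1]; linarith
    exact ⟨e2, by rw [← (h1 _ e2).2, e1]⟩
  have hR : ∀ s ∈ Ioo 0 δ, |τ + s - τ| = s := by
    intro s hs
    rw [add_sub_cancel_left, abs_of_pos hs.1]
  have hL : ∀ s ∈ Ioo 0 δ, |τ - s - τ| = s := by
    intro s hs
    rw [show τ - s - τ = -s by ring, abs_neg, abs_of_pos hs.1]
  have sideL := side hB D hκ hF (min_le_left _ _) (min_le_right _ _) h2 h4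
    (y := fun s => c (τ - s)) hδ0 (by simp only [sub_zero]; exact hτ)
    (fun s hs => (hball (τ - s) (by rw [hL s hs]; exact hs.2)).1)
    (fun s hs => by rw [(hball (τ - s) (by rw [hL s hs]; exact hs.2)).2, hL s hs])
    (fun s hs s' hs' => by
      show dist (c (τ - s)) (c (τ - s')) = |s - s'|
      have e : |τ - s - (τ - s')| = |s - s'| := by
        rw [show τ - s - (τ - s') = -(s - s') by ring, abs_neg]
      rw [hgeo _ _ (by
        rw [e, abs_le]; constructor <;> linarith [hs.1, hs.2, hs'.1, hs'.2]), e])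
  have sideR := side hB D hκ hF (min_le_left _ _) (min_le_right _ _) h2 h4
    (y := fun s => c (τ + s)) hδ0 (by simp only [add_zero]; exact hτ)
    (fun s hs => (hball (τ + s) (by rw [hR s hs]; exact hs.2)).1)
    (fun s hs => by rw [(hball (τ + s) (by rw [hR s hs]; exact hs.2)).2, hR s hs])
    (fun s hs s' hs' => by
      show dist (c (τ + s)) (c (τ + s')) = |s - s'|
      have e : |τ + s - (τ + s')| = |s - s'| := by
        rw [show τ + s - (τ + s') = s - s' by ring]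
      rw [hgeo _ _ (by
        rw [e, abs_le]; constructor <;> linarith [hs.1, hs.2, hs'.1, hs'.2]), e])
  rcases sideL with hfl | ⟨jm, Ξm, pm, θm, vm, wm, hΞm, hψm, Rm⟩
  · left
    refine ⟨δ, hδ0, fun t ht => ?_⟩
    have := hfl (τ - t) ⟨by linarith [ht.2], by linarith [ht.1]⟩
    simpa using this
  rcases sideR with hfl | ⟨jp, Ξp, pp, θp, vp, wp, hΞp, hψp, Rp⟩
  · right; left
    refine ⟨δ, hδ0, fun t ht => ?_⟩
    have := hfl (t - τ) ⟨by linarith [ht.1], by linarith [ht.2]⟩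
    simpa using this
  right; right
  have hh : δ / 2 ∈ Ioo 0 δ := ⟨by linarith, by linarith⟩
  have mL : MapsTo (fun t => τ - t) (Icc (τ - δ / 2) τ) (Ico 0 δ) := by
    intro t ht
    exact ⟨by simp only; linarith [ht.2], by simp only; linarith [ht.1]⟩
  have mL' : ∀ t ∈ Ioo (τ - δ / 2) τ, τ - t ∈ Ioo 0 δ := by
    intro t ht
    exact ⟨by linarith [ht.2], by linarith [ht.1]⟩
  have mR : MapsTo (fun t => t - τ) (Icc τ (τ + δ / 2)) (Ico 0 δ) := by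
    intro t ht
    exact ⟨by simp only; linarith [ht.1], by simp only; linarith [ht.2]⟩
  have mR' : ∀ t ∈ Ioo τ (τ + δ / 2), t - τ ∈ Ioo 0 δ := by
    intro t ht
    exact ⟨by linarith [ht.1], by linarith [ht.2]⟩
  have cL : ContinuousOn (fun t => τ - t) (Icc (τ - δ / 2) τ) := by fun_prop
  have cR : ContinuousOn (fun t => t - τ) (Icc τ (τ + δ / 2)) := by fun_prop
  refine ⟨δ / 2, by linarith, fun t => pm (τ - t), fun t => θm (τ - t), fun t => -vm (τ - t),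
    fun t => -wm (τ - t), fun t => pp (t - τ), fun t => θp (t - τ), fun t => vp (t - τ),
    fun t => wp (t - τ), ?_, ?_, ?_, ?_, ?_⟩
  · refine ⟨⟨by linarith, Rm.cp.comp cL mL, Rm.cθ.comp cL mL, (Rm.cv.comp cL mL).neg,
      (Rm.cw.comp cL mL).neg, fun t ht => Rm.pos _ (mL ht), fun t ht => ?_, ?_, ?_, ?_, ?_⟩,
      fun t ht => Rm.ins _ (mL' t ht), fun t ht => ?_⟩
    · have := Rm.unit (τ - t)
      simpa using this
    · intro t ht
      refine ((Rm.dp _ (mL' t ht)).comp_const_sub τ t).congr_deriv ?_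
      ring
    · intro t ht
      refine ((Rm.dθ _ (mL' t ht)).comp_const_sub τ t).congr_deriv ?_
      ring
    · intro t ht
      refine (((Rm.dv _ (mL' t ht)).comp_const_sub τ t).neg).congr_deriv ?_
      ring
    · intro t ht
      refine (((Rm.dw _ (mL' t ht)).comp_const_sub τ t).neg).congr_deriv ?_
      ring
    · have := Rm.eq _ (mL ht)
      simpa using this
  · refine ⟨⟨by linarith, Rp.cp.comp cR mR, Rp.cθ.comp cR mR, Rp.cv.comp cR mR,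
      Rp.cw.comp cR mR, fun t ht => Rp.pos _ (mR ht), fun t ht => Rp.unit _, ?_, ?_, ?_, ?_⟩,
      fun t ht => Rp.ins _ (mR' t ht), fun t ht => ?_⟩
    · intro t ht
      exact (Rp.dp _ (mR' t ht)).comp_sub_const t τ
    · intro t ht
      exact (Rp.dθ _ (mR' t ht)).comp_sub_const t τ
    · intro t ht
      exact (Rp.dv _ (mR' t ht)).comp_sub_const t τ
    · intro t ht
      exact (Rp.dw _ (mR' t ht)).comp_sub_const t τ
    · have := Rp.eq _ (mR ht)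
      simpa using this
  · simp only [sub_self]; exact Rm.p0
  · simp only [sub_self]; exact Rp.p0
  · simp only [sub_self]
    refine Or.inr ⟨hκ, jm, jp, Ξm, Ξp, Rm.θ0, Rp.θ0, hΞm, hΞp, by rw [Rm.v0, neg_neg],
      by rw [Rm.w0], Rp.v0, Rp.w0, ?_⟩
    have bL := hball (τ - δ / 2) (by rw [hL _ hh]; exact hh.2)
    have bR := hball (τ + δ / 2) (by rw [hR _ hh]; exact hh.2)
    rw [hL _ hh] at bL
    rw [hR _ hh] at bR
    have e := h2 _ bL.1 _ bR.1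
    have e' : |τ - δ / 2 - (τ + δ / 2)| = 2 * (δ / 2) := by
      rw [show τ - δ / 2 - (τ + δ / 2) = -(2 * (δ / 2)) by ring, abs_neg,
        abs_of_pos (by linarith)]
    rw [hgeo _ _ (by rw [e']; linarith), e'] at e
    have := cone_opp hh.1 bL.2 bR.2 e.symm
    rw [hψm _ hh, hψp _ hh] at this
    exact this

end Pool.MP8e
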