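import Pool.Agent.Work.MP_8e9dbb.IfaceB

/-!
# Isometric curves in the plane are straight (block LIN, helper30)
-/

open MeasureTheory Filter Topology Metric Set

namespace Pool.MP8e

theorem lin_proof : Stmt_LIN := by
  intro a b z hab h
  have hb : 0 < b - a := by linarith
  have ha' : a ∈ Icc a b := ⟨le_refl _, hab.le⟩
  have hb' : b ∈ Icc a b := ⟨hab.le, le_refl _⟩
  have hba : ‖z b - z a‖ = b - a := by rw [h b hb' a ha', abs_of_pos hb]
  have hbc : ((b - a : ℝ) : ℂ) ≠ 0 := by exact_mod_cast hb.ne'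
  refine ⟨(z b - z a) / ((b - a : ℝ) : ℂ), ?_, fun t ht => ?_⟩
  · rw [norm_div, hba, Complex.norm_real, Real.norm_of_nonneg hb.le, div_self hb.ne']
  · have h1 : ‖z t - z a‖ = t - a := by rw [h t ht a ha', abs_of_nonneg (by linarith [ht.1])]
    have h2 : ‖z b - z t‖ = b - t := by rw [h b hb' t ht, abs_of_nonneg (by linarith [ht.2])]
    have h3 : dist (z a) (z t) + dist (z t) (z b) = dist (z a) (z b) := by
      rw [dist_comm (z a) (z t), dist_comm (z t) (z b), dist_comm (z a) (z b), dist_eq_norm,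
        dist_eq_norm, dist_eq_norm, h1, h2, hba]
      ring
    obtain ⟨r, hr, hr'⟩ := dist_add_dist_eq_iff.mp h3
    rw [AffineMap.lineMap_apply, vsub_eq_sub, vadd_eq_add] at hr'
    have h4 : r * (b - a) = t - a := by
      rw [← h1, ← hr', add_sub_cancel_right, norm_smul, hba, Real.norm_of_nonneg hr.1]
    rw [← hr', Complex.real_smul]
    have h5 : ((t - a : ℝ) : ℂ) = (r : ℂ) * ((b - a : ℝ) : ℂ) := by rw [← h4]; push_cast; ring
    rw [h5]
    field_simp
    ring

end Pool.MP8e
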