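import Pool.Agent.Work.MP_8e9dbb.B.Ext
import Pool.Agent.Work.MP_8e9dbb.B.Lin

/-!
# Regular contacts (block CRR, helper30)
-/

open MeasureTheory Filter Topology Metric Set
open scoped ContDiff

namespace Pool.MP8e

/-- a continuous function with values near `2πℤ` stays near one multiple -/
theorem near_int_const {S : Set ℝ} (hS : IsPreconnected S) {h : ℝ → ℝ} (hc : ContinuousOn h S)
    (hn : ∀ t ∈ S, ∃ n : ℤ, |h t - n * (2 * Real.pi)| < 1) :
    ∃ m : ℤ, ∀ t ∈ S, |h t - m * (2 * Real.pi)| < 1 := by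
  rcases S.eq_empty_or_nonempty with rfl | ⟨t₀, ht₀⟩
  · exact ⟨0, fun t ht => absurd ht (notMem_empty t)⟩
  have hpi := Real.pi_gt_three
  obtain ⟨m, hm⟩ := hn t₀ ht₀
  refine ⟨m, fun t ht => ?_⟩
  obtain ⟨n, hn'⟩ := hn t ht
  have key : ∀ k : ℤ, (∃ u ∈ S, h u = k * (2 * Real.pi) + Real.pi) → False := by
    rintro k ⟨u, hu, hu'⟩
    obtain ⟨n', h1⟩ := hn u hu
    rw [hu', abs_lt] at h1
    rcases le_or_gt n' k with h2 | h2
    · have h3 : (n' : ℝ) ≤ k := by exact_mod_cast h2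
      nlinarith [h1.2]
    · have h3 : (k : ℝ) + 1 ≤ n' := by exact_mod_cast h2
      nlinarith [h1.1]
  rcases lt_trichotomy n m with h1 | h1 | h1
  · exfalso
    have h2 : (n : ℝ) + 1 ≤ m := by exact_mod_cast h1
    rw [abs_lt] at hm hn'
    obtain ⟨u, hu, hu'⟩ := hS.intermediate_value ht ht₀ hc
      (show (n : ℝ) * (2 * Real.pi) + Real.pi ∈ Icc (h t) (h t₀) from
        ⟨by linarith [hn'.2], by nlinarith [hm.1]⟩)
    exact key n ⟨u, hu, hu'⟩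
  · rw [← h1]; exact hn'
  · exfalso
    have h2 : (m : ℝ) + 1 ≤ n := by exact_mod_cast h1
    rw [abs_lt] at hm hn'
    obtain ⟨u, hu, hu'⟩ := hS.intermediate_value ht₀ ht hc
      (show (m : ℝ) * (2 * Real.pi) + Real.pi ∈ Icc (h t₀) (h t) from
        ⟨by linarith [hm.2], by nlinarith [hn'.1]⟩)
    exact key m ⟨u, hu, hu'⟩

theorem QD.IsFoot.neg {D : QD} {θ c : ℝ} (h : D.IsFoot θ c) : D.IsFoot (-θ) (-c) := by
  rcases h with ⟨j, ⟨rfl, h1, h2⟩ | ⟨rfl, h1, h2⟩ | ⟨h0, rfl, h2⟩⟩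
  · exact ⟨-j, Or.inr (Or.inl ⟨by push_cast; ring, by push_cast; linarith, by push_cast; linarith⟩)⟩
  · exact ⟨-j, Or.inl ⟨by push_cast; ring, by push_cast; linarith, by push_cast; linarith⟩⟩
  · exact ⟨-j - 1, Or.inr (Or.inr ⟨h0, by push_cast; ring, by rw [h2]⟩)⟩

theorem QD.IsFoot.add_two_pi {D : QD} {θ c : ℝ} (h : D.IsFoot θ c) (m : ℤ) :
    D.IsFoot (θ + m * (2 * Real.pi)) (c + m * (2 * Real.pi)) := by
  rcases h with ⟨j, ⟨rfl, h1, h2⟩ | ⟨rfl, h1, h2⟩ | ⟨h0, rfl, h2⟩⟩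
  · exact ⟨j + 2 * m, Or.inl ⟨by push_cast; ring, by push_cast; linarith, by push_cast; linarith⟩⟩
  · exact ⟨j + 2 * m, Or.inr (Or.inl ⟨by push_cast; ring, by push_cast; linarith,
      by push_cast; linarith⟩)⟩
  · exact ⟨j + 2 * m, Or.inr (Or.inr ⟨h0, by push_cast; ring, by rw [h2]⟩)⟩

variable {D : QD} {X : Type} [MetricSpace X] {Pr : ℝ × ℝ → X}

theorem Facts.per_int (hF : Facts D X Pr) (p θ : ℝ) (n : ℤ) :
    Pr (p, θ + n * (2 * Real.pi)) = Pr (p, θ) := by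
  induction n using Int.induction_on with
  | zero => simp
  | succ n ih =>
    rw [← ih, ← hF.per p (θ + (n : ℤ) * (2 * Real.pi))]
    congr 2
    push_cast
    ring
  | pred n ih =>
    rw [← ih, ← hF.per p (θ + ((-(n : ℤ) - 1 : ℤ) : ℝ) * (2 * Real.pi))]
    congr 2
    push_cast
    ring

/-- One sided limit of a lift at a point where the developed curve is straight. `s = ±1`. -/
theorem side_limit (hF : Facts D X Pr) {c : ℝ → X} {a b τ : ℝ} {p θ v w : ℝ → ℝ}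
    (hL : ∀ t ∈ Ioo a b, D.InS (p t, θ t) ∧ Pr (p t, θ t) = c t ∧ EqAt D p θ v w t)
    {θ₀ c₀ s : ℝ} (hs : s = 1 ∨ s = -1) {G g₀ : ℂ}
    (H1 : ∀ η > 0, ∃ δ > 0, ∀ t ∈ Ioo a b, |t - τ| < δ → ∃ p' θ', |p' - D.βh θ₀| < η ∧
      |θ' - θ₀| < η ∧ p' ≤ D.βh θ' ∧ c t = Pr (p', s * θ'))
    (H2 : ∃ δ > 0, ∀ t ∈ Ioo a b, |t - τ| < δ → ∃ p' θ', |p' - D.βh θ₀| < D.pf ∧
      |θ' - θ₀| < 1 ∧ p' ≤ D.βh θ' ∧ c t = Pr (p', s * θ') ∧
      D.Z c₀ p' θ' = g₀ + ((t - τ : ℝ) : ℂ) * G) :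
    ∃ m : ℤ, Tendsto p (𝓝[Ioo a b] τ) (𝓝 (D.βh θ₀)) ∧
      Tendsto θ (𝓝[Ioo a b] τ) (𝓝 (s * θ₀ + m * (2 * Real.pi))) ∧
      Tendsto v (𝓝[Ioo a b] τ)
        (𝓝 (Complex.exp ((-(D.κ * (θ₀ - c₀)) : ℝ) * Complex.I) * G).re) ∧
      Tendsto w (𝓝[Ioo a b] τ)
        (𝓝 (s * (Complex.exp ((-(D.κ * (θ₀ - c₀)) : ℝ) * Complex.I) * G).im)) := by
  have hpi := Real.pi_gt_three
  have hs2 : s * s = 1 := by rcases hs with rfl | rfl <;> norm_num
  have hsn : ∀ x : ℝ, D.βh (s * x) = D.βh x := by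
    intro x; rcases hs with rfl | rfl
    · rw [one_mul]
    · rw [neg_one_mul, D.βh_negB]
  have hsint : ∀ n : ℤ, ∃ n' : ℤ, s * n = n' := by
    intro n; rcases hs with rfl | rfl
    · exact ⟨n, by ring⟩
    · exact ⟨-n, by push_cast; ring⟩
  have habs : ∀ x : ℝ, |s * x| = |x| := by
    intro x; rcases hs with rfl | rfl
    · rw [one_mul]
    · rw [neg_one_mul, abs_neg]
  -- comparison of the two descriptions
  have comp : ∀ t ∈ Ioo a b, ∀ p' θ' : ℝ, |p' - D.βh θ₀| < D.pf → p' ≤ D.βh θ' →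
      c t = Pr (p', s * θ') → p' = p t ∧ ∃ n : ℤ, θ' = s * θ t + n * (2 * Real.pi) := by
    intro t ht p' θ' h1 h2 h3
    obtain ⟨hin, hPr, _⟩ := hL t ht
    have hp' : 0 ≤ p' := by
      rw [abs_lt] at h1
      linarith [h1.1, (D.βh_memB θ₀).1]
    obtain ⟨e1, n, e2⟩ := hF.inj (p t) (θ t) p' (s * θ') hin.1 hin.2 hp' (by rw [hsn]; exact h2)
      (by rw [hPr, h3])
    obtain ⟨n', hn'⟩ := hsint n
    refine ⟨e1, n', ?_⟩
    rw [← hn']
    calc θ' = s * s * θ' := by rw [hs2, one_mul]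
      _ = s * (s * θ') := by ring
      _ = s * (θ t + n * (2 * Real.pi)) := by rw [e2]
      _ = s * θ t + s * n * (2 * Real.pi) := by ring
  obtain ⟨δ₀, hδ₀, h2⟩ := H2
  -- the set near τ
  set S : Set ℝ := Ioo a b ∩ ball τ δ₀ with hSdef
  have hSpre : IsPreconnected S := by
    rw [hSdef, Real.ball_eq_Ioo, Ioo_inter_Ioo]
    exact isPreconnected_Ioo
  have hSc : ContinuousOn (fun t => s * θ t - θ₀) S := fun t ht =>
    (((hL t ht.1).2.2.dθ.continuousAt.const_mul s).sub continuousAt_const).continuousWithinAt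
  obtain ⟨m, hm⟩ := near_int_const hSpre hSc (fun t ht => by
    obtain ⟨p', θ', e1, e2, e3, e4, _⟩ := h2 t ht.1 (by simpa [Real.dist_eq] using ht.2)
    obtain ⟨_, n, e5⟩ := comp t ht.1 p' θ' e1 e3 e4
    refine ⟨-n, ?_⟩
    push_cast
    rw [show s * θ t - θ₀ - -(n : ℝ) * (2 * Real.pi) = θ' - θ₀ by rw [e5]; ring]
    exact e2)
  -- uniqueness of the integer
  have uniq : ∀ t ∈ S, ∀ θ' : ℝ, ∀ n : ℤ, θ' = s * θ t + n * (2 * Real.pi) → |θ' - θ₀| < 1 →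
      θ' = s * θ t - m * (2 * Real.pi) := by
    intro t ht θ' n e1 e2
    have e3 := hm t ht
    rw [abs_lt] at e2 e3
    have e4 : n = -m := by
      rcases lt_trichotomy n (-m) with h | h | h
      · exfalso
        have h' : (n : ℝ) + 1 ≤ -m := by exact_mod_cast h
        rw [e1] at e2
        nlinarith [e2.1, e2.2, e3.1, e3.2]
      · exact h
      · exfalso
        have h' : -(m : ℝ) + 1 ≤ n := by exact_mod_cast h
        rw [e1] at e2
        nlinarith [e2.1, e2.2, e3.1, e3.2]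
    rw [e1, e4]
    push_cast
    ring
  -- limits of p and θ
  have near : ∀ η > 0, η ≤ 1 → η ≤ D.pf → ∀ᶠ t in 𝓝[Ioo a b] τ,
      |p t - D.βh θ₀| < η ∧ |s * θ t - m * (2 * Real.pi) - θ₀| < η := by
    intro η hη h1 h1'
    obtain ⟨δ, hδ, h3⟩ := H1 η hη
    have hev : ∀ᶠ t in 𝓝[Ioo a b] τ, t ∈ Ioo a b ∧ |t - τ| < min δ δ₀ := by
      refine Filter.Eventually.and self_mem_nhdsWithin ?_
      exact mem_nhdsWithin_of_mem_nhds (by
        have := Metric.ball_mem_nhds τ (lt_min hδ hδ₀)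
        simpa [Metric.ball, Real.dist_eq] using this)
    filter_upwards [hev] with t ht
    rw [lt_min_iff] at ht
    obtain ⟨p', θ', e1, e2, e3, e4⟩ := h3 t ht.1 ht.2.1
    obtain ⟨e5, n, e6⟩ := comp t ht.1 p' θ' (e1.trans_le h1') e3 e4
    have hS' : t ∈ S := ⟨ht.1, by simpa [Real.dist_eq] using ht.2.2⟩
    have e7 := uniq t hS' θ' n e6 (e2.trans_le h1)
    rw [← e5, ← e7]
    exact ⟨e1, e2⟩
  have limp : Tendsto p (𝓝[Ioo a b] τ) (𝓝 (D.βh θ₀)) := by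
    rw [Metric.tendsto_nhds]
    intro ε hε
    filter_upwards [near (min ε (min 1 D.pf)) (lt_min hε (lt_min one_pos D.pf_posB))
      ((min_le_right _ _).trans (min_le_left _ _)) ((min_le_right _ _).trans (min_le_right _ _))]
      with t ht
    rw [Real.dist_eq]
    exact ht.1.trans_le (min_le_left _ _)
  have limθ' : Tendsto (fun t => s * θ t - m * (2 * Real.pi)) (𝓝[Ioo a b] τ) (𝓝 θ₀) := by
    rw [Metric.tendsto_nhds]
    intro ε hε
    filter_upwards [near (min ε (min 1 D.pf)) (lt_min hε (lt_min one_pos D.pf_posB))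
      ((min_le_right _ _).trans (min_le_left _ _)) ((min_le_right _ _).trans (min_le_right _ _))]
      with t ht
    rw [Real.dist_eq]
    exact ht.2.trans_le (min_le_left _ _)
  obtain ⟨m', hm'⟩ := hsint m
  have limθ : Tendsto θ (𝓝[Ioo a b] τ) (𝓝 (s * θ₀ + m' * (2 * Real.pi))) := by
    have h3 := (limθ'.const_mul s).add_const ((m' : ℝ) * (2 * Real.pi))
    refine h3.congr (fun t => ?_)
    rw [← hm']
    linear_combination (θ t) * hs2
  -- the velocity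
  have hvel : ∀ᶠ t in 𝓝[Ioo a b] τ, ((v t : ℂ) + (s * w t : ℝ) * Complex.I) =
      Complex.exp ((-(D.κ * (s * θ t - m * (2 * Real.pi) - c₀)) : ℝ) * Complex.I) * G := by
    have hev : ∀ᶠ t in 𝓝[Ioo a b] τ, t ∈ S := by
      refine Filter.Eventually.and self_mem_nhdsWithin ?_
      exact mem_nhdsWithin_of_mem_nhds (Metric.ball_mem_nhds τ hδ₀)
    have hpf : ∀ᶠ t in 𝓝[Ioo a b] τ, D.pf < p t := limp.eventually (lt_mem_nhds (D.βh_memB θ₀).1)
    filter_upwards [hev, hpf] with t ht htp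
    have hSo : IsOpen S := isOpen_Ioo.inter isOpen_ball
    have hZ : ∀ u ∈ S, D.Z c₀ (p u) (s * θ u - m * (2 * Real.pi)) =
        g₀ + ((u - τ : ℝ) : ℂ) * G := by
      intro u hu
      obtain ⟨p', θ', e1, e2, e3, e4, e4'⟩ := h2 u hu.1 (by simpa [Real.dist_eq] using hu.2)
      obtain ⟨e5, n, e6⟩ := comp u hu.1 p' θ' e1 e3 e4
      have e7 := uniq u hu θ' n e6 e2
      rw [← e5, ← e7]
      exact e4'
    have hEq : EqAt D p (fun u => s * θ u - m * (2 * Real.pi)) v (fun u => s * w u) t := by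
      rcases hs with rfl | rfl
      · refine ((hL t ht.1).2.2.shift (-((m : ℝ) * (2 * Real.pi)))).congr ?_ ?_ ?_ ?_
        · exact Eventually.of_forall fun u => rfl
        · exact Eventually.of_forall fun u => by simp only; ring
        · exact Eventually.of_forall fun u => rfl
        · exact Eventually.of_forall fun u => by simp only; ring
      · refine ((hL t ht.1).2.2.mirror (-((m : ℝ) * (2 * Real.pi)))).congr ?_ ?_ ?_ ?_
        · exact Eventually.of_forall fun u => rfl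
        · exact Eventually.of_forall fun u => by simp only; ring
        · exact Eventually.of_forall fun u => rfl
        · exact Eventually.of_forall fun u => by simp only; ring
    have hd := (dev_straight D c₀ htp.le ((hL t ht.1).1.2.le.trans (D.βh_memB _).2) hEq).1
    have hd' : HasDerivAt (fun u => D.Z c₀ (p u) (s * θ u - m * (2 * Real.pi))) G t := by
      have h4 : HasDerivAt (fun u : ℝ => g₀ + ((u - τ : ℝ) : ℂ) * G) (((1 : ℝ) : ℂ) * G) t :=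
        ((((hasDerivAt_id t).sub_const τ).ofReal_comp).mul_const G).const_add g₀
      rw [Complex.ofReal_one, one_mul] at h4
      exact h4.congr_of_eventuallyEq (eventually_of_mem (hSo.mem_nhds ht) hZ)
    have he := hd.unique hd'
    rw [← he, ← mul_assoc, ← Complex.exp_add]
    rw [show ((-(D.κ * (s * θ t - m * (2 * Real.pi) - c₀)) : ℝ) : ℂ) * Complex.I +
      ((D.κ * (s * θ t - m * (2 * Real.pi) - c₀) : ℝ) : ℂ) * Complex.I = 0 by push_cast; ring,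
      Complex.exp_zero, one_mul]
  have limV : Tendsto (fun t => (v t : ℂ) + (s * w t : ℝ) * Complex.I) (𝓝[Ioo a b] τ)
      (𝓝 (Complex.exp ((-(D.κ * (θ₀ - c₀)) : ℝ) * Complex.I) * G)) := by
    have h3 : Continuous fun x : ℝ => Complex.exp ((-(D.κ * (x - c₀)) : ℝ) * Complex.I) * G := by
      fun_prop
    have h4 := (h3.tendsto θ₀).comp limθ'
    exact h4.congr' (hvel.mono fun t ht => ht.symm)
  have limre := (Complex.continuous_re.tendsto _).comp limV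
  have limim := (Complex.continuous_im.tendsto _).comp limV
  refine ⟨m', limp, limθ, ?_, ?_⟩
  · refine limre.congr fun t => ?_
    simp
  · refine (limim.const_mul s).congr fun t => ?_
    simp only [Function.comp]
    rw [Complex.add_im, Complex.ofReal_im, Complex.im_ofReal_mul, Complex.I_im, mul_one, zero_add]
    linear_combination (w t) * hs2

theorem foot_sep {θ₁ c₁ : ℝ} (h : D.IsFoot θ₁ c₁) :
    ∃ d > 0, ∀ n : ℤ, d ≤ |θ₁ - n * Real.pi| := by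
  have hpi := Real.pi_pos
  obtain ⟨j, h1, h2⟩ : ∃ j : ℤ, j * Real.pi < θ₁ ∧ θ₁ < (j + 1) * Real.pi := by
    rcases h with ⟨j, ⟨rfl, h1, h2⟩ | ⟨rfl, h1, h2⟩ | ⟨h0, rfl, h2⟩⟩
    · exact ⟨j, h1, by linarith⟩
    · exact ⟨j - 1, by push_cast; linarith, by push_cast; linarith⟩
    · exact ⟨j, by linarith, by linarith⟩
  refine ⟨min (θ₁ - j * Real.pi) ((j + 1) * Real.pi - θ₁), lt_min (by linarith) (by linarith),
    fun n => ?_⟩
  rcases le_or_gt n j with h3 | h3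
  · have h4 : (n : ℝ) ≤ j := by exact_mod_cast h3
    refine (min_le_left _ _).trans ((?_ : _ ≤ θ₁ - n * Real.pi).trans (le_abs_self _))
    nlinarith
  · have h4 : (j : ℝ) + 1 ≤ n := by exact_mod_cast h3
    refine (min_le_right _ _).trans ((?_ : _ ≤ -(θ₁ - n * Real.pi)).trans (neg_le_abs _))
    nlinarith

/-- the one sided lift, `I = (a, b)`, contact at the end `b` (left) or `a` (right) -/
theorem one_side (hARC : Stmt_ARC) (hF : Facts D X Pr) {c : ℝ → X} (hc : IsGeo c)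
    {a b τ : ℝ} (hab : a < b) {θ₁ c₁ s : ℝ} (hfoot : D.IsFoot θ₁ c₁) (hs : s = 1 ∨ s = -1)
    (hτ : c τ = Pr (D.fl θ₁)) {G g₀ : ℂ} {d : ℝ} (hd : 0 < d)
    (hd' : ∀ n : ℤ, d ≤ |θ₁ - n * Real.pi|) {η₁ : ℝ} (hη1 : η₁ ≤ 1) (hηp : η₁ ≤ D.pf)
    (hηd : η₁ ≤ d)
    (H : ∀ t ∈ Ioo a b, ∃ p' θ', |p' - D.βh θ₁| < η₁ ∧ |θ' - θ₁| < η₁ ∧ p' < D.βh θ' ∧
      c t = Pr (p', s * θ') ∧ D.Z c₁ p' θ' = g₀ + ((t - τ : ℝ) : ℂ) * G) :
    ∃ (p θ v w : ℝ → ℝ) (m : ℤ), (∀ t ∈ Ioo a b, D.InS (p t, θ t) ∧ Pr (p t, θ t) = c t ∧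
      EqAt D p θ v w t) ∧ Tendsto p (𝓝[Ioo a b] τ) (𝓝 (D.βh θ₁)) ∧
      Tendsto θ (𝓝[Ioo a b] τ) (𝓝 (s * θ₁ + m * (2 * Real.pi))) ∧
      Tendsto v (𝓝[Ioo a b] τ)
        (𝓝 (Complex.exp ((-(D.κ * (θ₁ - c₁)) : ℝ) * Complex.I) * G).re) ∧
      Tendsto w (𝓝[Ioo a b] τ)
        (𝓝 (s * (Complex.exp ((-(D.κ * (θ₁ - c₁)) : ℝ) * Complex.I) * G).im)) := by
  have hs2 : s * s = 1 := by rcases hs with rfl | rfl <;> norm_num
  have hsn : ∀ x : ℝ, D.βh (s * x) = D.βh x := by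
    intro x; rcases hs with rfl | rfl
    · rw [one_mul]
    · rw [neg_one_mul, D.βh_negB]
  have hppos : ∀ p' : ℝ, |p' - D.βh θ₁| < D.pf → 0 < p' := by
    intro p' h
    rw [abs_lt] at h
    linarith [h.1, (D.βh_memB θ₁).1]
  have hstrip : ∀ t ∈ Ioo a b, ∃ q, D.InS q ∧ c t = Pr q := by
    intro t ht
    obtain ⟨p', θ', h1, h2, h3, h4, _⟩ := H t ht
    exact ⟨(p', s * θ'), ⟨hppos p' (h1.trans_le hηp), by
      change p' < D.βh (s * θ')
      rw [hsn]; exact h3⟩, h4⟩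
  have hmid : (a + b) / 2 ∈ Ioo a b := ⟨by linarith, by linarith⟩
  obtain ⟨q, hq, hq'⟩ := hstrip _ hmid
  obtain ⟨p, θ, v, w, _, _, hL⟩ := hARC D X Pr hF c hc (Ioo a b) isOpen_Ioo isPreconnected_Ioo
    _ hmid hstrip q hq hq'
  have hx₀ : Pr (D.βh θ₁, θ₁) = c τ := hτ.symm
  obtain ⟨ε, hε, hgeo⟩ := hc
  obtain ⟨m, h1, h2, h3, h4⟩ := side_limit hF hL hs (θ₀ := θ₁) (c₀ := c₁) (G := G) (g₀ := g₀)
    (τ := τ) (by
      intro η hη
      obtain ⟨r, hr, ζ, _, _, hζ, _⟩ := hF.floor θ₁ c₁ hfoot (min η (min d D.pf))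
        (lt_min hη (lt_min hd D.pf_posB))
      refine ⟨min r ε, lt_min hr hε, fun t ht htτ => ?_⟩
      rw [lt_min_iff] at htτ
      have hball : c t ∈ ball (Pr (D.βh θ₁, θ₁)) r := by
        rw [mem_ball, hx₀, hgeo t τ htτ.2.le]
        exact htτ.1
      obtain ⟨p'', θ'', e1, e2, e3, _, e4⟩ := hζ _ hball
      rw [lt_min_iff, lt_min_iff] at e1 e2
      obtain ⟨p', θ', k1, k2, k3, k4, _⟩ := H t ht
      have hor : c t = Pr (p'', s * θ'') ∨ c t = Pr (p'', -(s * θ'')) := by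
        rcases hs with rfl | rfl
        · rcases e4 with e | e
          · left; rw [one_mul]; exact e.1
          · right; rw [one_mul]; exact e.1
        · rcases e4 with e | e
          · right; rw [neg_one_mul, neg_neg]; exact e.1
          · left; rw [neg_one_mul]; exact e.1
      rcases hor with h | h
      · exact ⟨p'', θ'', e1.1, e2.1, e3, h⟩
      · exfalso
        have hle : p'' ≤ D.βh (-(s * θ'')) := by rw [D.βh_negB, hsn]; exact e3
        obtain ⟨_, n, hn⟩ := hF.inj p' (s * θ') p'' (-(s * θ'')) (hppos p' (k1.trans_le hηp))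
          (by rw [hsn]; exact k3) (hppos p'' e1.2.2).le hle (by rw [← k4, ← h])
        -- θ' + θ'' = - s n 2π
        have hsn' : ∃ n' : ℤ, θ' + θ'' = n' * (2 * Real.pi) := by
          rcases hs with rfl | rfl
          · exact ⟨-n, by push_cast; linarith⟩
          · exact ⟨n, by linarith⟩
        obtain ⟨n', hn'⟩ := hsn'
        have h5 := hd' n'
        have h6 : |(θ' - θ₁) + (θ'' - θ₁)| < 2 * d := by
          calc |(θ' - θ₁) + (θ'' - θ₁)| ≤ |θ' - θ₁| + |θ'' - θ₁| := abs_add_le _ _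
            _ < 2 * d := by linarith [k2.trans_le hηd, e2.2.1]
        rw [show (θ' - θ₁) + (θ'' - θ₁) = -(2 * (θ₁ - n' * Real.pi)) by linear_combination hn',
          abs_neg, abs_mul, abs_two] at h6
        linarith)
    (by
      refine ⟨1, one_pos, fun t ht _ => ?_⟩
      obtain ⟨p', θ', k1, k2, k3, k4, k5⟩ := H t ht
      exact ⟨p', θ', k1.trans_le hηp, k2.trans_le hη1, k3.le, k4, k5⟩)
  exact ⟨p, θ, v, w, m, hL, h1, h2, h3, h4⟩

/-- closing up at the right end -/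
theorem close_right {c : ℝ → X} {a b : ℝ} (hab : a < b) {p θ v w : ℝ → ℝ}
    (hL : ∀ t ∈ Ioo a b, D.InS (p t, θ t) ∧ Pr (p t, θ t) = c t ∧ EqAt D p θ v w t)
    {pb θb vb wb : ℝ} (hp : Tendsto p (𝓝[Ioo a b] b) (𝓝 pb))
    (hθ : Tendsto θ (𝓝[Ioo a b] b) (𝓝 θb)) (hv : Tendsto v (𝓝[Ioo a b] b) (𝓝 vb))
    (hw : Tendsto w (𝓝[Ioo a b] b) (𝓝 wb)) (hb : 0 < pb ∧ pb ≤ D.ℓ) (cb : Pr (pb, θb) = c b) :
    ∀ a' ∈ Ioo a b, ∃ P Θ V W : ℝ → ℝ, Lift D Pr c a' b P Θ V W ∧ P b = pb ∧ Θ b = θb ∧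
      V b = vb ∧ W b = wb := by
  intro a' ha'
  rw [nhdsWithin_Ioo_eq_nhdsLT hab] at hp hθ hv hw
  have hE := (hL a' ha').2.2
  obtain ⟨P, Θ, V, W, h1, _, _, _, _, _, h2, h3, h4, h5⟩ := lift_extend (D := D) (Pr := Pr)
    (c := c) ha'.2 (p := p) (θ := θ) (v := v) (w := w)
    (fun t ht => hL t ⟨ha'.1.trans ht.1, ht.2⟩)
    (hE.dp.continuousAt.tendsto.mono_left nhdsWithin_le_nhds)
    (hE.dθ.continuousAt.tendsto.mono_left nhdsWithin_le_nhds)
    (hE.dv.continuousAt.tendsto.mono_left nhdsWithin_le_nhds)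
    (hE.dw.continuousAt.tendsto.mono_left nhdsWithin_le_nhds) hp hθ hv hw
    ⟨(hL a' ha').1.1, (hL a' ha').1.2.le.trans (D.βh_memB _).2⟩ hb (hL a' ha').2.1 cb
  exact ⟨P, Θ, V, W, h1, h2, h3, h4, h5⟩

/-- closing up at the left end -/
theorem close_left {c : ℝ → X} {a b : ℝ} (hab : a < b) {p θ v w : ℝ → ℝ}
    (hL : ∀ t ∈ Ioo a b, D.InS (p t, θ t) ∧ Pr (p t, θ t) = c t ∧ EqAt D p θ v w t)
    {pa θa va wa : ℝ} (hp : Tendsto p (𝓝[Ioo a b] a) (𝓝 pa))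
    (hθ : Tendsto θ (𝓝[Ioo a b] a) (𝓝 θa)) (hv : Tendsto v (𝓝[Ioo a b] a) (𝓝 va))
    (hw : Tendsto w (𝓝[Ioo a b] a) (𝓝 wa)) (ha : 0 < pa ∧ pa ≤ D.ℓ) (ca : Pr (pa, θa) = c a) :
    ∀ b' ∈ Ioo a b, ∃ P Θ V W : ℝ → ℝ, Lift D Pr c a b' P Θ V W ∧ P a = pa ∧ Θ a = θa ∧
      V a = va ∧ W a = wa := by
  intro b' hb'
  rw [nhdsWithin_Ioo_eq_nhdsGT hab] at hp hθ hv hw
  have hE := (hL b' hb').2.2
  obtain ⟨P, Θ, V, W, h1, _, h2, h3, h4, h5, _, _, _, _⟩ := lift_extend (D := D) (Pr := Pr)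
    (c := c) hb'.1 (p := p) (θ := θ) (v := v) (w := w)
    (fun t ht => hL t ⟨ht.1, ht.2.trans hb'.2⟩) hp hθ hv hw
    (hE.dp.continuousAt.tendsto.mono_left nhdsWithin_le_nhds)
    (hE.dθ.continuousAt.tendsto.mono_left nhdsWithin_le_nhds)
    (hE.dv.continuousAt.tendsto.mono_left nhdsWithin_le_nhds)
    (hE.dw.continuousAt.tendsto.mono_left nhdsWithin_le_nhds) ha
    ⟨(hL b' hb').1.1, (hL b' hb').1.2.le.trans (D.βh_memB _).2⟩ ca (hL b' hb').2.1
  exact ⟨P, Θ, V, W, h1, h2, h3, h4, h5⟩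

/-- assembly of a regular contact from the two one sided descriptions -/
theorem crr_aux (hARC : Stmt_ARC) (hF : Facts D X Pr) {c : ℝ → X} (hc : IsGeo c)
    {τ δ₀ : ℝ} (hδ₀ : 0 < δ₀) {θ₁ c₁ s : ℝ} (hfoot : D.IsFoot θ₁ c₁) (hs : s = 1 ∨ s = -1)
    (hτ : c τ = Pr (D.fl θ₁)) {Gl Gr g₀ : ℂ} {d : ℝ} (hd : 0 < d)
    (hd' : ∀ n : ℤ, d ≤ |θ₁ - n * Real.pi|) {η₁ : ℝ} (hη1 : η₁ ≤ 1) (hηp : η₁ ≤ D.pf)
    (hηd : η₁ ≤ d)
    (Hl : ∀ t ∈ Ioo (τ - δ₀) τ, ∃ p' θ', |p' - D.βh θ₁| < η₁ ∧ |θ' - θ₁| < η₁ ∧ p' < D.βh θ' ∧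
      c t = Pr (p', s * θ') ∧ D.Z c₁ p' θ' = g₀ + ((t - τ : ℝ) : ℂ) * Gl)
    (Hr : ∀ t ∈ Ioo τ (τ + δ₀), ∃ p' θ', |p' - D.βh θ₁| < η₁ ∧ |θ' - θ₁| < η₁ ∧ p' < D.βh θ' ∧
      c t = Pr (p', -s * θ') ∧ D.Z c₁ p' θ' = g₀ + ((t - τ : ℝ) : ℂ) * Gr)
    (hG : 0 < Gl.re ∧ Gr = -(starRingEnd ℂ) Gl) : ContactAt D Pr c τ := by
  have hlt1 : τ - δ₀ < τ := by linarith
  have hlt2 : τ < τ + δ₀ := by linarith
  obtain ⟨p, θ, v, w, m, hL, l1, l2, l3, l4⟩ := one_side hARC hF hc hlt1 hfoot hs hτ hd hd' hη1 hηp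
    hηd Hl
  obtain ⟨p', θ', v', w', m', hL', r1, r2, r3, r4⟩ := one_side hARC hF hc hlt2 hfoot
    (s := -s) (by rcases hs with rfl | rfl <;> norm_num) hτ hd hd' hη1 hηp hηd Hr
  have hval : ∀ (s' : ℝ) (n : ℤ), (s' = 1 ∨ s' = -1) →
      Pr (D.βh θ₁, s' * θ₁ + n * (2 * Real.pi)) = c τ := by
    intro s' n hs'
    rw [hF.per_int, hτ]
    rcases hs' with rfl | rfl
    · rw [one_mul]; rfl
    · rw [neg_one_mul]; exact hF.flr θ₁
  have hpos : 0 < D.βh θ₁ ∧ D.βh θ₁ ≤ D.ℓ := ⟨D.βh_posB θ₁, (D.βh_memB θ₁).2⟩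
  obtain ⟨P, Θ, V, W, h1, h2, h3, h4, h5⟩ := close_right hlt1 hL l1 l2 l3 l4 hpos
    (hval s m hs) (τ - δ₀ / 2) ⟨by linarith, by linarith⟩
  obtain ⟨P', Θ', V', W', k1, k2, k3, k4, k5⟩ := close_left hlt2 hL' r1 r2 r3 r4 hpos
    (hval (-s) m' (by rcases hs with rfl | rfl <;> norm_num)) (τ + δ₀ / 2)
    ⟨by linarith, by linarith⟩
  have hβ : ∀ (s' : ℝ) (n : ℤ), (s' = 1 ∨ s' = -1) →
      D.βh (s' * θ₁ + n * (2 * Real.pi)) = D.βh θ₁ := by
    intro s' n hs'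
    rw [D.βh_add_two_pi]
    rcases hs' with rfl | rfl
    · rw [one_mul]
    · rw [neg_one_mul, D.βh_negB]
  refine ⟨δ₀ / 2, by linarith, P, Θ, V, W, P', Θ', V', W', h1, k1, ?_, ?_, Or.inl ?_⟩
  · rw [h2, h3, hβ s m hs]
  · rw [k2, k3, hβ (-s) m' (by rcases hs with rfl | rfl <;> norm_num)]
  · rw [h3, h4, h5, k3, k4, k5]
    refine ⟨s * c₁ + m * (2 * Real.pi), m + m', ?_, ?_, ?_, ?_⟩
    · refine QD.IsFoot.add_two_pi ?_ m
      rcases hs with rfl | rfl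
      · rw [one_mul, one_mul]; exact hfoot
      · rw [neg_one_mul, neg_one_mul]; exact hfoot.neg
    · push_cast; ring
    · have e : D.κ * (s * θ₁ + m * (2 * Real.pi) - (s * c₁ + m * (2 * Real.pi))) =
          s * (D.κ * (θ₁ - c₁)) := by ring
      rw [e]
      generalize D.κ * (θ₁ - c₁) = φ
      rcases hs with rfl | rfl
      · rw [one_mul, one_mul, Complex.re_add_im, ← mul_assoc, ← Complex.exp_add]
        rw [show ((φ : ℝ) : ℂ) * Complex.I + ((-φ : ℝ) : ℂ) * Complex.I = 0 by push_cast; ring,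
          Complex.exp_zero, one_mul]
        exact hG.1
      · have e2 : (((Complex.exp ((-φ : ℝ) * Complex.I) * Gl).re : ℝ) : ℂ) +
            ((-1 * (Complex.exp ((-φ : ℝ) * Complex.I) * Gl).im : ℝ) : ℂ) * Complex.I =
            (starRingEnd ℂ) (Complex.exp ((-φ : ℝ) * Complex.I) * Gl) := by
          apply Complex.ext
          · simp
          · simp
            ring
        rw [e2, map_mul, ← Complex.exp_conj, ← mul_assoc, ← Complex.exp_add]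
        rw [show ((-1 * φ : ℝ) : ℂ) * Complex.I + (starRingEnd ℂ) (((-φ : ℝ) : ℂ) * Complex.I) = 0
          by simp, Complex.exp_zero, one_mul, Complex.conj_re]
        exact hG.1
    · have e : 2 * D.κ * (s * θ₁ + m * (2 * Real.pi) - (s * c₁ + m * (2 * Real.pi))) =
          2 * (s * (D.κ * (θ₁ - c₁))) := by ring
      rw [e, hG.2]
      generalize D.κ * (θ₁ - c₁) = φ
      have cj : ∀ z : ℂ, ((z.re : ℝ) : ℂ) + ((-1 * z.im : ℝ) : ℂ) * Complex.I =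
          (starRingEnd ℂ) z := by
        intro z; apply Complex.ext <;> simp
      rcases hs with rfl | rfl
      · rw [one_mul, one_mul, Complex.re_add_im, cj, map_mul, map_neg, Complex.conj_conj,
          ← Complex.exp_conj, mul_neg, neg_inj, ← mul_assoc, ← Complex.exp_add]
        congr 2
        simp
        ring
      · rw [neg_neg, one_mul, Complex.re_add_im, cj, map_mul, ← Complex.exp_conj, mul_neg,
          neg_inj, ← mul_assoc, ← Complex.exp_add]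
        congr 2
        simp
        ring

theorem crr_proof (hARC : Stmt_ARC) : Stmt_CRR := by
  intro D X _ Pr hF c hc τ θ₁ c₁ hfoot hτ
  obtain ⟨d, hd, hd'⟩ := foot_sep hfoot
  obtain ⟨δz, hδz, hz⟩ := D.re_Z_sign hfoot
  set η₁ := min δz (min 1 (min D.pf d)) with hη₁
  have hη₁pos : 0 < η₁ := lt_min hδz (lt_min one_pos (lt_min D.pf_posB hd))
  have hη1 : η₁ ≤ 1 := (min_le_right _ _).trans (min_le_left _ _)
  have hηp : η₁ ≤ D.pf := (min_le_right _ _).trans ((min_le_right _ _).trans (min_le_left _ _))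
  have hηd : η₁ ≤ d := (min_le_right _ _).trans ((min_le_right _ _).trans (min_le_right _ _))
  have hηz : η₁ ≤ δz := min_le_left _ _
  obtain ⟨r, hr, ζ, z0, zd, zalt, _⟩ := hF.floor θ₁ c₁ hfoot η₁ hη₁pos
  obtain ⟨ε, hε, hgeo⟩ := id hc
  set δ₀ := min (ε / 2) (r / 2) with hδ₀'
  have hδ₀ : 0 < δ₀ := lt_min (by linarith) (by linarith)
  have hδε : δ₀ ≤ ε / 2 := min_le_left _ _
  have hδr : δ₀ ≤ r / 2 := min_le_right _ _
  have hx₀ : Pr (D.βh θ₁, θ₁) = c τ := hτ.symm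
  have hball : ∀ t ∈ Icc (τ - δ₀) (τ + δ₀), c t ∈ ball (Pr (D.βh θ₁, θ₁)) r := by
    intro t ht
    have h1 : |t - τ| ≤ δ₀ := abs_le.mpr ⟨by linarith [ht.1], by linarith [ht.2]⟩
    rw [mem_ball, hx₀, hgeo t τ (by linarith)]
    linarith
  obtain ⟨V, hV, hlin⟩ := lin_proof (τ - δ₀) (τ + δ₀) (fun t => ζ (c t)) (by linarith)
    (fun s hs t ht => by
      rw [← zd _ (hball s hs) _ (hball t ht)]
      exact hgeo s t (abs_le.mpr ⟨by linarith [hs.1, ht.2], by linarith [hs.2, ht.1]⟩))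
  set Z₀ := D.Z c₁ (D.βh θ₁) θ₁ with hZ₀
  have hZ₀re : Z₀.re = 0 := D.re_Z_floor hfoot
  have hlin' : ∀ t ∈ Icc (τ - δ₀) (τ + δ₀), ζ (c t) = Z₀ + ((t - τ : ℝ) : ℂ) * V := by
    intro t ht
    have h1 := hlin t ht
    have h2 := hlin τ ⟨by linarith, by linarith⟩
    beta_reduce at h1 h2
    rw [← hx₀, z0] at h2
    rw [h1, h2]
    push_cast
    ring
  -- sign of Re (t - τ) V decides the side
  have alt : ∀ t ∈ Icc (τ - δ₀) (τ + δ₀), ((t - τ) * V.re < 0 → ∃ p' θ', |p' - D.βh θ₁| < η₁ ∧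
      |θ' - θ₁| < η₁ ∧ p' < D.βh θ' ∧ c t = Pr (p', 1 * θ') ∧
      D.Z c₁ p' θ' = Z₀ + ((t - τ : ℝ) : ℂ) * V) ∧
      (0 < (t - τ) * V.re → ∃ p' θ', |p' - D.βh θ₁| < η₁ ∧
      |θ' - θ₁| < η₁ ∧ p' < D.βh θ' ∧ c t = Pr (p', -1 * θ') ∧
      D.Z c₁ p' θ' = Z₀ + ((t - τ : ℝ) : ℂ) * (-(starRingEnd ℂ) V)) := by
    intro t ht
    obtain ⟨p', θ', e1, e2, e3, e4, e5⟩ := zalt _ (hball t ht)
    have hre : (ζ (c t)).re = (t - τ) * V.re := by
      rw [hlin' t ht, Complex.add_re, hZ₀re, Complex.re_ofReal_mul, zero_add]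
    have hsg := hz p' θ' (e2.trans_le hηz) (e1.trans_le hηz)
    constructor
    · intro hneg
      rcases e5 with ⟨e6, e7⟩ | ⟨e6, e7⟩
      · refine ⟨p', θ', e1, e2, hsg.1.mp (by rw [← e7, hre]; exact hneg), by rw [one_mul]; exact e6,
          ?_⟩
        rw [← e7, hlin' t ht]
      · exfalso
        rw [e7, Complex.neg_re, Complex.conj_re] at hre
        linarith
    · intro hpos
      rcases e5 with ⟨e6, e7⟩ | ⟨e6, e7⟩
      · exfalso
        rw [e7] at hre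
        linarith
      · have e8 : D.Z c₁ p' θ' = -(starRingEnd ℂ) (ζ (c t)) := by
          rw [e7, map_neg, Complex.conj_conj, neg_neg]
        refine ⟨p', θ', e1, e2, hsg.1.mp ?_, by rw [neg_one_mul]; exact e6, ?_⟩
        · rw [e8, Complex.neg_re, Complex.conj_re, hre]
          linarith
        · rw [e8, hlin' t ht, map_add, map_mul, Complex.conj_ofReal]
          have e9 : (starRingEnd ℂ) Z₀ = -Z₀ := by
            apply Complex.ext
            · rw [Complex.conj_re, Complex.neg_re, hZ₀re, neg_zero]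
            · rw [Complex.conj_im, Complex.neg_im]
          rw [e9]
          ring
  rcases lt_trichotomy V.re 0 with hV0 | hV0 | hV0
  · right
    refine crr_aux hARC hF hc hδ₀ hfoot (s := -1) (Or.inr rfl) hτ (Gl := -(starRingEnd ℂ) V)
      (Gr := V) (g₀ := Z₀) hd hd' hη1 hηp hηd ?_ ?_ ⟨?_, ?_⟩
    · intro t ht
      exact (alt t ⟨ht.1.le, by linarith [ht.2]⟩).2 (mul_pos_of_neg_of_neg (by linarith [ht.2]) hV0)
    · intro t ht
      rw [neg_neg]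
      exact (alt t ⟨by linarith [ht.1], ht.2.le⟩).1 (mul_neg_of_pos_of_neg (by linarith [ht.1]) hV0)
    · rw [Complex.neg_re, Complex.conj_re]; linarith
    · rw [map_neg, Complex.conj_conj, neg_neg]
  · left
    refine ⟨δ₀, hδ₀, fun t ht => ?_⟩
    rw [Real.ball_eq_Ioo] at ht
    have ht' : t ∈ Icc (τ - δ₀) (τ + δ₀) := ⟨ht.1.le, ht.2.le⟩
    obtain ⟨p', θ', e1, e2, e3, e4, e5⟩ := zalt _ (hball t ht')
    have hre : (ζ (c t)).re = 0 := by
      rw [hlin' t ht', Complex.add_re, hZ₀re, Complex.re_ofReal_mul, zero_add, hV0, mul_zero]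
    have hsg := (hz p' θ' (e2.trans_le hηz) (e1.trans_le hηz)).2
    rcases e5 with ⟨e6, e7⟩ | ⟨e6, e7⟩
    · refine ⟨θ', ?_⟩
      rw [e6, QD.fl, ← hsg.mp (by rw [← e7]; exact hre)]
    · refine ⟨-θ', ?_⟩
      rw [e7, Complex.neg_re, Complex.conj_re, neg_eq_zero] at hre
      rw [e6, QD.fl, D.βh_negB, ← hsg.mp hre]
  · right
    refine crr_aux hARC hF hc hδ₀ hfoot (s := 1) (Or.inl rfl) hτ (Gl := V)
      (Gr := -(starRingEnd ℂ) V) (g₀ := Z₀) hd hd' hη1 hηp hηd ?_ ?_ ⟨hV0, rfl⟩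
    · intro t ht
      exact (alt t ⟨ht.1.le, by linarith [ht.2]⟩).1 (mul_neg_of_neg_of_pos (by linarith [ht.2]) hV0)
    · intro t ht
      exact (alt t ⟨by linarith [ht.1], ht.2.le⟩).2 (mul_pos (by linarith [ht.1]) hV0)

end Pool.MP8e
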