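import Pool.Agent.Work.MP_8e9dbb.IfaceB

/-!
# MP_8e9dbb_gt, block CSH: `Contact` is invariant under `θ ↦ θ + 2πm` (helper41)
-/

open MeasureTheory Filter Topology Metric Set
open scoped ContDiff

namespace Pool.MP8e

namespace CSH

theorem isFoot_shift (D : QD) {θ c : ℝ} (h : D.IsFoot θ c) (m : ℤ) :
    D.IsFoot (θ + m * (2 * Real.pi)) (c + m * (2 * Real.pi)) := by
  obtain ⟨j, h⟩ := h
  refine ⟨j + 2 * m, ?_⟩
  push_cast
  rcases h with ⟨h1, h2, h3⟩ | ⟨h1, h2, h3⟩ | ⟨h1, h2, h3⟩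
  · left
    refine ⟨by rw [h1]; ring, by linarith, by linarith⟩
  · right; left
    refine ⟨by rw [h1]; ring, by linarith, by linarith⟩
  · right; right
    refine ⟨h1, by rw [h2]; ring, by rw [h3]⟩

theorem angleGap_shift (θ a b : ℝ) (m m' : ℤ) :
    angleGap θ (a + m * θ) (b + m' * θ) = angleGap θ a b := by
  unfold angleGap
  refine Equiv.iInf_congr (Equiv.addRight (m - m')) fun n => ?_
  rw [Equiv.coe_addRight]
  congr 1
  push_cast
  ring

end CSH

open CSH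

theorem blk_CSH : Stmt_CSH := by
  intro D θm vm wm θp vp wp m m' h
  rcases h with h | ⟨hκ, h⟩
  · left
    obtain ⟨c₀, n, hf, hθ, hre, hv⟩ := h
    refine ⟨c₀ + m * (2 * Real.pi), n + m + m', isFoot_shift D hf m, ?_, ?_, ?_⟩
    · rw [hθ]; push_cast; ring
    · have e : θm + m * (2 * Real.pi) - (c₀ + m * (2 * Real.pi)) = θm - c₀ := by ring
      rw [e]
      exact hre
    · have e : θm + m * (2 * Real.pi) - (c₀ + m * (2 * Real.pi)) = θm - c₀ := by ring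
      rw [e]
      exact hv
  · right
    refine ⟨hκ, ?_⟩
    obtain ⟨jm, jp, Ξm, Ξp, h1, h2, h3, h4, h5, h6, h7, h8, h9⟩ := h
    refine ⟨jm + 2 * m, jp + 2 * m', Ξm, Ξp, ?_, ?_, h3, h4, h5, h6, h7, h8, ?_⟩
    · rw [h1]; push_cast; ring
    · rw [h2]; push_cast; ring
    · have e : angleGap (4 * D.αQ) (Ξm + 2 * D.αQ * ((jm + 2 * m : ℤ) : ℝ))
          (Ξp + 2 * D.αQ * ((jp + 2 * m' : ℤ) : ℝ)) =
          angleGap (4 * D.αQ) (Ξm + 2 * D.αQ * jm) (Ξp + 2 * D.αQ * jp) := by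
        rw [← angleGap_shift (4 * D.αQ) (Ξm + 2 * D.αQ * jm) (Ξp + 2 * D.αQ * jp) m m']
        congr 1 <;> push_cast <;> ring
      rw [e]
      exact h9

end Pool.MP8e
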