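import Pool.Agent.Work.MP_8e9dbb.B.Beta

/-!
# The developing map (block DEV, helper30)
-/

open MeasureTheory Filter Topology Metric Set
open scoped ContDiff

namespace Pool.MP8e

theorem hasDerivAt_cdev (κ ϑ : ℝ) :
    HasDerivAt (fun x : ℝ => cdev κ x) (Complex.I * Complex.exp ((κ * ϑ : ℝ) * Complex.I)) ϑ := by
  by_cases hκ : κ = 0
  · subst hκ
    simp only [cdev, if_true, zero_mul, Complex.ofReal_zero, Complex.exp_zero, mul_one]
    have h : HasDerivAt (fun x : ℝ => (x : ℂ) * Complex.I) (1 * Complex.I) ϑ :=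
      (Complex.ofRealCLM.hasDerivAt (x := ϑ)).mul_const Complex.I
    rwa [one_mul] at h
  · simp only [cdev, if_neg hκ]
    have hκ' : (κ : ℂ) ≠ 0 := by exact_mod_cast hκ
    have h1 : HasDerivAt (fun x : ℝ => ((κ * x : ℝ) : ℂ) * Complex.I) ((κ : ℂ) * Complex.I) ϑ := by
      have h : HasDerivAt (fun x : ℝ => (x : ℂ)) 1 ϑ := Complex.ofRealCLM.hasDerivAt
      have h' := (h.const_mul (κ : ℂ)).mul_const Complex.I
      rw [mul_one] at h'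
      refine h'.congr_of_eventuallyEq (Eventually.of_forall fun x => ?_)
      push_cast
      rfl
    have h2 := (h1.cexp.sub_const (1 : ℂ)).div_const (κ : ℂ)
    refine h2.congr_deriv ?_
    field_simp

theorem hasDerivAt_cexp_lin (κ c : ℝ) (θ : ℝ → ℝ) {t θ' : ℝ} (h : HasDerivAt θ θ' t) :
    HasDerivAt (fun u => Complex.exp ((κ * (θ u - c) : ℝ) * Complex.I))
      (Complex.exp ((κ * (θ t - c) : ℝ) * Complex.I) * ((κ * θ' : ℝ) * Complex.I)) t := by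
  have h1 : HasDerivAt (fun u => ((κ * (θ u - c) : ℝ) : ℂ)) ((κ * θ' : ℝ) : ℂ) t :=
    ((h.sub_const c).const_mul κ).ofReal_comp
  exact (h1.mul_const Complex.I).cexp

namespace QD

variable (D : QD)

/-- derivative of the developing map along a curve -/
theorem hasDerivAt_Z (c₀ : ℝ) {p θ : ℝ → ℝ} {t p' θ' : ℝ} (hp : HasDerivAt p p' t)
    (hθ : HasDerivAt θ θ' t) : HasDerivAt (fun u => D.Z c₀ (p u) (θ u))
      (Complex.exp ((D.κ * (θ t - c₀) : ℝ) * Complex.I) *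
        (((D.A (p t) * p' : ℝ) : ℂ) + ((D.ρf + D.κ * D.σ (p t)) * θ' : ℝ) * Complex.I)) t := by
  have h1 : HasDerivAt (fun u => (D.σ (p u) : ℂ)) ((D.A (p t) * p' : ℝ) : ℂ) t :=
    ((D.hasDerivAt_σB (p t)).comp t hp).ofReal_comp
  have h2 := hasDerivAt_cexp_lin D.κ c₀ θ hθ
  have h3 : HasDerivAt (fun u => cdev D.κ (θ u - c₀))
      ((θ' : ℂ) * (Complex.I * Complex.exp ((D.κ * (θ t - c₀) : ℝ) * Complex.I))) t := by
    have h4 := (hasDerivAt_cdev D.κ (θ t - c₀)).scomp t (hθ.sub_const c₀)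
    exact h4.congr_deriv (by rw [Complex.real_smul])
  have h5 := (h1.mul h2).add (h3.const_mul (D.ρf : ℂ))
  refine h5.congr_deriv ?_
  push_cast
  ring

theorem f_flatB {p : ℝ} (hp : p ∈ Icc D.pf D.ℓ) : D.f p = D.κ := by
  have h : 0 < D.A p := D.posA p ⟨D.pf_posB.le.trans hp.1, hp.2⟩
  rw [f, D.flat p hp, mul_div_assoc, div_self h.ne', mul_one]

/-- real part of `cdev` -/
theorem re_Z_of_ne {c₀ p θ : ℝ} (hκ : D.κ ≠ 0) : (D.Z c₀ p θ).re =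
    ((D.ρf + D.κ * D.σ p) * Real.cos (D.κ * (θ - c₀)) - D.ρf) / D.κ := by
  have hκ' : (D.κ : ℂ) ≠ 0 := by exact_mod_cast hκ
  rw [Z, cdev, if_neg hκ]
  have e1 : (Complex.exp ((D.κ * (θ - c₀) : ℝ) * Complex.I)) =
      ((Real.cos (D.κ * (θ - c₀)) : ℝ) : ℂ) + (Real.sin (D.κ * (θ - c₀)) : ℝ) * Complex.I := by
    rw [Complex.exp_mul_I, Complex.ofReal_cos, Complex.ofReal_sin]
  rw [e1]
  have e2 : (D.σ p : ℂ) * (((Real.cos (D.κ * (θ - c₀)) : ℝ) : ℂ) +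
      (Real.sin (D.κ * (θ - c₀)) : ℝ) * Complex.I) + (D.ρf : ℂ) *
      ((((Real.cos (D.κ * (θ - c₀)) : ℝ) : ℂ) +
      (Real.sin (D.κ * (θ - c₀)) : ℝ) * Complex.I - 1) / D.κ) =
      ((((D.ρf + D.κ * D.σ p) * Real.cos (D.κ * (θ - c₀)) - D.ρf) / D.κ : ℝ) : ℂ) +
      ((((D.ρf + D.κ * D.σ p) * Real.sin (D.κ * (θ - c₀))) / D.κ : ℝ) : ℂ) * Complex.I := by
    push_cast
    field_simp
    ring
  rw [e2, Complex.add_re, Complex.ofReal_re, Complex.re_ofReal_mul, Complex.I_re, mul_zero, add_zero]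

theorem im_Z_of_ne {c₀ p θ : ℝ} (hκ : D.κ ≠ 0) : (D.Z c₀ p θ).im =
    ((D.ρf + D.κ * D.σ p) * Real.sin (D.κ * (θ - c₀))) / D.κ := by
  have hκ' : (D.κ : ℂ) ≠ 0 := by exact_mod_cast hκ
  rw [Z, cdev, if_neg hκ]
  have e1 : (Complex.exp ((D.κ * (θ - c₀) : ℝ) * Complex.I)) =
      ((Real.cos (D.κ * (θ - c₀)) : ℝ) : ℂ) + (Real.sin (D.κ * (θ - c₀)) : ℝ) * Complex.I := by
    rw [Complex.exp_mul_I, Complex.ofReal_cos, Complex.ofReal_sin]
  rw [e1]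
  have e2 : (D.σ p : ℂ) * (((Real.cos (D.κ * (θ - c₀)) : ℝ) : ℂ) +
      (Real.sin (D.κ * (θ - c₀)) : ℝ) * Complex.I) + (D.ρf : ℂ) *
      ((((Real.cos (D.κ * (θ - c₀)) : ℝ) : ℂ) +
      (Real.sin (D.κ * (θ - c₀)) : ℝ) * Complex.I - 1) / D.κ) =
      ((((D.ρf + D.κ * D.σ p) * Real.cos (D.κ * (θ - c₀)) - D.ρf) / D.κ : ℝ) : ℂ) +
      ((((D.ρf + D.κ * D.σ p) * Real.sin (D.κ * (θ - c₀))) / D.κ : ℝ) : ℂ) * Complex.I := by
    push_cast
    field_simp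
    ring
  rw [e2, Complex.add_im, Complex.ofReal_im, Complex.im_ofReal_mul, Complex.I_im, mul_one, zero_add]

theorem Z_of_zero {c₀ p θ : ℝ} (hκ : D.κ = 0) :
    D.Z c₀ p θ = (D.σ p : ℂ) + ((D.ρf * (θ - c₀) : ℝ) : ℂ) * Complex.I := by
  rw [Z, cdev, if_pos hκ, hκ]
  simp
  ring

theorem cos_foot_posB {θ c : ℝ} (h : D.IsFoot θ c) : 0 < Real.cos (D.κ * (θ - c)) := by
  have h1 := D.floor_foot h
  have h2 : 0 < D.R (D.βh θ) := D.posR _ ⟨D.βh_posB θ, (D.βh_memB θ).2⟩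
  have h3 := D.ρf_pos
  by_contra h4
  rw [not_lt] at h4
  nlinarith [mul_nonneg h2.le (neg_nonneg.mpr h4)]

theorem βh_of_zero (hκ : D.κ = 0) (θ : ℝ) : D.βh θ = D.β D.θf :=
  D.β_const hκ _ (fold_memB θ)

theorem re_Z_floor {θ c : ℝ} (h : D.IsFoot θ c) : (D.Z c (D.βh θ) θ).re = 0 := by
  by_cases hκ : D.κ = 0
  · rw [D.Z_of_zero hκ, D.βh_of_zero hκ, D.σ_βf]
    simp
  · rw [D.re_Z_of_ne hκ, ← D.R_eq ⟨(D.βh_memB θ).1.le, (D.βh_memB θ).2⟩, D.floor_foot h, sub_self,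
      zero_div]

/-- `Re Z` depends on `p` through `σ` -/
theorem re_Z_sub {c₀ p q θ : ℝ} : (D.Z c₀ p θ).re - (D.Z c₀ q θ).re =
    (D.σ p - D.σ q) * Real.cos (D.κ * (θ - c₀)) := by
  by_cases hκ : D.κ = 0
  · rw [D.Z_of_zero hκ, D.Z_of_zero hκ, hκ]
    simp
  · rw [D.re_Z_of_ne hκ, D.re_Z_of_ne hκ]
    field_simp
    ring

theorem isFoot_near {θ₀ c₀ : ℝ} (h : D.IsFoot θ₀ c₀) :
    ∃ δ > 0, ∀ θ, |θ - θ₀| < δ → D.IsFoot θ c₀ := by
  have hpi := Real.pi_pos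
  rcases h with ⟨j, ⟨rfl, h1, h2⟩ | ⟨rfl, h1, h2⟩ | ⟨h0, rfl, h2⟩⟩
  · refine ⟨min (θ₀ - j * Real.pi) (j * Real.pi + Real.pi / 2 - θ₀), ?_, fun θ hθ => ?_⟩
    · exact lt_min (by linarith) (by linarith)
    · rw [lt_min_iff, abs_lt, abs_lt] at hθ
      exact ⟨j, Or.inl ⟨rfl, by linarith [hθ.1.1], by linarith [hθ.2.2]⟩⟩
  · refine ⟨min (θ₀ - (j * Real.pi - Real.pi / 2)) (j * Real.pi - θ₀), ?_, fun θ hθ => ?_⟩
    · exact lt_min (by linarith) (by linarith)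
    · rw [lt_min_iff, abs_lt, abs_lt] at hθ
      exact ⟨j, Or.inr (Or.inl ⟨rfl, by linarith [hθ.1.1], by linarith [hθ.2.2]⟩)⟩
  · refine ⟨Real.pi / 2, by linarith, fun θ hθ => ?_⟩
    rw [abs_lt, h2] at hθ
    rcases lt_trichotomy θ (Real.pi / 2 + j * Real.pi) with h | h | h
    · exact ⟨j, Or.inl ⟨by rw [h0], by linarith [hθ.1], by linarith⟩⟩
    · exact ⟨j, Or.inr (Or.inr ⟨h0, rfl, h⟩)⟩
    · refine ⟨j + 1, Or.inr (Or.inl ⟨by rw [h0]; push_cast; ring, ?_, ?_⟩)⟩ <;> push_cast <;>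
        linarith [hθ.2]

/-- sign of `Re Z` near a floor point -/
theorem re_Z_sign {θ₀ c₀ : ℝ} (h : D.IsFoot θ₀ c₀) :
    ∃ δ > 0, ∀ p θ, |θ - θ₀| < δ → |p - D.βh θ₀| < δ →
      ((D.Z c₀ p θ).re < 0 ↔ p < D.βh θ) ∧ ((D.Z c₀ p θ).re = 0 ↔ p = D.βh θ) := by
  obtain ⟨δ₁, hδ₁, h1⟩ := D.isFoot_near h
  -- `A > 0` on an interval around `βh θ₀`
  have hA : ∀ᶠ p in 𝓝 (D.βh θ₀), 0 < D.A p :=
    D.contA.continuousAt.eventually (lt_mem_nhds (D.posA _ ⟨(D.βh_posB θ₀).le, (D.βh_memB θ₀).2⟩))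
  obtain ⟨δ₂, hδ₂, h2⟩ := Metric.eventually_nhds_iff.mp hA
  obtain ⟨δ₃, hδ₃, h3⟩ := Metric.continuous_iff.mp D.βh_continuous θ₀ δ₂ hδ₂
  have hmono : StrictMonoOn D.σ (ball (D.βh θ₀) δ₂) := by
    rw [Real.ball_eq_Ioo]
    refine strictMonoOn_of_deriv_pos (convex_Ioo _ _) ?_ ?_
    · exact fun x _ => (D.hasDerivAt_σB x).continuousAt.continuousWithinAt
    · intro x hx
      rw [interior_Ioo, ← Real.ball_eq_Ioo] at hx
      rw [(D.hasDerivAt_σB x).deriv]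
      exact h2 hx
  refine ⟨min δ₁ (min δ₂ δ₃), lt_min hδ₁ (lt_min hδ₂ hδ₃), fun p θ hθ hp => ?_⟩
  rw [lt_min_iff, lt_min_iff] at hθ hp
  have hf := h1 θ hθ.1
  have hcos := D.cos_foot_posB hf
  have hβ : D.βh θ ∈ ball (D.βh θ₀) δ₂ := h3 θ hθ.2.2
  have hp' : p ∈ ball (D.βh θ₀) δ₂ := hp.2.1
  have e : (D.Z c₀ p θ).re = (D.σ p - D.σ (D.βh θ)) * Real.cos (D.κ * (θ - c₀)) := by
    have := D.re_Z_sub (c₀ := c₀) (p := p) (q := D.βh θ) (θ := θ)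
    rw [D.re_Z_floor hf, sub_zero] at this
    exact this
  rw [e]
  refine ⟨⟨fun h4 => ?_, fun h4 => ?_⟩, ⟨fun h4 => ?_, fun h4 => ?_⟩⟩
  · by_contra h5
    rw [not_lt] at h5
    have h6 := hmono.monotoneOn hβ hp' h5
    nlinarith [mul_nonneg (sub_nonneg.mpr h6) hcos.le]
  · have h6 := hmono hp' hβ h4
    nlinarith [mul_pos (sub_pos.mpr h6) hcos]
  · rcases mul_eq_zero.mp h4 with h5 | h5
    · exact hmono.injOn hp' hβ (sub_eq_zero.mp h5)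
    · exact absurd h5 hcos.ne'
  · rw [h4, sub_self, zero_mul]

/-- local injectivity of the developing map -/
theorem Z_inj (c₀ : ℝ) {p p' θ θ' : ℝ} (hθ : |θ - θ'| < 2 * Real.pi) (hp : p ∈ Icc D.pf D.ℓ)
    (hp' : p' ∈ Icc D.pf D.ℓ) (hZ : D.Z c₀ p θ = D.Z c₀ p' θ') : p = p' ∧ θ = θ' := by
  have hinj := D.σ_strictMonoOnB.injOn
  have m1 : p ∈ Icc 0 D.ℓ := ⟨D.pf_posB.le.trans hp.1, hp.2⟩
  have m2 : p' ∈ Icc 0 D.ℓ := ⟨D.pf_posB.le.trans hp'.1, hp'.2⟩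
  by_cases hκ : D.κ = 0
  · rw [D.Z_of_zero hκ, D.Z_of_zero hκ] at hZ
    have h1 := congrArg Complex.re hZ
    have h2 := congrArg Complex.im hZ
    simp only [Complex.add_re, Complex.ofReal_re, Complex.mul_re, Complex.I_re, mul_zero,
      Complex.ofReal_im, Complex.I_im, mul_one, sub_self, add_zero, Complex.add_im,
      Complex.mul_im, zero_add] at h1 h2
    have h3 := mul_left_cancel₀ D.ρf_pos.ne' h2
    exact ⟨hinj m1 m2 h1, by linarith⟩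
  · have h1 := congrArg Complex.re hZ
    have h2 := congrArg Complex.im hZ
    rw [D.re_Z_of_ne hκ, D.re_Z_of_ne hκ, ← D.R_eq hp, ← D.R_eq hp'] at h1
    rw [D.im_Z_of_ne hκ, D.im_Z_of_ne hκ, ← D.R_eq hp, ← D.R_eq hp'] at h2
    have r1 : 0 < D.R p := D.posR p ⟨D.pf_posB.trans_le hp.1, hp.2⟩
    have r2 : 0 < D.R p' := D.posR p' ⟨D.pf_posB.trans_le hp'.1, hp'.2⟩
    have h3 : D.R p * Real.cos (D.κ * (θ - c₀)) = D.R p' * Real.cos (D.κ * (θ' - c₀)) := by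
      have := (div_left_inj' hκ).mp h1
      linarith
    have h4 : D.R p * Real.sin (D.κ * (θ - c₀)) = D.R p' * Real.sin (D.κ * (θ' - c₀)) :=
      (div_left_inj' hκ).mp h2
    have h5 : D.R p ^ 2 = D.R p' ^ 2 := by
      have e1 := Real.sin_sq_add_cos_sq (D.κ * (θ - c₀))
      have e2 := Real.sin_sq_add_cos_sq (D.κ * (θ' - c₀))
      calc D.R p ^ 2 = (D.R p * Real.cos (D.κ * (θ - c₀))) ^ 2 +
            (D.R p * Real.sin (D.κ * (θ - c₀))) ^ 2 := by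
            linear_combination (- D.R p ^ 2) * e1
        _ = (D.R p' * Real.cos (D.κ * (θ' - c₀))) ^ 2 +
            (D.R p' * Real.sin (D.κ * (θ' - c₀))) ^ 2 := by rw [h3, h4]
        _ = D.R p' ^ 2 := by linear_combination (D.R p' ^ 2) * e2
    have h6 : D.R p = D.R p' := (pow_left_inj₀ r1.le r2.le two_ne_zero).mp h5
    rw [h6] at h3 h4
    have h7 := mul_left_cancel₀ r2.ne' h3
    have h8 := mul_left_cancel₀ r2.ne' h4
    have h9 : Real.cos (D.κ * (θ - θ')) = 1 := by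
      rw [show D.κ * (θ - θ') = D.κ * (θ - c₀) - D.κ * (θ' - c₀) by ring, Real.cos_sub, h7, h8,
        ← sq, ← sq]
      exact Real.cos_sq_add_sin_sq _
    have hk : |D.κ| ≤ 1 := by
      rcases D.cls with ⟨a, b, _⟩ | ⟨a, b, _⟩
      · rw [abs_le]; constructor <;> linarith
      · rw [abs_le]; constructor <;> linarith
    have h10 : |D.κ * (θ - θ')| < 2 * Real.pi := by
      rw [abs_mul]
      calc |D.κ| * |θ - θ'| ≤ 1 * |θ - θ'| := by gcongr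
        _ < 2 * Real.pi := by rw [one_mul]; exact hθ
    have h11 : D.κ * (θ - θ') = 0 := by
      rw [abs_lt] at h10
      exact (Real.cos_eq_one_iff_of_lt_of_lt (by linarith [h10.1]) h10.2).mp h9
    rcases mul_eq_zero.mp h11 with h | h
    · exact absurd h hκ
    · refine ⟨?_, by linarith⟩
      have e := h6
      rw [D.R_eq hp, D.R_eq hp'] at e
      exact hinj m1 m2 (mul_left_cancel₀ hκ (by linarith))

end QD

/-- the developed curve is straight -/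
theorem dev_straight (D : QD) (c₀ : ℝ) {p θ v w : ℝ → ℝ} {t : ℝ} (hp : D.pf ≤ p t)
    (hp' : p t ≤ D.ℓ) (h : EqAt D p θ v w t) :
    HasDerivAt (fun u => D.Z c₀ (p u) (θ u))
      (Complex.exp ((D.κ * (θ t - c₀) : ℝ) * Complex.I) * ((v t : ℂ) + w t * Complex.I)) t ∧
    HasDerivAt (fun u => Complex.exp ((D.κ * (θ u - c₀) : ℝ) * Complex.I) *
      ((v u : ℂ) + w u * Complex.I)) 0 t := by
  have hA : D.A (p t) ≠ 0 := (D.posA _ ⟨D.pf_posB.le.trans hp, hp'⟩).ne'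
  have hR : D.R (p t) ≠ 0 := (D.posR _ ⟨D.pf_posB.trans_le hp, hp'⟩).ne'
  have hR' := D.R_eq ⟨hp, hp'⟩
  constructor
  · refine (D.hasDerivAt_Z c₀ h.dp h.dθ).congr_deriv ?_
    rw [← hR']
    congr 1
    rw [show D.A (p t) * (v t / D.A (p t)) = v t by field_simp,
      show D.R (p t) * (w t / D.R (p t)) = w t by field_simp]
  · have h1 := hasDerivAt_cexp_lin D.κ c₀ θ h.dθ
    have h2 : HasDerivAt (fun u => (v u : ℂ) + w u * Complex.I)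
        (((D.f (p t) * w t ^ 2 / D.R (p t) : ℝ) : ℂ) +
          ((-(D.f (p t) * v t * w t / D.R (p t)) : ℝ) : ℂ) * Complex.I) t :=
      h.dv.ofReal_comp.add (h.dw.ofReal_comp.mul_const Complex.I)
    refine (h1.mul h2).congr_deriv ?_
    rw [D.f_flatB ⟨hp, hp'⟩]
    have e : (((D.κ * (w t / D.R (p t)) : ℝ) : ℂ) * Complex.I) * ((v t : ℂ) + w t * Complex.I) +
        (((D.κ * w t ^ 2 / D.R (p t) : ℝ) : ℂ) +
          ((-(D.κ * v t * w t / D.R (p t)) : ℝ) : ℂ) * Complex.I) = 0 := by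
      have hR'' : (D.R (p t) : ℂ) ≠ 0 := by exact_mod_cast hR
      push_cast
      field_simp
      linear_combination (D.κ : ℂ) * w t ^ 2 * Complex.I_sq
    linear_combination (Complex.exp ((D.κ * (θ t - c₀) : ℝ) * Complex.I)) * e

theorem dev_proof : Stmt_DEV := by
  refine ⟨fun D c₀ p θ v w t h1 h2 h3 => dev_straight D c₀ h1.le h2.le h3, fun D θ₀ c₀ h =>
    D.isFoot_near h, fun D θ₀ c₀ h => ⟨D.re_Z_floor h, D.re_Z_sign h⟩, fun D c₀ θ₀ _ => ?_⟩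
  refine ⟨1, one_pos, fun p p' θ θ' h1 h2 hp hp' hZ => D.Z_inj c₀ ?_ hp hp' hZ⟩
  have hpi := Real.pi_gt_three
  rw [abs_lt] at *
  constructor <;> linarith [h1.1, h1.2, h2.1, h2.2]

end Pool.MP8e
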