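import Pool.Agent.Work.MP_8e9dbb.IfaceB

/-! Block EIG of MP_8e9dbb: the figure eight of phase T. -/

open MeasureTheory Filter Topology Metric Set
open scoped ContDiff

namespace Pool.MP8e

namespace Eig

variable {D : QD}

theorem theta_f (hκ : 0 < D.κ) : D.κ ≤ 1 / 3 ∧ D.θf = Real.pi / 2 := by
  rcases D.cls with h | h
  · exact absurd h.1 (by linarith)
  · exact ⟨h.2.1, h.2.2⟩

theorem pf_pos (D : QD) : 0 < D.pf := D.e₀_pos.trans D.e₀_lt

theorem zero_mem : (0 : ℝ) ∈ Icc (0 : ℝ) (Real.pi / 2) := ⟨le_rfl, by positivity⟩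

theorem pf_lt (D : QD) : D.pf < D.ℓ :=
  (D.β_mem 0 zero_mem).1.trans_le (D.β_mem 0 zero_mem).2

theorem lowA (D : QD) : ∃ m > 0, ∀ p ∈ Icc 0 D.ℓ, m ≤ D.A p := by
  obtain ⟨p0, hp0, hmin⟩ := isCompact_Icc.exists_isMinOn
    (nonempty_Icc.2 ((pf_pos D).trans (pf_lt D)).le) (D.smA.continuous.continuousOn (s := Icc 0 D.ℓ))
  exact ⟨D.A p0, D.posA p0 hp0, fun p hp => hmin hp⟩

theorem diffR (D : QD) (p : ℝ) : DifferentiableAt ℝ D.R p :=
  (D.smR.differentiable (by simp)).differentiableAt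

theorem mono_R (hκ : 0 < D.κ) : ∃ m > 0, ∀ p ∈ Icc D.pf D.ℓ, ∀ p' ∈ Icc D.pf D.ℓ, p ≤ p' →
    m * (p' - p) ≤ D.R p' - D.R p := by
  obtain ⟨m, hm, hA⟩ := lowA D
  refine ⟨D.κ * m, mul_pos hκ hm, ?_⟩
  apply (convex_Icc D.pf D.ℓ).mul_sub_le_image_sub_of_le_deriv
    D.smR.continuous.continuousOn (fun x _ => (diffR D x).differentiableWithinAt)
  intro x hx
  have hx' := interior_subset hx
  rw [D.flat x hx']
  exact mul_le_mul_of_nonneg_left (hA x ⟨(pf_pos D).le.trans hx'.1, hx'.2⟩) hκ.le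

theorem lt_of_R_lt (hκ : 0 < D.κ) {p p' : ℝ} (hp : p ∈ Icc D.pf D.ℓ) (hp' : p' ∈ Icc D.pf D.ℓ)
    (h : D.R p < D.R p') : p < p' := by
  obtain ⟨m, hm, h1⟩ := mono_R hκ
  by_contra hcon
  push Not at hcon
  have := h1 p' hp' p hp hcon
  nlinarith

theorem eq_of_R_eq (hκ : 0 < D.κ) {p p' : ℝ} (hp : p ∈ Icc D.pf D.ℓ) (hp' : p' ∈ Icc D.pf D.ℓ)
    (h : D.R p = D.R p') : p = p' := by
  obtain ⟨m, hm, h1⟩ := mono_R hκ
  rcases le_total p p' with hle | hle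
  · have := h1 p hp p' hp' hle
    nlinarith
  · have := h1 p' hp' p hp hle
    nlinarith

theorem exists_inv (hκ : 0 < D.κ) : ∃ g : ℝ → ℝ,
    (∀ y ∈ Icc (D.R D.pf) (D.R D.ℓ), g y ∈ Icc D.pf D.ℓ ∧ D.R (g y) = y) ∧
    (∀ y ∈ Ioo (D.R D.pf) (D.R D.ℓ), HasDerivAt g (D.κ * D.A (g y))⁻¹ y) := by
  have hex : ∀ y ∈ Icc (D.R D.pf) (D.R D.ℓ), ∃ p ∈ Icc D.pf D.ℓ, D.R p = y := by
    intro y hy
    obtain ⟨p, hp, hpy⟩ := intermediate_value_Icc (pf_lt D).le D.smR.continuous.continuousOn hy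
    exact ⟨p, hp, hpy⟩
  choose! g hg hgR using hex
  obtain ⟨m, hm, h1⟩ := mono_R hκ
  have hlip : ∀ y ∈ Icc (D.R D.pf) (D.R D.ℓ), ∀ y' ∈ Icc (D.R D.pf) (D.R D.ℓ),
      |g y - g y'| ≤ m⁻¹ * |y - y'| := by
    intro y hy y' hy'
    rw [← div_eq_inv_mul, le_div_iff₀ hm]
    rcases le_total (g y) (g y') with hle | hle
    · have h2 := h1 _ (hg y hy) _ (hg y' hy') hle
      rw [hgR y hy, hgR y' hy'] at h2
      rw [abs_sub_comm, abs_of_nonneg (by linarith : 0 ≤ g y' - g y), abs_sub_comm y]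
      have := le_abs_self (y' - y)
      linarith
    · have h2 := h1 _ (hg y' hy') _ (hg y hy) hle
      rw [hgR y hy, hgR y' hy'] at h2
      rw [abs_of_nonneg (by linarith : 0 ≤ g y - g y')]
      have := le_abs_self (y - y')
      linarith
  refine ⟨g, fun y hy => ⟨hg y hy, hgR y hy⟩, fun y hy => ?_⟩
  have hnh : Icc (D.R D.pf) (D.R D.ℓ) ∈ 𝓝 y := Icc_mem_nhds hy.1 hy.2
  have hy' : y ∈ Icc (D.R D.pf) (D.R D.ℓ) := ⟨hy.1.le, hy.2.le⟩
  have hc : ContinuousAt g y := by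
    have hlo : LipschitzOnWith (Real.toNNReal m⁻¹) g (Icc (D.R D.pf) (D.R D.ℓ)) := by
      apply LipschitzOnWith.of_dist_le_mul
      intro a ha b hb
      rw [Real.dist_eq, Real.dist_eq, Real.coe_toNNReal _ (by positivity)]
      exact hlip a ha b hb
    exact hlo.continuousOn.continuousAt hnh
  have hgy := hg y hy'
  have hne : D.κ * D.A (g y) ≠ 0 := by
    have := D.posA (g y) ⟨(pf_pos D).le.trans hgy.1, hgy.2⟩
    positivity
  apply HasDerivAt.of_local_left_inverse hc _ hne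
  · filter_upwards [hnh] with z hz
    exact hgR z hz
  · rw [← D.flat _ hgy]
    exact (diffR D _).hasDerivAt

/-- distance of the chord from the virtual apex -/
noncomputable def dd (D : QD) : ℝ := D.ρf / D.κ * Real.cos (D.κ * Real.pi / 2)
/-- half length of the chord -/
noncomputable def hh (D : QD) : ℝ := D.ρf / D.κ * Real.sin (D.κ * Real.pi / 2)
/-- distance of the point `s` of the chord from the virtual apex -/
noncomputable def rr (D : QD) (s : ℝ) : ℝ := √(dd D ^ 2 + s ^ 2)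
/-- angle of the point `s` of the chord -/
noncomputable def Th (D : QD) (s : ℝ) : ℝ := Real.arctan (s / dd D) / D.κ

theorem ang (hκ : 0 < D.κ) : 0 < D.κ * Real.pi / 2 ∧ D.κ * Real.pi / 2 ≤ Real.pi / 6 := by
  have h := (theta_f hκ).1
  have hpi := Real.pi_pos
  constructor
  · positivity
  · nlinarith

theorem cos_pos (hκ : 0 < D.κ) : 0 < Real.cos (D.κ * Real.pi / 2) := by
  have h := ang hκ
  have hpi := Real.pi_pos
  exact Real.cos_pos_of_mem_Ioo ⟨by linarith, by linarith⟩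

theorem sin_pos (hκ : 0 < D.κ) : 0 < Real.sin (D.κ * Real.pi / 2) := by
  have h := ang hκ
  have hpi := Real.pi_pos
  exact Real.sin_pos_of_pos_of_lt_pi h.1 (by linarith)

theorem dd_pos (hκ : 0 < D.κ) : 0 < dd D := by
  have := cos_pos hκ
  have := D.ρf_pos
  unfold dd
  positivity

theorem hh_pos (hκ : 0 < D.κ) : 0 < hh D := by
  have := sin_pos hκ
  have := D.ρf_pos
  unfold hh
  positivity

theorem dd_hh (D : QD) : dd D ^ 2 + hh D ^ 2 = (D.ρf / D.κ) ^ 2 := by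
  unfold dd hh
  have := Real.sin_sq_add_cos_sq (D.κ * Real.pi / 2)
  calc _ = (D.ρf / D.κ) ^ 2 * (Real.sin (D.κ * Real.pi / 2) ^ 2 + Real.cos (D.κ * Real.pi / 2) ^ 2) := by
        ring
    _ = _ := by rw [this, mul_one]

theorem rr_pos (hκ : 0 < D.κ) (s : ℝ) : 0 < rr D s := by
  have := dd_pos hκ
  unfold rr
  positivity

theorem rr_sq (D : QD) (s : ℝ) : rr D s ^ 2 = dd D ^ 2 + s ^ 2 := Real.sq_sqrt (by positivity)

theorem dd_le_rr (hκ : 0 < D.κ) (s : ℝ) : dd D ≤ rr D s := by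
  have := dd_pos hκ
  apply Real.le_sqrt_of_sq_le
  nlinarith [sq_nonneg s]

theorem rr_le (hκ : 0 < D.κ) {s : ℝ} (hs : s ∈ Icc (-hh D) (hh D)) : rr D s ≤ D.ρf / D.κ := by
  have h1 := D.ρf_pos
  apply Real.sqrt_le_iff.2 ⟨by positivity, ?_⟩
  rw [← dd_hh]
  nlinarith [hs.1, hs.2]

theorem rr_lt (hκ : 0 < D.κ) {s : ℝ} (hs : s ∈ Ioo (-hh D) (hh D)) : rr D s < D.ρf / D.κ := by
  have h1 := D.ρf_pos
  apply (Real.sqrt_lt' (by positivity)).2
  rw [← dd_hh]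
  nlinarith [hs.1, hs.2]

theorem rr_neg (D : QD) (s : ℝ) : rr D (-s) = rr D s := by
  unfold rr
  rw [neg_sq]

theorem Th_neg (D : QD) (s : ℝ) : Th D (-s) = -Th D s := by
  unfold Th
  rw [neg_div, Real.arctan_neg, neg_div]

theorem rr_deriv (hκ : 0 < D.κ) (s : ℝ) : HasDerivAt (rr D) (s / rr D s) s := by
  have h0 : dd D ^ 2 + s ^ 2 ≠ 0 := by
    have := dd_pos hκ
    positivity
  have h1 : HasDerivAt (fun s : ℝ => dd D ^ 2 + s ^ 2) (2 * s) s := by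
    have := (hasDerivAt_pow 2 s).const_add (dd D ^ 2)
    simpa using this
  have h2 := h1.sqrt h0
  have h3 : 2 * s / (2 * √(dd D ^ 2 + s ^ 2)) = s / rr D s := by
    unfold rr
    rw [mul_div_mul_left _ _ two_ne_zero]
  rw [h3] at h2
  exact h2

theorem Th_deriv (hκ : 0 < D.κ) (s : ℝ) :
    HasDerivAt (Th D) (dd D / (D.κ * rr D s ^ 2)) s := by
  have hd := dd_pos hκ
  have h1 : HasDerivAt (fun s : ℝ => s / dd D) (1 / dd D) s := (hasDerivAt_id s).div_const _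
  have h2 := (h1.arctan).div_const D.κ
  have h3 : 1 / (1 + (s / dd D) ^ 2) * (1 / dd D) / D.κ = dd D / (D.κ * rr D s ^ 2) := by
    rw [rr_sq]
    have : dd D ^ 2 + s ^ 2 ≠ 0 := by positivity
    have : 1 + (s / dd D) ^ 2 ≠ 0 := by positivity
    field_simp
  rw [h3] at h2
  exact h2

theorem rho_beta (hκ : 0 < D.κ) : D.R (D.β (Real.pi / 2)) = D.ρf := by
  have h := D.floor (Real.pi / 2) ⟨by positivity, le_rfl⟩
  rw [(theta_f hκ).2, sub_self, mul_zero, Real.cos_zero, mul_one] at h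
  exact h

theorem rho_le_Rl (hκ : 0 < D.κ) : D.ρf ≤ D.R D.ℓ := by
  rw [← rho_beta hκ]
  obtain ⟨m, hm, h1⟩ := mono_R hκ
  have hb := D.β_mem (Real.pi / 2) ⟨by positivity, le_rfl⟩
  have := h1 _ ⟨hb.1.le, hb.2⟩ _ ⟨(pf_lt D).le, le_rfl⟩ hb.2
  nlinarith [hb.2]

theorem exists_P (hκ : 0 < D.κ) (hR : D.R D.pf < D.ρf * Real.cos (D.κ * Real.pi / 2)) :
    ∃ P : ℝ → ℝ, (∀ s ∈ Icc (-hh D) (hh D), P s ∈ Ioc D.pf D.ℓ ∧ D.R (P s) = D.κ * rr D s) ∧
      ∀ s ∈ Ioo (-hh D) (hh D), HasDerivAt P (s / (rr D s * D.A (P s))) s := by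
  obtain ⟨g, hg, hg'⟩ := exists_inv hκ
  have hκd : D.κ * dd D = D.ρf * Real.cos (D.κ * Real.pi / 2) := by
    unfold dd
    field_simp
  have hlow : ∀ s, D.R D.pf < D.κ * rr D s := by
    intro s
    have := mul_le_mul_of_nonneg_left (dd_le_rr hκ s) hκ.le
    linarith
  have hup : ∀ s ∈ Icc (-hh D) (hh D), D.κ * rr D s ≤ D.R D.ℓ := by
    intro s hs
    have h1 := mul_le_mul_of_nonneg_left (rr_le hκ hs) hκ.le
    rw [mul_div_cancel₀ _ hκ.ne'] at h1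
    exact h1.trans (rho_le_Rl hκ)
  have hup' : ∀ s ∈ Ioo (-hh D) (hh D), D.κ * rr D s < D.R D.ℓ := by
    intro s hs
    have h1 := mul_lt_mul_of_pos_left (rr_lt hκ hs) hκ
    rw [mul_div_cancel₀ _ hκ.ne'] at h1
    exact h1.trans_le (rho_le_Rl hκ)
  refine ⟨fun s => g (D.κ * rr D s), fun s hs => ?_, fun s hs => ?_⟩
  · obtain ⟨h1, h2⟩ := hg _ ⟨(hlow s).le, hup s hs⟩
    refine ⟨⟨lt_of_le_of_ne h1.1 ?_, h1.2⟩, h2⟩
    intro h
    have h3 := hlow s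
    have h4 : D.pf = g (D.κ * rr D s) := h
    rw [← h2, ← h4] at h3
    exact lt_irrefl _ h3
  · have h1 := hg' _ ⟨hlow s, hup' s hs⟩
    have h2 : HasDerivAt (fun s => D.κ * rr D s) (D.κ * (s / rr D s)) s :=
      (rr_deriv hκ s).const_mul _
    have h3 := h1.comp s h2
    have hgm := (hg _ ⟨(hlow s).le, (hup' s hs).le⟩).1
    have hA : D.A (g (D.κ * rr D s)) ≠ 0 :=
      (D.posA _ ⟨(pf_pos D).le.trans hgm.1, hgm.2⟩).ne'
    have hr := (rr_pos hκ s).ne'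
    have h4 : (D.κ * D.A (g (D.κ * rr D s)))⁻¹ * (D.κ * (s / rr D s)) =
        s / (rr D s * D.A (g (D.κ * rr D s))) := by
      field_simp
    rw [h4] at h3
    exact h3

theorem polar_cos (hκ : 0 < D.κ) (s : ℝ) : rr D s * Real.cos (D.κ * Th D s) = dd D ∧
    rr D s * Real.sin (D.κ * Th D s) = s := by
  have hd := dd_pos hκ
  have h1 : D.κ * Th D s = Real.arctan (s / dd D) := by
    unfold Th
    field_simp
  have h2 : rr D s = dd D * √(1 + (s / dd D) ^ 2) := by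
    unfold rr
    rw [← Real.sqrt_sq hd.le, ← Real.sqrt_mul (by positivity), Real.sqrt_sq hd.le]
    congr 1
    field_simp
  have h3 : √(1 + (s / dd D) ^ 2) ≠ 0 := by positivity
  rw [h1, Real.cos_arctan, Real.sin_arctan, h2]
  constructor
  · field_simp
  · field_simp

theorem lip_of_deriv {f f' : ℝ → ℝ} {a b C : ℝ} (hC : 0 ≤ C)
    (hf : ∀ x ∈ Icc a b, HasDerivAt f (f' x) x) (hb : ∀ x ∈ Icc a b, |f' x| ≤ C) :
    ∃ K, LipschitzOnWith K f (Icc a b) := by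
  refine ⟨Real.toNNReal C, (convex_Icc a b).lipschitzOnWith_of_nnnorm_hasDerivWithin_le
    (fun x hx => (hf x hx).hasDerivWithinAt) fun x hx => ?_⟩
  rw [← NNReal.coe_le_coe, coe_nnnorm, Real.coe_toNNReal _ hC, Real.norm_eq_abs]
  exact hb x hx

theorem rho_le_R (hβ : ∀ θ, D.pf < D.βh θ ∧ D.βh θ ≤ D.ℓ) (θ : ℝ) :
    D.ρf ≤ D.R (D.βh θ) := by
  have hf0 : 0 ≤ fold θ := Real.arccos_nonneg _
  have hf1 : fold θ ≤ Real.pi / 2 := Real.arccos_le_pi_div_two.2 (abs_nonneg _)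
  have h := D.floor (fold θ) ⟨hf0, hf1⟩
  have hp : 0 < D.R (D.β (fold θ)) :=
    D.posR _ ⟨(pf_pos D).trans (hβ θ).1, (hβ θ).2⟩
  have hc := Real.cos_le_one (D.κ * (fold θ - D.θf))
  calc D.ρf = D.R (D.β (fold θ)) * Real.cos (D.κ * (fold θ - D.θf)) := h.symm
    _ ≤ D.R (D.β (fold θ)) * 1 := mul_le_mul_of_nonneg_left hc hp.le
    _ = D.R (D.βh θ) := by rw [mul_one]; rfl

/-- the calibration of the chord -/
theorem calib (hκ : 0 < D.κ) (e : ℝ) {x : ℝ × ℝ} (hx : x.1 ∈ Icc D.pf D.ℓ) (u : ℝ × ℝ) :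
    |fderiv ℝ (fun x : ℝ × ℝ => D.R x.1 / D.κ * Real.sin (D.κ * (x.2 - e))) x u| ≤ D.nm x.1 u := by
  have h1 : HasFDerivAt (fun x : ℝ × ℝ => D.R x.1 / D.κ)
      ((deriv D.R x.1 / D.κ) • ContinuousLinearMap.fst ℝ ℝ ℝ) x :=
    ((diffR D x.1).hasDerivAt.div_const D.κ).comp_hasFDerivAt x hasFDerivAt_fst
  have h2 : HasDerivAt (fun t : ℝ => Real.sin (D.κ * (t - e)))
      (Real.cos (D.κ * (x.2 - e)) * (D.κ * 1)) x.2 :=
    (((hasDerivAt_id x.2).sub_const e).const_mul D.κ).sin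
  have h3 : HasFDerivAt (fun x : ℝ × ℝ => Real.sin (D.κ * (x.2 - e)))
      ((Real.cos (D.κ * (x.2 - e)) * (D.κ * 1)) • ContinuousLinearMap.snd ℝ ℝ ℝ) x :=
    h2.comp_hasFDerivAt x hasFDerivAt_snd
  have h4 := (h1.mul h3).fderiv
  have h5 : fderiv ℝ (fun x : ℝ × ℝ => D.R x.1 / D.κ * Real.sin (D.κ * (x.2 - e))) x u =
      D.A x.1 * Real.sin (D.κ * (x.2 - e)) * u.1 + D.R x.1 * Real.cos (D.κ * (x.2 - e)) * u.2 := by
    rw [show (fun x : ℝ × ℝ => D.R x.1 / D.κ * Real.sin (D.κ * (x.2 - e))) =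
      (fun x : ℝ × ℝ => D.R x.1 / D.κ) * (fun x : ℝ × ℝ => Real.sin (D.κ * (x.2 - e))) from rfl, h4]
    simp only [add_apply, smul_apply,
      ContinuousLinearMap.coe_fst', ContinuousLinearMap.coe_snd', smul_eq_mul]
    rw [D.flat _ hx]
    field_simp
    ring
  rw [h5]
  unfold QD.nm
  apply Real.abs_le_sqrt
  have h6 := Real.sin_sq_add_cos_sq (D.κ * (x.2 - e))
  have h7 : (D.A x.1 * u.1) ^ 2 + (D.R x.1 * u.2) ^ 2 -
      (D.A x.1 * Real.sin (D.κ * (x.2 - e)) * u.1 + D.R x.1 * Real.cos (D.κ * (x.2 - e)) * u.2) ^ 2 =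
      (D.A x.1 * u.1 * Real.cos (D.κ * (x.2 - e)) - D.R x.1 * u.2 * Real.sin (D.κ * (x.2 - e))) ^ 2 +
      ((D.A x.1 * u.1) ^ 2 + (D.R x.1 * u.2) ^ 2) *
        (1 - (Real.sin (D.κ * (x.2 - e)) ^ 2 + Real.cos (D.κ * (x.2 - e)) ^ 2)) := by ring
  rw [h6] at h7
  nlinarith [sq_nonneg (D.A x.1 * u.1 * Real.cos (D.κ * (x.2 - e)) -
    D.R x.1 * u.2 * Real.sin (D.κ * (x.2 - e)))]

theorem chord_InS (hκ : 0 < D.κ) (hβ : ∀ θ, D.pf < D.βh θ ∧ D.βh θ ≤ D.ℓ) {P : ℝ → ℝ}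
    (hP : ∀ s ∈ Icc (-hh D) (hh D), P s ∈ Ioc D.pf D.ℓ ∧ D.R (P s) = D.κ * rr D s) {s : ℝ}
    (hs : s ∈ Ioo (-hh D) (hh D)) (θ : ℝ) : D.InS (P s, θ) := by
  obtain ⟨h1, h2⟩ := hP s ⟨hs.1.le, hs.2.le⟩
  refine ⟨(pf_pos D).trans h1.1, ?_⟩
  apply lt_of_R_lt hκ ⟨h1.1.le, h1.2⟩ ⟨(hβ θ).1.le, (hβ θ).2⟩
  refine lt_of_lt_of_le ?_ (rho_le_R hβ θ)
  rw [h2]
  have h3 := mul_lt_mul_of_pos_left (rr_lt hκ hs) hκ
  rwa [mul_div_cancel₀ _ hκ.ne'] at h3

/-- the interior of the chord is locally isometric -/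
theorem interior {X : Type} [MetricSpace X] [CompactSpace X] {Pr : ℝ × ℝ → X}
    (hF : Facts D X Pr) (hmid : ∀ x y : X, ∃ z, dist x z = dist x y / 2 ∧ dist z y = dist x y / 2)
    (hκ : 0 < D.κ) (hβ : ∀ θ, D.pf < D.βh θ ∧ D.βh θ ≤ D.ℓ) (hCMP : Stmt_CMP) (hCAL : Stmt_CAL)
    {P : ℝ → ℝ} (hP : ∀ s ∈ Icc (-hh D) (hh D), P s ∈ Ioc D.pf D.ℓ ∧ D.R (P s) = D.κ * rr D s)
    (hP' : ∀ s ∈ Ioo (-hh D) (hh D), HasDerivAt P (s / (rr D s * D.A (P s))) s) (e : ℝ) {s₀ : ℝ}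
    (hs₀ : s₀ ∈ Ioo (-hh D) (hh D)) :
    ∃ δ > 0, ball s₀ δ ⊆ Ioo (-hh D) (hh D) ∧ ∀ s ∈ ball s₀ δ, ∀ s' ∈ ball s₀ δ,
      dist (Pr (P s, e + Th D s)) (Pr (P s', e + Th D s')) = |s - s'| := by
  obtain ⟨m, hm, hA⟩ := lowA D
  have hin : ∀ s ∈ Ioo (-hh D) (hh D), ∀ θ, D.InS (P s, θ) :=
    fun s hs θ => chord_InS hκ hβ hP hs θ
  have hcc : ∀ s ∈ Ioo (-hh D) (hh D), s ∈ Icc (-hh D) (hh D) := fun s hs => ⟨hs.1.le, hs.2.le⟩
  -- lower bound
  have hps : D.pf < P s₀ ∧ P s₀ < D.ℓ :=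
    ⟨(hP s₀ (hcc _ hs₀)).1.1, (hin s₀ hs₀ 0).2.trans_le (hβ 0).2⟩
  obtain ⟨δ1, hδ1, hcal⟩ := hCAL D X Pr hF hmid (P s₀, e + Th D s₀) (hin s₀ hs₀ _)
    (fun x => D.R x.1 / D.κ * Real.sin (D.κ * (x.2 - e))) (min (P s₀ - D.pf) (D.ℓ - P s₀))
    (lt_min (by linarith) (by linarith))
    (by
      apply ContDiff.contDiffOn
      have h1 : ContDiff ℝ 1 D.R := D.smR.of_le (by exact_mod_cast le_top)
      exact ((h1.comp contDiff_fst).div_const _).mul
        (Real.contDiff_sin.comp (contDiff_const.mul (contDiff_snd.sub contDiff_const))))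
    (by
      intro x hx u
      apply calib hκ e
      have h3 := mem_ball.1 hx
      rw [Prod.dist_eq] at h3
      have h4 := lt_of_le_of_lt (le_max_left _ _) h3
      simp only [Real.dist_eq] at h4
      have h5 := h4.trans_le (min_le_left _ _)
      have h6 := h4.trans_le (min_le_right _ _)
      rw [abs_lt] at h5 h6
      constructor <;> linarith)
  -- continuity of the chord
  have hcont : ContinuousAt (fun s => ((P s, e + Th D s) : ℝ × ℝ)) s₀ :=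
    (hP' s₀ hs₀).continuousAt.prodMk (continuousAt_const.add (Th_deriv hκ s₀).continuousAt)
  obtain ⟨δ2, hδ2, hc2⟩ := Metric.continuousAt_iff.1 hcont δ1 hδ1
  obtain ⟨δ3, hδ3, hc3⟩ := Metric.isOpen_iff.1 isOpen_Ioo s₀ hs₀
  have hFs : ∀ s ∈ Ioo (-hh D) (hh D),
      D.R (P s) / D.κ * Real.sin (D.κ * (e + Th D s - e)) = s := by
    intro s hs
    rw [(hP s (hcc s hs)).2, mul_div_cancel_left₀ _ hκ.ne', add_sub_cancel_left]
    exact (polar_cos hκ s).2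
  -- upper bound
  have hup : ∀ a ∈ Ioo (-hh D) (hh D), ∀ b ∈ Ioo (-hh D) (hh D), a ≤ b →
      dist (Pr (P a, e + Th D a)) (Pr (P b, e + Th D b)) ≤ b - a := by
    intro a ha b hb hab
    have hsub : ∀ t ∈ Icc a b, t ∈ Ioo (-hh D) (hh D) :=
      fun t ht => ⟨ha.1.trans_le ht.1, ht.2.trans_lt hb.2⟩
    have hTd : ∀ t, HasDerivAt (fun s => e + Th D s) (dd D / (D.κ * rr D t ^ 2)) t :=
      fun t => (Th_deriv hκ t).const_add e
    have hd := dd_pos hκ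
    have h1 := hCMP D X Pr hF a b hab P (fun s => e + Th D s)
      (lip_of_deriv (C := 1 / m) (by positivity) (fun t ht => hP' t (hsub t ht)) (by
        intro t ht
        have h2 := hP t (hcc t (hsub t ht))
        have hAp : m ≤ D.A (P t) := hA _ ⟨(pf_pos D).le.trans h2.1.1.le, h2.1.2⟩
        have hr := rr_pos hκ t
        have htr : |t| ≤ rr D t := by
          apply Real.abs_le_sqrt
          nlinarith [sq_nonneg (dd D)]
        have hA0 : 0 < D.A (P t) := hm.trans_le hAp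
        rw [abs_div, abs_of_pos (by positivity : 0 < rr D t * D.A (P t)), div_le_div_iff₀
          (by positivity) hm]
        calc |t| * m ≤ rr D t * D.A (P t) := mul_le_mul htr hAp hm.le hr.le
          _ = 1 * (rr D t * D.A (P t)) := (one_mul _).symm))
      (lip_of_deriv (C := 1 / (D.κ * dd D)) (by positivity) (fun t _ => hTd t) (by
        intro t ht
        have hr := rr_pos hκ t
        have hdr := dd_le_rr hκ t
        rw [abs_of_nonneg (by positivity), div_le_div_iff₀ (by positivity) (by positivity)]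
        have h3 : dd D ^ 2 ≤ rr D t ^ 2 := by
          apply pow_le_pow_left₀ hd.le hdr
        nlinarith))
      (fun t ht => hin t (hsub t ht) _)
    refine h1.trans ?_
    have h4 : ∀ t ∈ uIcc a b, D.nm (P t) (deriv P t, deriv (fun s => e + Th D s) t) = 1 := by
      intro t ht
      rw [uIcc_of_le hab] at ht
      have h2 := hP t (hcc t (hsub t ht))
      have hA0 : 0 < D.A (P t) := D.posA _ ⟨(pf_pos D).le.trans h2.1.1.le, h2.1.2⟩
      have hr := rr_pos hκ t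
      rw [(hP' t (hsub t ht)).deriv, (hTd t).deriv]
      unfold QD.nm
      simp only
      rw [h2.2]
      have h5 : (D.A (P t) * (t / (rr D t * D.A (P t)))) ^ 2 +
          (D.κ * rr D t * (dd D / (D.κ * rr D t ^ 2))) ^ 2 = 1 := by
        have h6 : D.A (P t) * (t / (rr D t * D.A (P t))) = t / rr D t := by
          field_simp
        have h7 : D.κ * rr D t * (dd D / (D.κ * rr D t ^ 2)) = dd D / rr D t := by
          field_simp
        rw [h6, h7, div_pow, div_pow, ← add_div, div_eq_one_iff_eq (by positivity), rr_sq]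
        ring
      rw [h5, Real.sqrt_one]
    rw [intervalIntegral.integral_congr h4]
    simp
  refine ⟨min δ2 δ3, lt_min hδ2 hδ3, (ball_subset_ball (min_le_right _ _)).trans hc3,
    fun s hs s' hs' => ?_⟩
  have hs1 := hc3 (ball_subset_ball (min_le_right _ _) hs)
  have hs1' := hc3 (ball_subset_ball (min_le_right _ _) hs')
  have hs2 := hc2 (ball_subset_ball (min_le_left _ _) hs : s ∈ ball s₀ δ2)
  have hs2' := hc2 (ball_subset_ball (min_le_left _ _) hs' : s' ∈ ball s₀ δ2)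
  apply le_antisymm
  · rcases le_total s s' with h | h
    · rw [abs_sub_comm, abs_of_nonneg (by linarith : 0 ≤ s' - s)]
      exact hup s hs1 s' hs1' h
    · rw [abs_of_nonneg (by linarith : 0 ≤ s - s'), dist_comm]
      exact hup s' hs1' s hs1 h
  · have h8 := hcal _ hs2 _ hs2'
    simp only at h8
    rw [hFs s hs1, hFs s' hs1'] at h8
    exact h8

theorem Zform (hκ : 0 < D.κ) (hσ : ∀ p ∈ Icc D.pf D.ℓ, D.R p = D.ρf + D.κ * D.σ p) (c : ℝ)
    {p : ℝ} (hp : p ∈ Icc D.pf D.ℓ) (θ : ℝ) :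
    D.Z c p θ = ((D.R p / D.κ : ℝ) : ℂ) * Complex.exp ((D.κ * (θ - c) : ℝ) * Complex.I) -
      ((D.ρf / D.κ : ℝ) : ℂ) := by
  unfold QD.Z cdev
  rw [if_neg hκ.ne', hσ p hp]
  have : (D.κ : ℂ) ≠ 0 := by exact_mod_cast hκ.ne'
  push_cast
  field_simp
  ring

theorem Z_re (hκ : 0 < D.κ) (hσ : ∀ p ∈ Icc D.pf D.ℓ, D.R p = D.ρf + D.κ * D.σ p) (c : ℝ)
    {p : ℝ} (hp : p ∈ Icc D.pf D.ℓ) (θ : ℝ) :
    (D.Z c p θ).re = D.R p / D.κ * Real.cos (D.κ * (θ - c)) - D.ρf / D.κ := by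
  rw [Zform hκ hσ c hp, Complex.sub_re, Complex.re_ofReal_mul, Complex.exp_ofReal_mul_I_re,
    Complex.ofReal_re]

theorem Z_im (hκ : 0 < D.κ) (hσ : ∀ p ∈ Icc D.pf D.ℓ, D.R p = D.ρf + D.κ * D.σ p) (c : ℝ)
    {p : ℝ} (hp : p ∈ Icc D.pf D.ℓ) (θ : ℝ) :
    (D.Z c p θ).im = D.R p / D.κ * Real.sin (D.κ * (θ - c)) := by
  rw [Zform hκ hσ c hp, Complex.sub_im, Complex.im_ofReal_mul, Complex.exp_ofReal_mul_I_im,
    Complex.ofReal_im, sub_zero]

/-- the (negative) direction of the chord at `Q` -/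
noncomputable def vv (D : QD) : ℂ := ⟨Real.sin (D.κ * Real.pi / 2), Real.cos (D.κ * Real.pi / 2)⟩

theorem norm_vv (D : QD) : ‖vv D‖ = 1 := by
  rw [Complex.norm_def, Complex.normSq_apply]
  unfold vv
  simp only
  rw [← sq, ← sq, Real.sin_sq_add_cos_sq, Real.sqrt_one]

theorem Z1 (hκ : 0 < D.κ) (hσ : ∀ p ∈ Icc D.pf D.ℓ, D.R p = D.ρf + D.κ * D.σ p)
    {P : ℝ → ℝ} (hP : ∀ s ∈ Icc (-hh D) (hh D), P s ∈ Ioc D.pf D.ℓ ∧ D.R (P s) = D.κ * rr D s)
    {s : ℝ} (hs : s ∈ Icc (-hh D) (hh D)) :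
    D.Z (Real.pi / 2) (P s) (Th D s) = ((s - hh D : ℝ) : ℂ) * vv D := by
  obtain ⟨h1, h2⟩ := hP s hs
  obtain ⟨h3, h4⟩ := polar_cos hκ s
  have h5 := Real.sin_sq_add_cos_sq (D.κ * Real.pi / 2)
  have h6 : D.κ * (Th D s - Real.pi / 2) = D.κ * Th D s - D.κ * Real.pi / 2 := by ring
  apply Complex.ext
  · rw [Z_re hκ hσ _ ⟨h1.1.le, h1.2⟩, h2, mul_div_cancel_left₀ _ hκ.ne', h6, Real.cos_sub,
      Complex.re_ofReal_mul]
    have : rr D s * (Real.cos (D.κ * Th D s) * Real.cos (D.κ * Real.pi / 2) +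
        Real.sin (D.κ * Th D s) * Real.sin (D.κ * Real.pi / 2)) =
        dd D * Real.cos (D.κ * Real.pi / 2) + s * Real.sin (D.κ * Real.pi / 2) := by
      rw [← h3]
      nth_rewrite 6 [← h4]
      ring
    rw [this]
    unfold dd hh vv
    simp only
    linear_combination (D.ρf / D.κ) * h5
  · rw [Z_im hκ hσ _ ⟨h1.1.le, h1.2⟩, h2, mul_div_cancel_left₀ _ hκ.ne', h6, Real.sin_sub,
      Complex.im_ofReal_mul]
    have : rr D s * (Real.sin (D.κ * Th D s) * Real.cos (D.κ * Real.pi / 2) -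
        Real.cos (D.κ * Th D s) * Real.sin (D.κ * Real.pi / 2)) =
        s * Real.cos (D.κ * Real.pi / 2) - dd D * Real.sin (D.κ * Real.pi / 2) := by
      linear_combination Real.cos (D.κ * Real.pi / 2) * h4 - Real.sin (D.κ * Real.pi / 2) * h3
    rw [this]
    unfold dd hh vv
    simp only
    ring

theorem Z2 (hκ : 0 < D.κ) (hσ : ∀ p ∈ Icc D.pf D.ℓ, D.R p = D.ρf + D.κ * D.σ p)
    {P : ℝ → ℝ} (hP : ∀ s ∈ Icc (-hh D) (hh D), P s ∈ Ioc D.pf D.ℓ ∧ D.R (P s) = D.κ * rr D s)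
    {s : ℝ} (hs : s ∈ Icc (-hh D) (hh D)) :
    D.Z (Real.pi / 2) (P s) (Real.pi + Th D s) =
      ((s + hh D : ℝ) : ℂ) * -(starRingEnd ℂ) (vv D) := by
  obtain ⟨h1, h2⟩ := hP s hs
  obtain ⟨h3, h4⟩ := polar_cos hκ s
  have h5 := Real.sin_sq_add_cos_sq (D.κ * Real.pi / 2)
  have h6 : D.κ * (Real.pi + Th D s - Real.pi / 2) = D.κ * Th D s + D.κ * Real.pi / 2 := by ring
  apply Complex.ext
  · rw [Z_re hκ hσ _ ⟨h1.1.le, h1.2⟩, h2, mul_div_cancel_left₀ _ hκ.ne', h6, Real.cos_add,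
      Complex.re_ofReal_mul]
    have : rr D s * (Real.cos (D.κ * Th D s) * Real.cos (D.κ * Real.pi / 2) -
        Real.sin (D.κ * Th D s) * Real.sin (D.κ * Real.pi / 2)) =
        dd D * Real.cos (D.κ * Real.pi / 2) - s * Real.sin (D.κ * Real.pi / 2) := by
      linear_combination Real.cos (D.κ * Real.pi / 2) * h3 - Real.sin (D.κ * Real.pi / 2) * h4
    rw [this]
    unfold dd hh vv
    simp only [Complex.neg_re, Complex.conj_re]
    linear_combination (D.ρf / D.κ) * h5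
  · rw [Z_im hκ hσ _ ⟨h1.1.le, h1.2⟩, h2, mul_div_cancel_left₀ _ hκ.ne', h6, Real.sin_add,
      Complex.im_ofReal_mul]
    have : rr D s * (Real.sin (D.κ * Th D s) * Real.cos (D.κ * Real.pi / 2) +
        Real.cos (D.κ * Th D s) * Real.sin (D.κ * Real.pi / 2)) =
        s * Real.cos (D.κ * Real.pi / 2) + dd D * Real.sin (D.κ * Real.pi / 2) := by
      linear_combination Real.cos (D.κ * Real.pi / 2) * h4 + Real.sin (D.κ * Real.pi / 2) * h3
    rw [this]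
    unfold dd hh vv
    simp only [Complex.neg_im, Complex.conj_im]
    ring

theorem Z_inj (hκ : 0 < D.κ) (hσ : ∀ p ∈ Icc D.pf D.ℓ, D.R p = D.ρf + D.κ * D.σ p) {c : ℝ}
    {p p' θ θ' : ℝ} (hp : p ∈ Icc D.pf D.ℓ) (hp' : p' ∈ Icc D.pf D.ℓ)
    (hθ : |D.κ * (θ - c)| < Real.pi) (hθ' : |D.κ * (θ' - c)| < Real.pi)
    (h : D.Z c p θ = D.Z c p' θ') : p = p' ∧ θ = θ' := by
  rw [Zform hκ hσ c hp, Zform hκ hσ c hp', sub_left_inj] at h
  have hRp : 0 < D.R p / D.κ := div_pos (D.posR p ⟨(pf_pos D).trans_le hp.1, hp.2⟩) hκ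
  have hRp' : 0 < D.R p' / D.κ := div_pos (D.posR p' ⟨(pf_pos D).trans_le hp'.1, hp'.2⟩) hκ
  have hn := congrArg norm h
  rw [norm_mul, norm_mul, Complex.norm_exp_ofReal_mul_I, Complex.norm_exp_ofReal_mul_I, mul_one,
    mul_one, Complex.norm_real, Complex.norm_real, Real.norm_eq_abs, Real.norm_eq_abs,
    abs_of_pos hRp, abs_of_pos hRp', div_left_inj' hκ.ne'] at hn
  have ha := congrArg Complex.arg h
  rw [Complex.exp_mul_I, Complex.exp_mul_I, Complex.arg_mul_cos_add_sin_mul_I hRp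
    ⟨(abs_lt.1 hθ).1, (abs_lt.1 hθ).2.le⟩, Complex.arg_mul_cos_add_sin_mul_I hRp'
    ⟨(abs_lt.1 hθ').1, (abs_lt.1 hθ').2.le⟩] at ha
  refine ⟨eq_of_R_eq hκ hp hp' hn, ?_⟩
  have := mul_left_cancel₀ hκ.ne' ha
  linarith

theorem fold_half : fold (Real.pi / 2) = Real.pi / 2 := by
  unfold fold
  rw [Real.cos_pi_div_two, abs_zero, Real.arccos_zero]

theorem nball {X : Type} [MetricSpace X] {Pr : ℝ × ℝ → X} (hF : Facts D X Pr) (hκ : 0 < D.κ)
    (hβ : ∀ θ, D.pf < D.βh θ ∧ D.βh θ ≤ D.ℓ)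
    (hσ : ∀ p ∈ Icc D.pf D.ℓ, D.R p = D.ρf + D.κ * D.σ p) :
    ∃ r > 0, ∃ ζ : X → ℂ,
      (∀ x ∈ ball (Pr (D.βh (Real.pi / 2), Real.pi / 2)) r,
        ∀ y ∈ ball (Pr (D.βh (Real.pi / 2), Real.pi / 2)) r, dist x y = ‖ζ x - ζ y‖) ∧
      ζ (Pr (D.βh (Real.pi / 2), Real.pi / 2)) = 0 ∧
      ∀ z : ℂ, ‖z‖ < r → z.re < 0 → ∀ p θ, p ∈ Icc D.pf D.ℓ →
        |D.κ * (θ - Real.pi / 2)| < Real.pi → D.Z (Real.pi / 2) p θ = z →
        (Pr (p, θ) ∈ ball (Pr (D.βh (Real.pi / 2), Real.pi / 2)) r ∧ ζ (Pr (p, θ)) = z) ∧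
        (Pr (p, -θ) ∈ ball (Pr (D.βh (Real.pi / 2), Real.pi / 2)) r ∧
          ζ (Pr (p, -θ)) = -(starRingEnd ℂ) z) := by
  have hfoot : D.IsFoot (Real.pi / 2) (Real.pi / 2) :=
    ⟨0, Or.inr (Or.inr ⟨(theta_f hκ).2, by simp, rfl⟩)⟩
  have hb := hβ (Real.pi / 2)
  obtain ⟨r, hr, ζ, hζ0, hiso, hcov, hsurj⟩ := hF.floor _ _ hfoot
    (min (D.βh (Real.pi / 2) - D.pf) 1) (lt_min (by linarith) one_pos)
  have hZ0 : D.Z (Real.pi / 2) (D.βh (Real.pi / 2)) (Real.pi / 2) = 0 := by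
    have hR0 : D.R (D.βh (Real.pi / 2)) = D.ρf := by
      unfold QD.βh
      rw [fold_half, rho_beta hκ]
    apply Complex.ext
    · rw [Z_re hκ hσ _ ⟨hb.1.le, hb.2⟩, hR0]
      simp
    · rw [Z_im hκ hσ _ ⟨hb.1.le, hb.2⟩]
      simp
  rw [hZ0] at hζ0 hsurj
  refine ⟨r, hr, ζ, hiso, hζ0, ?_⟩
  intro z hz hzre p θ hp hθ hZ
  have hpi := Real.pi_gt_three
  have hκ3 := (theta_f hκ).1
  have aux : ∀ p' θ', |p' - D.βh (Real.pi / 2)| < min (D.βh (Real.pi / 2) - D.pf) 1 →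
      |θ' - Real.pi / 2| < min (D.βh (Real.pi / 2) - D.pf) 1 → p' ≤ D.βh θ' →
      D.Z (Real.pi / 2) p' θ' = z → p' = p ∧ θ' = θ := by
    intro p' θ' h1 h2 h3 h4
    have h5 := h1.trans_le (min_le_left _ _)
    have h6 := h2.trans_le (min_le_right _ _)
    rw [abs_lt] at h5
    have hp' : p' ∈ Icc D.pf D.ℓ := ⟨by linarith, h3.trans (hβ θ').2⟩
    have hθ' : |D.κ * (θ' - Real.pi / 2)| < Real.pi := by
      rw [abs_mul, abs_of_pos hκ]
      nlinarith [abs_nonneg (θ' - Real.pi / 2)]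
    exact Z_inj hκ hσ hp' hp hθ' hθ (h4.trans hZ.symm)
  constructor
  · obtain ⟨x, hx, hxz⟩ := hsurj z (by rwa [sub_zero])
    obtain ⟨p', θ', h1, h2, h3, h4, h5 | h5⟩ := hcov x hx
    · obtain ⟨h6, h7⟩ := aux p' θ' h1 h2 h3 (h5.2.symm.trans hxz)
      rw [h6, h7] at h5
      rw [← h5.1]
      exact ⟨hx, hxz⟩
    · exfalso
      have h6 := h5.2
      rw [hxz] at h6
      rw [h6] at hzre
      simp only [Complex.neg_re, Complex.conj_re] at hzre
      linarith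
  · obtain ⟨x, hx, hxz⟩ := hsurj (-(starRingEnd ℂ) z) (by
      rw [sub_zero, norm_neg, Complex.norm_conj]
      exact hz)
    obtain ⟨p', θ', h1, h2, h3, h4, h5 | h5⟩ := hcov x hx
    · exfalso
      have h6 := h5.2
      rw [hxz] at h6
      rw [← h6] at h4
      simp only [Complex.neg_re, Complex.conj_re] at h4
      linarith
    · have h6 := h5.2
      rw [hxz, neg_inj] at h6
      have h7 := congrArg (starRingEnd ℂ) h6
      rw [Complex.conj_conj, Complex.conj_conj] at h7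
      obtain ⟨h8, h9⟩ := aux p' θ' h1 h2 h3 h7.symm
      rw [h8, h9] at h5
      rw [← h5.1]
      exact ⟨hx, hxz⟩

theorem loc_of_zeta {X : Type} [MetricSpace X] {c : ℝ → X} {Q : X} {r : ℝ} {ζ : X → ℂ}
    (hiso : ∀ x ∈ ball Q r, ∀ y ∈ ball Q r, dist x y = ‖ζ x - ζ y‖) {t δ : ℝ} {V : ℂ}
    (hV : ‖V‖ = 1)
    (hc : ∀ u ∈ ball t δ, c u ∈ ball Q r ∧ ζ (c u) = ((u - t : ℝ) : ℂ) * V) :
    ∀ s ∈ ball t δ, ∀ s' ∈ ball t δ, dist (c s) (c s') = |s - s'| := by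
  intro s hs s' hs'
  rw [hiso _ (hc s hs).1 _ (hc s' hs').1, (hc s hs).2, (hc s' hs').2, ← sub_mul, norm_mul, hV,
    mul_one, ← Complex.ofReal_sub, Complex.norm_real, Real.norm_eq_abs]
  congr 1
  ring

/-- the closed curve, on one period `[0, 4h)` -/
noncomputable def WW (D : QD) (P : ℝ → ℝ) (t : ℝ) : ℝ × ℝ :=
  if t ≤ 2 * hh D then (P (hh D - t), Th D (hh D - t))
  else (P (t - 3 * hh D), Real.pi + Th D (t - 3 * hh D))

theorem P_even (hκ : 0 < D.κ) {P : ℝ → ℝ}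
    (hP : ∀ s ∈ Icc (-hh D) (hh D), P s ∈ Ioc D.pf D.ℓ ∧ D.R (P s) = D.κ * rr D s) {s : ℝ}
    (hs : s ∈ Icc (-hh D) (hh D)) : P (-s) = P s := by
  have hs' : -s ∈ Icc (-hh D) (hh D) := ⟨by linarith [hs.2], by linarith [hs.1]⟩
  obtain ⟨h1, h2⟩ := hP s hs
  obtain ⟨h3, h4⟩ := hP (-s) hs'
  apply eq_of_R_eq hκ ⟨h3.1.le, h3.2⟩ ⟨h1.1.le, h1.2⟩
  rw [h2, h4, rr_neg]

theorem Th_hh (hκ : 0 < D.κ) : Th D (hh D) = Real.pi / 2 := by
  have hc := cos_pos hκ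
  have hr := D.ρf_pos
  have h1 : hh D / dd D = Real.tan (D.κ * Real.pi / 2) := by
    unfold hh dd
    rw [Real.tan_eq_sin_div_cos]
    field_simp
  have ha := ang hκ
  have hpi := Real.pi_pos
  unfold Th
  rw [h1, Real.arctan_tan (by linarith) (by linarith)]
  field_simp

theorem Th_abs (hκ : 0 < D.κ) (s : ℝ) : |D.κ * Th D s| < Real.pi / 2 := by
  have h1 : D.κ * Th D s = Real.arctan (s / dd D) := by
    unfold Th
    field_simp
  rw [h1, abs_lt]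
  exact ⟨Real.neg_pi_div_two_lt_arctan _, Real.arctan_lt_pi_div_two _⟩

theorem P_hh (hκ : 0 < D.κ) (hβ : ∀ θ, D.pf < D.βh θ ∧ D.βh θ ≤ D.ℓ) {P : ℝ → ℝ}
    (hP : ∀ s ∈ Icc (-hh D) (hh D), P s ∈ Ioc D.pf D.ℓ ∧ D.R (P s) = D.κ * rr D s) :
    P (hh D) = D.βh (Real.pi / 2) := by
  have hh0 := hh_pos hκ
  obtain ⟨h1, h2⟩ := hP (hh D) ⟨by linarith, le_rfl⟩
  have hb := hβ (Real.pi / 2)
  apply eq_of_R_eq hκ ⟨h1.1.le, h1.2⟩ ⟨hb.1.le, hb.2⟩
  have h3 : rr D (hh D) = D.ρf / D.κ := by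
    have := D.ρf_pos
    unfold rr
    rw [dd_hh, Real.sqrt_sq (by positivity)]
  rw [h2, h3, mul_div_cancel₀ _ hκ.ne']
  unfold QD.βh
  rw [fold_half, rho_beta hκ]

end Eig

open Eig in
theorem eig_proof (hLEB : Stmt_LEB) (hCMP : Stmt_CMP) (hCAL : Stmt_CAL) (hBETA : Stmt_BETA) :
    Stmt_EIG := by
  intro D X _ _ Pr hF hmid hκ hR
  obtain ⟨-, -, -, hβ, -, hσ⟩ := hBETA D
  obtain ⟨P, hP, hP'⟩ := exists_P hκ hR
  obtain ⟨r, hr, ζ, hiso, hζ0, hN⟩ := nball hF hκ hβ hσ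
  have hh0 := hh_pos hκ
  have hs0 := sin_pos hκ
  have hL : 0 < 4 * hh D := by positivity
  have hLe : 4 * D.ρf / D.κ * Real.sin (D.κ * Real.pi / 2) = 4 * hh D := by
    unfold hh
    ring
  have hcM : ∀ s ∈ Icc (-hh D) (hh D), P s ∈ Icc D.pf D.ℓ := fun s hs =>
    ⟨(hP s hs).1.1.le, (hP s hs).1.2⟩
  have hangT : ∀ s, |D.κ * (Th D s - Real.pi / 2)| < Real.pi := by
    intro s
    have h1 := Th_abs hκ s
    have h2 := ang hκ
    have hpi := Real.pi_pos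
    rw [show D.κ * (Th D s - Real.pi / 2) = D.κ * Th D s - D.κ * Real.pi / 2 by ring]
    rw [abs_lt] at h1 ⊢
    constructor <;> linarith
  have hangT' : ∀ s, |D.κ * (Real.pi + Th D s - Real.pi / 2)| < Real.pi := by
    intro s
    have h1 := Th_abs hκ s
    have h2 := ang hκ
    have hpi := Real.pi_pos
    rw [show D.κ * (Real.pi + Th D s - Real.pi / 2) = D.κ * Th D s + D.κ * Real.pi / 2 by ring]
    rw [abs_lt] at h1 ⊢
    constructor <;> linarith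
  let c : ℝ → X := fun t => Pr (WW D P (toIcoMod hL 0 t))
  have hper : ∀ t, c (t + 4 * hh D) = c t := by
    intro t
    simp only [c, toIcoMod_add_right]
  -- the curve on the pieces
  have hc1 : ∀ u, 0 ≤ u → u ≤ 2 * hh D → c u = Pr (P (hh D - u), Th D (hh D - u)) := by
    intro u h1 h2
    have h3 : toIcoMod hL 0 u = u := by
      rw [toIcoMod_eq_self]
      exact ⟨h1, by linarith⟩
    simp only [c, h3, WW, h2, if_true]
  have hc2 : ∀ u, 2 * hh D < u → u < 4 * hh D →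
      c u = Pr (P (u - 3 * hh D), Real.pi + Th D (u - 3 * hh D)) := by
    intro u h1 h2
    have h3 : toIcoMod hL 0 u = u := by
      rw [toIcoMod_eq_self]
      exact ⟨by linarith, by linarith⟩
    simp only [c, h3, WW, not_le.2 h1, if_false]
  have hQ : Pr (P (hh D), Th D (hh D)) = Pr (D.βh (Real.pi / 2), Real.pi / 2) := by
    rw [P_hh hκ hβ hP, Th_hh hκ]
  refine ⟨c, ?_⟩
  rw [hLe]
  refine hLEB X c (4 * hh D) hL hper ?_
  -- reduction to one period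
  have hP4 : Function.Periodic c (4 * hh D) := hper
  suffices hloc : ∀ t, 0 ≤ t → t < 4 * hh D → ∃ δ > 0, ∀ s ∈ ball t δ, ∀ s' ∈ ball t δ,
      dist (c s) (c s') = |s - s'| by
    intro t
    obtain ⟨m, hm, -⟩ := existsUnique_sub_zsmul_mem_Ico hL t 0
    rw [zero_add] at hm
    obtain ⟨δ, hδ, h⟩ := hloc _ hm.1 hm.2
    refine ⟨δ, hδ, fun s hs s' hs' => ?_⟩
    have hb : ∀ s ∈ ball t δ, s - m • (4 * hh D) ∈ ball (t - m • (4 * hh D)) δ := by
      intro s hs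
      rw [mem_ball, Real.dist_eq] at hs ⊢
      rwa [sub_sub_sub_cancel_right]
    have h1 := h _ (hb s hs) _ (hb s' hs')
    rw [hP4.sub_zsmul_eq, hP4.sub_zsmul_eq, sub_sub_sub_cancel_right] at h1
    exact h1
  intro t ht0 ht4
  rcases eq_or_lt_of_le ht0 with ht | ht
  · -- contact at `0`
    subst ht
    refine ⟨min r (2 * hh D), by positivity, ?_⟩
    apply loc_of_zeta hiso (V := -vv D) (by rw [norm_neg, norm_vv])
    intro u hu
    rw [mem_ball, Real.dist_eq, sub_zero, lt_min_iff, abs_lt, abs_lt] at hu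
    obtain ⟨⟨hu1, hu2⟩, hu3, hu4⟩ := hu
    rcases lt_trichotomy u 0 with hu0 | hu0 | hu0
    · have hmem : -u - hh D ∈ Icc (-hh D) (hh D) := ⟨by linarith, by linarith⟩
      have hmem' : u + hh D ∈ Icc (-hh D) (hh D) := ⟨by linarith, by linarith⟩
      have hcu : c u = Pr (P (-u - hh D), -(Real.pi + Th D (-u - hh D))) := by
        rw [← hper u, hc2 _ (by linarith) (by linarith)]
        rw [show u + 4 * hh D - 3 * hh D = u + hh D by ring,
          show -u - hh D = -(u + hh D) by ring, P_even hκ hP hmem', Th_neg,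
          ← hF.per _ (-(Real.pi + -Th D (u + hh D)))]
        congr 2
        ring
      have hz := Z2 hκ hσ hP hmem
      rw [show -u - hh D + hh D = -u by ring] at hz
      obtain ⟨-, h1, h2⟩ := hN _ (by
        rw [norm_mul, norm_neg, Complex.norm_conj, norm_vv, Complex.norm_real, mul_one,
          Real.norm_eq_abs, abs_of_pos (by linarith : 0 < -u)]
        linarith) (by
        rw [Complex.re_ofReal_mul]
        simp only [vv, Complex.neg_re, Complex.conj_re]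
        nlinarith) _ _ (hcM _ hmem) (hangT' _) hz
      rw [hcu]
      refine ⟨h1, h2.trans ?_⟩
      rw [map_mul, Complex.conj_ofReal, map_neg, Complex.conj_conj]
      push_cast
      ring
    · subst hu0
      rw [hc1 0 le_rfl (by linarith), sub_zero, hQ, hζ0]
      exact ⟨mem_ball_self hr, by simp⟩
    · have hmem : hh D - u ∈ Icc (-hh D) (hh D) := ⟨by linarith, by linarith⟩
      have hz := Z1 hκ hσ hP hmem
      rw [show hh D - u - hh D = -u by ring] at hz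
      obtain ⟨⟨h1, h2⟩, -⟩ := hN _ (by
        rw [norm_mul, norm_vv, Complex.norm_real, mul_one, Real.norm_eq_abs, abs_neg,
          abs_of_pos hu0]
        linarith) (by
        rw [Complex.re_ofReal_mul]
        simp only [vv]
        nlinarith) _ _ (hcM _ hmem) (hangT _) hz
      rw [hc1 u hu0.le (by linarith)]
      refine ⟨h1, h2.trans ?_⟩
      push_cast
      ring
  rcases lt_trichotomy t (2 * hh D) with h2 | h2 | h2
  · -- first chord
    obtain ⟨δ, hδ, hsub, hd⟩ := interior hF hmid hκ hβ hCMP hCAL hP hP' 0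
      (s₀ := hh D - t) ⟨by linarith, by linarith⟩
    refine ⟨δ, hδ, fun s hs s' hs' => ?_⟩
    have hb : ∀ s ∈ ball t δ, hh D - s ∈ ball (hh D - t) δ := by
      intro s hs
      rw [mem_ball, Real.dist_eq] at hs ⊢
      rw [show hh D - s - (hh D - t) = -(s - t) by ring, abs_neg]
      exact hs
    have h3 := hsub (hb s hs)
    have h3' := hsub (hb s' hs')
    have h4 := hd _ (hb s hs) _ (hb s' hs')
    rw [zero_add, zero_add] at h4
    rw [hc1 s (by linarith [h3.2]) (by linarith [h3.1]),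
      hc1 s' (by linarith [h3'.2]) (by linarith [h3'.1]), h4,
      show hh D - s - (hh D - s') = -(s - s') by ring, abs_neg]
  · -- contact at `2h`
    subst h2
    refine ⟨min r (2 * hh D), by positivity, ?_⟩
    apply loc_of_zeta hiso (V := -(starRingEnd ℂ) (vv D))
      (by rw [norm_neg, Complex.norm_conj, norm_vv])
    intro u hu
    rw [mem_ball, Real.dist_eq, lt_min_iff, abs_lt, abs_lt] at hu
    obtain ⟨⟨hu1, hu2⟩, hu3, hu4⟩ := hu
    rcases lt_trichotomy u (2 * hh D) with hu0 | hu0 | hu0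
    · have hmem : u - hh D ∈ Icc (-hh D) (hh D) := ⟨by linarith, by linarith⟩
      have hcu : c u = Pr (P (u - hh D), -(Th D (u - hh D))) := by
        rw [hc1 u (by linarith) hu0.le, show hh D - u = -(u - hh D) by ring, P_even hκ hP hmem,
          Th_neg]
      have hz := Z1 hκ hσ hP hmem
      rw [show u - hh D - hh D = u - 2 * hh D by ring] at hz
      obtain ⟨-, h1, h2⟩ := hN _ (by
        rw [norm_mul, norm_vv, Complex.norm_real, mul_one, Real.norm_eq_abs, abs_sub_comm,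
          abs_of_pos (by linarith : 0 < 2 * hh D - u)]
        linarith) (by
        rw [Complex.re_ofReal_mul]
        simp only [vv]
        nlinarith) _ _ (hcM _ hmem) (hangT _) hz
      rw [hcu]
      refine ⟨h1, h2.trans ?_⟩
      rw [map_mul, Complex.conj_ofReal]
      ring
    · subst hu0
      have hmem : hh D ∈ Icc (-hh D) (hh D) := ⟨by linarith, le_rfl⟩
      rw [hc1 _ (by linarith) le_rfl, show hh D - 2 * hh D = -hh D by ring, P_even hκ hP hmem,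
        Th_neg, P_hh hκ hβ hP, Th_hh hκ, hF.flr, hζ0]
      exact ⟨mem_ball_self hr, by simp⟩
    · have hmem : u - 3 * hh D ∈ Icc (-hh D) (hh D) := ⟨by linarith, by linarith⟩
      have hz := Z2 hκ hσ hP hmem
      rw [show u - 3 * hh D + hh D = u - 2 * hh D by ring] at hz
      obtain ⟨⟨h1, h2⟩, -⟩ := hN _ (by
        rw [norm_mul, norm_neg, Complex.norm_conj, norm_vv, Complex.norm_real, mul_one,
          Real.norm_eq_abs, abs_of_pos (by linarith : 0 < u - 2 * hh D)]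
        linarith) (by
        rw [Complex.re_ofReal_mul]
        simp only [vv, Complex.neg_re, Complex.conj_re]
        nlinarith) _ _ (hcM _ hmem) (hangT' _) hz
      rw [hc2 u hu0 (by linarith)]
      exact ⟨h1, h2⟩
  · -- second chord
    obtain ⟨δ, hδ, hsub, hd⟩ := interior hF hmid hκ hβ hCMP hCAL hP hP' Real.pi
      (s₀ := t - 3 * hh D) ⟨by linarith, by linarith⟩
    refine ⟨δ, hδ, fun s hs s' hs' => ?_⟩
    have hb : ∀ s ∈ ball t δ, s - 3 * hh D ∈ ball (t - 3 * hh D) δ := by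
      intro s hs
      rw [mem_ball, Real.dist_eq] at hs ⊢
      rwa [sub_sub_sub_cancel_right]
    have h3 := hsub (hb s hs)
    have h3' := hsub (hb s' hs')
    have h4 := hd _ (hb s hs) _ (hb s' hs')
    rw [hc2 s (by linarith [h3.1]) (by linarith [h3.2]),
      hc2 s' (by linarith [h3'.1]) (by linarith [h3'.2]), h4, sub_sub_sub_cancel_right]

end Pool.MP8e
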