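import Pool.Agent.Work.MP_8e9dbb.IfaceB

/-!
# Block ENU (helper81): enumeration of the contact times
-/

open MeasureTheory Filter Topology Metric Set
open scoped ContDiff

namespace Pool.MP8e

/-- the next point of a closed discrete set -/
theorem enu_next {C : Set ℝ} {L : ℝ} (hL : 0 < L) (hcl : IsClosed C)
    (hper : ∀ t, t ∈ C ↔ t + L ∈ C) (hdis : ∀ t ∈ C, ∃ δ > 0, ∀ s ∈ C, |s - t| < δ → s = t)
    (t : ℝ) (ht : t ∈ C) : ∃ s ∈ C, t < s ∧ ∀ u ∈ Ioo t s, u ∉ C := by
  obtain ⟨δ, hδ, hd⟩ := hdis t ht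
  have hne : (C ∩ Ici (t + δ)).Nonempty := by
    refine ⟨t + L, (hper t).1 ht, ?_⟩
    by_contra hcon
    rw [mem_Ici, not_le] at hcon
    have := hd (t + L) ((hper t).1 ht) (by rw [abs_lt]; constructor <;> linarith)
    linarith
  have hbdd : BddBelow (C ∩ Ici (t + δ)) := ⟨t + δ, fun x hx => hx.2⟩
  have hmem := (hcl.inter isClosed_Ici).csInf_mem hne hbdd
  refine ⟨sInf (C ∩ Ici (t + δ)), hmem.1, ?_, ?_⟩
  · have : t + δ ≤ sInf (C ∩ Ici (t + δ)) := hmem.2
    linarith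
  · intro u hu huC
    by_cases hud : t + δ ≤ u
    · have := csInf_le hbdd ⟨huC, hud⟩
      linarith [hu.2]
    · push Not at hud
      have := hd u huC (by rw [abs_lt]; constructor <;> linarith [hu.1])
      linarith [hu.1]

theorem enu_proof : Stmt_ENU := by
  intro C L hL hcl hne hper hdis
  have hnext := enu_next hL hcl hper hdis
  choose! nx hnxC hnxlt hnxn using hnext
  -- uniqueness of the next point
  have huniq : ∀ t ∈ C, ∀ s ∈ C, t < s → (∀ u ∈ Ioo t s, u ∉ C) → nx t = s := by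
    intro t ht s hs hts hn
    rcases lt_trichotomy (nx t) s with h | h | h
    · exact absurd (hnxC t ht) (hn _ ⟨hnxlt t ht, h⟩)
    · exact h
    · exact absurd hs (hnxn t ht s ⟨hts, h⟩)
  have hnxle : ∀ t ∈ C, ∀ s ∈ C, t < s → nx t ≤ s := by
    intro t ht s hs hts
    by_contra hcon
    push Not at hcon
    exact hnxn t ht s ⟨hts, hcon⟩ hs
  have hnxL : ∀ t ∈ C, nx (t + L) = nx t + L := by
    intro t ht
    refine huniq (t + L) ((hper t).1 ht) (nx t + L) ((hper _).1 (hnxC t ht))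
      (by linarith [hnxlt t ht]) ?_
    intro u hu huC
    refine hnxn t ht (u - L) ⟨by linarith [hu.1], by linarith [hu.2]⟩ ?_
    rw [hper, sub_add_cancel]
    exact huC
  obtain ⟨t₀, ht₀⟩ := hne
  obtain ⟨τ, hτ0, hτs⟩ : ∃ τ : ℕ → ℝ, τ 0 = t₀ ∧ ∀ i, τ (i + 1) = nx (τ i) :=
    ⟨fun i => nx^[i] t₀, rfl, fun i => Function.iterate_succ_apply' nx i t₀⟩
  have hτC : ∀ i, τ i ∈ C := by
    intro i
    induction i with
    | zero => rw [hτ0]; exact ht₀
    | succ i ih => rw [hτs]; exact hnxC _ ih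
  have hmono : StrictMono τ := strictMono_nat_of_lt_succ (fun i => by
    rw [hτs]; exact hnxlt _ (hτC i))
  -- unbounded
  have hunb : ∃ i, t₀ + L ≤ τ i := by
    by_contra hcon
    push Not at hcon
    have hbdd : BddAbove (range τ) := ⟨t₀ + L, by rintro _ ⟨i, rfl⟩; exact (hcon i).le⟩
    have hlim : Tendsto τ atTop (𝓝 (⨆ i, τ i)) := tendsto_atTop_ciSup hmono.monotone hbdd
    have hxC : (⨆ i, τ i) ∈ C := hcl.mem_of_tendsto hlim (Eventually.of_forall hτC)
    obtain ⟨δ, hδ, hd⟩ := hdis _ hxC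
    have hev : ∀ᶠ i in atTop, |τ i - ⨆ i, τ i| < δ := by
      have := Metric.tendsto_atTop.1 hlim δ hδ
      obtain ⟨N, hN⟩ := this
      exact eventually_atTop.2 ⟨N, fun i hi => by
        have := hN i hi
        rwa [Real.dist_eq] at this⟩
    obtain ⟨N, hN⟩ := eventually_atTop.1 hev
    have e1 := hd _ (hτC N) (hN N le_rfl)
    have e2 := hd _ (hτC (N + 1)) (hN (N + 1) (Nat.le_succ N))
    have := hmono (Nat.lt_succ_self N)
    rw [e1, Nat.succ_eq_add_one, e2] at this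
    exact lt_irrefl _ this
  classical
  obtain ⟨n, hn, hmin⟩ : ∃ n, t₀ + L ≤ τ n ∧ ∀ k < n, τ k < t₀ + L := by
    refine ⟨Nat.find hunb, Nat.find_spec hunb, fun k hk => ?_⟩
    have := Nat.find_min hunb hk
    push Not at this
    exact this
  have hn1 : 1 ≤ n := by
    rcases Nat.eq_zero_or_pos n with h | h
    · rw [h, hτ0] at hn
      linarith
    · exact h
  have hτn : τ n = t₀ + L := by
    refine le_antisymm ?_ hn
    obtain ⟨k, rfl⟩ : ∃ k, n = k + 1 := ⟨n - 1, by omega⟩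
    rw [hτs]
    exact hnxle _ (hτC k) _ ((hper _).1 ht₀) (hmin k (by omega))
  refine ⟨n, τ, hn1, hmono, ?_, hτC, ?_⟩
  · intro i
    induction i with
    | zero => rw [Nat.zero_add, hτn, hτ0]
    | succ i ih =>
      rw [show i + 1 + n = (i + n) + 1 by ring, hτs, ih, hnxL _ (hτC i), hτs]
  · intro i t ht
    rw [hτs] at ht
    exact hnxn _ (hτC i) t ht

end Pool.MP8e
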