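import Pool.Agent.Work.MP_8e9dbb.B.ArcT

/-!
# MP_8e9dbb_gt, phase T: excursions (helper19)
-/

open MeasureTheory Filter Topology Metric Set
open scoped ContDiff

namespace Pool.MP8e

/-- Data of phase T which are used in the analysis of its closed geodesics. -/
structure ClassT (D : QD) (q₀ : ℝ) : Prop where
  κ_pos : 0 < D.κ
  up : ∀ p ∈ Icc 0 D.ℓ, 3 * deriv D.R p ≤ D.A p
  lo : ∀ p ∈ Icc 0 D.ℓ, D.κ * D.A p ≤ deriv D.R p
  lo' : 3 * D.κ < 1 → ∀ p ∈ Ico 0 D.pf, D.κ * D.A p < deriv D.R p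
  q₀_pos : 0 < q₀
  q₀_le : q₀ ≤ D.pf
  third : ∀ p ∈ Icc 0 q₀, 3 * deriv D.R p = D.A p
  I2 : 3 * D.κ < 1 → D.ρf ^ 2 * Real.sin (Real.pi * D.κ / 2) ^ 2 ≤
    (1 - (1 - 3 * D.κ) ^ 2) * (D.ρf ^ 2 - D.R D.pf ^ 2)
  I3 : 5 * D.κ ≤ 1 → D.ρf < 2 * D.R q₀ * Real.cos (Real.pi * D.κ / 2) ^ 2

namespace ClassT

variable {D : QD} {q₀ : ℝ}

theorem κ_le (hT : ClassT D q₀) : 3 * D.κ ≤ 1 := by
  rcases D.cls with h | h
  · have := hT.κ_pos; linarith [h.1]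
  · linarith [h.2.1]

theorem θf_eq (hT : ClassT D q₀) : D.θf = Real.pi / 2 := by
  rcases D.cls with h | h
  · have := hT.κ_pos; linarith [h.1]
  · exact h.2.2

theorem pf_mem (D : QD) : 0 < D.pf ∧ D.pf < D.ℓ := by
  have h := D.β_mem 0 ⟨le_rfl, by positivity⟩
  exact ⟨D.e₀_pos.trans D.e₀_lt, h.1.trans_le h.2⟩

theorem R_mono (hT : ClassT D q₀) : StrictMonoOn D.R (Icc 0 D.ℓ) := by
  apply strictMonoOn_of_deriv_pos (convex_Icc _ _) D.smR.continuous.continuousOn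
  rw [interior_Icc]
  intro x hx
  have hx' := Ioo_subset_Icc_self hx
  have h1 := hT.lo x hx'
  have h2 := mul_pos hT.κ_pos (D.posA x hx')
  linarith

theorem Ra_lt (hT : ClassT D q₀) : D.R D.pf < D.ρf := by
  have hm : D.θf ∈ Icc 0 (Real.pi / 2) := by
    rw [hT.θf_eq]; exact ⟨by positivity, le_rfl⟩
  have h := D.floor D.θf hm
  rw [sub_self, mul_zero, Real.cos_zero, mul_one] at h
  have hb := D.β_mem D.θf hm
  have hpf := pf_mem D
  rw [← h]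
  exact hT.R_mono ⟨hpf.1.le, hpf.2.le⟩ ⟨by linarith, hb.2⟩ hb.1

/-- the slope -/
theorem f_ge (hT : ClassT D q₀) {p : ℝ} (hp : p ∈ Icc 0 D.ℓ) : D.κ ≤ D.f p := by
  unfold QD.f
  rw [le_div_iff₀ (D.posA p hp)]
  exact hT.lo p hp

theorem f_le (hT : ClassT D q₀) {p : ℝ} (hp : p ∈ Icc 0 D.ℓ) : 3 * D.f p ≤ 1 := by
  unfold QD.f
  rw [← mul_div_assoc, div_le_one (D.posA p hp)]
  exact hT.up p hp

theorem f_gt (hT : ClassT D q₀) (h3 : 3 * D.κ < 1) {p : ℝ} (hp : p ∈ Ico 0 D.pf) :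
    D.κ < D.f p := by
  have hpf := pf_mem D
  have hp' : p ∈ Icc 0 D.ℓ := ⟨hp.1, hp.2.le.trans hpf.2.le⟩
  unfold QD.f
  rw [lt_div_iff₀ (D.posA p hp')]
  exact hT.lo' h3 p hp

theorem f_third (hT : ClassT D q₀) {p : ℝ} (hp : p ∈ Icc 0 q₀) : 3 * D.f p = 1 := by
  have hpf := pf_mem D
  have hp' : p ∈ Icc 0 D.ℓ := ⟨hp.1, hp.2.trans (hT.q₀_le.trans hpf.2.le)⟩
  unfold QD.f
  rw [← mul_div_assoc, div_eq_one_iff_eq (D.posA p hp').ne']
  exact hT.third p hp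

end ClassT

theorem QD.f_flat (D : QD) {p : ℝ} (hp : p ∈ Icc D.pf D.ℓ) : D.f p = D.κ := by
  have hpf := ClassT.pf_mem D
  have hp' : p ∈ Icc 0 D.ℓ := ⟨hpf.1.le.trans hp.1, hp.2⟩
  unfold QD.f
  rw [D.flat p hp]
  have := (D.posA p hp').ne'
  field_simp

/-! ### The floor -/

theorem fold_foot {ϑ : ℝ} (hϑ : |ϑ| ≤ Real.pi / 2) (j : ℤ) :
    fold (Real.pi / 2 + j * Real.pi + ϑ) = Real.pi / 2 - |ϑ| := by
  have hpi := Real.pi_pos
  have e : Real.pi / 2 + j * Real.pi + ϑ = (ϑ + Real.pi / 2) + j * Real.pi := by ring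
  unfold fold
  rw [e, Real.cos_add_int_mul_pi, abs_mul, Real.cos_add_pi_div_two, abs_neg,
    Real.abs_sin_eq_sin_abs_of_abs_le_pi (by linarith)]
  have e1 : |(-1 : ℝ) ^ j| = 1 := by
    rw [abs_zpow]; simp
  rw [e1, one_mul, Real.arccos, Real.arcsin_sin (by linarith [abs_nonneg ϑ]) hϑ]

theorem fold_mem (θ : ℝ) : fold θ ∈ Icc 0 (Real.pi / 2) := by
  unfold fold
  refine ⟨Real.arccos_nonneg _, ?_⟩
  rw [Real.arccos_le_pi_div_two]
  exact abs_nonneg _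

theorem QD.βh_mem (D : QD) (θ : ℝ) : D.pf < D.βh θ ∧ D.βh θ ≤ D.ℓ :=
  D.β_mem _ (fold_mem θ)

theorem floorT {D : QD} {q₀ : ℝ} (hT : ClassT D q₀) {ϑ : ℝ} (hϑ : |ϑ| ≤ Real.pi / 2) (j : ℤ) :
    D.R (D.βh (Real.pi / 2 + j * Real.pi + ϑ)) * Real.cos (D.κ * ϑ) = D.ρf := by
  have hpi := Real.pi_pos
  unfold QD.βh
  rw [fold_foot hϑ j]
  have h := D.floor (Real.pi / 2 - |ϑ|) ⟨by linarith, by linarith [abs_nonneg ϑ]⟩
  rw [hT.θf_eq] at h
  have e : D.κ * (Real.pi / 2 - |ϑ| - Real.pi / 2) = -|D.κ * ϑ| := by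
    rw [abs_mul, abs_of_pos hT.κ_pos]; ring
  rw [e, Real.cos_neg, Real.cos_abs] at h
  exact h

/-! ### Flat arcs -/

namespace Arc

variable {D : QD} {a b : ℝ} {p θ v w : ℝ → ℝ}

/-- the component of the velocity orthogonal to the floor with foot `c` -/
noncomputable def G (D : QD) (c : ℝ) (θ v w : ℝ → ℝ) (t : ℝ) : ℝ :=
  v t * Real.cos (D.κ * (θ t - c)) - w t * Real.sin (D.κ * (θ t - c))

/-- the component along the floor -/
noncomputable def H (D : QD) (c : ℝ) (θ v w : ℝ → ℝ) (t : ℝ) : ℝ :=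
  w t * Real.cos (D.κ * (θ t - c)) + v t * Real.sin (D.κ * (θ t - c))

theorem d_cos (h : Arc D a b p θ v w) (c : ℝ) {t : ℝ} (ht : t ∈ Ioo a b) :
    HasDerivAt (fun t => Real.cos (D.κ * (θ t - c)))
      (-(Real.sin (D.κ * (θ t - c)) * (D.κ * (w t / D.R (p t))))) t := by
  have h1 := (((h.dθ t ht).sub_const c).const_mul D.κ).cos
  exact h1.congr_deriv (by ring)

theorem d_sin (h : Arc D a b p θ v w) (c : ℝ) {t : ℝ} (ht : t ∈ Ioo a b) :
    HasDerivAt (fun t => Real.sin (D.κ * (θ t - c)))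
      (Real.cos (D.κ * (θ t - c)) * (D.κ * (w t / D.R (p t)))) t :=
  (((h.dθ t ht).sub_const c).const_mul D.κ).sin

theorem c_cos (h : Arc D a b p θ v w) (c : ℝ) :
    ContinuousOn (fun t => Real.cos (D.κ * (θ t - c))) (Icc a b) :=
  Real.continuous_cos.comp_continuousOn ((h.cθ.sub continuousOn_const).const_mul D.κ)

theorem c_sin (h : Arc D a b p θ v w) (c : ℝ) :
    ContinuousOn (fun t => Real.sin (D.κ * (θ t - c))) (Icc a b) :=
  Real.continuous_sin.comp_continuousOn ((h.cθ.sub continuousOn_const).const_mul D.κ)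

/-- a function with zero derivative -/
theorem const_of {a b : ℝ} {g : ℝ → ℝ} (hg : ContinuousOn g (Icc a b))
    (dg : ∀ t ∈ Ioo a b, HasDerivAt g 0 t) {s t : ℝ} (hs : s ∈ Icc a b) (ht : t ∈ Icc a b) :
    g s = g t := by
  have key : ∀ {s t : ℝ}, s ∈ Icc a b → t ∈ Icc a b → s ≤ t → g s = g t := by
    intro s t hs ht hst
    have e1 := cmp_deriv hg (continuousOn_const (c := (0:ℝ))) dg
      (fun t _ => hasDerivAt_const t (0:ℝ)) (fun _ _ => le_rfl) hs ht hst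
    have e2 := cmp_deriv (continuousOn_const (c := (0:ℝ))) hg
      (fun t _ => hasDerivAt_const t (0:ℝ)) dg (fun _ _ => le_rfl) hs ht hst
    linarith
  rcases le_total s t with h1 | h1
  · exact key hs ht h1
  · exact (key ht hs h1).symm

theorem G_const (h : Arc D a b p θ v w) (hf : ∀ t ∈ Ioo a b, D.f (p t) = D.κ) (c : ℝ) {s t : ℝ}
    (hs : s ∈ Icc a b) (ht : t ∈ Icc a b) : G D c θ v w s = G D c θ v w t := by
  refine const_of ((h.cv.mul (h.c_cos c)).sub (h.cw.mul (h.c_sin c))) (fun t ht => ?_) hs ht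
  refine (((h.dv t ht).mul (h.d_cos c ht)).sub ((h.dw t ht).mul (h.d_sin c ht))).congr_deriv ?_
  rw [hf t ht]
  have := (h.posR (Ioo_subset_Icc_self ht)).ne'
  field_simp
  ring

theorem H_const (h : Arc D a b p θ v w) (hf : ∀ t ∈ Ioo a b, D.f (p t) = D.κ) (c : ℝ) {s t : ℝ}
    (hs : s ∈ Icc a b) (ht : t ∈ Icc a b) : H D c θ v w s = H D c θ v w t := by
  refine const_of ((h.cw.mul (h.c_cos c)).add (h.cv.mul (h.c_sin c))) (fun t ht => ?_) hs ht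
  refine (((h.dw t ht).mul (h.d_cos c ht)).add ((h.dv t ht).mul (h.d_sin c ht))).congr_deriv ?_
  rw [hf t ht]
  have := (h.posR (Ioo_subset_Icc_self ht)).ne'
  field_simp
  ring

/-- distance to the floor line along a flat arc -/
theorem F_lin (h : Arc D a b p θ v w) (hf : ∀ t ∈ Ioo a b, D.f (p t) = D.κ) (c : ℝ) {s t : ℝ}
    (hs : s ∈ Icc a b) (ht : t ∈ Icc a b) :
    D.R (p t) * Real.cos (D.κ * (θ t - c)) - D.R (p s) * Real.cos (D.κ * (θ s - c)) =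
      D.κ * G D c θ v w a * (t - s) := by
  have hc : ContinuousOn (fun t => D.R (p t) * Real.cos (D.κ * (θ t - c)) -
      D.κ * G D c θ v w a * t) (Icc a b) :=
    (h.cR.mul (h.c_cos c)).sub (continuousOn_const.mul continuousOn_id)
  have h1 := const_of hc (fun t ht => by
    have ha : a ∈ Icc a b := ⟨le_rfl, h.lt.le⟩
    have e := h.G_const hf c ha (Ioo_subset_Icc_self ht)
    refine (((h.dR ht).mul (h.d_cos c ht)).sub ((hasDerivAt_id' t).const_mul _)).congr_deriv ?_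
    rw [hf t ht, e]
    have := (h.posR (Ioo_subset_Icc_self ht)).ne'
    unfold G
    field_simp
    ring) hs ht
  linarith

end Arc

/-! ### Departure and arrival -/

section ends
variable {D : QD} {q₀ : ℝ} {a b : ℝ} {p θ v w : ℝ → ℝ}

theorem cos_pos_of {κ ϑ : ℝ} (h0 : 0 < κ) (h1 : 3 * κ ≤ 1) (h2 : |ϑ| < Real.pi / 2) :
    0 < Real.cos (κ * ϑ) := by
  have hpi := Real.pi_pos
  obtain ⟨h3, h4⟩ := abs_lt.1 h2
  apply Real.cos_pos_of_mem_Ioo
  constructor <;> nlinarith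

theorem below (hT : ClassT D q₀) {x : ℝ} {ϑ : ℝ} (hϑ : |ϑ| < Real.pi / 2) (j : ℤ) (hx0 : 0 < x)
    (hx : x < D.βh (Real.pi / 2 + j * Real.pi + ϑ)) : D.R x * Real.cos (D.κ * ϑ) < D.ρf := by
  rw [← floorT hT hϑ.le j]
  have hb := D.βh_mem (Real.pi / 2 + j * Real.pi + ϑ)
  have hpf := ClassT.pf_mem D
  apply mul_lt_mul_of_pos_right _ (cos_pos_of hT.κ_pos hT.κ_le hϑ)
  exact hT.R_mono ⟨hx0.le, hx.le.trans hb.2⟩ ⟨by linarith, hb.2⟩ hx

theorem dep (hT : ClassT D q₀) (h : Arc D a b p θ v w) (h0 : p a = D.βh (θ a))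
    (hin : ∀ t ∈ Ioo a b, p t < D.βh (θ t)) {ϑ : ℝ} (hϑ : |ϑ| < Real.pi / 2) (j : ℤ)
    (hθ : θ a = Real.pi / 2 + j * Real.pi + ϑ) :
    v a * Real.cos (D.κ * ϑ) - w a * Real.sin (D.κ * ϑ) < 0 := by
  set c := Real.pi / 2 + j * Real.pi with hc
  have hb := D.βh_mem (θ a)
  have ha : a ∈ Icc a b := ⟨le_rfl, h.lt.le⟩
  -- a short initial arc
  have hcp : ContinuousWithinAt p (Icc a b) a := h.cp a ha
  have hcθ : ContinuousWithinAt θ (Icc a b) a := h.cθ a ha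
  obtain ⟨hϑ1, hϑ2⟩ := abs_lt.1 hϑ
  have e1 : ∀ᶠ t in 𝓝[Icc a b] a, D.pf < p t := hcp.eventually_const_lt (by rw [h0]; exact hb.1)
  have e2 : ∀ᶠ t in 𝓝[Icc a b] a, θ t < c + Real.pi / 2 :=
    hcθ.eventually_lt_const (by rw [hθ]; linarith)
  have e3 : ∀ᶠ t in 𝓝[Icc a b] a, c - Real.pi / 2 < θ t :=
    hcθ.eventually_const_lt (by rw [hθ]; linarith)
  rw [nhdsWithin_Icc_eq_nhdsGE h.lt] at e1 e2 e3
  obtain ⟨d, hd, hd'⟩ := (mem_nhdsGE_iff_exists_Ico_subset.1 ((e1.and e2).and e3))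
  set d' := min ((a + d) / 2) ((a + b) / 2) with hd'def
  have hab := h.lt
  have had : a < d := hd
  have h1 : a < d' := by rw [hd'def]; apply lt_min <;> linarith
  have h2 : d' < d := lt_of_le_of_lt (min_le_left _ _) (by linarith)
  have h3 : d' < b := lt_of_le_of_lt (min_le_right _ _) (by linarith)
  have hs := h.sub le_rfl h1 h3.le
  have hP : ∀ t ∈ Icc a d', (D.pf < p t ∧ θ t < c + Real.pi / 2) ∧ c - Real.pi / 2 < θ t :=
    fun t ht => hd' ⟨ht.1, lt_of_le_of_lt ht.2 h2⟩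
  have hf : ∀ t ∈ Ioo a d', D.f (p t) = D.κ := fun t ht =>
    D.f_flat ⟨(hP t (Ioo_subset_Icc_self ht)).1.1.le, (hs.pos t (Ioo_subset_Icc_self ht)).2⟩
  have hlin := hs.F_lin hf c (s := a) (t := d') ⟨le_rfl, h1.le⟩ ⟨h1.le, le_rfl⟩
  have hd1 := hP d' ⟨h1.le, le_rfl⟩
  have hb2 := below hT (x := p d') (ϑ := θ d' - c) (by
    rw [abs_lt]; constructor <;> linarith [hd1.1.2, hd1.2]) j
    (h.pos d' ⟨h1.le, h3.le⟩).1 (by
      rw [← hc]
      have : c + (θ d' - c) = θ d' := by ring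
      rw [this]; exact hin d' ⟨h1, h3⟩)
  have e4 : D.R (p a) * Real.cos (D.κ * (θ a - c)) = D.ρf := by
    have := floorT hT hϑ.le j
    rw [← hc, ← hθ, ← h0] at this
    have e5 : θ a - c = ϑ := by rw [hθ]; ring
    rw [e5]; exact this
  rw [e4] at hlin
  have h6 : D.κ * Arc.G D c θ v w a * (d' - a) < 0 := by linarith
  have h7 : Arc.G D c θ v w a < 0 := by
    by_contra hn
    push Not at hn
    have := mul_nonneg (mul_nonneg hT.κ_pos.le hn) (by linarith : 0 ≤ d' - a)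
    linarith
  unfold Arc.G at h7
  have e5 : θ a - c = ϑ := by rw [hθ]; ring
  rw [e5] at h7
  exact h7

theorem arr (hT : ClassT D q₀) (h : Arc D a b p θ v w) (h0 : p b = D.βh (θ b))
    (hin : ∀ t ∈ Ioo a b, p t < D.βh (θ t)) {ϑ : ℝ} (hϑ : |ϑ| < Real.pi / 2) (j : ℤ)
    (hθ : θ b = Real.pi / 2 + j * Real.pi + ϑ) :
    0 < v b * Real.cos (D.κ * ϑ) - w b * Real.sin (D.κ * ϑ) := by
  set c := Real.pi / 2 + j * Real.pi with hc
  have hb := D.βh_mem (θ b)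
  have ha : b ∈ Icc a b := ⟨h.lt.le, le_rfl⟩
  have hcp : ContinuousWithinAt p (Icc a b) b := h.cp b ha
  have hcθ : ContinuousWithinAt θ (Icc a b) b := h.cθ b ha
  obtain ⟨hϑ1, hϑ2⟩ := abs_lt.1 hϑ
  have e1 : ∀ᶠ t in 𝓝[Icc a b] b, D.pf < p t := hcp.eventually_const_lt (by rw [h0]; exact hb.1)
  have e2 : ∀ᶠ t in 𝓝[Icc a b] b, θ t < c + Real.pi / 2 :=
    hcθ.eventually_lt_const (by rw [hθ]; linarith)
  have e3 : ∀ᶠ t in 𝓝[Icc a b] b, c - Real.pi / 2 < θ t :=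
    hcθ.eventually_const_lt (by rw [hθ]; linarith)
  rw [nhdsWithin_Icc_eq_nhdsLE h.lt] at e1 e2 e3
  obtain ⟨d, hd, hd'⟩ := (mem_nhdsLE_iff_exists_Ioc_subset.1 ((e1.and e2).and e3))
  set d' := max ((b + d) / 2) ((a + b) / 2) with hd'def
  have hab := h.lt
  have had : d < b := hd
  have h1 : d' < b := by rw [hd'def]; apply max_lt <;> linarith
  have h2 : d < d' := lt_of_lt_of_le (by linarith) (le_max_left _ _)
  have h3 : a < d' := lt_of_lt_of_le (by linarith) (le_max_right _ _)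
  have hs := h.sub h3.le h1 le_rfl
  have hP : ∀ t ∈ Icc d' b, (D.pf < p t ∧ θ t < c + Real.pi / 2) ∧ c - Real.pi / 2 < θ t :=
    fun t ht => hd' ⟨lt_of_lt_of_le h2 ht.1, ht.2⟩
  have hf : ∀ t ∈ Ioo d' b, D.f (p t) = D.κ := fun t ht =>
    D.f_flat ⟨(hP t (Ioo_subset_Icc_self ht)).1.1.le, (hs.pos t (Ioo_subset_Icc_self ht)).2⟩
  have hlin := hs.F_lin hf c (s := d') (t := b) ⟨le_rfl, h1.le⟩ ⟨h1.le, le_rfl⟩
  have hd1 := hP d' ⟨le_rfl, h1.le⟩
  have hb2 := below hT (x := p d') (ϑ := θ d' - c) (by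
    rw [abs_lt]; constructor <;> linarith [hd1.1.2, hd1.2]) j
    (h.pos d' ⟨h3.le, h1.le⟩).1 (by
      rw [← hc]
      have : c + (θ d' - c) = θ d' := by ring
      rw [this]; exact hin d' ⟨h3, h1⟩)
  have e4 : D.R (p b) * Real.cos (D.κ * (θ b - c)) = D.ρf := by
    have := floorT hT hϑ.le j
    rw [← hc, ← hθ, ← h0] at this
    have e5 : θ b - c = ϑ := by rw [hθ]; ring
    rw [e5]; exact this
  rw [e4] at hlin
  have hG := hs.G_const hf c (s := d') (t := b) ⟨le_rfl, h1.le⟩ ⟨h1.le, le_rfl⟩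
  rw [hG] at hlin
  have h6 : 0 < D.κ * Arc.G D c θ v w b * (b - d') := by linarith
  have h7 : 0 < Arc.G D c θ v w b := by
    by_contra hn
    push Not at hn
    have h8 : D.κ * Arc.G D c θ v w b ≤ 0 := mul_nonpos_of_nonneg_of_nonpos hT.κ_pos.le hn
    have h9 := mul_nonneg (neg_nonneg.2 h8) (by linarith : 0 ≤ b - d')
    linarith
  unfold Arc.G at h7
  have e5 : θ b - c = ϑ := by rw [hθ]; ring
  rw [e5] at h7
  exact h7

end ends

end Pool.MP8e
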