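import Pool.Agent.Work.MP_8e9dbb.B.ExcT

/-!
# MP_8e9dbb_gt, phase T: excursions with `K > 0` (helper19)
-/

open MeasureTheory Filter Topology Metric Set
open scoped ContDiff

namespace Pool.MP8e

namespace Arc

variable {D : QD} {a b : ℝ} {p θ v w : ℝ → ℝ}

theorem Rv_flat (h : Arc D a b p θ v w) (hf : ∀ t ∈ Ioo a b, D.f (p t) = D.κ) {s t : ℝ}
    (hs : s ∈ Icc a b) (ht : t ∈ Icc a b) :
    D.R (p t) * v t - D.R (p s) * v s = D.κ * (t - s) := by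
  have h1 := const_of (g := fun t => D.R (p t) * v t - D.κ * t)
    (h.cRv.sub (continuousOn_const.mul continuousOn_id))
    (fun t ht => ((h.dRv ht).sub ((hasDerivAt_id' t).const_mul _)).congr_deriv (by
      rw [hf t ht]; ring)) hs ht
  beta_reduce at h1
  linarith

theorem v_mono (hT : ∀ t ∈ Ioo a b, 0 < D.f (p t)) (h : Arc D a b p θ v w)
    (hw : ∀ t ∈ Icc a b, 0 < w t) {s t : ℝ} (hs : s ∈ Icc a b) (ht : t ∈ Icc a b)
    (hst : s < t) : v s < v t := by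
  have := cmp_deriv_lt (continuousOn_const (c := (0:ℝ))) h.cv
    (fun t _ => hasDerivAt_const t (0:ℝ)) (fun t ht => h.dv t ht)
    (fun t ht => by
      have h1 := hw t (Ioo_subset_Icc_self ht)
      have h2 := h.posR (Ioo_subset_Icc_self ht)
      have h3 := hT t ht
      positivity) hs ht hst
  linarith

end Arc

/-- an excursion of phase T with positive Clairaut constant -/
structure ExT (D : QD) (q₀ a b : ℝ) (p θ v w : ℝ → ℝ) (j₀ j₁ : ℤ) (ϑ₀ ϑ₁ : ℝ) : Prop where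
  hT : ClassT D q₀
  arc : Arc D a b p θ v w
  hw : ∀ t ∈ Icc a b, 0 < w t
  h0 : p a = D.βh (θ a)
  h1 : p b = D.βh (θ b)
  hin : ∀ t ∈ Ioo a b, p t < D.βh (θ t)
  b0 : |ϑ₀| < Real.pi / 2
  b1 : |ϑ₁| < Real.pi / 2
  e0 : θ a = Real.pi / 2 + j₀ * Real.pi + ϑ₀
  e1 : θ b = Real.pi / 2 + j₁ * Real.pi + ϑ₁

namespace ExT

variable {D : QD} {q₀ a b : ℝ} {p θ v w : ℝ → ℝ} {j₀ j₁ : ℤ} {ϑ₀ ϑ₁ : ℝ}

/-- departure angle -/
noncomputable def A0 (D : QD) (a : ℝ) (v : ℝ → ℝ) (ϑ₀ : ℝ) : ℝ := D.κ * ϑ₀ - Real.arcsin (v a)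

/-- arrival angle -/
noncomputable def A1 (D : QD) (b : ℝ) (v : ℝ → ℝ) (ϑ₁ : ℝ) : ℝ := Real.arcsin (v b) - D.κ * ϑ₁

/-- the defect -/
noncomputable def E (D : QD) (a b : ℝ) (θ v : ℝ → ℝ) : ℝ :=
  (Real.arcsin (v b) - D.κ * θ b) - (Real.arcsin (v a) - D.κ * θ a)

variable (X : ExT D q₀ a b p θ v w j₀ j₁ ϑ₀ ϑ₁)
include X

theorem ma : a ∈ Icc a b := ⟨le_rfl, X.arc.lt.le⟩
theorem mb : b ∈ Icc a b := ⟨X.arc.lt.le, le_rfl⟩

theorem κb : |D.κ * ϑ₀| < Real.pi / 6 ∧ |D.κ * ϑ₁| < Real.pi / 6 := by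
  have h1 := X.hT.κ_pos
  have h2 := X.hT.κ_le
  have h3 := X.b0
  have h4 := X.b1
  rw [abs_mul, abs_mul, abs_of_pos h1]
  have hpi := Real.pi_pos
  constructor
  · have := abs_nonneg ϑ₀; nlinarith
  · have := abs_nonneg ϑ₁; nlinarith

theorem A0_mem : 0 < A0 D a v ϑ₀ ∧ A0 D a v ϑ₀ < Real.pi := by
  have h := dep X.hT X.arc X.h0 X.hin X.b0 j₀ X.e0
  have hs := X.arc.sinψ X.hw X.ma
  have hc := X.arc.cosψ X.hw X.ma
  have hm := X.arc.ψ_mem X.hw X.ma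
  have hk := abs_lt.1 X.κb.1
  have hpi := Real.pi_pos
  have h1 : 0 < Real.sin (A0 D a v ϑ₀) := by
    unfold A0
    rw [Real.sin_sub, hs, hc]; linarith
  have h2 : A0 D a v ϑ₀ < Real.pi := by unfold A0; linarith [hm.1, hk.2]
  refine ⟨?_, h2⟩
  by_contra hn
  push Not at hn
  have := Real.sin_nonpos_of_nonpos_of_neg_pi_le hn (by unfold A0; linarith [hm.2, hk.1])
  linarith

theorem A1_mem : 0 < A1 D b v ϑ₁ ∧ A1 D b v ϑ₁ < Real.pi := by
  have h := arr X.hT X.arc X.h1 X.hin X.b1 j₁ X.e1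
  have hs := X.arc.sinψ X.hw X.mb
  have hc := X.arc.cosψ X.hw X.mb
  have hm := X.arc.ψ_mem X.hw X.mb
  have hk := abs_lt.1 X.κb.2
  have hpi := Real.pi_pos
  have h1 : 0 < Real.sin (A1 D b v ϑ₁) := by
    unfold A1
    rw [Real.sin_sub, hs, hc]; linarith
  have h2 : A1 D b v ϑ₁ < Real.pi := by unfold A1; linarith [hm.2, hk.1]
  refine ⟨?_, h2⟩
  by_contra hn
  push Not at hn
  have := Real.sin_nonpos_of_nonpos_of_neg_pi_le hn (by unfold A1; linarith [hm.1, hk.2])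
  linarith

theorem sum : A0 D a v ϑ₀ + A1 D b v ϑ₁ = ((j₁ : ℝ) - j₀) * (Real.pi * D.κ) + E D a b θ v := by
  unfold A0 A1 E
  rw [X.e0, X.e1]; ring

theorem k_nonneg : 0 ≤ j₁ - j₀ := by
  have h := X.arc.θ_mono X.hw X.ma X.mb X.arc.lt
  rw [X.e0, X.e1] at h
  have h3 := abs_lt.1 X.b0
  have h4 := abs_lt.1 X.b1
  have hpi := Real.pi_pos
  have h5 : -1 * Real.pi < ((j₁ : ℝ) - j₀) * Real.pi := by linarith [h3.1, h3.2, h4.1, h4.2]
  have h6 : (-1 : ℝ) < (j₁ : ℝ) - j₀ := lt_of_mul_lt_mul_right h5 hpi.le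
  have h7 : (-1 : ℤ) < j₁ - j₀ := by exact_mod_cast h6
  omega

/-- rotation positive: for `k = 0` the floor coordinate increases -/
theorem rot_pos : 0 < ((j₁ : ℝ) - j₀) * Real.pi + (ϑ₁ - ϑ₀) := by
  have h := X.arc.θ_mono X.hw X.ma X.mb X.arc.lt
  rw [X.e0, X.e1] at h
  linarith

theorem c0_pos : 0 < Real.cos (D.κ * ϑ₀) := cos_pos_of X.hT.κ_pos X.hT.κ_le X.b0
theorem c1_pos : 0 < Real.cos (D.κ * ϑ₁) := cos_pos_of X.hT.κ_pos X.hT.κ_le X.b1

theorem fl0 : D.R (p a) * Real.cos (D.κ * ϑ₀) = D.ρf := by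
  rw [X.h0, X.e0]; exact floorT X.hT X.b0.le j₀

theorem fl1 : D.R (p b) * Real.cos (D.κ * ϑ₁) = D.ρf := by
  rw [X.h1, X.e1]; exact floorT X.hT X.b1.le j₁

theorem K0 : D.R (p a) * w a = D.ρf * Real.cos (A0 D a v ϑ₀) +
    D.ρf * Real.tan (D.κ * ϑ₀) * Real.sin (A0 D a v ϑ₀) := by
  have hs := X.arc.sinψ X.hw X.ma
  have hc := X.arc.cosψ X.hw X.ma
  have h := X.fl0
  have hc0 := X.c0_pos.ne'
  unfold A0
  rw [Real.sin_sub, Real.cos_sub, hs, hc, Real.tan_eq_sin_div_cos]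
  have h2 := Real.sin_sq_add_cos_sq (D.κ * ϑ₀)
  field_simp
  rw [← h]
  linear_combination (-(D.R (p a) * Real.cos (D.κ * ϑ₀) * w a)) * h2

theorem K1 : D.R (p b) * w b = D.ρf * Real.cos (A1 D b v ϑ₁) -
    D.ρf * Real.tan (D.κ * ϑ₁) * Real.sin (A1 D b v ϑ₁) := by
  have hs := X.arc.sinψ X.hw X.mb
  have hc := X.arc.cosψ X.hw X.mb
  have h := X.fl1
  have hc0 := X.c1_pos.ne'
  unfold A1
  rw [Real.sin_sub, Real.cos_sub, hs, hc, Real.tan_eq_sin_div_cos]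
  have h2 := Real.sin_sq_add_cos_sq (D.κ * ϑ₁)
  field_simp
  rw [← h]
  linear_combination (-(D.R (p b) * Real.cos (D.κ * ϑ₁) * w b)) * h2

theorem Rv0 : D.R (p a) * v a = D.ρf * Real.tan (D.κ * ϑ₀) * Real.cos (A0 D a v ϑ₀) -
    D.ρf * Real.sin (A0 D a v ϑ₀) := by
  have hs := X.arc.sinψ X.hw X.ma
  have hc := X.arc.cosψ X.hw X.ma
  have h := X.fl0
  have hc0 := X.c0_pos.ne'
  unfold A0
  rw [Real.sin_sub, Real.cos_sub, hs, hc, Real.tan_eq_sin_div_cos]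
  have h2 := Real.sin_sq_add_cos_sq (D.κ * ϑ₀)
  field_simp
  rw [← h]
  linear_combination (-(D.R (p a) * Real.cos (D.κ * ϑ₀) * v a)) * h2

theorem Rv1 : D.R (p b) * v b = D.ρf * Real.tan (D.κ * ϑ₁) * Real.cos (A1 D b v ϑ₁) +
    D.ρf * Real.sin (A1 D b v ϑ₁) := by
  have hs := X.arc.sinψ X.hw X.mb
  have hc := X.arc.cosψ X.hw X.mb
  have h := X.fl1
  have hc0 := X.c1_pos.ne'
  unfold A1
  rw [Real.sin_sub, Real.cos_sub, hs, hc, Real.tan_eq_sin_div_cos]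
  have h2 := Real.sin_sq_add_cos_sq (D.κ * ϑ₁)
  field_simp
  rw [← h]
  linear_combination (-(D.R (p b) * Real.cos (D.κ * ϑ₁) * v b)) * h2

theorem K_eq : D.R (p a) * w a = D.R (p b) * w b := X.arc.K_eq X.ma X.mb

theorem K_pos : 0 < D.R (p a) * w a := mul_pos (X.arc.posR X.ma) (X.hw a X.ma)

theorem ρf_le0 : D.ρf ≤ D.R (p a) := by
  have h := X.fl0
  have h1 := Real.cos_le_one (D.κ * ϑ₀)
  have h2 := X.arc.posR X.ma
  nlinarith

theorem ρf_le1 : D.ρf ≤ D.R (p b) := by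
  have h := X.fl1
  have h1 := Real.cos_le_one (D.κ * ϑ₁)
  have h2 := X.arc.posR X.mb
  nlinarith

theorem mem {t : ℝ} (ht : t ∈ Icc a b) : p t ∈ Icc 0 D.ℓ :=
  ⟨(X.arc.pos t ht).1.le, (X.arc.pos t ht).2⟩

/-- `ψ - κ θ` is nondecreasing -/
theorem g_mono {s t : ℝ} (hs : s ∈ Icc a b) (ht : t ∈ Icc a b) (hst : s ≤ t) :
    Real.arcsin (v s) - D.κ * θ s ≤ Real.arcsin (v t) - D.κ * θ t := by
  have := cmp_deriv (X.arc.cθ.const_mul D.κ) X.arc.cψ
    (fun t ht => (X.arc.dθ t ht).const_mul D.κ) (fun t ht => X.arc.dψ X.hw ht)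
    (fun t ht => by
      have htI := Ioo_subset_Icc_self ht
      have h1 := X.hT.f_ge (X.mem htI)
      have h2 := X.hw t htI
      have h3 := X.arc.posR htI
      rw [← mul_div_assoc]
      gcongr) hs ht hst
  beta_reduce at this
  linarith

theorem E_nonneg : 0 ≤ E D a b θ v := by
  have := X.g_mono X.ma X.mb X.arc.lt.le
  unfold E; linarith

theorem E_le : E D a b θ v ≤ (1 - 3 * D.κ) * (Real.arcsin (v b) - Real.arcsin (v a)) := by
  have := cmp_deriv (X.arc.cψ.const_mul (3 * D.κ)) (X.arc.cθ.const_mul D.κ)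
    (fun t ht => (X.arc.dψ X.hw ht).const_mul (3 * D.κ))
    (fun t ht => (X.arc.dθ t ht).const_mul D.κ)
    (fun t ht => by
      have htI := Ioo_subset_Icc_self ht
      have h1 := X.hT.f_le (X.mem htI)
      have h2 := X.hw t htI
      have h3 := X.arc.posR htI
      have h4 := X.hT.κ_pos
      have e : 3 * D.κ * (D.f (p t) * w t / D.R (p t)) =
        (3 * D.f (p t)) * (D.κ * (w t / D.R (p t))) := by ring
      rw [e]
      have h5 : 0 < D.κ * (w t / D.R (p t)) := by positivity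
      nlinarith) X.ma X.mb X.arc.lt.le
  beta_reduce at this
  unfold E
  linarith

theorem E_lt (h3 : 3 * D.κ < 1) : E D a b θ v < (1 - 3 * D.κ) * Real.pi := by
  have h1 := X.E_le
  have h2 := X.arc.ψ_mem X.hw X.ma
  have h4 := X.arc.ψ_mem X.hw X.mb
  have h5 : (1 - 3 * D.κ) * (Real.arcsin (v b) - Real.arcsin (v a)) <
      (1 - 3 * D.κ) * Real.pi := mul_lt_mul_of_pos_left (by linarith [h2.1, h4.2]) (by linarith)
  linarith

/-! #### Straight excursions -/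

section straight
variable (hs : ∀ t ∈ Ioo a b, D.f (p t) = D.κ)
include hs

theorem E_zero : E D a b θ v = 0 := by
  have := cmp_deriv X.arc.cψ (X.arc.cθ.const_mul D.κ)
    (fun t ht => X.arc.dψ X.hw ht) (fun t ht => (X.arc.dθ t ht).const_mul D.κ)
    (fun t ht => by
      rw [hs t ht, ← mul_div_assoc]) X.ma X.mb X.arc.lt.le
  have h1 := X.E_nonneg
  beta_reduce at this
  unfold E at h1 ⊢
  linarith

theorem len : D.κ * (b - a) = D.R (p b) * v b - D.R (p a) * v a :=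
  (X.arc.Rv_flat hs X.ma X.mb).symm

theorem k_pos : 1 ≤ j₁ - j₀ := by
  have h1 := X.k_nonneg
  by_contra hn
  have h2 : j₁ - j₀ = 0 := by omega
  have h3 : ((j₁ : ℝ) - j₀) = 0 := by exact_mod_cast h2
  have h4 := X.sum
  rw [X.E_zero hs, h3] at h4
  linarith [X.A0_mem.1, X.A1_mem.1]

theorem len_big (hk : 2 ≤ j₁ - j₀) :
    2 * D.ρf * Real.sin (Real.pi * D.κ / 2) ≤ D.κ * (b - a) := by
  have hpi := Real.pi_pos
  have hκ := X.hT.κ_pos
  have hκ' := X.hT.κ_le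
  have hE := X.E_zero hs
  have hl := X.len hs
  have hK := X.K_eq
  have hR0 := X.ρf_le0
  have hR1 := X.ρf_le1
  have hρ := D.ρf_pos
  set φ := Real.arcsin (v b) - Real.arcsin (v a) with hφ
  have h1 : φ = D.κ * (θ b - θ a) := by
    unfold E at hE; rw [hφ]; linarith
  have hk' : (2 : ℝ) ≤ (j₁ : ℝ) - j₀ := by exact_mod_cast hk
  have h2 : Real.pi * D.κ ≤ φ := by
    rw [h1, X.e0, X.e1]
    have h3 := abs_lt.1 X.b0
    have h4 := abs_lt.1 X.b1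
    have : Real.pi ≤ Real.pi / 2 + j₁ * Real.pi + ϑ₁ - (Real.pi / 2 + j₀ * Real.pi + ϑ₀) := by
      nlinarith [h3.1, h3.2, h4.1, h4.2]
    nlinarith
  have h3 : φ ≤ Real.pi := by
    have h2 := X.arc.ψ_mem X.hw X.ma
    have h4 := X.arc.ψ_mem X.hw X.mb
    rw [hφ]; linarith [h2.1, h4.2]
  have hcos : Real.cos φ ≤ Real.cos (Real.pi * D.κ) :=
    Real.cos_le_cos_of_nonneg_of_le_pi (by positivity) h3 h2
  have hcφ : Real.cos φ = w b * w a + v b * v a := by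
    rw [hφ, Real.cos_sub, X.arc.cosψ X.hw X.ma, X.arc.cosψ X.hw X.mb,
      X.arc.sinψ X.hw X.ma, X.arc.sinψ X.hw X.mb]
  have ua := X.arc.unit a X.ma
  have ub := X.arc.unit b X.mb
  have hsq : (D.κ * (b - a)) ^ 2 = D.R (p a) ^ 2 + D.R (p b) ^ 2 -
      2 * (D.R (p a) * D.R (p b)) * Real.cos φ := by
    rw [hl, hcφ]
    have h5 : (D.R (p a) * w a - D.R (p b) * w b) ^ 2 = 0 := by rw [hK]; ring
    linear_combination (D.R (p b) ^ 2) * ub + (D.R (p a) ^ 2) * ua - h5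
  have hcγ : Real.cos (Real.pi * D.κ) = 1 - 2 * Real.sin (Real.pi * D.κ / 2) ^ 2 := by
    have := Real.cos_sq' (Real.pi * D.κ / 2)
    have h6 := Real.cos_two_mul (Real.pi * D.κ / 2)
    have e : 2 * (Real.pi * D.κ / 2) = Real.pi * D.κ := by ring
    rw [e] at h6
    linarith
  have hS : 0 ≤ Real.sin (Real.pi * D.κ / 2) :=
    Real.sin_nonneg_of_nonneg_of_le_pi (by positivity) (by nlinarith)
  have hRR : D.ρf ^ 2 ≤ D.R (p a) * D.R (p b) := by nlinarith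
  have h7 : (2 * D.ρf * Real.sin (Real.pi * D.κ / 2)) ^ 2 ≤ (D.κ * (b - a)) ^ 2 := by
    rw [hsq]
    have h8 : D.R (p a) * D.R (p b) * Real.cos φ ≤
        D.R (p a) * D.R (p b) * (1 - 2 * Real.sin (Real.pi * D.κ / 2) ^ 2) := by
      rw [← hcγ]
      exact mul_le_mul_of_nonneg_left hcos (by nlinarith)
    have h9 : 4 * (D.ρf ^ 2 * Real.sin (Real.pi * D.κ / 2) ^ 2) ≤
        4 * (D.R (p a) * D.R (p b) * Real.sin (Real.pi * D.κ / 2) ^ 2) := by gcongr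
    nlinarith [sq_nonneg (D.R (p a) - D.R (p b))]
  have h10 : 0 ≤ D.κ * (b - a) := mul_nonneg hκ.le (by linarith [X.arc.lt])
  exact (sq_le_sq₀ (by positivity) h10).1 h7

end straight

end ExT

end Pool.MP8e
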