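import Pool.Agent.Work.MP_8e9dbb.B.ExcT2

/-!
# MP_8e9dbb_gt, phase T: excursions which visit the cap (helper19)
-/

open MeasureTheory Filter Topology Metric Set
open scoped ContDiff

namespace Pool.MP8e

namespace ExT

variable {D : QD} {q₀ a b : ℝ} {p θ v w : ℝ → ℝ} {j₀ j₁ : ℤ} {ϑ₀ ϑ₁ : ℝ}
variable (X : ExT D q₀ a b p θ v w j₀ j₁ ϑ₀ ϑ₁)
include X

theorem f_pos {t : ℝ} (ht : t ∈ Icc a b) : 0 < D.f (p t) :=
  X.hT.κ_pos.trans_le (X.hT.f_ge (X.mem ht))

theorem pa_gt : D.pf < p a := by rw [X.h0]; exact (D.βh_mem _).1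
theorem pb_gt : D.pf < p b := by rw [X.h1]; exact (D.βh_mem _).1

theorem vm {s t : ℝ} (hs : s ∈ Icc a b) (ht : t ∈ Icc a b) (hst : s < t) : v s < v t :=
  Arc.v_mono (fun t ht => X.f_pos (Ioo_subset_Icc_self ht)) X.arc X.hw hs ht hst

/-- `|ψ| = arccos (K / R)` -/
theorem abs_ψ {t : ℝ} (ht : t ∈ Icc a b) :
    Real.arccos (D.R (p a) * w a / D.R (p t)) = |Real.arcsin (v t)| := by
  have hR := X.arc.posR ht
  have hm := X.arc.ψ_mem X.hw ht
  have e : D.R (p a) * w a / D.R (p t) = Real.cos |Real.arcsin (v t)| := by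
    rw [X.arc.K_eq X.ma ht, Real.cos_abs, X.arc.cosψ X.hw ht]
    field_simp
  rw [e, Real.arccos_cos (abs_nonneg _)]
  rw [abs_le]
  constructor <;> linarith [hm.1, hm.2, Real.pi_pos]

section visit
variable (hv : ∃ t ∈ Icc a b, p t < D.pf)
include hv

theorem caps : ∃ s0 s1, a < s0 ∧ s0 < s1 ∧ s1 < b ∧ p s0 = D.pf ∧ p s1 = D.pf ∧
    (∀ t ∈ Ioo a s0, D.f (p t) = D.κ) ∧ (∀ t ∈ Ioo s1 b, D.f (p t) = D.κ) := by
  obtain ⟨t, ht, htp⟩ := hv
  obtain ⟨s0, hs0, e0, h0⟩ := first_le X.arc.lt.le X.arc.cp X.pa_gt ⟨t, ht, htp.le⟩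
  obtain ⟨s1, hs1, e1, h1⟩ := last_le X.arc.lt.le X.arc.cp X.pb_gt ⟨t, ht, htp.le⟩
  have a0 : s0 ≤ t := by
    by_contra hn
    push Not at hn
    have := h0 t ⟨ht.1, hn⟩
    linarith
  have a1 : t ≤ s1 := by
    by_contra hn
    push Not at hn
    have := h1 t ⟨hn, ht.2⟩
    linarith
  have a2 : s0 < s1 := by
    rcases a0.eq_or_lt with h | h
    · rw [← h] at htp; linarith
    · linarith
  refine ⟨s0, s1, hs0.1, a2, hs1.2, e0, e1, fun u hu => ?_, fun u hu => ?_⟩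
  · exact D.f_flat ⟨(h0 u ⟨hu.1.le, hu.2⟩).le, (X.arc.pos u ⟨hu.1.le, by linarith [hu.2, hs0.2]⟩).2⟩
  · exact D.f_flat ⟨(h1 u ⟨hu.1, hu.2.le⟩).le, (X.arc.pos u ⟨by linarith [hu.1, hs1.1], hu.2.le⟩).2⟩

theorem va_neg : v a < 0 := by
  obtain ⟨s0, s1, h1, h2, h3, e0, e1, -, -⟩ := X.caps hv
  have hI : s0 ∈ Icc a b := ⟨h1.le, by linarith⟩
  have hsub := X.arc.sub (c := a) (d := s0) le_rfl h1 hI.2
  obtain ⟨t, ht, hte⟩ := exists_hasDerivAt_eq_slope p (fun t => v t / D.A (p t)) h1 hsub.cp hsub.dp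
  have htI : t ∈ Icc a b := ⟨ht.1.le, by linarith [ht.2]⟩
  have hA := X.arc.posA htI
  have h4 : v t / D.A (p t) < 0 := by
    rw [hte, e0]
    exact div_neg_of_neg_of_pos (by linarith [X.pa_gt]) (by linarith)
  have h5 : v t < 0 := by
    by_contra hn
    push Not at hn
    have := div_nonneg hn hA.le
    linarith
  exact (X.vm X.ma htI ht.1).trans h5

theorem vb_pos : 0 < v b := by
  obtain ⟨s0, s1, h1, h2, h3, e0, e1, -, -⟩ := X.caps hv
  have hI : s1 ∈ Icc a b := ⟨by linarith, h3.le⟩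
  have hsub := X.arc.sub (c := s1) (d := b) hI.1 h3 le_rfl
  obtain ⟨t, ht, hte⟩ := exists_hasDerivAt_eq_slope p (fun t => v t / D.A (p t)) h3 hsub.cp hsub.dp
  have htI : t ∈ Icc a b := ⟨by linarith [ht.1], ht.2.le⟩
  have hA := X.arc.posA htI
  have h4 : 0 < v t / D.A (p t) := by
    rw [hte, e1]
    exact div_pos (by linarith [X.pb_gt]) (by linarith)
  have h5 : 0 < v t := by
    by_contra hn
    push Not at hn
    have := div_nonpos_of_nonpos_of_nonneg hn hA.le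
    linarith
  exact h5.trans (X.vm htI X.mb ht.2)

theorem K_lt : D.R (p a) * w a < D.R D.pf := by
  obtain ⟨t, ht, htp⟩ := hv
  rw [X.arc.K_eq X.ma ht]
  have hpf := ClassT.pf_mem D
  have h1 : D.R (p t) < D.R D.pf := X.hT.R_mono (X.mem ht) ⟨hpf.1.le, hpf.2.le⟩ htp
  have hu := X.arc.unit t ht
  have hw := X.hw t ht
  have h2 : w t ≤ 1 := by nlinarith
  have h3 := X.arc.posR ht
  nlinarith

theorem E_le' : E D a b θ v ≤
    2 * (1 - 3 * D.κ) * Real.arccos (D.R (p a) * w a / D.R D.pf) := by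
  obtain ⟨s0, s1, h1, h2, h3, e0, e1, f0, f1⟩ := X.caps hv
  have m0 : s0 ∈ Icc a b := ⟨h1.le, by linarith⟩
  have m1 : s1 ∈ Icc a b := ⟨by linarith, h3.le⟩
  -- flat parts
  have g0 : Real.arcsin (v s0) - D.κ * θ s0 ≤ Real.arcsin (v a) - D.κ * θ a := by
    have hsub := X.arc.sub (c := a) (d := s0) le_rfl h1 m0.2
    have := cmp_deriv hsub.cψ (hsub.cθ.const_mul D.κ)
      (fun t ht => hsub.dψ (fun t ht => X.hw t ⟨ht.1, ht.2.trans m0.2⟩) ht)
      (fun t ht => (hsub.dθ t ht).const_mul D.κ)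
      (fun t ht => by rw [f0 t ht, ← mul_div_assoc]) (s := a) (t := s0) ⟨le_rfl, h1.le⟩
      ⟨h1.le, le_rfl⟩ h1.le
    beta_reduce at this
    linarith
  have g1 : Real.arcsin (v b) - D.κ * θ b ≤ Real.arcsin (v s1) - D.κ * θ s1 := by
    have hsub := X.arc.sub (c := s1) (d := b) m1.1 h3 le_rfl
    have := cmp_deriv hsub.cψ (hsub.cθ.const_mul D.κ)
      (fun t ht => hsub.dψ (fun t ht => X.hw t ⟨m1.1.trans ht.1, ht.2⟩) ht)
      (fun t ht => (hsub.dθ t ht).const_mul D.κ)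
      (fun t ht => by rw [f1 t ht, ← mul_div_assoc]) (s := s1) (t := b) ⟨le_rfl, h3.le⟩
      ⟨h3.le, le_rfl⟩ h3.le
    beta_reduce at this
    linarith
  have gm := cmp_deriv (X.arc.cψ.const_mul (3 * D.κ)) (X.arc.cθ.const_mul D.κ)
    (fun t ht => (X.arc.dψ X.hw ht).const_mul (3 * D.κ))
    (fun t ht => (X.arc.dθ t ht).const_mul D.κ)
    (fun t ht => by
      have htI := Ioo_subset_Icc_self ht
      have h1 := X.hT.f_le (X.mem htI)
      have h2 := X.hw t htI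
      have h3 := X.arc.posR htI
      have h4 := X.hT.κ_pos
      have e : 3 * D.κ * (D.f (p t) * w t / D.R (p t)) =
        (3 * D.f (p t)) * (D.κ * (w t / D.R (p t))) := by ring
      rw [e]
      have h5 : 0 < D.κ * (w t / D.R (p t)) := by positivity
      nlinarith) m0 m1 h2.le
  beta_reduce at gm
  have a0 := X.abs_ψ m0
  have a1 := X.abs_ψ m1
  rw [e0] at a0
  rw [e1] at a1
  have b0 : -Real.arccos (D.R (p a) * w a / D.R D.pf) ≤ Real.arcsin (v s0) := by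
    rw [a0]; exact neg_abs_le _
  have b1 : Real.arcsin (v s1) ≤ Real.arccos (D.R (p a) * w a / D.R D.pf) := by
    rw [a1]; exact le_abs_self _
  have hq : 0 ≤ 1 - 3 * D.κ := by linarith [X.hT.κ_le]
  have h5 := mul_le_mul_of_nonneg_left (by linarith : Real.arcsin (v s1) - Real.arcsin (v s0) ≤
    2 * Real.arccos (D.R (p a) * w a / D.R D.pf)) hq
  unfold E
  linarith

theorem E_pos (h3 : 3 * D.κ < 1) : 0 < E D a b θ v := by
  obtain ⟨t, ht, htp⟩ := hv
  have hta : a < t := by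
    rcases ht.1.eq_or_lt with h | h
    · rw [← h] at htp; linarith [X.pa_gt]
    · exact h
  have htb : t < b := by
    rcases ht.2.eq_or_lt with h | h
    · rw [h] at htp; linarith [X.pb_gt]
    · exact h
  have hc : ContinuousAt p t := X.arc.cp.continuousAt (Icc_mem_nhds hta htb)
  have hev := hc.eventually_lt_const htp
  obtain ⟨l, u, hlu, hsub⟩ := mem_nhds_iff_exists_Ioo_subset.1 hev
  set u' := min ((t + u) / 2) ((t + b) / 2) with hu'
  have c1 : t < u' := by rw [hu']; apply lt_min <;> linarith [hlu.2]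
  have c2 : u' < u := lt_of_le_of_lt (min_le_left _ _) (by linarith [hlu.2])
  have c3 : u' < b := lt_of_le_of_lt (min_le_right _ _) (by linarith)
  have hs := X.arc.sub hta.le c1 c3.le
  have hw' : ∀ x ∈ Icc t u', 0 < w x := fun x hx => X.hw x ⟨hta.le.trans hx.1, hx.2.trans c3.le⟩
  have key := cmp_deriv_lt (hs.cθ.const_mul D.κ) hs.cψ
    (fun t ht => (hs.dθ t ht).const_mul D.κ) (fun t ht => hs.dψ hw' ht)
    (fun x hx => by
      have hxI := Ioo_subset_Icc_self hx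
      have hxI' : x ∈ Icc a b := ⟨hta.le.trans hxI.1, hxI.2.trans c3.le⟩
      have h1 := X.hT.f_gt h3 (p := p x) ⟨(X.mem hxI').1, hsub ⟨hlu.1.trans hx.1, hx.2.trans c2⟩⟩
      have h2 := X.hw x hxI'
      have h4 := X.arc.posR hxI'
      rw [← mul_div_assoc]
      gcongr) (s := t) (t := u') ⟨le_rfl, c1.le⟩ ⟨c1.le, le_rfl⟩ c1
  beta_reduce at key
  have g1 := X.g_mono X.ma ht hta.le
  have g2 := X.g_mono (s := u') (t := b) ⟨hta.le.trans c1.le, c3.le⟩ X.mb c3.le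
  unfold E
  linarith

theorem E_ge : 2 * (1 - 3 * D.κ) * Real.arccos (D.R (p a) * w a / D.R q₀) ≤ E D a b θ v := by
  have hq : 0 ≤ 1 - 3 * D.κ := by linarith [X.hT.κ_le]
  have hpf := ClassT.pf_mem D
  have hq0 := X.hT.q₀_pos
  have hq1 := X.hT.q₀_le
  have hqm : q₀ ∈ Icc 0 D.ℓ := ⟨hq0.le, hq1.trans hpf.2.le⟩
  have hRq : 0 < D.R q₀ := D.posR _ ⟨hq0, hqm.2⟩
  rcases le_or_gt (D.R q₀) (D.R (p a) * w a) with h | h
  · have : Real.arccos (D.R (p a) * w a / D.R q₀) = 0 := by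
      rw [Real.arccos_eq_zero]
      exact (one_le_div hRq).2 h
    rw [this, mul_zero]
    exact X.E_nonneg
  · have va := X.va_neg hv
    have vb := X.vb_pos hv
    obtain ⟨t, ht, htv⟩ : ∃ t ∈ Icc a b, v t = 0 := by
      have := intermediate_value_Icc X.arc.lt.le X.arc.cv
      obtain ⟨t, ht, h'⟩ := this ⟨va.le, vb.le⟩
      exact ⟨t, ht, h'⟩
    have hwt : w t = 1 := by
      have hu := X.arc.unit t ht
      have hw := X.hw t ht
      rw [htv] at hu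
      nlinarith
    have hKt : D.R (p t) < D.R q₀ := by
      have := X.arc.K_eq X.ma ht
      rw [hwt, mul_one] at this
      linarith
    have hpt : p t < q₀ := by
      by_contra hn
      push Not at hn
      have := X.hT.R_mono.monotoneOn hqm (X.mem ht) hn
      linarith
    have hta : a < t := by
      rcases ht.1.eq_or_lt with h | h
      · rw [← h] at hpt; linarith [X.pa_gt]
      · exact h
    have htb : t < b := by
      rcases ht.2.eq_or_lt with h | h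
      · rw [h] at hpt; linarith [X.pb_gt]
      · exact h
    obtain ⟨u0, hu0, e0, k0⟩ := last_ge hta.le (X.arc.cp.mono (Icc_subset_Icc le_rfl htb.le)) hpt
      ⟨a, ⟨le_rfl, hta.le⟩, by linarith [X.pa_gt]⟩
    obtain ⟨u1, hu1, e1, k1⟩ := first_ge htb.le (X.arc.cp.mono (Icc_subset_Icc hta.le le_rfl)) hpt
      ⟨b, ⟨htb.le, le_rfl⟩, by linarith [X.pb_gt]⟩
    have m0 : u0 ∈ Icc a b := ⟨hu0.1, by linarith [hu0.2]⟩
    have m1 : u1 ∈ Icc a b := ⟨by linarith [hu1.1], hu1.2⟩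
    have hlt : u0 < u1 := hu0.2.trans hu1.1
    have hs := X.arc.sub m0.1 hlt m1.2
    have hin : ∀ x ∈ Ioo u0 u1, p x < q₀ := by
      intro x hx
      rcases le_or_gt x t with h' | h'
      · exact k0 x ⟨hx.1, h'⟩
      · exact k1 x ⟨h'.le, hx.2⟩
    have hw' : ∀ x ∈ Icc u0 u1, 0 < w x := fun x hx => X.hw x ⟨m0.1.trans hx.1, hx.2.trans m1.2⟩
    have key := cmp_deriv (hs.cθ.const_mul D.κ) (hs.cψ.const_mul (3 * D.κ))
      (fun t ht => (hs.dθ t ht).const_mul D.κ) (fun t ht => (hs.dψ hw' ht).const_mul (3 * D.κ))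
      (fun x hx => by
        have hxI' : x ∈ Icc a b := ⟨m0.1.trans hx.1.le, hx.2.le.trans m1.2⟩
        have h1 := X.hT.f_third (p := p x) ⟨(X.mem hxI').1, (hin x hx).le⟩
        have e : 3 * D.κ * (D.f (p x) * w x / D.R (p x)) =
          (3 * D.f (p x)) * (D.κ * (w x / D.R (p x))) := by ring
        rw [e, h1, one_mul]) (s := u0) (t := u1) ⟨le_rfl, hlt.le⟩ ⟨hlt.le, le_rfl⟩ hlt.le
    beta_reduce at key
    have a0 := X.abs_ψ m0
    have a1 := X.abs_ψ m1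
    rw [e0] at a0
    rw [e1] at a1
    have v0 : v u0 < 0 := by rw [← htv]; exact X.vm m0 ht hu0.2
    have v1 : 0 < v u1 := by rw [← htv]; exact X.vm ht m1 hu1.1
    rw [abs_of_neg (Real.arcsin_lt_zero.2 v0)] at a0
    rw [abs_of_pos (Real.arcsin_pos.2 v1)] at a1
    have g0 := X.g_mono X.ma m0 hu0.1
    have g1 := X.g_mono m1 X.mb hu1.2
    have e2 : 2 * (1 - 3 * D.κ) * Real.arccos (D.R (p a) * w a / D.R q₀) =
      (1 - 3 * D.κ) * (Real.arcsin (v u1) - Real.arcsin (v u0)) := by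
      linear_combination (1 - 3 * D.κ) * (a0 + a1)
    rw [e2]
    unfold E
    linarith

/-- length of an excursion which visits the cap -/
theorem len_visit (h3 : 3 * D.κ < 1) :
    2 * D.ρf * Real.sin (Real.pi * D.κ / 2) ≤ D.κ * (b - a) := by
  obtain ⟨s0, s1, h1, h2, h3', e0, e1, f0, f1⟩ := X.caps hv
  have m0 : s0 ∈ Icc a b := ⟨h1.le, by linarith⟩
  have m1 : s1 ∈ Icc a b := ⟨by linarith, h3'.le⟩
  have hκ := X.hT.κ_pos
  have hs0 := X.arc.sub (c := a) (d := s0) le_rfl h1 m0.2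
  have hs1 := X.arc.sub (c := s1) (d := b) m1.1 h3' le_rfl
  have l0 := hs0.Rv_flat f0 (s := a) (t := s0) ⟨le_rfl, h1.le⟩ ⟨h1.le, le_rfl⟩
  have l1 := hs1.Rv_flat f1 (s := s1) (t := b) ⟨le_rfl, h3'.le⟩ ⟨h3'.le, le_rfl⟩
  have lm := cmp_deriv (X.arc.cRv.const_mul 3) continuousOn_id
    (fun t ht => (X.arc.dRv ht).const_mul 3) (fun t _ => hasDerivAt_id t)
    (fun t ht => X.hT.f_le (X.mem (Ioo_subset_Icc_self ht))) m0 m1 h2.le
  simp only [id] at lm
  set K := D.R (p a) * w a with hK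
  have hK0 : 0 < K := X.K_pos
  have q0 := X.arc.Rv_sq m0
  have q1 := X.arc.Rv_sq m1
  have qa := X.arc.Rv_sq X.ma
  have qb := X.arc.Rv_sq X.mb
  rw [← X.arc.K_eq X.ma m0, e0] at q0
  rw [← X.arc.K_eq X.ma m1, e1] at q1
  rw [← X.arc.K_eq X.ma X.mb] at qb
  rw [← hK] at q0 q1 qa qb
  rw [e0] at l0 lm
  rw [e1] at l1 lm
  have va := X.va_neg hv
  have vb := X.vb_pos hv
  have hKlt := X.K_lt hv
  rw [← hK] at hKlt
  set Ra := D.R D.pf with hRa
  set x := √(Ra ^ 2 - K ^ 2) with hx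
  set y := √(D.ρf ^ 2 - K ^ 2) with hy
  have hRlt := X.hT.Ra_lt
  have hx2 : x ^ 2 = Ra ^ 2 - K ^ 2 := Real.sq_sqrt (by nlinarith)
  have hy2 : y ^ 2 = D.ρf ^ 2 - K ^ 2 := Real.sq_sqrt (by nlinarith)
  have hx0 : 0 ≤ x := Real.sqrt_nonneg _
  have hy0 : 0 ≤ y := Real.sqrt_nonneg _
  have c0 : -x ≤ Ra * v s0 := by
    have : |Ra * v s0| ≤ x := abs_le_of_sq_le_sq (by rw [q0, hx2]) hx0
    exact (abs_le.1 this).1
  have c1 : Ra * v s1 ≤ x := by
    have : |Ra * v s1| ≤ x := abs_le_of_sq_le_sq (by rw [q1, hx2]) hx0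
    exact (abs_le.1 this).2
  have hRa' := X.arc.posR X.ma
  have hRb' := X.arc.posR X.mb
  have ya : y ≤ -(D.R (p a) * v a) := by
    have h1 : 0 ≤ -(D.R (p a) * v a) := by nlinarith
    apply abs_le_of_sq_le_sq' _ h1 |>.2
    rw [neg_sq, qa, hy2]
    have := X.ρf_le0
    have := D.ρf_pos
    nlinarith
  have yb : y ≤ D.R (p b) * v b := by
    have h1 : 0 ≤ D.R (p b) * v b := by positivity
    apply abs_le_of_sq_le_sq' _ h1 |>.2
    rw [qb, hy2]
    have := X.ρf_le1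
    have := D.ρf_pos
    nlinarith
  have hq : 0 ≤ 1 - 3 * D.κ := by linarith
  -- the sum
  have total : 2 * y - 2 * (1 - 3 * D.κ) * x ≤ D.κ * (b - a) := by
    have i1 : D.κ * (3 * (Ra * v s1) - 3 * (Ra * v s0)) ≤ D.κ * (s1 - s0) :=
      mul_le_mul_of_nonneg_left lm hκ.le
    have i2 : (1 - 3 * D.κ) * (Ra * v s1 - Ra * v s0) ≤ (1 - 3 * D.κ) * (2 * x) :=
      mul_le_mul_of_nonneg_left (by linarith) hq
    nlinarith
  -- Cauchy
  set q := 1 - 3 * D.κ with hqd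
  set S := Real.sin (Real.pi * D.κ / 2) with hS
  have hS0 : 0 ≤ S := by
    have hpi := Real.pi_pos
    exact Real.sin_nonneg_of_nonneg_of_le_pi (by positivity) (by nlinarith)
  have hI2 := X.hT.I2 h3
  rw [← hqd, ← hS, ← hRa] at hI2
  have hρ := D.ρf_pos
  have key : D.ρf * S + q * x ≤ y := by
    apply abs_le_of_sq_le_sq' _ hy0 |>.2
    -- (ρ S + q x)^2 ≤ y^2 = x^2 + D0
    have hq1 : q ≤ 1 := by rw [hqd]; linarith
    set z := D.ρf * S with hz
    have hz0 : 0 ≤ z := by positivity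
    have hz2 : z ^ 2 ≤ (1 - q ^ 2) * (y ^ 2 - x ^ 2) := by
      rw [hz, hy2, hx2]
      have e : D.ρf ^ 2 - K ^ 2 - (Ra ^ 2 - K ^ 2) = D.ρf ^ 2 - Ra ^ 2 := by ring
      rw [e]
      calc (D.ρf * S) ^ 2 = D.ρf ^ 2 * S ^ 2 := by ring
        _ ≤ _ := hI2
    have hq2 : 0 < 1 - q ^ 2 := by
      have : 0 < 3 * D.κ := by linarith
      nlinarith
    -- (1 - q^2) (y^2 - (z + q x)^2) ≥ (q z - (1-q^2) x)^2 ...
    have h5 : 0 ≤ (1 - q ^ 2) * (y ^ 2 - (z + q * x) ^ 2) := by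
      have e : (1 - q ^ 2) * (y ^ 2 - (z + q * x) ^ 2) =
        ((1 - q ^ 2) * (y ^ 2 - x ^ 2) - z ^ 2) + (q * z - (1 - q ^ 2) * x) ^ 2 := by ring
      rw [e]
      have := sq_nonneg (q * z - (1 - q ^ 2) * x)
      linarith
    have h6 : 0 ≤ y ^ 2 - (z + q * x) ^ 2 := by
      by_contra hn
      push Not at hn
      have := mul_neg_of_pos_of_neg hq2 hn
      linarith
    linarith
  linarith

end visit

/-- visit or straight -/
theorem dich : (∃ t ∈ Icc a b, p t < D.pf) ∨ ∀ t ∈ Ioo a b, D.f (p t) = D.κ := by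
  by_cases h : ∃ t ∈ Icc a b, p t < D.pf
  · exact Or.inl h
  · right
    push Not at h
    intro t ht
    have htI := Ioo_subset_Icc_self ht
    exact D.f_flat ⟨h t htI, (X.arc.pos t htI).2⟩

/-- for `κ = 1/3` everything is straight -/
theorem straight_of (h3 : ¬ 3 * D.κ < 1) : ∀ t ∈ Ioo a b, D.f (p t) = D.κ := by
  intro t ht
  have htI := Ioo_subset_Icc_self ht
  have h1 := X.hT.f_ge (X.mem htI)
  have h2 := X.hT.f_le (X.mem htI)
  have h4 := X.hT.κ_le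
  linarith

end ExT

end Pool.MP8e
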