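import Pool.Agent.Work.MP_8e9dbb.B.Dev

/-!
# Extension of arcs to the closed interval (helper30)
-/

open MeasureTheory Filter Topology Metric Set
open scoped ContDiff

namespace Pool.MP8e

theorem EqAt.congr {D : QD} {p θ v w p' θ' v' w' : ℝ → ℝ} {t : ℝ} (h : EqAt D p θ v w t)
    (e1 : p' =ᶠ[𝓝 t] p) (e2 : θ' =ᶠ[𝓝 t] θ) (e3 : v' =ᶠ[𝓝 t] v) (e4 : w' =ᶠ[𝓝 t] w) :
    EqAt D p' θ' v' w' t := by
  have a1 := e1.eq_of_nhds
  have a3 := e3.eq_of_nhds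
  have a4 := e4.eq_of_nhds
  refine ⟨by rw [a3, a4]; exact h.unit, ?_, ?_, ?_, ?_⟩
  · rw [a1, a3]; exact h.dp.congr_of_eventuallyEq e1
  · rw [a1, a4]; exact h.dθ.congr_of_eventuallyEq e2
  · rw [a1, a4]; exact h.dv.congr_of_eventuallyEq e3
  · rw [a1, a3, a4]; exact h.dw.congr_of_eventuallyEq e4

/-- extension of an arc to the closed interval by its limits -/
theorem arc_extend {D : QD} {a b : ℝ} (hab : a < b) {p θ v w : ℝ → ℝ}
    (h : ∀ t ∈ Ioo a b, EqAt D p θ v w t) (hpos : ∀ t ∈ Ioo a b, 0 < p t ∧ p t ≤ D.ℓ)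
    {pa θa va wa pb θb vb wb : ℝ} (hpa : Tendsto p (𝓝[>] a) (𝓝 pa))
    (hθa : Tendsto θ (𝓝[>] a) (𝓝 θa)) (hva : Tendsto v (𝓝[>] a) (𝓝 va))
    (hwa : Tendsto w (𝓝[>] a) (𝓝 wa)) (hpb : Tendsto p (𝓝[<] b) (𝓝 pb))
    (hθb : Tendsto θ (𝓝[<] b) (𝓝 θb)) (hvb : Tendsto v (𝓝[<] b) (𝓝 vb))
    (hwb : Tendsto w (𝓝[<] b) (𝓝 wb)) (ha : 0 < pa ∧ pa ≤ D.ℓ) (hb : 0 < pb ∧ pb ≤ D.ℓ) :
    ∃ P Θ V W : ℝ → ℝ, Arc D a b P Θ V W ∧ (∀ t ∈ Ioo a b, P t = p t ∧ Θ t = θ t ∧ V t = v t ∧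
      W t = w t) ∧ P a = pa ∧ Θ a = θa ∧ V a = va ∧ W a = wa ∧ P b = pb ∧ Θ b = θb ∧ V b = vb ∧
      W b = wb := by
  have cp : ContinuousOn p (Ioo a b) := fun t ht => (h t ht).dp.continuousAt.continuousWithinAt
  have cθ : ContinuousOn θ (Ioo a b) := fun t ht => (h t ht).dθ.continuousAt.continuousWithinAt
  have cv : ContinuousOn v (Ioo a b) := fun t ht => (h t ht).dv.continuousAt.continuousWithinAt
  have cw : ContinuousOn w (Ioo a b) := fun t ht => (h t ht).dw.continuousAt.continuousWithinAt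
  have ep : ∀ t ∈ Ioo a b, extendFrom (Ioo a b) p t = p t := extendFrom_extends cp
  have eθ : ∀ t ∈ Ioo a b, extendFrom (Ioo a b) θ t = θ t := extendFrom_extends cθ
  have ev : ∀ t ∈ Ioo a b, extendFrom (Ioo a b) v t = v t := extendFrom_extends cv
  have ew : ∀ t ∈ Ioo a b, extendFrom (Ioo a b) w t = w t := extendFrom_extends cw
  have epa := eq_lim_at_left_extendFrom_Ioo hab hpa
  have eθa := eq_lim_at_left_extendFrom_Ioo hab hθa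
  have eva := eq_lim_at_left_extendFrom_Ioo hab hva
  have ewa := eq_lim_at_left_extendFrom_Ioo hab hwa
  have epb := eq_lim_at_right_extendFrom_Ioo hab hpb
  have eθb := eq_lim_at_right_extendFrom_Ioo hab hθb
  have evb := eq_lim_at_right_extendFrom_Ioo hab hvb
  have ewb := eq_lim_at_right_extendFrom_Ioo hab hwb
  have hnh : ∀ t ∈ Ioo a b, Ioo a b ∈ 𝓝 t := fun t ht => isOpen_Ioo.mem_nhds ht
  have hEq : ∀ t ∈ Ioo a b, EqAt D (extendFrom (Ioo a b) p) (extendFrom (Ioo a b) θ)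
      (extendFrom (Ioo a b) v) (extendFrom (Ioo a b) w) t := fun t ht =>
    (h t ht).congr (eventually_of_mem (hnh t ht) ep) (eventually_of_mem (hnh t ht) eθ)
      (eventually_of_mem (hnh t ht) ev) (eventually_of_mem (hnh t ht) ew)
  have ua : va ^ 2 + wa ^ 2 = 1 := by
    have h1 : Tendsto (fun t => v t ^ 2 + w t ^ 2) (𝓝[>] a) (𝓝 (va ^ 2 + wa ^ 2)) :=
      (hva.pow 2).add (hwa.pow 2)
    have h2 : Tendsto (fun t => v t ^ 2 + w t ^ 2) (𝓝[>] a) (𝓝 1) := by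
      refine tendsto_const_nhds.congr' ?_
      filter_upwards [Ioo_mem_nhdsGT hab] with t ht
      exact (h t ht).unit.symm
    exact tendsto_nhds_unique h1 h2
  have ub : vb ^ 2 + wb ^ 2 = 1 := by
    have h1 : Tendsto (fun t => v t ^ 2 + w t ^ 2) (𝓝[<] b) (𝓝 (vb ^ 2 + wb ^ 2)) :=
      (hvb.pow 2).add (hwb.pow 2)
    have h2 : Tendsto (fun t => v t ^ 2 + w t ^ 2) (𝓝[<] b) (𝓝 1) := by
      refine tendsto_const_nhds.congr' ?_
      filter_upwards [Ioo_mem_nhdsLT hab] with t ht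
      exact (h t ht).unit.symm
    exact tendsto_nhds_unique h1 h2
  refine ⟨_, _, _, _, ⟨hab, continuousOn_Icc_extendFrom_Ioo cp hpa hpb,
    continuousOn_Icc_extendFrom_Ioo cθ hθa hθb, continuousOn_Icc_extendFrom_Ioo cv hva hvb,
    continuousOn_Icc_extendFrom_Ioo cw hwa hwb, ?_, ?_, fun t ht => (hEq t ht).dp,
    fun t ht => (hEq t ht).dθ, fun t ht => (hEq t ht).dv, fun t ht => (hEq t ht).dw⟩,
    fun t ht => ⟨ep t ht, eθ t ht, ev t ht, ew t ht⟩, epa, eθa, eva, ewa, epb, eθb, evb, ewb⟩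
  · intro t ht
    rcases eq_endpoints_or_mem_Ioo_of_mem_Icc ht with rfl | rfl | h'
    · rw [epa]; exact ha
    · rw [epb]; exact hb
    · rw [ep t h']; exact hpos t h'
  · intro t ht
    rcases eq_endpoints_or_mem_Ioo_of_mem_Icc ht with rfl | rfl | h'
    · rw [eva, ewa]; exact ua
    · rw [evb, ewb]; exact ub
    · rw [ev t h', ew t h']; exact (h t h').unit

/-- extension of a lift to the closed interval -/
theorem lift_extend {D : QD} {X : Type} [MetricSpace X] {Pr : ℝ × ℝ → X} {c : ℝ → X} {a b : ℝ}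
    (hab : a < b) {p θ v w : ℝ → ℝ}
    (h : ∀ t ∈ Ioo a b, D.InS (p t, θ t) ∧ Pr (p t, θ t) = c t ∧ EqAt D p θ v w t)
    {pa θa va wa pb θb vb wb : ℝ} (hpa : Tendsto p (𝓝[>] a) (𝓝 pa))
    (hθa : Tendsto θ (𝓝[>] a) (𝓝 θa)) (hva : Tendsto v (𝓝[>] a) (𝓝 va))
    (hwa : Tendsto w (𝓝[>] a) (𝓝 wa)) (hpb : Tendsto p (𝓝[<] b) (𝓝 pb))
    (hθb : Tendsto θ (𝓝[<] b) (𝓝 θb)) (hvb : Tendsto v (𝓝[<] b) (𝓝 vb))
    (hwb : Tendsto w (𝓝[<] b) (𝓝 wb)) (ha : 0 < pa ∧ pa ≤ D.ℓ) (hb : 0 < pb ∧ pb ≤ D.ℓ)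
    (ca : Pr (pa, θa) = c a) (cb : Pr (pb, θb) = c b) :
    ∃ P Θ V W : ℝ → ℝ, Lift D Pr c a b P Θ V W ∧ (∀ t ∈ Ioo a b, P t = p t ∧ Θ t = θ t ∧
      V t = v t ∧ W t = w t) ∧ P a = pa ∧ Θ a = θa ∧ V a = va ∧ W a = wa ∧ P b = pb ∧ Θ b = θb ∧
      V b = vb ∧ W b = wb := by
  obtain ⟨P, Θ, V, W, hA, he, e1, e2, e3, e4, e5, e6, e7, e8⟩ := arc_extend hab
    (fun t ht => (h t ht).2.2) (fun t ht => ⟨(h t ht).1.1, (h t ht).1.2.le.trans
      (D.βh_memB _).2⟩) hpa hθa hva hwa hpb hθb hvb hwb ha hb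
  refine ⟨P, Θ, V, W, ⟨hA, ?_, ?_⟩, he, e1, e2, e3, e4, e5, e6, e7, e8⟩
  · intro t ht
    obtain ⟨h1, h2, _⟩ := he t ht
    rw [h1, h2]
    exact (h t ht).1.2
  · intro t ht
    rcases eq_endpoints_or_mem_Ioo_of_mem_Icc ht with rfl | rfl | h'
    · rw [e1, e2]; exact ca
    · rw [e5, e6]; exact cb
    · obtain ⟨h1, h2, _⟩ := he t h'
      rw [h1, h2]
      exact (h t h').2.1

/-- mirror image of a solution -/
theorem EqAt.mirror {D : QD} {p θ v w : ℝ → ℝ} {t : ℝ} (h : EqAt D p θ v w t) (y : ℝ) :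
    EqAt D p (fun u => -θ u + y) v (fun u => -w u) t := by
  refine ⟨by rw [neg_sq]; exact h.unit, h.dp, ?_, ?_, ?_⟩
  · exact (h.dθ.neg.add_const y).congr_deriv (by ring)
  · exact h.dv.congr_deriv (by ring)
  · exact h.dw.neg.congr_deriv (by ring)

theorem EqAt.shift {D : QD} {p θ v w : ℝ → ℝ} {t : ℝ} (h : EqAt D p θ v w t) (y : ℝ) :
    EqAt D p (fun u => θ u + y) v w t :=
  ⟨h.unit, h.dp, h.dθ.add_const y, h.dv, h.dw⟩

end Pool.MP8e
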