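import Pool.Agent.Work.MP_8e9dbb.B.ExcT
import Pool.Agent.Work.MP_8e9dbb.IfaceT

/-!
# MP_8e9dbb_gt, phase F: the lower bound (helper19)
-/

open MeasureTheory Filter Topology Metric Set
open scoped ContDiff

namespace Pool.MP8e

theorem flow_free {D : QD} (hF : DataF D) {L : ℝ} (hL : 0 < L) (h : FreeData D L) :
    2 * Real.pi ≤ L := by
  obtain ⟨p, θ, v, w, h1, h2, m, h3⟩ := h
  have hpl : ∀ t, p t ∈ Ioc 0 D.ℓ := fun t =>
    ⟨(h1 t).1.1, (h1 t).1.2.le.trans (D.βh_mem _).2⟩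
  have hR : ∀ t, 0 < D.R (p t) := fun t => D.posR _ (hpl t)
  have hA : ∀ t, 0 < D.A (p t) := fun t => D.posA _ ⟨(hpl t).1.le, (hpl t).2⟩
  have hf : ∀ t, 0 ≤ D.f (p t) := fun t => hF.f_nonneg _ (hpl t)
  have hm : Monotone v := by
    refine monotone_of_deriv_nonneg (fun t => (h1 t).2.dv.differentiableAt) (fun t => ?_)
    rw [(h1 t).2.dv.deriv]
    have := hR t
    have := hf t
    positivity
  have hv : ∀ t ∈ Icc 0 L, v t = v 0 := by
    intro t ht
    have e1 := hm ht.1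
    have e2 := hm ht.2
    have e3 := (h2 0).2.1
    rw [zero_add] at e3
    linarith
  have hfw : ∀ t ∈ Ioo 0 L, D.f (p t) * w t ^ 2 = 0 := by
    intro t ht
    have hd := (h1 t).2.dv
    have hc : HasDerivAt v 0 t := by
      refine (hasDerivAt_const t (v 0)).congr_of_eventuallyEq ?_
      filter_upwards [Ioo_mem_nhds ht.1 ht.2] with x hx
      exact hv x (Ioo_subset_Icc_self hx)
    have he := hd.unique hc
    rw [div_eq_zero_iff] at he
    rcases he with he | he
    · exact he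
    · exact absurd he (hR t).ne'
  have hcp : ContinuousOn p (Icc 0 L) := fun t _ => (h1 t).2.dp.continuousAt.continuousWithinAt
  obtain ⟨t, ht, hte⟩ := exists_hasDerivAt_eq_slope p (fun t => v t / D.A (p t)) hL hcp
    (fun t _ => (h1 t).2.dp)
  have e3 := (h2 0).1
  rw [zero_add] at e3
  rw [e3, sub_self, zero_div, div_eq_zero_iff] at hte
  have hv0 : v 0 = 0 := by
    rcases hte with h' | h'
    · rw [← hv t (Ioo_subset_Icc_self ht)]; exact h'
    · exact absurd h' (hA t).ne'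
  have hw2 : ∀ t ∈ Icc 0 L, w t ^ 2 = 1 := by
    intro t ht
    have hu := (h1 t).2.unit
    rw [hv t ht, hv0] at hu
    linarith
  have hf0 : ∀ t ∈ Ioo 0 L, D.f (p t) = 0 := by
    intro t ht
    have := hfw t ht
    rwa [hw2 t (Ioo_subset_Icc_self ht), mul_one] at this
  have hR1 : ∀ t ∈ Ioo 0 L, D.R (p t) = 1 := fun t ht => hF.f_zero _ (hpl t) (hf0 t ht)
  have hcw : ContinuousOn w (Icc 0 L) := fun t _ => (h1 t).2.dw.continuousAt.continuousWithinAt
  have hw : ∀ t ∈ Icc 0 L, w t = w 0 := fun t ht =>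
    Arc.const_of hcw (fun t ht => ((h1 t).2.dw).congr_deriv (by rw [hf0 t ht]; simp)) ht
      ⟨le_rfl, hL.le⟩
  have hcθ : ContinuousOn (fun t => θ t - w 0 * t) (Icc 0 L) := fun t _ =>
    ((h1 t).2.dθ.continuousAt.sub (by fun_prop)).continuousWithinAt
  have hθ := Arc.const_of hcθ (fun t ht => by
    refine ((h1 t).2.dθ.sub ((hasDerivAt_id' t).const_mul (w 0))).congr_deriv ?_
    rw [hR1 t ht, hw t (Ioo_subset_Icc_self ht)]; ring) (s := 0) (t := L)
    ⟨le_rfl, hL.le⟩ ⟨hL.le, le_rfl⟩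
  have h4 := h3 0
  rw [zero_add] at h4
  beta_reduce at hθ
  have h5 : w 0 * L = m * (2 * Real.pi) := by linarith
  have h6 : w 0 ^ 2 = 1 := hw2 0 ⟨le_rfl, hL.le⟩
  have h7 : L ^ 2 = m ^ 2 * (2 * Real.pi) ^ 2 := by
    calc L ^ 2 = (w 0 * L) ^ 2 := by rw [mul_pow, h6, one_mul]
      _ = _ := by rw [h5, mul_pow]
  have hm0 : m ≠ 0 := by
    rintro rfl
    simp at h7
    linarith
  have h8 : (1 : ℝ) ≤ (m : ℝ) ^ 2 := by
    have : (1 : ℤ) ≤ m ^ 2 := by
      have := sq_nonneg m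
      have h' : m ^ 2 ≠ 0 := pow_ne_zero 2 hm0
      omega
    exact_mod_cast this
  have hpi := Real.pi_pos
  apply abs_le_of_sq_le_sq' _ hL.le |>.2
  rw [h7]
  nlinarith [sq_nonneg (2 * Real.pi)]

theorem flow_w {D : QD} {a b : ℝ} {p θ v w : ℝ → ℝ} (h : Exc D a b p θ v w) :
    D.R (p a) * w a ≠ 0 := by
  intro hK
  have ma : a ∈ Icc a b := ⟨le_rfl, h.arc.lt.le⟩
  have mb : b ∈ Icc a b := ⟨h.arc.lt.le, le_rfl⟩
  have hw : ∀ t ∈ Icc a b, w t = 0 := by
    intro t ht
    have e := h.arc.K_eq ma ht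
    rw [hK] at e
    rcases mul_eq_zero.1 e.symm with h1 | h1
    · exact absurd h1 (h.arc.posR ht).ne'
    · exact h1
  have hθ : θ a = θ b := Arc.const_of h.arc.cθ (fun t ht => by
    have := h.arc.dθ t ht
    rw [hw t (Ioo_subset_Icc_self ht)] at this
    exact this.congr_deriv (by ring)) ma mb
  obtain ⟨t, ht, hte⟩ := exists_hasDerivAt_eq_slope p (fun t => v t / D.A (p t)) h.arc.lt
    h.arc.cp h.arc.dp
  rw [h.pa, h.pb, hθ, sub_self, zero_div, div_eq_zero_iff] at hte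
  have htI := Ioo_subset_Icc_self ht
  have hu := h.arc.unit t htI
  rw [hw t htI] at hu
  rcases hte with h' | h'
  · rw [h'] at hu; norm_num at hu
  · exact absurd h' (h.arc.posA htI).ne'

/-- **Phase F, lower bound.** -/
theorem flow_proof : Stmt_FLOW := by
  intro D hF L hG
  rcases hG.2 with h | ⟨n, τ, p, θ, v, w, H⟩
  · exact flow_free hF hG.1 h
  · obtain ⟨hn, hτ, hp, hE, hC, h6, -⟩ := H
    have hlen : ∀ i, Real.pi ≤ τ (i + 1) - τ i := by
      intro i
      have hI : τ i ∈ Icc (τ i) (τ (i + 1)) := ⟨le_rfl, (hE i).arc.lt.le⟩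
      refine hF.exc _ _ _ _ _ _ (hE i) (fun t ht h0 => ?_)
      have := (hE i).arc.K_eq hI ht
      rw [h0, mul_zero] at this
      exact flow_w (hE i) this
    have hcon : ∀ i, w (i + 1) (τ (i + 1)) = -w i (τ (i + 1)) := by
      intro i
      rcases hC i with h | ⟨h, -⟩
      · obtain ⟨c₀, m, -, -, -, h4⟩ := h
        rw [hF.κ_zero] at h4
        have := congrArg Complex.im h4
        simpa using this
      · rw [hF.κ_zero] at h; exact absurd h (lt_irrefl 0)
    have hn2 : 2 ≤ n := by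
      by_contra hcn
      have hn1 : n = 1 := by omega
      subst hn1
      have hI0 : τ 0 ∈ Icc (τ 0) (τ (0 + 1)) := ⟨le_rfl, (hE 0).arc.lt.le⟩
      have hI1 : τ (0 + 1) ∈ Icc (τ 0) (τ (0 + 1)) := ⟨(hE 0).arc.lt.le, le_rfl⟩
      have e1 := (h6 0 (τ 0) hI0).2.2
      rw [← hp 0] at e1
      have e2 := hcon 0
      rw [e1] at e2
      have e3 := (hE 0).arc.K_eq hI0 hI1
      have e4 := flow_w (hE 0)
      have R0 := (hE 0).arc.posR hI0
      have R1 := (hE 0).arc.posR hI1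
      rw [e2] at e3 e4
      have e5 : (D.R (p 0 (τ 0)) + D.R (p 0 (τ (0 + 1)))) * w 0 (τ (0 + 1)) = 0 := by
        linarith
      rcases mul_eq_zero.1 e5 with h' | h'
      · linarith
      · rw [h'] at e4; simp at e4
    have a0 := hlen 0
    have a1 := hlen 1
    have a2 : τ 2 ≤ τ n := hτ.monotone hn2
    have a3 := hp 0
    rw [zero_add] at a0 a3
    norm_num at a1
    linarith

end Pool.MP8e
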