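import Pool.Agent.Work.MP_8e9dbb.IfaceT

/-!
# MP_8e9dbb_gt, part B, class I: arcs in the flat part

Elementary facts on `fold`, feet, and on arcs (`Arc`): reflection, shiftI, restriction, Clairaut,
developed position `UU` in the flat part, straight lines.
-/

open MeasureTheory Filter Topology Metric Set
open scoped ContDiff

namespace Pool.MP8e

/-! ## fold -/

theorem fold_memI (θ : ℝ) : fold θ ∈ Icc 0 (Real.pi / 2) := by
  refine ⟨Real.arccos_nonneg _, ?_⟩
  unfold fold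
  rw [Real.arccos_le_pi_div_two]
  exact abs_nonneg _

theorem fold_add_intI (θ : ℝ) (j : ℤ) : fold (θ + j * Real.pi) = fold θ := by
  unfold fold
  rw [Real.cos_add_int_mul_pi, abs_mul, abs_neg_one_zpow, one_mul]

theorem fold_negI (θ : ℝ) : fold (-θ) = fold θ := by
  unfold fold; rw [Real.cos_neg]

theorem fold_of_memI {θ : ℝ} (h : θ ∈ Icc 0 (Real.pi / 2)) : fold θ = θ := by
  unfold fold
  rw [abs_of_nonneg (Real.cos_nonneg_of_mem_Icc ⟨by linarith [h.1, Real.pi_pos], h.2⟩)]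
  exact Real.arccos_cos h.1 (by linarith [h.2, Real.pi_pos])

theorem fold_le_absI (y : ℝ) : fold y ≤ |y| := by
  rcases le_or_gt |y| (Real.pi / 2) with h | h
  · have : fold y = fold |y| := by
      unfold fold; rw [Real.cos_abs]
    rw [this, fold_of_memI ⟨abs_nonneg _, h⟩]
  · exact (fold_memI y).2.trans h.le

theorem fold_leI (θ : ℝ) (j : ℤ) : fold θ ≤ |θ - j * Real.pi| := by
  have h := fold_le_absI (θ - j * Real.pi)
  have h2 : fold (θ - j * Real.pi) = fold θ := by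
    have := fold_add_intI (θ - j * Real.pi) j
    rw [← this]; congr 1; ring
  rwa [h2] at h

theorem exists_foldI (θ : ℝ) : ∃ j : ℤ, θ = fold θ + j * Real.pi ∨ θ = -fold θ + j * Real.pi := by
  have hpi := Real.pi_pos
  refine ⟨round (θ / Real.pi), ?_⟩
  set j := round (θ / Real.pi)
  have h := abs_sub_round (θ / Real.pi)
  have h2 : |θ - j * Real.pi| ≤ Real.pi / 2 := by
    have : θ - j * Real.pi = (θ / Real.pi - j) * Real.pi := by field_simp
    rw [this, abs_mul, abs_of_pos hpi]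
    calc |θ / Real.pi - j| * Real.pi ≤ 1 / 2 * Real.pi :=
          mul_le_mul_of_nonneg_right h hpi.le
      _ = Real.pi / 2 := by ring
  have h3 : fold θ = |θ - j * Real.pi| := by
    have h4 : fold (θ - j * Real.pi) = fold θ := by
      have := fold_add_intI (θ - j * Real.pi) j
      rw [← this]; congr 1; ring
    have h5 : fold (θ - j * Real.pi) = fold |θ - j * Real.pi| := by
      unfold fold; rw [Real.cos_abs]
    rw [← h4, h5, fold_of_memI ⟨abs_nonneg _, h2⟩]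
  rcases abs_choice (θ - j * Real.pi) with h4 | h4
  · left; rw [h3, h4]; ring
  · right; rw [h3, h4]; ring

theorem fold_sub_leI (θ θ' : ℝ) : fold θ - fold θ' ≤ |θ - θ'| := by
  obtain ⟨j, hj⟩ := exists_foldI θ'
  have h1 := fold_leI θ j
  have h2 : |θ' - j * Real.pi| = fold θ' := by
    rcases hj with hj | hj
    · have : θ' - j * Real.pi = fold θ' := by linarith
      rw [this, abs_of_nonneg (fold_memI θ').1]
    · have : θ' - j * Real.pi = -fold θ' := by linarith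
      rw [this, abs_neg, abs_of_nonneg (fold_memI θ').1]
  have h3 : |θ - j * Real.pi| ≤ |θ - θ'| + |θ' - j * Real.pi| := abs_sub_le _ _ _
  linarith

theorem fold_lipI (θ θ' : ℝ) : |fold θ - fold θ'| ≤ |θ - θ'| := by
  rw [abs_le]
  constructor
  · have := fold_sub_leI θ' θ
    rw [abs_sub_comm] at this
    linarith
  · exact fold_sub_leI θ θ'

namespace QD

variable (D : QD)

/-! ## feet -/

/-- `c` is the angle of the foot of one of the pieces of the floor -/
def IsF (c : ℝ) : Prop := ∃ j : ℤ, c = D.θf + j * Real.pi ∨ c = -D.θf + j * Real.pi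

theorem θf_memI : D.θf ∈ Icc 0 (Real.pi / 2) := by
  have hpi := Real.pi_pos
  rcases D.cls with ⟨_, _, h1, h2⟩ | ⟨_, _, h⟩
  · exact ⟨by linarith, h2.le⟩
  · rw [h]; exact ⟨by linarith, le_rfl⟩

theorem fold_footI {c : ℝ} (h : D.IsF c) : fold c = D.θf := by
  obtain ⟨j, h | h⟩ := h
  · rw [h, fold_add_intI, fold_of_memI D.θf_memI]
  · rw [h, fold_add_intI, fold_negI, fold_of_memI D.θf_memI]

theorem exists_nearI (θ : ℝ) : ∃ c, D.IsF c ∧ |θ - c| = |fold θ - D.θf| := by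
  obtain ⟨j, h | h⟩ := exists_foldI θ
  · refine ⟨D.θf + j * Real.pi, ⟨j, Or.inl rfl⟩, ?_⟩
    congr 1; linarith
  · refine ⟨-D.θf + j * Real.pi, ⟨j, Or.inr rfl⟩, ?_⟩
    rw [← abs_neg]; congr 1; linarith

theorem near_leI {c : ℝ} (h : D.IsF c) (θ : ℝ) : |fold θ - D.θf| ≤ |θ - c| := by
  rw [← D.fold_footI h]; exact fold_lipI θ c

theorem IsF_negI {c : ℝ} (h : D.IsF c) : D.IsF (-c) := by
  obtain ⟨j, h | h⟩ := h
  · exact ⟨-j, Or.inr (by rw [h]; push_cast; ring)⟩
  · exact ⟨-j, Or.inl (by rw [h]; push_cast; ring)⟩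

theorem IsFoot.isF {D : QD} {θ c : ℝ} (h : D.IsFoot θ c) : D.IsF c := by
  obtain ⟨j, ⟨h, _⟩ | ⟨h, _⟩ | ⟨h1, h2, _⟩⟩ := h
  · exact ⟨j, Or.inl h⟩
  · exact ⟨j, Or.inr h⟩
  · exact ⟨j, Or.inl (by rw [h2, h1])⟩

/-! ## the floor -/

theorem βh_gtI (θ : ℝ) : D.pf < D.βh θ := (D.β_mem _ (fold_memI θ)).1

theorem βh_leI (θ : ℝ) : D.βh θ ≤ D.ℓ := (D.β_mem _ (fold_memI θ)).2

theorem pf_lt_ℓI : D.pf < D.ℓ := (D.βh_gtI 0).trans_le (D.βh_leI 0)

theorem pf_posI : 0 < D.pf := D.e₀_pos.trans D.e₀_lt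

theorem floorhI (θ : ℝ) : D.R (D.βh θ) * Real.cos (D.κ * (fold θ - D.θf)) = D.ρf :=
  D.floor _ (fold_memI θ)

theorem βh_negI (θ : ℝ) : D.βh (-θ) = D.βh θ := by unfold βh; rw [fold_negI]

theorem βh_addI (θ : ℝ) (n : ℤ) : D.βh (θ + n * Real.pi) = D.βh θ := by
  unfold βh; rw [fold_add_intI]

theorem κ_geI : -1 ≤ D.κ := by
  rcases D.cls with h | h
  · exact h.2.1
  · linarith [h.1]

theorem hasDerivAt_RI (p : ℝ) : HasDerivAt D.R (deriv D.R p) p :=
  (D.smR.differentiable (by simp)).differentiableAt.hasDerivAt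

theorem contRI : Continuous D.R := D.smR.continuous

theorem contAI : Continuous D.A := D.smA.continuous

/-- `R` is strictly decreasing in the flat part (class I) -/
theorem R_antiI (hκ : D.κ < 0) : StrictAntiOn D.R (Icc D.pf D.ℓ) := by
  apply strictAntiOn_of_deriv_neg (convex_Icc _ _) D.contRI.continuousOn
  intro x hx
  rw [interior_Icc] at hx
  rw [D.flat x ⟨hx.1.le, hx.2.le⟩]
  exact mul_neg_of_neg_of_pos hκ (D.posA x ⟨by linarith [hx.1, D.pf_posI], hx.2.le⟩)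

/-- data of class I -/
theorem classII (hκ : D.κ < 0) : Real.pi / 4 ≤ D.θf ∧ D.θf < Real.pi / 2 := by
  rcases D.cls with h | h
  · exact ⟨h.2.2.1, h.2.2.2⟩
  · linarith [h.1]

theorem near_ltI (hκ : D.κ < 0) (θ : ℝ) : |D.κ * (fold θ - D.θf)| < Real.pi / 2 := by
  have h := D.classII hκ
  have h1 := fold_memI θ
  have hpi := Real.pi_pos
  rw [abs_mul]
  have h2 : |D.κ| ≤ 1 := by rw [abs_of_neg hκ]; linarith [D.κ_geI]
  have h3 : |fold θ - D.θf| < Real.pi / 2 := by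
    rw [abs_lt]; constructor <;> linarith [h.1, h.2, h1.1, h1.2]
  calc |D.κ| * |fold θ - D.θf| ≤ 1 * |fold θ - D.θf| :=
        mul_le_mul_of_nonneg_right h2 (abs_nonneg _)
    _ < Real.pi / 2 := by rw [one_mul]; exact h3

/-- comparison of the cosines for the nearest foot and for another foot -/
theorem cos_leI (_hκ : D.κ < 0) {c : ℝ} (hc : D.IsF c) {θ : ℝ}
    (h : |D.κ * (θ - c)| ≤ Real.pi) :
    Real.cos (D.κ * (θ - c)) ≤ Real.cos (D.κ * (fold θ - D.θf)) := by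
  rw [← Real.cos_abs (D.κ * (θ - c)), ← Real.cos_abs (D.κ * (fold θ - D.θf))]
  apply Real.cos_le_cos_of_nonneg_of_le_pi (abs_nonneg _) h
  rw [abs_mul, abs_mul]
  exact mul_le_mul_of_nonneg_left (D.near_leI hc θ) (abs_nonneg _)

end QD

/-! ## constants -/

theorem const_of_deriv0I {f : ℝ → ℝ} {a b : ℝ} (hc : ContinuousOn f (Icc a b))
    (hd : ∀ t ∈ Ioo a b, HasDerivAt f 0 t) : ∀ t ∈ Icc a b, f t = f a := by
  intro t ht
  rcases eq_or_lt_of_le ht.1 with h | h
  · rw [h]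
  · obtain ⟨x, _, hx⟩ := exists_hasDerivAt_eq_slope f (fun _ => 0) h
      (hc.mono (Icc_subset_Icc_right ht.2)) (fun x hx => hd x ⟨hx.1, hx.2.trans_le ht.2⟩)
    have h2 : t - a ≠ 0 := by linarith
    have h3 := (eq_div_iff h2).1 hx
    linarith

theorem const_of_deriv0_complexI {f : ℝ → ℂ} {a b : ℝ} (hc : ContinuousOn f (Icc a b))
    (hd : ∀ t ∈ Ioo a b, HasDerivAt f 0 t) : ∀ t ∈ Icc a b, f t = f a := by
  intro t ht
  apply Complex.ext
  · refine const_of_deriv0I (f := fun t => (f t).re) (Complex.continuous_re.comp_continuousOn hc)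
      (fun x hx => ?_) t ht
    exact (Complex.reCLM.hasFDerivAt.comp_hasDerivAt x (hd x hx)).congr_deriv (by simp)
  · refine const_of_deriv0I (f := fun t => (f t).im) (Complex.continuous_im.comp_continuousOn hc)
      (fun x hx => ?_) t ht
    exact (Complex.imCLM.hasFDerivAt.comp_hasDerivAt x (hd x hx)).congr_deriv (by simp)

/-! ## arcs: elementary transformations -/

namespace Arc

variable {D : QD} {a b : ℝ} {p θ v w : ℝ → ℝ}

theorem restrictI (h : Arc D a b p θ v w) {s₁ s₂ : ℝ} (h₁ : a ≤ s₁) (h₂ : s₁ < s₂) (h₃ : s₂ ≤ b) :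
    Arc D s₁ s₂ p θ v w where
  lt := h₂
  cp := h.cp.mono (Icc_subset_Icc h₁ h₃)
  cθ := h.cθ.mono (Icc_subset_Icc h₁ h₃)
  cv := h.cv.mono (Icc_subset_Icc h₁ h₃)
  cw := h.cw.mono (Icc_subset_Icc h₁ h₃)
  pos := fun t ht => h.pos t (Icc_subset_Icc h₁ h₃ ht)
  unit := fun t ht => h.unit t (Icc_subset_Icc h₁ h₃ ht)
  dp := fun t ht => h.dp t (Ioo_subset_Ioo h₁ h₃ ht)
  dθ := fun t ht => h.dθ t (Ioo_subset_Ioo h₁ h₃ ht)
  dv := fun t ht => h.dv t (Ioo_subset_Ioo h₁ h₃ ht)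
  dw := fun t ht => h.dw t (Ioo_subset_Ioo h₁ h₃ ht)

/-- reflection `θ ↦ -θ` -/
theorem reflI (h : Arc D a b p θ v w) :
    Arc D a b p (fun t => -θ t) v (fun t => -w t) where
  lt := h.lt
  cp := h.cp
  cθ := h.cθ.neg
  cv := h.cv
  cw := h.cw.neg
  pos := h.pos
  unit := fun t ht => by rw [neg_sq]; exact h.unit t ht
  dp := h.dp
  dθ := fun t ht => by
    have := (h.dθ t ht).fun_neg
    rwa [← neg_div] at this
  dv := fun t ht => by rw [neg_sq]; exact h.dv t ht
  dw := fun t ht => by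
    exact (h.dw t ht).fun_neg.congr_deriv (by rw [mul_neg, neg_div])

/-- the slope times `A` is the derivative of `R` -/
theorem deriv_eqI (h : Arc D a b p θ v w) {t : ℝ} (ht : t ∈ Icc a b) :
    deriv D.R (p t) = D.f (p t) * D.A (p t) := by
  unfold QD.f
  have := D.posA (p t) ⟨(h.pos t ht).1.le, (h.pos t ht).2⟩
  rw [div_mul_cancel₀ _ this.ne']

theorem AposI (h : Arc D a b p θ v w) {t : ℝ} (ht : t ∈ Icc a b) : 0 < D.A (p t) :=
  D.posA (p t) ⟨(h.pos t ht).1.le, (h.pos t ht).2⟩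

theorem RposI (h : Arc D a b p θ v w) {t : ℝ} (ht : t ∈ Icc a b) : 0 < D.R (p t) :=
  D.posR (p t) ⟨(h.pos t ht).1, (h.pos t ht).2⟩

theorem hasDerivAt_RI (h : Arc D a b p θ v w) {t : ℝ} (ht : t ∈ Ioo a b) :
    HasDerivAt (fun t => D.R (p t)) (D.f (p t) * v t) t := by
  have h1 := (D.hasDerivAt_RI (p t)).comp t (h.dp t ht)
  have h2 := h.AposI (Ioo_subset_Icc_self ht)
  rw [h.deriv_eqI (Ioo_subset_Icc_self ht)] at h1
  refine h1.congr_deriv ?_
  field_simp

theorem contRpI (h : Arc D a b p θ v w) : ContinuousOn (fun t => D.R (p t)) (Icc a b) :=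
  D.contRI.comp_continuousOn h.cp

/-- Clairaut -/
theorem clairautI (h : Arc D a b p θ v w) {t : ℝ} (ht : t ∈ Icc a b) :
    D.R (p t) * w t = D.R (p a) * w a := by
  refine const_of_deriv0I (f := fun t => D.R (p t) * w t) (h.contRpI.mul h.cw) ?_ t ht
  intro x hx
  have hd := (h.hasDerivAt_RI hx).fun_mul (h.dw x hx)
  have h0 : D.f (p x) * v x * w x + D.R (p x) * -(D.f (p x) * v x * w x / D.R (p x)) = 0 := by
    have := h.RposI (Ioo_subset_Icc_self hx)
    field_simp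
    ring
  rw [h0] at hd
  exact hd

/-! ### the developed flat part -/

end Arc

/-- developed position (virtual apex at `0`), reference angle `c` -/
noncomputable def QD.UU (D : QD) (c p θ : ℝ) : ℂ :=
  (D.R p : ℂ) * Complex.exp ((D.κ * (θ - c) : ℝ) * Complex.I)

/-- developed velocity -/
noncomputable def QD.qq (D : QD) (c θ v w : ℝ) : ℂ :=
  Complex.exp ((D.κ * (θ - c) : ℝ) * Complex.I) * ((v : ℂ) + w * Complex.I)

theorem QD.UU_reI (D : QD) (c p θ : ℝ) : (D.UU c p θ).re = D.R p * Real.cos (D.κ * (θ - c)) := by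
  unfold QD.UU
  rw [Complex.re_ofReal_mul, Complex.exp_ofReal_mul_I_re]

theorem QD.UU_imI (D : QD) (c p θ : ℝ) : (D.UU c p θ).im = D.R p * Real.sin (D.κ * (θ - c)) := by
  unfold QD.UU
  rw [Complex.im_ofReal_mul, Complex.exp_ofReal_mul_I_im]

theorem QD.qq_reI (D : QD) (c θ v w : ℝ) :
    (D.qq c θ v w).re = Real.cos (D.κ * (θ - c)) * v - Real.sin (D.κ * (θ - c)) * w := by
  unfold QD.qq
  rw [Complex.mul_re, Complex.exp_ofReal_mul_I_re, Complex.exp_ofReal_mul_I_im]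
  simp

theorem QD.qq_imI (D : QD) (c θ v w : ℝ) :
    (D.qq c θ v w).im = Real.cos (D.κ * (θ - c)) * w + Real.sin (D.κ * (θ - c)) * v := by
  unfold QD.qq
  rw [Complex.mul_im, Complex.exp_ofReal_mul_I_re, Complex.exp_ofReal_mul_I_im]
  simp

/-- `w` from the developed velocity -/
theorem QD.w_eqI (D : QD) (c θ v w : ℝ) :
    w = Real.cos (D.κ * (θ - c)) * (D.qq c θ v w).im -
      Real.sin (D.κ * (θ - c)) * (D.qq c θ v w).re := by
  rw [QD.qq_reI, QD.qq_imI]
  have := Real.sin_sq_add_cos_sq (D.κ * (θ - c))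
  linear_combination (-w) * this

/-- `v` from the developed velocity -/
theorem QD.v_eqI (D : QD) (c θ v w : ℝ) :
    v = Real.cos (D.κ * (θ - c)) * (D.qq c θ v w).re +
      Real.sin (D.κ * (θ - c)) * (D.qq c θ v w).im := by
  rw [QD.qq_reI, QD.qq_imI]
  have := Real.sin_sq_add_cos_sq (D.κ * (θ - c))
  linear_combination (-v) * this

theorem QD.qq_normI (D : QD) (c θ v w : ℝ) :
    (D.qq c θ v w).re ^ 2 + (D.qq c θ v w).im ^ 2 = v ^ 2 + w ^ 2 := by
  rw [QD.qq_reI, QD.qq_imI]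
  have := Real.sin_sq_add_cos_sq (D.κ * (θ - c))
  linear_combination (v ^ 2 + w ^ 2) * this

theorem QD.qq_refl_reI (D : QD) (c θ v w : ℝ) :
    (D.qq (-c) (-θ) v (-w)).re = (D.qq c θ v w).re := by
  rw [QD.qq_reI, QD.qq_reI]
  have : D.κ * (-θ - -c) = -(D.κ * (θ - c)) := by ring
  rw [this, Real.cos_neg, Real.sin_neg]
  ring

theorem QD.qq_refl_imI (D : QD) (c θ v w : ℝ) :
    (D.qq (-c) (-θ) v (-w)).im = -(D.qq c θ v w).im := by
  rw [QD.qq_imI, QD.qq_imI]
  have : D.κ * (-θ - -c) = -(D.κ * (θ - c)) := by ring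
  rw [this, Real.cos_neg, Real.sin_neg]
  ring

theorem QD.IsFoot_negI {D : QD} {θ c : ℝ} (h : D.IsFoot θ c) : D.IsFoot (-θ) (-c) := by
  obtain ⟨j, ⟨h1, h2, h3⟩ | ⟨h1, h2, h3⟩ | ⟨h1, h2, h3⟩⟩ := h
  · refine ⟨-j, Or.inr (Or.inl ⟨?_, ?_, ?_⟩)⟩
    · rw [h1]; push_cast; ring
    · push_cast; linarith
    · push_cast; linarith
  · refine ⟨-j, Or.inl ⟨?_, ?_, ?_⟩⟩
    · rw [h1]; push_cast; ring
    · push_cast; linarith
    · push_cast; linarith
  · refine ⟨-j - 1, Or.inr (Or.inr ⟨h1, ?_, ?_⟩)⟩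
    · rw [h2]; push_cast; ring
    · rw [h3]

/-- for `θ` close to `θ₀` the foot of `θ₀` is the nearest one (class I) -/
theorem QD.IsFoot_nearI {D : QD} (hκ : D.κ < 0) {θ₀ c : ℝ} (h : D.IsFoot θ₀ c) :
    ∀ᶠ θ in 𝓝 θ₀, |θ - c| = |fold θ - D.θf| := by
  have hcl := D.classII hκ
  obtain ⟨j, ⟨h1, h2, h3⟩ | ⟨h1, h2, h3⟩ | ⟨h1, h2, h3⟩⟩ := h
  · filter_upwards [Ioo_mem_nhds h2 h3] with θ hθ
    have : fold θ = θ - j * Real.pi := by
      have h4 := fold_add_intI (θ - j * Real.pi) j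
      rw [sub_add_cancel] at h4
      rw [h4]
      exact fold_of_memI ⟨by linarith [hθ.1], by linarith [hθ.2]⟩
    rw [this, h1]; congr 1; ring
  · filter_upwards [Ioo_mem_nhds h2 h3] with θ hθ
    have : fold θ = j * Real.pi - θ := by
      have h4 := fold_add_intI (θ - j * Real.pi) j
      rw [sub_add_cancel] at h4
      rw [h4, ← fold_negI]
      rw [fold_of_memI ⟨by linarith [hθ.2], by linarith [hθ.1]⟩]
      ring
    rw [this, h1, ← abs_neg]; congr 1; ring
  · linarith [hcl.2]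

namespace Arc

variable {D : QD} {a b : ℝ} {p θ v w : ℝ → ℝ}

theorem hasDerivAt_expI (h : Arc D a b p θ v w) (c : ℝ) {t : ℝ} (ht : t ∈ Ioo a b) :
    HasDerivAt (fun t => Complex.exp ((D.κ * (θ t - c) : ℝ) * Complex.I))
      (Complex.exp ((D.κ * (θ t - c) : ℝ) * Complex.I) *
        (((D.κ * (w t / D.R (p t)) : ℝ) : ℂ) * Complex.I)) t := by
  have h1 : HasDerivAt (fun t => D.κ * (θ t - c)) (D.κ * (w t / D.R (p t))) t :=
    ((h.dθ t ht).sub_const c).const_mul D.κ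
  exact (h1.ofReal_comp.mul_const Complex.I).cexp

theorem cont_expI (h : Arc D a b p θ v w) (c : ℝ) :
    ContinuousOn (fun t => Complex.exp ((D.κ * (θ t - c) : ℝ) * Complex.I)) (Icc a b) := by
  have h1 : ContinuousOn (fun t => D.κ * (θ t - c)) (Icc a b) :=
    (h.cθ.sub continuousOn_const).const_mul D.κ |>.congr (fun _ _ => rfl)
  exact Complex.continuous_exp.comp_continuousOn
    ((Complex.continuous_ofReal.comp_continuousOn h1).mul continuousOn_const)

theorem f_eqI (h : Arc D a b p θ v w) {t : ℝ} (ht : t ∈ Icc a b) (hp : D.pf ≤ p t) :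
    D.f (p t) = D.κ := by
  unfold QD.f
  rw [D.flat (p t) ⟨hp, (h.pos t ht).2⟩]
  have := h.AposI ht
  rw [mul_div_cancel_right₀ _ this.ne']

theorem flat_qI (h : Arc D a b p θ v w) (hf : ∀ t ∈ Icc a b, D.pf ≤ p t) (c : ℝ) {t : ℝ}
    (ht : t ∈ Icc a b) :
    D.qq c (θ t) (v t) (w t) = D.qq c (θ a) (v a) (w a) := by
  refine const_of_deriv0_complexI (f := fun t => D.qq c (θ t) (v t) (w t)) ?_ ?_ t ht
  · unfold QD.qq
    refine (h.cont_expI c).mul ?_
    exact (Complex.continuous_ofReal.comp_continuousOn h.cv).add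
      ((Complex.continuous_ofReal.comp_continuousOn h.cw).mul continuousOn_const)
  · intro x hx
    have hx' := Ioo_subset_Icc_self hx
    have h1 := h.hasDerivAt_expI c hx
    have h2 : HasDerivAt (fun t => (v t : ℂ) + w t * Complex.I)
        (((D.f (p x) * w x ^ 2 / D.R (p x) : ℝ) : ℂ) +
          ((-(D.f (p x) * v x * w x / D.R (p x)) : ℝ) : ℂ) * Complex.I) x :=
      (h.dv x hx).ofReal_comp.add ((h.dw x hx).ofReal_comp.mul_const _)
    have h3 := h1.fun_mul h2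
    unfold QD.qq
    refine h3.congr_deriv ?_
    rw [h.f_eqI hx' (hf x hx')]
    have hR : (D.R (p x) : ℂ) ≠ 0 := by exact_mod_cast (h.RposI hx').ne'
    push_cast
    field_simp
    ring_nf
    rw [Complex.I_sq]
    ring

theorem flat_UI (h : Arc D a b p θ v w) (hf : ∀ t ∈ Icc a b, D.pf ≤ p t) (c : ℝ) {t : ℝ}
    (ht : t ∈ Icc a b) :
    D.UU c (p t) (θ t) = D.UU c (p a) (θ a) +
      ((D.κ * (t - a) : ℝ) : ℂ) * D.qq c (θ a) (v a) (w a) := by
  have key := const_of_deriv0_complexI (a := a) (b := b)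
    (f := fun t => D.UU c (p t) (θ t) - ((D.κ * (t - a) : ℝ) : ℂ) * D.qq c (θ a) (v a) (w a))
    ?_ ?_ t ht
  · simp only [sub_self, mul_zero, Complex.ofReal_zero, zero_mul, sub_zero] at key
    rw [← key]; ring
  · refine ContinuousOn.sub ?_ ?_
    · unfold QD.UU
      exact (Complex.continuous_ofReal.comp_continuousOn h.contRpI).mul (h.cont_expI c)
    · refine ContinuousOn.mul (Complex.continuous_ofReal.comp_continuousOn ?_) continuousOn_const
      fun_prop
  · intro x hx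
    have hx' := Ioo_subset_Icc_self hx
    have h1 := h.hasDerivAt_expI c hx
    have h2 := (h.hasDerivAt_RI hx).ofReal_comp
    have h3 := h2.fun_mul h1
    have h4 : HasDerivAt (fun t : ℝ => ((D.κ * (t - a) : ℝ) : ℂ)) ((D.κ : ℝ) : ℂ) x := by
      have : HasDerivAt (fun t : ℝ => D.κ * (t - a)) (D.κ * 1) x :=
        ((hasDerivAt_id x).sub_const a).const_mul D.κ
      rw [mul_one] at this
      exact this.ofReal_comp
    have h5 := h3.fun_sub (h4.mul_const (D.qq c (θ a) (v a) (w a)))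
    refine h5.congr_deriv ?_
    rw [← h.flat_qI hf c hx', h.f_eqI hx' (hf x hx')]
    unfold QD.qq
    have hR : (D.R (p x) : ℂ) ≠ 0 := by exact_mod_cast (h.RposI hx').ne'
    push_cast
    field_simp
    ring

end Arc

end Pool.MP8e
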