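import Pool.Agent.Work.MP_8e9dbb.B.Beta

/-!
# Block GEO (helper81): the main theorem of B-geometry, assembled from STR, ENU, LFE, UNC, CSH,
ARC, UNI
-/

open MeasureTheory Filter Topology Metric Set
open scoped ContDiff

namespace Pool.MP8e

theorem isGeo_continuous {X : Type} [MetricSpace X] {c : ℝ → X} (hc : IsGeo c) : Continuous c := by
  obtain ⟨ε, hε, h⟩ := hc
  rw [Metric.continuous_iff]
  intro t δ hδ
  refine ⟨min ε δ, lt_min hε hδ, fun s hs => ?_⟩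
  rw [Real.dist_eq] at hs
  rw [h s t (hs.le.trans (min_le_left _ _))]
  exact hs.trans_le (min_le_right _ _)

theorem floor_not_strip {D : QD} {X : Type} [MetricSpace X] {Pr : ℝ × ℝ → X} (hF : Facts D X Pr)
    {q : ℝ × ℝ} (hq : D.InS q) {θ : ℝ} (h : Pr q = Pr (D.fl θ)) : False := by
  obtain ⟨h1, n, h2⟩ := hF.inj q.1 q.2 (D.βh θ) θ hq.1 hq.2 (D.βh_posB θ).le le_rfl h
  have h3 := D.βh_add_two_pi q.2 n
  rw [← h2, h1] at h3
  have h4 := hq.2
  rw [← h3] at h4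
  exact lt_irrefl _ h4

theorem geo_closed {D : QD} {X : Type} [MetricSpace X] {Pr : ℝ × ℝ → X} (hF : Facts D X Pr)
    {c : ℝ → X} (hcc : Continuous c)
    (hS : ∀ t, (∃ q, D.InS q ∧ c t = Pr q) ∨ ∃ θ, c t = Pr (D.fl θ)) :
    IsClosed {t : ℝ | ∃ θ, c t = Pr (D.fl θ)} := by
  rw [← isOpen_compl_iff, isOpen_iff_mem_nhds]
  intro t ht
  rcases hS t with ⟨q, hq, hcq⟩ | h
  · obtain ⟨δ, hδ, hball⟩ := Metric.isOpen_iff.1 D.isOpen_InS q hq
    obtain ⟨r, hr, hop⟩ := hF.opn q hq.1 hq.2 δ hδ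
    have hb : ball (Pr q) r ∈ 𝓝 (c t) := by
      rw [hcq]
      exact ball_mem_nhds _ hr
    filter_upwards [hcc.continuousAt hb] with s hs
    obtain ⟨q', hq', hqs⟩ := hop hs
    rintro ⟨θ, hθ⟩
    exact floor_not_strip hF (hball hq') (hqs.trans hθ)
  · exact absurd h ht

theorem Lift.sub {D : QD} {X : Type} [MetricSpace X] {Pr : ℝ × ℝ → X} {c : ℝ → X} {a b : ℝ}
    {p θ v w : ℝ → ℝ} (h : Lift D Pr c a b p θ v w) {a' b' : ℝ} (h1 : a ≤ a') (h2 : a' < b')
    (h3 : b' ≤ b) : Lift D Pr c a' b' p θ v w where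
  arc :=
    { lt := h2
      cp := h.arc.cp.mono (Icc_subset_Icc h1 h3)
      cθ := h.arc.cθ.mono (Icc_subset_Icc h1 h3)
      cv := h.arc.cv.mono (Icc_subset_Icc h1 h3)
      cw := h.arc.cw.mono (Icc_subset_Icc h1 h3)
      pos := fun t ht => h.arc.pos t ⟨h1.trans ht.1, ht.2.trans h3⟩
      unit := fun t ht => h.arc.unit t ⟨h1.trans ht.1, ht.2.trans h3⟩
      dp := fun t ht => h.arc.dp t ⟨h1.trans_lt ht.1, ht.2.trans_le h3⟩
      dθ := fun t ht => h.arc.dθ t ⟨h1.trans_lt ht.1, ht.2.trans_le h3⟩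
      dv := fun t ht => h.arc.dv t ⟨h1.trans_lt ht.1, ht.2.trans_le h3⟩
      dw := fun t ht => h.arc.dw t ⟨h1.trans_lt ht.1, ht.2.trans_le h3⟩ }
  ins := fun t ht => h.ins t ⟨h1.trans_lt ht.1, ht.2.trans_le h3⟩
  eq := fun t ht => h.eq t ⟨h1.trans ht.1, ht.2.trans h3⟩

theorem Lift.shift {D : QD} {X : Type} [MetricSpace X] {Pr : ℝ × ℝ → X} {c : ℝ → X} {a b L : ℝ}
    {p θ v w : ℝ → ℝ} (hper : ∀ t, c (t + L) = c t)
    (h : Lift D Pr c (a + L) (b + L) p θ v w) :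
    Lift D Pr c a b (fun t => p (t + L)) (fun t => θ (t + L)) (fun t => v (t + L))
      (fun t => w (t + L)) := by
  have hI : ∀ t ∈ Icc a b, t + L ∈ Icc (a + L) (b + L) := fun t ht =>
    ⟨by linarith [ht.1], by linarith [ht.2]⟩
  have hO : ∀ t ∈ Ioo a b, t + L ∈ Ioo (a + L) (b + L) := fun t ht =>
    ⟨by linarith [ht.1], by linarith [ht.2]⟩
  have hc : ContinuousOn (fun t : ℝ => t + L) (Icc a b) := by fun_prop
  exact
  { arc :=
      { lt := by linarith [h.arc.lt]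
        cp := h.arc.cp.comp hc hI
        cθ := h.arc.cθ.comp hc hI
        cv := h.arc.cv.comp hc hI
        cw := h.arc.cw.comp hc hI
        pos := fun t ht => h.arc.pos _ (hI t ht)
        unit := fun t ht => h.arc.unit _ (hI t ht)
        dp := fun t ht => HasDerivAt.comp_add_const t L (h.arc.dp _ (hO t ht))
        dθ := fun t ht => HasDerivAt.comp_add_const t L (h.arc.dθ _ (hO t ht))
        dv := fun t ht => HasDerivAt.comp_add_const t L (h.arc.dv _ (hO t ht))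
        dw := fun t ht => HasDerivAt.comp_add_const t L (h.arc.dw _ (hO t ht)) }
    ins := fun t ht => h.ins _ (hO t ht)
    eq := fun t ht => (h.eq _ (hI t ht)).trans (hper t) }

/-- a geodesic which never meets the floor -/
theorem geo_free (hARC : Stmt_ARC) (hUNI : Stmt_UNI) (D : QD) (X : Type) [MetricSpace X]
    (Pr : ℝ × ℝ → X) (hF : Facts D X Pr) (L : ℝ) (c : ℝ → X) (hper : ∀ t, c (t + L) = c t)
    (hc : IsGeo c) (hin : ∀ t, ∃ q, D.InS q ∧ c t = Pr q) : FreeData D L := by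
  obtain ⟨q, hq, hcq⟩ := hin 0
  obtain ⟨p, θ, v, w, _, _, h⟩ := hARC D X Pr hF c hc univ isOpen_univ isPreconnected_univ 0
    (mem_univ _) (fun t _ => hin t) q hq hcq
  replace h : ∀ t, D.InS (p t, θ t) ∧ Pr (p t, θ t) = c t ∧ EqAt D p θ v w t :=
    fun t => h t (mem_univ _)
  have hcont : Continuous θ := continuous_iff_continuousAt.2 (fun t => (h t).2.2.dθ.continuousAt)
  have hcontL : Continuous (fun t => θ (t + L)) := hcont.comp (by fun_prop)
  obtain ⟨m, hm⟩ := hUNI D X Pr hF univ isPreconnected_univ p θ (fun t => p (t + L))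
    (fun t => θ (t + L)) hcont.continuousOn hcontL.continuousOn
    (fun t _ => ⟨(h t).1, (h (t + L)).1, by rw [(h t).2.1, (h (t + L)).2.1, hper]⟩)
  replace hm : ∀ t, p (t + L) = p t ∧ θ (t + L) = θ t + m * (2 * Real.pi) :=
    fun t => hm t (mem_univ _)
  have hple : ∀ t, p t ≤ D.ℓ := fun t => (h t).1.2.le.trans (D.βh_memB _).2
  refine ⟨p, θ, v, w, fun t => ⟨(h t).1, (h t).2.2⟩, fun t => ⟨(hm t).1, ?_, ?_⟩,
    ⟨m, fun t => (hm t).2⟩⟩
  · have d1 := (h t).2.2.dp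
    have d2 : HasDerivAt (fun s => p (s + L)) (v (t + L) / D.A (p (t + L))) t :=
      HasDerivAt.comp_add_const t L (h (t + L)).2.2.dp
    have e : (fun s => p (s + L)) = p := funext fun s => (hm s).1
    rw [e] at d2
    have d3 := d1.unique d2
    rw [(hm t).1] at d3
    have hA : 0 < D.A (p t) := D.posA _ ⟨(h t).1.1.le, hple t⟩
    field_simp at d3
    exact d3.symm
  · have d1 : HasDerivAt (fun s => θ s + m * (2 * Real.pi)) (w t / D.R (p t)) t :=
      (h t).2.2.dθ.add_const _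
    have d2 : HasDerivAt (fun s => θ (s + L)) (w (t + L) / D.R (p (t + L))) t :=
      HasDerivAt.comp_add_const t L (h (t + L)).2.2.dθ
    have e : (fun s => θ (s + L)) = fun s => θ s + m * (2 * Real.pi) := funext fun s => (hm s).2
    rw [e] at d2
    have d3 := d1.unique d2
    rw [(hm t).1] at d3
    have hR : 0 < D.R (p t) := D.posR _ ⟨(h t).1.1, hple t⟩
    field_simp at d3
    exact d3.symm

theorem geo_proof (hSTR : Stmt_STR) (hENU : Stmt_ENU) (hLFE : Stmt_LFE) (hUNC : Stmt_UNC)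
    (hCSH : Stmt_CSH) (hARC : Stmt_ARC) (hUNI : Stmt_UNI) : Stmt_GEO := by
  intro D X _ Pr hF L c hcg
  obtain ⟨hL, hper, hgeo⟩ := hcg
  have hc : IsGeo c := hgeo
  have hcc := isGeo_continuous hc
  have hS := hSTR D X Pr hF c hc
  refine ⟨hL, ?_⟩
  obtain ⟨C, hCdef⟩ : ∃ C : Set ℝ, C = {t : ℝ | ∃ θ, c t = Pr (D.fl θ)} := ⟨_, rfl⟩
  have hCcl : IsClosed C := by
    rw [hCdef]
    exact geo_closed hF hcc (fun t => (hS t).imp id (fun h => h.1))
  have hCmem : ∀ t, t ∈ C ↔ ∃ θ, c t = Pr (D.fl θ) := fun t => by rw [hCdef]; rfl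
  have hnotC : ∀ t q, D.InS q → c t = Pr q → t ∉ C := by
    intro t q hq hcq htC
    obtain ⟨θ, hθ⟩ := (hCmem t).1 htC
    exact floor_not_strip hF hq (hcq.symm.trans hθ)
  have hcontact : ∀ t ∈ C, ContactAt D Pr c t := by
    intro t ht
    rcases hS t with ⟨q, hq, hcq⟩ | h
    · exact absurd ht (hnotC t q hq hcq)
    · exact h.2
  have hstrip : ∀ t, t ∉ C → ∃ q, D.InS q ∧ c t = Pr q := by
    intro t ht
    rcases hS t with h | h
    · exact h
    · exact absurd ((hCmem t).2 h.1) ht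
  by_cases hCe : C.Nonempty
  swap
  · left
    rw [Set.not_nonempty_iff_eq_empty] at hCe
    exact geo_free hARC hUNI D X Pr hF L c hper hc (fun t => hstrip t (by rw [hCe]; exact id))
  right
  obtain ⟨n, τ, hn, hmono, hτL, hτC, hτn⟩ := hENU C L hL hCcl hCe
    (fun t => by rw [hCmem, hCmem, hper]) (by
      intro t ht
      obtain ⟨δ, hδ, p, θ, v, w, p', θ', v', w', l1, l2, _, _, _⟩ := hcontact t ht
      refine ⟨δ, hδ, fun s hs hst => ?_⟩
      rw [abs_lt] at hst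
      rcases lt_trichotomy s t with h | h | h
      · have hmem : s ∈ Ioo (t - δ) t := ⟨by linarith, h⟩
        exact absurd hs (hnotC s (p s, θ s)
          ⟨(l1.arc.pos s (Ioo_subset_Icc_self hmem)).1, l1.ins s hmem⟩
          (l1.eq s (Ioo_subset_Icc_self hmem)).symm)
      · exact h
      · have hmem : s ∈ Ioo t (t + δ) := ⟨h, by linarith⟩
        exact absurd hs (hnotC s (p' s, θ' s)
          ⟨(l2.arc.pos s (Ioo_subset_Icc_self hmem)).1, l2.ins s hmem⟩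
          (l2.eq s (Ioo_subset_Icc_self hmem)).symm))
  have hlift : ∀ i, ∃ p θ v w : ℝ → ℝ, Lift D Pr c (τ i) (τ (i + 1)) p θ v w ∧
      p (τ i) = D.βh (θ (τ i)) ∧ p (τ (i + 1)) = D.βh (θ (τ (i + 1))) := fun i =>
    hLFE D X Pr hF c hc (τ i) (τ (i + 1)) (hmono (Nat.lt_succ_self i))
      (fun t ht => hstrip t (hτn i t ht)) (hcontact _ (hτC i)) (hcontact _ (hτC (i + 1)))
  choose p θ v w hlf hpa hpb using hlift
  have hperU : ∀ i, ∃ m : ℤ, ∀ t ∈ Icc (τ i) (τ (i + 1)), p (i + n) (t + L) = p i t ∧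
      v (i + n) (t + L) = v i t ∧ w (i + n) (t + L) = w i t ∧
      θ (i + n) (t + L) = θ i t + m * (2 * Real.pi) := by
    intro i
    have h1 := hlf (i + n)
    rw [show i + n + 1 = (i + 1) + n by ring, hτL, hτL] at h1
    exact hUNC D X Pr hF c (τ i) (τ (i + 1)) (p i) (θ i) (v i) (w i)
      (fun t => p (i + n) (t + L)) (fun t => θ (i + n) (t + L)) (fun t => v (i + n) (t + L))
      (fun t => w (i + n) (t + L)) (hlf i) (h1.shift hper)
  refine ⟨n, τ, p, θ, v, w, hn, hmono, hτL, ?_, ?_, ?_, ?_⟩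
  · intro i
    exact ⟨(hlf i).arc, (hlf i).ins, hpa i, hpb i⟩
  · intro i
    obtain ⟨δ, hδ, P, Θ, V, W, P', Θ', V', W', l1, l2, _, _, hcon⟩ := hcontact _ (hτC (i + 1))
    have hlt1 : τ i < τ (i + 1) := hmono (Nat.lt_succ_self i)
    have hlt2 : τ (i + 1) < τ (i + 1 + 1) := hmono (Nat.lt_succ_self (i + 1))
    have ha1 : max (τ i) (τ (i + 1) - δ) < τ (i + 1) := max_lt hlt1 (by linarith)
    have hb1 : τ (i + 1) < min (τ (i + 1 + 1)) (τ (i + 1) + δ) := lt_min hlt2 (by linarith)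
    obtain ⟨m, hm⟩ := hUNC D X Pr hF c _ _ P Θ V W (p i) (θ i) (v i) (w i)
      (l1.sub (le_max_right _ _) ha1 le_rfl) ((hlf i).sub (le_max_left _ _) ha1 le_rfl)
    obtain ⟨m', hm'⟩ := hUNC D X Pr hF c _ _ P' Θ' V' W' (p (i + 1)) (θ (i + 1)) (v (i + 1))
      (w (i + 1)) (l2.sub le_rfl hb1 (min_le_right _ _))
      ((hlf (i + 1)).sub le_rfl hb1 (min_le_left _ _))
    obtain ⟨_, f2, f3, f4⟩ := hm (τ (i + 1)) ⟨ha1.le, le_rfl⟩
    obtain ⟨_, g2, g3, g4⟩ := hm' (τ (i + 1)) ⟨le_rfl, hb1.le⟩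
    rw [f2, f3, f4, g2, g3, g4]
    exact hCSH D _ _ _ _ _ _ m m' hcon
  · intro i t ht
    obtain ⟨m, hm⟩ := hperU i
    exact ⟨(hm t ht).1, (hm t ht).2.1, (hm t ht).2.2.1⟩
  · intro i
    obtain ⟨m, hm⟩ := hperU i
    exact ⟨m, fun t ht => (hm t ht).2.2.2⟩

end Pool.MP8e
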