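import Pool.Agent.Work.MP_8e9dbb.IfaceB

/-! Block LEB of MP_8e9dbb: local to global for closed curves. -/

open MeasureTheory Filter Topology Metric Set
open scoped ContDiff

namespace Pool.MP8e

theorem leb_proof : Stmt_LEB := by
  intro X _ c L hL hper hloc
  have hP : Function.Periodic c L := hper
  choose dl hdl hdl2 using hloc
  obtain ⟨η, hη, hη2⟩ := lebesgue_number_lemma_of_metric (isCompact_Icc (a := (0 : ℝ)) (b := L))
    (c := fun z : ℝ => ball z (dl z)) (fun z => isOpen_ball)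
    (fun z _ => mem_iUnion.2 ⟨z, mem_ball_self (hdl z)⟩)
  refine ⟨hL, hper, η / 2, by positivity, fun s t hst => ?_⟩
  obtain ⟨m, hm, -⟩ := existsUnique_sub_zsmul_mem_Ico hL s 0
  rw [zero_add] at hm
  obtain ⟨z, hz⟩ := hη2 (s - m • L) ⟨hm.1, hm.2.le⟩
  have h1 : s - m • L ∈ ball z (dl z) := hz (mem_ball_self hη)
  have h2 : t - m • L ∈ ball z (dl z) := by
    apply hz
    rw [mem_ball, Real.dist_eq, show t - m • L - (s - m • L) = -(s - t) by ring, abs_neg]
    linarith
  have h3 := hdl2 z _ h1 _ h2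
  rw [hP.sub_zsmul_eq, hP.sub_zsmul_eq] at h3
  rw [h3]
  congr 1
  ring

end Pool.MP8e
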