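import Pool.Agent.Work.MP_8e9dbb.B.Arc

/-!
# MP_8e9dbb_gt, block LFE (helper79): lifts of the arc between two consecutive contacts
-/

open MeasureTheory Filter Topology Metric Set
open scoped ContDiff

namespace Pool.MP8e

namespace LfeAux

theorem glue {a b δ₁ δ₂ : ℝ} (hab : a < b) (hδ₁ : 0 < δ₁) (hδ₂ : 0 < δ₂) {F₀ F₁ F₂ : ℝ → ℝ}
    (h0 : ContinuousOn F₀ (Ioo a b)) (h1 : ContinuousOn F₁ (Icc a (a + δ₁)))
    (e1 : ∀ t ∈ Ioo a (min (a + δ₁) b), F₀ t = F₁ t) (h2 : ContinuousOn F₂ (Icc (b - δ₂) b))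
    (e2 : ∀ t ∈ Ioo (max (b - δ₂) a) b, F₀ t = F₂ t) :
    ContinuousOn (extendFrom (Ioo a b) F₀) (Icc a b) ∧ extendFrom (Ioo a b) F₀ a = F₁ a ∧
      extendFrom (Ioo a b) F₀ b = F₂ b ∧ ∀ t ∈ Ioo a b, extendFrom (Ioo a b) F₀ t = F₀ t := by
  have ha : Tendsto F₀ (𝓝[>] a) (𝓝 (F₁ a)) := by
    have h3 : Tendsto F₁ (𝓝[>] a) (𝓝 (F₁ a)) := by
      have h4 : ContinuousWithinAt F₁ (Icc a (a + δ₁)) a := h1 a ⟨le_rfl, by linarith⟩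
      have h5 : ContinuousWithinAt F₁ (Ioo a (a + δ₁)) a := h4.mono Ioo_subset_Icc_self
      have h6 : 𝓝[>] a = 𝓝[Ioo a (a + δ₁)] a := (nhdsWithin_Ioo_eq_nhdsGT (by linarith)).symm
      rw [h6]
      exact h5
    refine h3.congr' ?_
    have h4 : Ioo a (min (a + δ₁) b) ∈ 𝓝[>] a :=
      Ioo_mem_nhdsGT (lt_min (by linarith) hab)
    filter_upwards [h4] with t ht
    exact (e1 t ht).symm
  have hb : Tendsto F₀ (𝓝[<] b) (𝓝 (F₂ b)) := by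
    have h3 : Tendsto F₂ (𝓝[<] b) (𝓝 (F₂ b)) := by
      have h4 : ContinuousWithinAt F₂ (Icc (b - δ₂) b) b := h2 b ⟨by linarith, le_rfl⟩
      have h5 : ContinuousWithinAt F₂ (Ioo (b - δ₂) b) b := h4.mono Ioo_subset_Icc_self
      have h6 : 𝓝[<] b = 𝓝[Ioo (b - δ₂) b] b := (nhdsWithin_Ioo_eq_nhdsLT (by linarith)).symm
      rw [h6]
      exact h5
    refine h3.congr' ?_
    have h4 : Ioo (max (b - δ₂) a) b ∈ 𝓝[<] b :=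
      Ioo_mem_nhdsLT (max_lt (by linarith) hab)
    filter_upwards [h4] with t ht
    exact (e2 t ht).symm
  refine ⟨continuousOn_Icc_extendFrom_Ioo h0 ha hb, eq_lim_at_left_extendFrom_Ioo hab ha,
    eq_lim_at_right_extendFrom_Ioo hab hb, fun t ht => ?_⟩
  refine extendFrom_eq (subset_closure ht) ?_
  exact h0 t ht

end LfeAux

open LfeAux ArcAux

theorem lfe_proof (hARC : Stmt_ARC) (hUNI : Stmt_UNI) : Stmt_LFE := by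
  intro D X _ Pr hF c hc a b hab hin hCa hCb
  obtain ⟨δ₁, hδ₁, -, -, -, -, p₁, θ₁, v₁, w₁, -, L₁, -, ha, -⟩ := hCa
  obtain ⟨δ₂, hδ₂, p₂, θ₂, v₂, w₂, -, -, -, -, L₂, -, hb, -, -⟩ := hCb
  have hmid : (a + b) / 2 ∈ Ioo a b := ⟨by linarith, by linarith⟩
  obtain ⟨q, hq, hcq⟩ := hin _ hmid
  obtain ⟨p₀, θ₀, v₀, w₀, -, -, h₀⟩ := hARC D X Pr hF c hc (Ioo a b) isOpen_Ioo isPreconnected_Ioo
    _ hmid hin q hq hcq
  have hl₁ : ∀ t ∈ Ioo a (min (a + δ₁) b),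
      D.InS (p₁ t, θ₁ t) ∧ Pr (p₁ t, θ₁ t) = c t ∧ EqAt D p₁ θ₁ v₁ w₁ t := by
    intro t ht
    have ht' : t ∈ Ioo a (a + δ₁) := ⟨ht.1, ht.2.trans_le (min_le_left _ _)⟩
    have ht'' : t ∈ Icc a (a + δ₁) := Ioo_subset_Icc_self ht'
    exact ⟨⟨(L₁.arc.pos t ht'').1, L₁.ins t ht'⟩, L₁.eq t ht'',
      ⟨L₁.arc.unit t ht'', L₁.arc.dp t ht', L₁.arc.dθ t ht', L₁.arc.dv t ht', L₁.arc.dw t ht'⟩⟩
  have hl₂ : ∀ t ∈ Ioo (max (b - δ₂) a) b,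
      D.InS (p₂ t, θ₂ t) ∧ Pr (p₂ t, θ₂ t) = c t ∧ EqAt D p₂ θ₂ v₂ w₂ t := by
    intro t ht
    have ht' : t ∈ Ioo (b - δ₂) b := ⟨(le_max_left _ _).trans_lt ht.1, ht.2⟩
    have ht'' : t ∈ Icc (b - δ₂) b := Ioo_subset_Icc_self ht'
    exact ⟨⟨(L₂.arc.pos t ht'').1, L₂.ins t ht'⟩, L₂.eq t ht'',
      ⟨L₂.arc.unit t ht'', L₂.arc.dp t ht', L₂.arc.dθ t ht', L₂.arc.dv t ht', L₂.arc.dw t ht'⟩⟩
  have hs₁ : Ioo a (min (a + δ₁) b) ⊆ Ioo a b := fun t ht => ⟨ht.1, ht.2.trans_le (min_le_right _ _)⟩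
  have hs₂ : Ioo (max (b - δ₂) a) b ⊆ Ioo a b := fun t ht => ⟨(le_max_right _ _).trans_lt ht.1, ht.2⟩
  have hv₁ : ∀ t ∈ Ioo a (min (a + δ₁) b), v₀ t = v₁ t ∧ w₀ t = w₁ t := fun t ht =>
    ⟨(vel_unique hUNI hF isOpen_Ioo (fun s hs => h₀ s (hs₁ hs)) hl₁ ht).2.1,
      (vel_unique hUNI hF isOpen_Ioo (fun s hs => h₀ s (hs₁ hs)) hl₁ ht).2.2.1⟩
  have hv₂ : ∀ t ∈ Ioo (max (b - δ₂) a) b, v₀ t = v₂ t ∧ w₀ t = w₂ t := fun t ht =>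
    ⟨(vel_unique hUNI hF isOpen_Ioo (fun s hs => h₀ s (hs₂ hs)) hl₂ ht).2.1,
      (vel_unique hUNI hF isOpen_Ioo (fun s hs => h₀ s (hs₂ hs)) hl₂ ht).2.2.1⟩
  obtain ⟨m₁, hm₁⟩ := hUNI D X Pr hF (Ioo a (min (a + δ₁) b)) isPreconnected_Ioo p₁ θ₁ p₀ θ₀
    (fun s hs => (hl₁ s hs).2.2.dθ.continuousAt.continuousWithinAt)
    (fun s hs => (h₀ s (hs₁ hs)).2.2.dθ.continuousAt.continuousWithinAt)
    (fun s hs => ⟨(hl₁ s hs).1, (h₀ s (hs₁ hs)).1, (hl₁ s hs).2.1.trans (h₀ s (hs₁ hs)).2.1.symm⟩)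
  obtain ⟨m₂, hm₂⟩ := hUNI D X Pr hF (Ioo (max (b - δ₂) a) b) isPreconnected_Ioo p₂ θ₂ p₀ θ₀
    (fun s hs => (hl₂ s hs).2.2.dθ.continuousAt.continuousWithinAt)
    (fun s hs => (h₀ s (hs₂ hs)).2.2.dθ.continuousAt.continuousWithinAt)
    (fun s hs => ⟨(hl₂ s hs).1, (h₀ s (hs₂ hs)).1, (hl₂ s hs).2.1.trans (h₀ s (hs₂ hs)).2.1.symm⟩)
  obtain ⟨cp, pa, pb, pi⟩ := glue hab hδ₁ hδ₂
    (fun t ht => (h₀ t ht).2.2.dp.continuousAt.continuousWithinAt) L₁.arc.cp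
    (fun t ht => (hm₁ t ht).1) L₂.arc.cp (fun t ht => (hm₂ t ht).1)
  obtain ⟨cθ, θa, θb, θi⟩ := glue hab hδ₁ hδ₂
    (fun t ht => (h₀ t ht).2.2.dθ.continuousAt.continuousWithinAt)
    (F₁ := fun t => θ₁ t + m₁ * (2 * Real.pi)) (L₁.arc.cθ.add continuousOn_const)
    (fun t ht => (hm₁ t ht).2) (F₂ := fun t => θ₂ t + m₂ * (2 * Real.pi))
    (L₂.arc.cθ.add continuousOn_const) (fun t ht => (hm₂ t ht).2)
  obtain ⟨cv, va, vb, vi⟩ := glue hab hδ₁ hδ₂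
    (fun t ht => (h₀ t ht).2.2.dv.continuousAt.continuousWithinAt) L₁.arc.cv
    (fun t ht => (hv₁ t ht).1) L₂.arc.cv (fun t ht => (hv₂ t ht).1)
  obtain ⟨cw, wa, wb, wi⟩ := glue hab hδ₁ hδ₂
    (fun t ht => (h₀ t ht).2.2.dw.continuousAt.continuousWithinAt) L₁.arc.cw
    (fun t ht => (hv₁ t ht).2) L₂.arc.cw (fun t ht => (hv₂ t ht).2)
  have ma₁ : a ∈ Icc a (a + δ₁) := ⟨le_rfl, by linarith⟩
  have mb₂ : b ∈ Icc (b - δ₂) b := ⟨by linarith, le_rfl⟩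
  have hcase : ∀ t ∈ Icc a b, t = a ∨ t = b ∨ t ∈ Ioo a b := by
    intro t ht
    rcases ht.1.eq_or_lt with h | h
    · exact Or.inl h.symm
    · rcases ht.2.eq_or_lt with h' | h'
      · exact Or.inr (Or.inl h')
      · exact Or.inr (Or.inr ⟨h, h'⟩)
  have hev : ∀ {F₀ : ℝ → ℝ} {d t : ℝ}, (∀ t ∈ Ioo a b, extendFrom (Ioo a b) F₀ t = F₀ t) →
      t ∈ Ioo a b → HasDerivAt F₀ d t → HasDerivAt (extendFrom (Ioo a b) F₀) d t := by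
    intro F₀ d t h1 ht h2
    refine h2.congr_of_eventuallyEq ?_
    filter_upwards [isOpen_Ioo.mem_nhds ht] with s hs
    exact h1 s hs
  refine ⟨extendFrom (Ioo a b) p₀, extendFrom (Ioo a b) θ₀, extendFrom (Ioo a b) v₀,
    extendFrom (Ioo a b) w₀, ⟨⟨hab, cp, cθ, cv, cw, ?_, ?_, ?_, ?_, ?_, ?_⟩, ?_, ?_⟩, ?_, ?_⟩
  · intro t ht
    rcases hcase t ht with rfl | rfl | h
    · rw [pa]
      exact L₁.arc.pos _ ma₁
    · rw [pb]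
      exact L₂.arc.pos _ mb₂
    · rw [pi t h]
      exact ⟨(h₀ t h).1.1, (h₀ t h).1.2.le.trans (D.βh_memB _).2⟩
  · intro t ht
    rcases hcase t ht with rfl | rfl | h
    · rw [va, wa]
      exact L₁.arc.unit _ ma₁
    · rw [vb, wb]
      exact L₂.arc.unit _ mb₂
    · rw [vi t h, wi t h]
      exact (h₀ t h).2.2.unit
  · intro t ht
    rw [vi t ht, pi t ht]
    exact hev pi ht (h₀ t ht).2.2.dp
  · intro t ht
    rw [wi t ht, pi t ht]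
    exact hev θi ht (h₀ t ht).2.2.dθ
  · intro t ht
    rw [wi t ht, pi t ht]
    exact hev vi ht (h₀ t ht).2.2.dv
  · intro t ht
    rw [vi t ht, wi t ht, pi t ht]
    exact hev wi ht (h₀ t ht).2.2.dw
  · intro t ht
    rw [pi t ht, θi t ht]
    exact (h₀ t ht).1.2
  · intro t ht
    rcases hcase t ht with rfl | rfl | h
    · rw [pa, θa, per_int hF]
      exact L₁.eq _ ma₁
    · rw [pb, θb, per_int hF]
      exact L₂.eq _ mb₂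
    · rw [pi t h, θi t h]
      exact (h₀ t h).2.1
  · rw [pa, θa, D.βh_add_two_pi]
    exact ha
  · rw [pb, θb, D.βh_add_two_pi]
    exact hb

end Pool.MP8e
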