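import Mathlib
import Pool.Agent.Work.MP_8e9dbb.IfaceB
import Pool.Agent.Work.MP_8e9dbb.A.Homeo

/-!
# Block LIF: local lifts
-/

open MeasureTheory Filter Topology Metric Set
open scoped ContDiff

namespace Pool.MP8e

theorem blk_LIF : Stmt_LIF := by
  intro D X _ Pr hF c hc t₀ q hq hcq
  have hpi := Real.pi_gt_three
  have hopen : IsOpen {q : ℝ × ℝ | D.InS q} := by
    have h1 : IsOpen {q : ℝ × ℝ | 0 < q.1} := isOpen_lt continuous_const continuous_fst
    have h2 : IsOpen {q : ℝ × ℝ | q.1 < D.βh q.2} :=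
      isOpen_lt continuous_fst ((HomeoBlk.cont_bh D).comp continuous_snd)
    exact h1.inter h2
  obtain ⟨r₀, hr₀, hsub⟩ := Metric.isOpen_iff.1 hopen q hq
  set r : ℝ := min (r₀ / 2) 1 with hr
  have hr0 : 0 < r := lt_min (by linarith) one_pos
  have hK : ∀ y ∈ closedBall q r, D.InS y := by
    intro y hy
    apply hsub
    have : dist y q ≤ r₀ / 2 := (mem_closedBall.1 hy).trans (min_le_left _ _)
    exact mem_ball.2 (by linarith)
  set f : closedBall q r → X := fun y => Pr y with hf
  have hfc : Continuous f := by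
    refine hF.cont.comp_continuous continuous_subtype_val fun y => ?_
    have := hK y y.2
    exact ⟨this.1.le, this.2.le⟩
  have hfi : Function.Injective f := by
    rintro ⟨⟨p, θ⟩, hy⟩ ⟨⟨p', θ'⟩, hy'⟩ he
    have h1 := hK _ hy
    have h2 := hK _ hy'
    obtain ⟨e1, n, e2⟩ := hF.inj p θ p' θ' h1.1 h1.2 h2.1.le h2.2.le he
    have hd : dist ((p, θ) : ℝ × ℝ) (p', θ') ≤ 2 := by
      have a1 : dist ((p, θ) : ℝ × ℝ) q ≤ 1 := (mem_closedBall.1 hy).trans (min_le_right _ _)
      have a2 : dist ((p', θ') : ℝ × ℝ) q ≤ 1 := (mem_closedBall.1 hy').trans (min_le_right _ _)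
      calc _ ≤ dist ((p, θ) : ℝ × ℝ) q + dist q ((p', θ') : ℝ × ℝ) := dist_triangle _ _ _
        _ ≤ 2 := by rw [dist_comm q]; linarith
    have hd2 : |θ - θ'| ≤ 2 := by
      have : dist θ θ' ≤ dist ((p, θ) : ℝ × ℝ) (p', θ') := by
        rw [Prod.dist_eq]; exact le_max_right _ _
      rw [Real.dist_eq] at this
      exact this.trans hd
    rw [abs_le] at hd2
    have hn : n = 0 := by
      have b1 : (n : ℝ) * (2 * Real.pi) < 1 * (2 * Real.pi) := by linarith
      have b2 : (-1 : ℝ) * (2 * Real.pi) < n * (2 * Real.pi) := by linarith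
      have b3 := lt_of_mul_lt_mul_right b1 (by positivity)
      have b4 := lt_of_mul_lt_mul_right b2 (by positivity)
      have b5 : n < 1 := by exact_mod_cast b3
      have b6 : -1 < n := by exact_mod_cast b4
      omega
    apply Subtype.ext
    simp only [e1, e2, hn]
    simp
  haveI : CompactSpace (closedBall q r) := isCompact_iff_compactSpace.1 (isCompact_closedBall q r)
  have hemb : IsClosedEmbedding f := hfc.isClosedEmbedding hfi
  obtain ⟨ρ, hρ, hρ2⟩ := hF.opn q hq.1 hq.2 r hr0
  obtain ⟨δ, hδ, hδ2⟩ := Metric.continuousAt_iff.1 (hc.continuousAt (x := t₀)) ρ hρ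
  have hex : ∀ t ∈ ball t₀ δ, ∃ y ∈ ball q r, Pr y = c t := by
    intro t ht
    have h1 : c t ∈ ball (Pr q) ρ := by rw [← hcq]; exact hδ2 ht
    exact hρ2 h1
  classical
  set x : ℝ → ℝ × ℝ := fun t => if h : t ∈ ball t₀ δ then (hex t h).choose else q with hx
  have hx1 : ∀ t ∈ ball t₀ δ, x t ∈ ball q r ∧ Pr (x t) = c t := by
    intro t ht
    simp only [hx, dif_pos ht]
    exact (hex t ht).choose_spec
  refine ⟨δ, hδ, x, ?_, ?_, fun t ht => ⟨hK _ (ball_subset_closedBall (hx1 t ht).1), (hx1 t ht).2⟩⟩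
  · rw [continuousOn_iff_continuous_restrict]
    set x' : ball t₀ δ → closedBall q r :=
      fun t => ⟨x t, ball_subset_closedBall (hx1 t t.2).1⟩ with hx'
    have hc' : Continuous x' := by
      rw [hemb.isInducing.continuous_iff]
      have : f ∘ x' = fun t : ball t₀ δ => c t := by
        funext t
        exact (hx1 t t.2).2
      rw [this]
      exact hc.comp continuous_subtype_val
    exact continuous_subtype_val.comp hc'
  · have h0 := hx1 t₀ (mem_ball_self hδ)
    have h1 : f ⟨x t₀, ball_subset_closedBall h0.1⟩ = f ⟨q, mem_closedBall_self hr0.le⟩ := by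
      change Pr (x t₀) = Pr q
      rw [h0.2, hcq]
    exact congrArg Subtype.val (hfi h1)

end Pool.MP8e
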