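import Pool.Agent.Work.MP_8e9dbb.IfaceB

/-! Block LOC: local geodesic equations. -/

open MeasureTheory Filter Topology Metric Set
open scoped ContDiff

namespace Pool.MP8e

namespace LOCAux

theorem geo_cont {X : Type} [MetricSpace X] {c : ℝ → X} (hc : IsGeo c) : Continuous c := by
  obtain ⟨ε, hε, h⟩ := hc
  rw [Metric.continuous_iff]
  intro t η hη
  refine ⟨min ε η, lt_min hε hη, fun s hs => ?_⟩
  rw [Real.dist_eq] at hs
  rw [h s t (hs.le.trans (min_le_left _ _))]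
  exact hs.trans_le (min_le_right _ _)

/-- small perturbations of a curve stay in an open set -/
theorem perturb {S : Set (ℝ × ℝ)} (hS : IsOpen S) {a b : ℝ} {x : ℝ → ℝ × ℝ}
    (hx : ContinuousOn x (Icc a b)) (hin : ∀ t ∈ Icc a b, x t ∈ S) {y : ℝ → ℝ × ℝ}
    (hy : Continuous y) : ∃ ε₀ > 0, ∀ ε : ℝ, |ε| < ε₀ → ∀ t ∈ Icc a b, x t + ε • y t ∈ S := by
  have hK : IsCompact (x '' Icc a b) := isCompact_Icc.image_of_continuousOn hx
  obtain ⟨δ, hδ, hsub⟩ := hK.exists_thickening_subset_open hS (by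
    rintro _ ⟨t, ht, rfl⟩
    exact hin t ht)
  obtain ⟨M, hM⟩ := (isCompact_Icc (a := a) (b := b)).exists_bound_of_continuousOn
    hy.continuousOn
  refine ⟨δ / (|M| + 1), by positivity, fun ε hε t ht => hsub ?_⟩
  rw [Metric.mem_thickening_iff]
  refine ⟨x t, mem_image_of_mem _ ht, ?_⟩
  rw [dist_eq_norm, add_sub_cancel_left, norm_smul, Real.norm_eq_abs]
  have h1 : ‖y t‖ ≤ |M| := (hM t ht).trans (le_abs_self M)
  have h2 : |ε| * (|M| + 1) < δ := by
    rwa [lt_div_iff₀ (by positivity)] at hε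
  have h3 := abs_nonneg ε
  nlinarith [norm_nonneg (y t)]

end LOCAux

open LOCAux in
theorem loc_proof (hLIF : Stmt_LIF) (hSPD : Stmt_SPD) (hCMP : Stmt_CMP) (hVAR : Stmt_VAR)
    (hBETA : Stmt_BETA) : Stmt_LOC := by
  intro D X _ Pr F c hc t₀ q hq hcq
  obtain ⟨_, _, _, hβℓ, hopen, _⟩ := hBETA D
  obtain ⟨δ₁, hδ₁, x, hxc, hx0, hx⟩ := hLIF D X Pr F c (geo_cont hc) t₀ q hq hcq
  obtain ⟨δ₂, hδ₂, _, ⟨C₁, hL₁⟩, ⟨C₂, hL₂⟩, hsp⟩ := hSPD D X Pr F c hc t₀ δ₁ x hδ₁ hxc hx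
  obtain ⟨ε, hε, hgeo⟩ := hc
  set η : ℝ := min δ₂ ε / 2 with hη
  have hmin : 0 < min δ₂ ε := lt_min hδ₂ hε
  have hη0 : 0 < η := by positivity
  have hηδ : η < δ₂ := by
    have := min_le_left δ₂ ε
    linarith
  have hηε : 2 * η ≤ ε := by
    have := min_le_right δ₂ ε
    linarith
  have hab : t₀ - η < t₀ + η := by linarith
  have hsub : Icc (t₀ - η) (t₀ + η) ⊆ ball t₀ δ₂ := by
    intro t ht
    rw [mem_ball, Real.dist_eq, abs_lt]
    constructor <;> linarith [ht.1, ht.2]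
  have hsub' : ball t₀ δ₂ ⊆ ball t₀ δ₁ := ball_subset_ball (by assumption)
  set p : ℝ → ℝ := fun t => (x t).1 with hp
  set θ : ℝ → ℝ := fun t => (x t).2 with hθ
  have hpL : LipschitzOnWith C₁ p (Icc (t₀ - η) (t₀ + η)) := hL₁.mono hsub
  have hθL : LipschitzOnWith C₂ θ (Icc (t₀ - η) (t₀ + η)) := hL₂.mono hsub
  have hin : ∀ t ∈ Icc (t₀ - η) (t₀ + η), D.InS (p t, θ t) := fun t ht =>
    (hx t (hsub' (hsub ht))).1
  have hPr : ∀ t ∈ Icc (t₀ - η) (t₀ + η), Pr (p t, θ t) = c t := fun t ht =>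
    (hx t (hsub' (hsub ht))).2
  have haI : t₀ - η ∈ Icc (t₀ - η) (t₀ + η) := ⟨le_rfl, hab.le⟩
  have hbI : t₀ + η ∈ Icc (t₀ - η) (t₀ + η) := ⟨hab.le, le_rfl⟩
  obtain ⟨v, w, hvw⟩ := hVAR D (t₀ - η) (t₀ + η) hab p θ ⟨C₁, hpL⟩ ⟨C₂, hθL⟩
    (fun t ht => ⟨(hin t ht).1, (hin t ht).2.trans_le (hβℓ _).2⟩)
    (by
      filter_upwards [hsp] with t ht htm
      exact ht (hsub htm))
    (by
      rintro φ ψ ⟨C₃, hφ⟩ ⟨C₄, hψ⟩ a1 a2 a3 a4
      have hcx : ContinuousOn (fun t => (p t, θ t)) (Icc (t₀ - η) (t₀ + η)) :=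
        hpL.continuousOn.prodMk hθL.continuousOn
      obtain ⟨ε₀, hε₀, hper⟩ := perturb hopen hcx hin (hφ.continuous.prodMk hψ.continuous)
      refine ⟨ε₀, hε₀, fun e he => ?_⟩
      have hL3 : LipschitzOnWith (C₁ + ‖e‖₊ * C₃) (fun t => p t + e * φ t)
          (Icc (t₀ - η) (t₀ + η)) :=
        hpL.add ((lipschitzWith_smul e).comp hφ).lipschitzOnWith
      have hL4 : LipschitzOnWith (C₂ + ‖e‖₊ * C₄) (fun t => θ t + e * ψ t)
          (Icc (t₀ - η) (t₀ + η)) :=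
        hθL.add ((lipschitzWith_smul e).comp hψ).lipschitzOnWith
      have h1 := hCMP D X Pr F (t₀ - η) (t₀ + η) hab.le (fun t => p t + e * φ t)
        (fun t => θ t + e * ψ t) ⟨_, hL3⟩ ⟨_, hL4⟩ (fun t ht => hper e he t ht)
      simp only [a1, a2, a3, a4, mul_zero, add_zero] at h1
      rw [hPr _ haI, hPr _ hbI, hgeo _ _ (by
        rw [abs_sub_comm, abs_of_pos (by linarith)]
        linarith)] at h1
      rw [abs_sub_comm, abs_of_pos (by linarith)] at h1
      refine h1.trans (le_of_eq ?_)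
      have u1 : AbsolutelyContinuousOnInterval p (t₀ - η) (t₀ + η) :=
        LipschitzOnWith.absolutelyContinuousOnInterval (K := C₁) (by rwa [uIcc_of_le hab.le])
      have u2 : AbsolutelyContinuousOnInterval θ (t₀ - η) (t₀ + η) :=
        LipschitzOnWith.absolutelyContinuousOnInterval (K := C₂) (by rwa [uIcc_of_le hab.le])
      have u3 : AbsolutelyContinuousOnInterval φ (t₀ - η) (t₀ + η) :=
        (hφ.lipschitzOnWith (s := uIcc _ _)).absolutelyContinuousOnInterval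
      have u4 : AbsolutelyContinuousOnInterval ψ (t₀ - η) (t₀ + η) :=
        (hψ.lipschitzOnWith (s := uIcc _ _)).absolutelyContinuousOnInterval
      apply intervalIntegral.integral_congr_ae
      filter_upwards [u1.ae_differentiableAt, u2.ae_differentiableAt, u3.ae_differentiableAt,
        u4.ae_differentiableAt] with t b1 b2 b3 b4 htm
      have htI := uIoc_subset_uIcc htm
      have d1 := (b1 htI).hasDerivAt.add ((b3 htI).hasDerivAt.const_mul e)
      have d2 := (b2 htI).hasDerivAt.add ((b4 htI).hasDerivAt.const_mul e)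
      have e1 : deriv (fun t => p t + e * φ t) t = deriv p t + e * deriv φ t := d1.deriv
      have e2 : deriv (fun t => θ t + e * ψ t) t = deriv θ t + e * deriv ψ t := d2.deriv
      rw [e1, e2])
  refine ⟨η, hη0, p, θ, v, w, by rw [hp]; simp only; rw [hx0], by rw [hθ]; simp only; rw [hx0],
    fun t ht => ?_⟩
  have htO : t ∈ Ioo (t₀ - η) (t₀ + η) := by
    rw [mem_ball, Real.dist_eq, abs_lt] at ht
    constructor <;> linarith [ht.1, ht.2]
  exact ⟨hin t (Ioo_subset_Icc_self htO), hPr t (Ioo_subset_Icc_self htO), hvw t htO⟩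

end Pool.MP8e
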