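import Pool.Agent.Work.MP_8e9dbb.B.Str
import Pool.Agent.Work.MP_8e9dbb.B.Dev

/-!
# MP_8e9dbb_gt, block NRN (helper79): a geodesic does not run along the floor
-/

open MeasureTheory Filter Topology Metric Set
open scoped ContDiff

namespace Pool.MP8e

namespace NrnAux

variable {D : QD} {X : Type} [MetricSpace X] {Pr : ℝ × ℝ → X}

theorem per_nat (hF : Facts D X Pr) (p θ : ℝ) (m : ℕ) :
    Pr (p, θ + m * (2 * Real.pi)) = Pr (p, θ) := by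
  induction m with
  | zero => simp
  | succ m ih =>
    have : θ + ((m + 1 : ℕ) : ℝ) * (2 * Real.pi) = (θ + m * (2 * Real.pi)) + 2 * Real.pi := by
      push_cast
      ring
    rw [this, hF.per, ih]

theorem per_int (hF : Facts D X Pr) (p θ : ℝ) (m : ℤ) :
    Pr (p, θ + m * (2 * Real.pi)) = Pr (p, θ) := by
  obtain ⟨n, rfl | rfl⟩ := m.eq_nat_or_neg
  · exact_mod_cast per_nat hF p θ n
  · have h1 := per_nat hF p (θ + ((-(n : ℤ) : ℤ) : ℝ) * (2 * Real.pi)) n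
    rw [← h1]
    congr 2
    push_cast
    ring

/-- the floor as a curve -/
theorem floor_cont (hF : Facts D X Pr) : Continuous fun θ => Pr (D.fl θ) := by
  have h : ContinuousOn (fun θ => Pr (D.fl θ)) univ := by
    refine ContinuousOn.comp (t := {x | 0 ≤ x.1 ∧ x.1 ≤ D.βh x.2}) (g := Pr) hF.cont ?_ ?_
    · exact (D.βh_continuous.prodMk continuous_id).continuousOn
    · intro θ _
      exact ⟨(D.βh_posB θ).le, le_rfl⟩
  exact continuousOn_univ.1 h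

theorem floor_fold (hF : Facts D X Pr) (θ : ℝ) :
    ∃ θ₀ ∈ Icc 0 Real.pi, Pr (D.fl θ) = Pr (D.fl θ₀) := by
  refine ⟨Real.arccos (Real.cos θ), ⟨Real.arccos_nonneg _, Real.arccos_le_pi _⟩, ?_⟩
  set θ₀ := Real.arccos (Real.cos θ) with h0
  have hc : Real.cos θ₀ = Real.cos θ := Real.cos_arccos (Real.neg_one_le_cos θ) (Real.cos_le_one θ)
  obtain ⟨k, hk | hk⟩ := Real.cos_eq_cos_iff.1 hc
  · have e : θ = θ₀ + k * (2 * Real.pi) := by rw [hk]; ring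
    rw [QD.fl, QD.fl, e, D.βh_add_two_pi, per_int hF]
  · have e : θ = -θ₀ + k * (2 * Real.pi) := by rw [hk]; ring
    rw [QD.fl, QD.fl, e, D.βh_add_two_pi, per_int hF, D.βh_negB, hF.flr]

theorem floor_inj (hF : Facts D X Pr) {θ θ' : ℝ} (h : θ ∈ Icc 0 Real.pi) (h' : θ' ∈ Icc 0 Real.pi)
    (e : Pr (D.fl θ) = Pr (D.fl θ')) : θ = θ' := by
  obtain ⟨-, n, hn | hn⟩ := hF.injF θ (D.βh θ') θ' (D.βh_posB θ').le le_rfl e
  · refine Real.injOn_cos h h' ?_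
    rw [hn, show θ + n * (2 * Real.pi) = θ + n * (2 * Real.pi) from rfl, Real.cos_add_int_mul_two_pi]
  · refine Real.injOn_cos h h' ?_
    rw [hn, Real.cos_add_int_mul_two_pi, Real.cos_neg]

/-- the height on the floor -/
noncomputable def ht (D : QD) (c₁ θ : ℝ) : ℝ := (D.Z c₁ (D.βh θ) θ).im

theorem ht_cont (D : QD) (c₁ : ℝ) : Continuous (ht D c₁) := by
  have hσ : Continuous D.σ := continuous_iff_continuousAt.2 fun p => (D.hasDerivAt_σB p).continuousAt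
  have hcd : Continuous (fun x : ℝ => cdev D.κ x) :=
    continuous_iff_continuousAt.2 fun x => (hasDerivAt_cdev D.κ x).continuousAt
  unfold ht QD.Z
  refine Complex.continuous_im.comp ?_
  refine ((Complex.continuous_ofReal.comp (hσ.comp D.βh_continuous)).mul ?_).add
    (continuous_const.mul (hcd.comp (continuous_id.sub continuous_const)))
  fun_prop

/-- a point of the floor in the ball of `Facts.floor` -/
theorem local_floor (hLIN : Stmt_LIN) (hDEV : Stmt_DEV) (hF : Facts D X Pr) {c : ℝ → X}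
    (hc : IsGeo c) {lo hi c₁ : ℝ} (hfoot : ∀ θ ∈ Ioo lo hi, D.IsFoot θ c₁) {t₁ θ₁ : ℝ}
    (hθ : θ₁ ∈ Ioo lo hi) (h1 : c t₁ = Pr (D.fl θ₁)) :
    ∃ r > 0, ∀ s₀ ∈ ball t₁ r, s₀ ≠ t₁ → (∃ θ, c s₀ = Pr (D.fl θ)) →
      ∃ e : ℝ, (e = 1 ∨ e = -1) ∧ ∀ s ∈ ball t₁ r, ∃ θ ∈ Ioo lo hi, c s = Pr (D.fl θ) ∧
        ht D c₁ θ = ht D c₁ θ₁ + e * (s - t₁) := by
  obtain ⟨hZ0, δ, hδ, hD⟩ := hDEV.2.2.1 D θ₁ c₁ (hfoot θ₁ hθ)
  obtain ⟨ε, hε, hgeo⟩ := hc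
  set η : ℝ := min (min δ (D.βh θ₁)) (min (θ₁ - lo) (hi - θ₁)) with hηdef
  have hη : 0 < η := lt_min (lt_min hδ (D.βh_posB θ₁)) (lt_min (sub_pos.2 hθ.1) (sub_pos.2 hθ.2))
  have hη1 : η ≤ δ := (min_le_left _ _).trans (min_le_left _ _)
  have hη2 : η ≤ D.βh θ₁ := (min_le_left _ _).trans (min_le_right _ _)
  have hη3 : η ≤ θ₁ - lo := (min_le_right _ _).trans (min_le_left _ _)
  have hη4 : η ≤ hi - θ₁ := (min_le_right _ _).trans (min_le_right _ _)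
  obtain ⟨r, hr, ζ, hζ0, hζd, hζr, -⟩ := hF.floor θ₁ c₁ (hfoot θ₁ hθ) η hη
  set ρ : ℝ := min (r / 2) (ε / 2) with hρdef
  have hρ : 0 < ρ := lt_min (by linarith) (by linarith)
  have hρr : ρ < r := (min_le_left _ _).trans_lt (by linarith)
  have hρε : 2 * ρ ≤ ε := by
    have : ρ ≤ ε / 2 := min_le_right _ _
    linarith
  have hdist : ∀ s ∈ Icc (t₁ - ρ) (t₁ + ρ), ∀ s' ∈ Icc (t₁ - ρ) (t₁ + ρ),
      dist (c s) (c s') = |s - s'| := by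
    intro s hs s' hs'
    refine hgeo s s' (le_trans ?_ hρε)
    rw [abs_le]
    constructor <;> linarith [hs.1, hs.2, hs'.1, hs'.2]
  have ht₁ : t₁ ∈ Icc (t₁ - ρ) (t₁ + ρ) := ⟨by linarith, by linarith⟩
  have hball : ∀ s ∈ Icc (t₁ - ρ) (t₁ + ρ), c s ∈ ball (Pr (D.βh θ₁, θ₁)) r := by
    intro s hs
    have h2 : Pr (D.βh θ₁, θ₁) = c t₁ := h1.symm
    rw [mem_ball, h2, hdist s hs t₁ ht₁]
    refine lt_of_le_of_lt ?_ hρr
    rw [abs_le]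
    constructor <;> linarith [hs.1, hs.2]
  obtain ⟨V, hV1, hV⟩ := hLIN (t₁ - ρ) (t₁ + ρ) (fun s => ζ (c s)) (by linarith) (by
    intro s hs s' hs'
    show ‖ζ (c s) - ζ (c s')‖ = |s - s'|
    rw [← hζd _ (hball s hs) _ (hball s' hs'), hdist s hs s' hs'])
  have hz₁ : ζ (c t₁) = D.Z c₁ (D.βh θ₁) θ₁ := by
    rw [h1]; exact hζ0
  have hlin : ∀ s ∈ Icc (t₁ - ρ) (t₁ + ρ), ζ (c s) = D.Z c₁ (D.βh θ₁) θ₁ + ((s - t₁ : ℝ) : ℂ) * V := by
    intro s hs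
    have e1 := hV s hs
    have e2 := hV t₁ ht₁
    change ζ (c s) = ζ (c (t₁ - ρ)) + ((s - (t₁ - ρ) : ℝ) : ℂ) * V at e1
    change ζ (c t₁) = ζ (c (t₁ - ρ)) + ((t₁ - (t₁ - ρ) : ℝ) : ℂ) * V at e2
    rw [← hz₁, e1, e2]
    push_cast
    ring
  -- the chart at a point of the curve
  have hrep : ∀ s ∈ Icc (t₁ - ρ) (t₁ + ρ), ∃ p θ, 0 < p ∧ θ ∈ Ioo lo hi ∧
      p ≤ D.βh θ ∧ (c s = Pr (p, θ) ∨ c s = Pr (p, -θ)) ∧
      ((D.Z c₁ p θ).re = 0 ↔ p = D.βh θ) ∧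
      ((ζ (c s)).re = 0 ↔ (D.Z c₁ p θ).re = 0) ∧ (ζ (c s)).im = (D.Z c₁ p θ).im := by
    intro s hs
    obtain ⟨p, θ, a1, a2, a3, -, a5⟩ := hζr _ (hball s hs)
    have a1' := abs_lt.1 a1
    have a2' := abs_lt.1 a2
    refine ⟨p, θ, by linarith [a1'.1], ⟨by linarith [a2'.1], by linarith [a2'.2]⟩, a3, ?_,
      (hD p θ (a2.trans_le hη1) (a1.trans_le hη1)).2, ?_, ?_⟩
    · rcases a5 with ⟨h, -⟩ | ⟨h, -⟩
      · exact Or.inl h
      · exact Or.inr h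
    · rcases a5 with ⟨-, h⟩ | ⟨-, h⟩
      · rw [h]
      · rw [h]; simp
    · rcases a5 with ⟨-, h⟩ | ⟨-, h⟩
      · rw [h]
      · rw [h]; simp
  refine ⟨ρ, hρ, fun s₀ hs₀ hne hfl => ?_⟩
  have hIcc : ∀ s ∈ ball t₁ ρ, s ∈ Icc (t₁ - ρ) (t₁ + ρ) := by
    intro s hs
    rw [Real.ball_eq_Ioo] at hs
    exact ⟨hs.1.le, hs.2.le⟩
  obtain ⟨θ', hθ'⟩ := hfl
  have hre0 : (ζ (c s₀)).re = 0 := by
    obtain ⟨p, θ, b1, b2, b3, b4, b5, b6, b7⟩ := hrep s₀ (hIcc s₀ hs₀)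
    rw [b6, b5]
    by_contra hp
    have hp' : p < D.βh θ := lt_of_le_of_ne b3 hp
    rcases b4 with h | h
    · have h2 : Pr (p, θ) = Pr (D.βh θ', θ') := h.symm.trans hθ'
      obtain ⟨h3, n, h4⟩ := hF.inj p θ (D.βh θ') θ' b1 hp' (D.βh_posB θ').le le_rfl h2
      rw [h4, D.βh_add_two_pi] at h3
      exact hp h3.symm
    · have h2 : Pr (p, -θ) = Pr (D.βh θ', θ') := h.symm.trans hθ'
      obtain ⟨h3, n, h4⟩ := hF.inj p (-θ) (D.βh θ') θ' b1 (by rw [D.βh_negB]; exact hp')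
        (D.βh_posB θ').le le_rfl h2
      rw [h4, D.βh_add_two_pi, D.βh_negB] at h3
      exact hp h3.symm
  have hVre : V.re = 0 := by
    rw [hlin s₀ (hIcc s₀ hs₀), Complex.add_re, hZ0, zero_add, Complex.re_ofReal_mul] at hre0
    rcases mul_eq_zero.1 hre0 with h | h
    · exact absurd (sub_eq_zero.1 h) hne
    · exact h
  have hVim : V.im = 1 ∨ V.im = -1 := by
    have h2 : V.re ^ 2 + V.im ^ 2 = 1 := by
      have h3 := Complex.sq_norm V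
      rw [hV1, Complex.normSq_apply] at h3
      nlinarith
    rw [hVre] at h2
    have h4 : (V.im - 1) * (V.im + 1) = 0 := by nlinarith
    rcases mul_eq_zero.1 h4 with h5 | h5
    · left; linarith
    · right; linarith
  refine ⟨V.im, hVim, fun s hs => ?_⟩
  have hs' := hIcc s hs
  obtain ⟨p, θ, b1, b2, b3, b4, b5, b6, b7⟩ := hrep s hs'
  have hre : (ζ (c s)).re = 0 := by
    rw [hlin s hs', Complex.add_re, hZ0, zero_add, Complex.re_ofReal_mul, hVre, mul_zero]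
  have hp : p = D.βh θ := b5.1 (b6.1 hre)
  refine ⟨θ, b2, ?_, ?_⟩
  · rcases b4 with h | h
    · rw [h, hp]; rfl
    · rw [h, hp, hF.flr]; rfl
  · have h2 : ht D c₁ θ = (ζ (c s)).im := by rw [b7, hp]; rfl
    rw [h2, hlin s hs', Complex.add_im, Complex.im_ofReal_mul]
    show ht D c₁ θ₁ + (s - t₁) * V.im = _
    ring

/-- follow the floor to the right until the end `m` of the leg -/
theorem right_end (hLIN : Stmt_LIN) (hDEV : Stmt_DEV) (hF : Facts D X Pr) {c : ℝ → X}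
    (hc : IsGeo c) {lo hi c₁ m : ℝ} (hfoot : ∀ θ ∈ Ioo lo hi, D.IsFoot θ c₁)
    (hlo : 0 ≤ lo) (hhi : hi ≤ Real.pi)
    (hleg : ∀ t, ∀ θ ∈ Icc lo hi, c t = Pr (D.fl θ) → θ = m ∨ θ ∈ Ioo lo hi) {t₁ θ₁ e r₀ : ℝ}
    (he : e = 1 ∨ e = -1) (hr₀ : 0 < r₀)
    (h1 : ∀ s ∈ ball t₁ r₀, ∃ θ ∈ Ioo lo hi, c s = Pr (D.fl θ) ∧
      ht D c₁ θ = ht D c₁ θ₁ + e * (s - t₁)) :
    ∃ t₂ > t₁, ht D c₁ m = ht D c₁ θ₁ + e * (t₂ - t₁) := by
  have hcc : Continuous c := by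
    obtain ⟨ε, hε, hgeo⟩ := hc
    rw [Metric.continuous_iff]
    intro t δ hδ
    refine ⟨min ε δ, lt_min hε hδ, fun s hs => ?_⟩
    rw [Real.dist_eq] at hs
    rw [hgeo s t (hs.le.trans (min_le_left _ _))]
    exact hs.trans_le (min_le_right _ _)
  obtain ⟨M, hM⟩ := isCompact_Icc.exists_bound_of_continuousOn (s := Icc lo hi)
    (ht_cont D c₁).continuousOn
  -- the property along the curve
  let P : ℝ → ℝ → Prop := fun s θ => c s = Pr (D.fl θ) ∧ ht D c₁ θ = ht D c₁ θ₁ + e * (s - t₁)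
  let S : Set ℝ := {t | t₁ ≤ t ∧ ∀ s ∈ Icc t₁ t, ∃ θ ∈ Ioo lo hi, P s θ}
  have hS0 : t₁ + r₀ / 2 ∈ S := by
    refine ⟨by linarith, fun s hs => h1 s ?_⟩
    rw [Real.ball_eq_Ioo]
    exact ⟨by linarith [hs.1], by linarith [hs.2]⟩
  have hSb : BddAbove S := by
    refine ⟨t₁ + 2 * (M + |ht D c₁ θ₁|), fun t ht' => ?_⟩
    obtain ⟨θ, hθ, -, h3⟩ := ht'.2 t ⟨ht'.1, le_rfl⟩
    have h4 := hM θ ⟨hθ.1.le, hθ.2.le⟩
    rw [Real.norm_eq_abs] at h4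
    have h5 : e * (t - t₁) = ht D c₁ θ - ht D c₁ θ₁ := by rw [h3]; ring
    have h6 : t - t₁ = |e * (t - t₁)| := by
      rw [abs_mul, abs_of_nonneg (sub_nonneg.2 ht'.1)]
      rcases he with rfl | rfl <;> simp
    have h7 := abs_sub (ht D c₁ θ) (ht D c₁ θ₁)
    rw [h5] at h6
    have h8 : 0 ≤ M := (abs_nonneg _).trans h4
    have h9 := abs_nonneg (ht D c₁ θ₁)
    linarith
  set t₂ := sSup S with ht₂
  have h12 : t₁ < t₂ := by
    have := le_csSup hSb hS0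
    linarith
  have hbefore : ∀ s ∈ Ico t₁ t₂, ∃ θ ∈ Ioo lo hi, P s θ := by
    intro s hs
    obtain ⟨t, ht', hst⟩ := exists_lt_of_lt_csSup ⟨_, hS0⟩ hs.2
    exact ht'.2 s ⟨hs.1, hst.le⟩
  -- at the end
  obtain ⟨θ₂, hθ₂, hP₂⟩ : ∃ θ ∈ Icc lo hi, P t₂ θ := by
    let K : Set (ℝ × ℝ) := {x | x ∈ Icc t₁ t₂ ×ˢ Icc lo hi ∧ P x.1 x.2}
    have hK : IsCompact K := by
      refine (isCompact_Icc.prod isCompact_Icc).inter_right (t := {x : ℝ × ℝ | P x.1 x.2}) ?_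
      refine IsClosed.inter (s₁ := {x : ℝ × ℝ | c x.1 = Pr (D.fl x.2)})
        (s₂ := {x : ℝ × ℝ | ht D c₁ x.2 = ht D c₁ θ₁ + e * (x.1 - t₁)}) ?_ ?_
      · exact isClosed_eq (hcc.comp continuous_fst) ((floor_cont hF).comp continuous_snd)
      · exact isClosed_eq ((ht_cont D c₁).comp continuous_snd)
          (continuous_const.add (continuous_const.mul (continuous_fst.sub continuous_const)))
    have hcl : IsClosed (Prod.fst '' K) := (hK.image continuous_fst).isClosed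
    have hsub : Ico t₁ t₂ ⊆ Prod.fst '' K := by
      intro s hs
      obtain ⟨θ, hθ, hp⟩ := hbefore s hs
      exact ⟨(s, θ), ⟨⟨⟨hs.1, hs.2.le⟩, ⟨hθ.1.le, hθ.2.le⟩⟩, hp⟩, rfl⟩
    have h3 : t₂ ∈ Prod.fst '' K := by
      have h4 : closure (Ico t₁ t₂) ⊆ Prod.fst '' K := closure_minimal hsub hcl
      rw [closure_Ico h12.ne] at h4
      exact h4 ⟨h12.le, le_rfl⟩
    obtain ⟨⟨s, θ⟩, hx, rfl⟩ := h3
    exact ⟨θ, hx.1.2, hx.2⟩
  rcases hleg t₂ θ₂ hθ₂ hP₂.1 with h | h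
  · exact ⟨t₂, h12, by rw [← h]; exact hP₂.2⟩
  exfalso
  obtain ⟨r, hr, hL⟩ := local_floor hLIN hDEV hF hc hfoot h hP₂.1
  set s₀ := max t₁ (t₂ - r / 2) with hs₀
  have hs1 : s₀ < t₂ := max_lt h12 (by linarith)
  have hs2 : t₁ ≤ s₀ := le_max_left _ _
  have hs3 : t₂ - r / 2 ≤ s₀ := le_max_right _ _
  have hs4 : s₀ ∈ ball t₂ r := by
    rw [Real.ball_eq_Ioo]
    exact ⟨by linarith, by linarith⟩
  obtain ⟨θ₀, hθ₀, hP₀⟩ := hbefore s₀ ⟨hs2, hs1⟩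
  obtain ⟨e', -, hL'⟩ := hL s₀ hs4 hs1.ne ⟨θ₀, hP₀.1⟩
  obtain ⟨θ', hθ', h5, h6⟩ := hL' s₀ hs4
  have hIcc : ∀ θ ∈ Ioo lo hi, θ ∈ Icc 0 Real.pi := fun θ hθ =>
    ⟨hlo.trans hθ.1.le, hθ.2.le.trans hhi⟩
  have h7 : θ' = θ₀ := floor_inj hF (hIcc _ hθ') (hIcc _ hθ₀) (h5.symm.trans hP₀.1)
  have hee : e' = e := by
    rw [h7, hP₀.2, hP₂.2] at h6
    have h8 : (e' - e) * (s₀ - t₂) = 0 := by linarith
    rcases mul_eq_zero.1 h8 with h9 | h9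
    · linarith
    · exact absurd (sub_eq_zero.1 h9) hs1.ne
  have hmem : t₂ + r / 2 ∈ S := by
    refine ⟨by linarith, fun s hs => ?_⟩
    rcases lt_or_ge s t₂ with h9 | h9
    · exact hbefore s ⟨hs.1, h9⟩
    · obtain ⟨θ, hθ, h10, h11⟩ := hL' s (by
        rw [Real.ball_eq_Ioo]
        exact ⟨by linarith, by linarith [hs.2]⟩)
      refine ⟨θ, hθ, h10, ?_⟩
      rw [h11, hP₂.2, hee]
      ring
  have := le_csSup hSb hmem
  linarith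

/-- a leg of the floor cannot contain a piece of the geodesic -/
theorem no_leg (hLIN : Stmt_LIN) (hDEV : Stmt_DEV) (hF : Facts D X Pr) {c : ℝ → X}
    (hc : IsGeo c) {lo hi c₁ m : ℝ} (hfoot : ∀ θ ∈ Ioo lo hi, D.IsFoot θ c₁)
    (hlo : 0 ≤ lo) (hhi : hi ≤ Real.pi)
    (hleg : ∀ t, ∀ θ ∈ Icc lo hi, c t = Pr (D.fl θ) → θ = m ∨ θ ∈ Ioo lo hi) {a b t₁ θ₁ : ℝ}
    (hab : ∀ t ∈ Ioo a b, ∃ θ, c t = Pr (D.fl θ)) (ht₁ : t₁ ∈ Ioo a b) (hθ₁ : θ₁ ∈ Ioo lo hi)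
    (h1 : c t₁ = Pr (D.fl θ₁)) : False := by
  obtain ⟨r, hr, hL⟩ := local_floor hLIN hDEV hF hc hfoot hθ₁ h1
  set s₀ := min (t₁ + r / 2) ((t₁ + b) / 2) with hs₀
  have hs1 : t₁ < s₀ := lt_min (by linarith) (by linarith [ht₁.2])
  have hs2 : s₀ ≤ t₁ + r / 2 := min_le_left _ _
  have hs3 : s₀ < b := (min_le_right _ _).trans_lt (by linarith [ht₁.2])
  obtain ⟨e, he, hL'⟩ := hL s₀ (by
    rw [Real.ball_eq_Ioo]
    exact ⟨by linarith, by linarith⟩) hs1.ne' (hab s₀ ⟨ht₁.1.trans hs1, hs3⟩)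
  obtain ⟨t₂, h2, h3⟩ := right_end hLIN hDEV hF hc hfoot hlo hhi hleg he hr hL'
  have hc' : IsGeo fun t => c (-t) := by
    obtain ⟨ε, hε, hgeo⟩ := hc
    refine ⟨ε, hε, fun s t hst => ?_⟩
    have h4 : |(-s) - (-t)| = |s - t| := by
      rw [show -s - -t = -(s - t) by ring, abs_neg]
    show dist (c (-s)) (c (-t)) = |s - t|
    rw [hgeo (-s) (-t) (by rw [h4]; exact hst), h4]
  obtain ⟨t₃, h4, h5⟩ := right_end hLIN hDEV hF hc' hfoot hlo hhi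
    (fun t θ hθ h => hleg (-t) θ hθ h) (t₁ := -t₁) (θ₁ := θ₁) (e := -e)
    (by rcases he with h | h
        · right; rw [h]
        · left; rw [h, neg_neg]) hr (by
      intro s hs
      obtain ⟨θ, hθ, h6, h7⟩ := hL' (-s) (by
        rw [Real.ball_eq_Ioo] at hs ⊢
        exact ⟨by linarith [hs.2], by linarith [hs.1]⟩)
      exact ⟨θ, hθ, h6, by rw [h7]; ring⟩)
  have h6 : e * ((t₂ - t₁) + (t₃ - -t₁)) = 0 := by linarith
  rcases mul_eq_zero.1 h6 with h7 | h7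
  · rcases he with h | h <;> rw [h] at h7 <;> norm_num at h7
  · linarith

end NrnAux

open NrnAux

theorem nrn_proof (hCON : Stmt_CON) (hLIN : Stmt_LIN) (hDEV : Stmt_DEV) : Stmt_NRN := by
  intro D X _ Pr hF c hc a b hab h
  have hpi := Real.pi_pos
  -- corners
  have hcorner : ∀ j : ℤ, ∀ t, c t ≠ Pr (D.fl (j * Real.pi)) := by
    intro j t ht'
    obtain ⟨g1, g2⟩ := angAB_bounds D
    rcases str_corner D X Pr hF j with h' | h'
    · exact hCON X c hc _ _ hF.coneB g1 g2 t (ht'.trans h')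
    · exact hCON X c hc _ _ hF.coneA g1 g2 t (ht'.trans h')
  have h0 : ∀ t, c t ≠ Pr (D.fl 0) := by
    intro t
    have := hcorner 0 t
    rwa [Int.cast_zero, zero_mul] at this
  have hpi' : ∀ t, c t ≠ Pr (D.fl Real.pi) := by
    intro t
    have := hcorner 1 t
    rwa [Int.cast_one, one_mul] at this
  -- a time with a point different from `Q`
  obtain ⟨t₁, ht₁, hQ⟩ : ∃ t ∈ Ioo a b, c t ≠ Pr (D.fl (Real.pi / 2)) := by
    obtain ⟨ε, hε, hgeo⟩ := hc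
    by_contra hcon
    push Not at hcon
    set δ := min (ε / 2) ((b - a) / 4) with hδ
    have hδ0 : 0 < δ := lt_min (by linarith) (by linarith)
    have hδ1 : δ ≤ ε / 2 := min_le_left _ _
    have hδ2 : δ ≤ (b - a) / 4 := min_le_right _ _
    have e1 := hcon ((a + b) / 2) ⟨by linarith, by linarith⟩
    have e2 := hcon ((a + b) / 2 + δ) ⟨by linarith, by linarith⟩
    have e3 := hgeo ((a + b) / 2 + δ) ((a + b) / 2) (by
      rw [add_sub_cancel_left, abs_of_pos hδ0]; linarith)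
    rw [e1, e2, dist_self, add_sub_cancel_left, abs_of_pos hδ0] at e3
    linarith
  obtain ⟨θ', hθ'⟩ := h t₁ ht₁
  obtain ⟨θ₁, hθ₁, hθ₁'⟩ := floor_fold hF θ'
  have h1 : c t₁ = Pr (D.fl θ₁) := hθ'.trans hθ₁'
  have n0 : θ₁ ≠ 0 := by
    rintro rfl
    exact h0 t₁ h1
  have n1 : θ₁ ≠ Real.pi := by
    rintro rfl
    exact hpi' t₁ h1
  have n2 : θ₁ ≠ Real.pi / 2 := by
    rintro rfl
    exact hQ h1
  rcases lt_or_gt_of_ne n2 with h2 | h2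
  · refine no_leg hLIN hDEV hF hc (lo := 0) (hi := Real.pi / 2) (c₁ := D.θf) (m := Real.pi / 2)
      (fun θ hθ => ⟨0, Or.inl ⟨by simp, by simpa using hθ.1, by simpa using hθ.2⟩⟩)
      le_rfl (by linarith) ?_ h ht₁ ⟨lt_of_le_of_ne hθ₁.1 (Ne.symm n0), h2⟩ h1
    intro t θ hθ hct
    rcases eq_or_lt_of_le hθ.2 with h3 | h3
    · exact Or.inl h3
    · refine Or.inr ⟨lt_of_le_of_ne hθ.1 ?_, h3⟩
      rintro rfl
      exact h0 t hct
  · refine no_leg hLIN hDEV hF hc (lo := Real.pi / 2) (hi := Real.pi)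
      (c₁ := -D.θf + ((1 : ℤ) : ℝ) * Real.pi) (m := Real.pi / 2)
      (fun θ hθ => ⟨1, Or.inr (Or.inl ⟨rfl, ?_, ?_⟩)⟩)
      (by linarith) le_rfl ?_ h ht₁ ⟨h2, lt_of_le_of_ne hθ₁.2 n1⟩ h1
    · rw [Int.cast_one, one_mul]
      linarith [hθ.1]
    · rw [Int.cast_one, one_mul]
      exact hθ.2
    intro t θ hθ hct
    rcases eq_or_lt_of_le hθ.1 with h3 | h3
    · exact Or.inl h3.symm
    · refine Or.inr ⟨h3, lt_of_le_of_ne hθ.2 ?_⟩
      rintro rfl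
      exact hpi' t hct

end Pool.MP8e
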