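import Pool.Agent.Work.MP_8e9dbb.B.Beta

/-!
# MP_8e9dbb_gt, block SPD (helper79): a lift of a geodesic has speed at most one
-/

open MeasureTheory Filter Topology Metric Set
open scoped ContDiff

namespace Pool.MP8e

namespace SpdAux

variable (D : QD)

theorem nm_nonneg (p : ℝ) (u : ℝ × ℝ) : 0 ≤ D.nm p u := Real.sqrt_nonneg _

theorem nm_smul (p c : ℝ) (u : ℝ × ℝ) : D.nm p (c • u) = |c| * D.nm p u := by
  unfold QD.nm
  rw [← Real.sqrt_sq_eq_abs, ← Real.sqrt_mul (sq_nonneg c)]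
  congr 1
  simp only [Prod.smul_fst, Prod.smul_snd, smul_eq_mul]
  ring

theorem nm_lower (p : ℝ) {m : ℝ} (hA : m ≤ D.A p) (hR : m ≤ D.R p) (hm : 0 ≤ m) (u : ℝ × ℝ) :
    m * ‖u‖ ≤ D.nm p u := by
  unfold QD.nm
  rw [Prod.norm_def, Real.norm_eq_abs, Real.norm_eq_abs]
  have h1 : m * |u.1| ≤ √((D.A p * u.1) ^ 2 + (D.R p * u.2) ^ 2) := by
    refine le_trans ?_ (Real.abs_le_sqrt (x := D.A p * u.1) (by nlinarith [sq_nonneg (D.R p * u.2)]))
    rw [abs_mul, abs_of_nonneg (hm.trans hA)]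
    exact mul_le_mul_of_nonneg_right hA (abs_nonneg _)
  have h2 : m * |u.2| ≤ √((D.A p * u.1) ^ 2 + (D.R p * u.2) ^ 2) := by
    refine le_trans ?_ (Real.abs_le_sqrt (x := D.R p * u.2) (by nlinarith [sq_nonneg (D.A p * u.1)]))
    rw [abs_mul, abs_of_nonneg (hm.trans hR)]
    exact mul_le_mul_of_nonneg_right hR (abs_nonneg _)
  rcases max_cases |u.1| |u.2| with ⟨h, _⟩ | ⟨h, _⟩
  · rw [h]
    exact h1
  · rw [h]
    exact h2

theorem nm_continuous (p : ℝ) : Continuous (D.nm p) := by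
  unfold QD.nm
  fun_prop

/-- the lower bound of the distance near a point of the strip -/
theorem exists_lower {X : Type} [MetricSpace X] {Pr : ℝ × ℝ → X} (hF : Facts D X Pr)
    {q : ℝ × ℝ} (hq : D.InS q) : ∃ m > 0, ∃ δ > 0, ∀ x y : ℝ × ℝ, dist x q < δ → dist y q < δ →
      m * ‖x - y‖ ≤ dist (Pr x) (Pr y) := by
  have hp : q.1 ∈ Icc 0 D.ℓ := ⟨hq.1.le, hq.2.le.trans (D.βh_memB q.2).2⟩
  have hA : 0 < D.A q.1 := D.posA _ hp
  have hR : 0 < D.R q.1 := D.posR _ ⟨hq.1, hp.2⟩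
  have hm : 0 < min (D.A q.1) (D.R q.1) := lt_min hA hR
  obtain ⟨δ, hδ, h⟩ := hF.strip q hq.1 hq.2 (min (D.A q.1) (D.R q.1) / 2) (by positivity)
  refine ⟨min (D.A q.1) (D.R q.1) / 2, by positivity, δ, hδ, fun x y hx hy => ?_⟩
  have h1 := (abs_le.1 (h x y hx hy)).1
  have h2 := nm_lower D q.1 (min_le_left (D.A q.1) (D.R q.1)) (min_le_right _ _) hm.le (x - y)
  linarith

/-- the speed at a point of differentiability -/
theorem speed {X : Type} [MetricSpace X] {Pr : ℝ × ℝ → X} (hF : Facts D X Pr)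
    {x : ℝ → ℝ × ℝ} {t a b : ℝ} (hq : D.InS (x t)) (h1 : HasDerivAt (fun u => (x u).1) a t)
    (h2 : HasDerivAt (fun u => (x u).2) b t)
    (hd : ∀ᶠ s in 𝓝 t, dist (Pr (x t)) (Pr (x s)) ≤ |t - s|) : D.nm (x t).1 (a, b) ≤ 1 := by
  have hx : HasDerivAt x (a, b) t := by
    have := h1.prodMk h2
    exact this
  have hslope : Tendsto (fun s => (s - t)⁻¹ • (x s - x t)) (𝓝[≠] t) (𝓝 (a, b)) := by
    have := hx.tendsto_slope
    exact this
  have hnm : Tendsto (fun s => D.nm (x t).1 ((s - t)⁻¹ • (x s - x t))) (𝓝[≠] t)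
      (𝓝 (D.nm (x t).1 (a, b))) := ((nm_continuous D (x t).1).tendsto _).comp hslope
  have hno : Tendsto (fun s => ‖(s - t)⁻¹ • (x s - x t)‖) (𝓝[≠] t) (𝓝 ‖((a, b) : ℝ × ℝ)‖) :=
    hslope.norm
  refine le_of_forall_pos_le_add fun ε hε => ?_
  set C := ‖((a, b) : ℝ × ℝ)‖ with hC
  have hC0 : 0 ≤ C := norm_nonneg _
  obtain ⟨δ, hδ, hs⟩ := hF.strip (x t) hq.1 hq.2 (ε / (C + 1)) (by positivity)
  have hcont : ∀ᶠ s in 𝓝 t, dist (x s) (x t) < δ := hx.continuousAt.eventually (ball_mem_nhds _ hδ)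
  have hlim : Tendsto (fun s => 1 + ε / (C + 1) * ‖(s - t)⁻¹ • (x s - x t)‖) (𝓝[≠] t)
      (𝓝 (1 + ε / (C + 1) * C)) := (hno.const_mul _).const_add _
  have hle : D.nm (x t).1 (a, b) ≤ 1 + ε / (C + 1) * C := by
    refine le_of_tendsto_of_tendsto hnm hlim ?_
    have hev : ∀ᶠ s in 𝓝[≠] t, dist (x s) (x t) < δ ∧ dist (Pr (x t)) (Pr (x s)) ≤ |t - s| ∧ s ≠ t := by
      filter_upwards [hcont.filter_mono nhdsWithin_le_nhds, hd.filter_mono nhdsWithin_le_nhds,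
        self_mem_nhdsWithin] with s h3 h4 h5
      exact ⟨h3, h4, h5⟩
    filter_upwards [hev] with s hs'
    obtain ⟨h3, h4, h5⟩ := hs'
    have h6 := (abs_le.1 (hs (x t) (x s) (by simpa using hδ) h3)).1
    have h7 : 0 < |s - t| := abs_pos.2 (sub_ne_zero.2 h5)
    have h8 : D.nm (x t).1 (x t - x s) = D.nm (x t).1 (x s - x t) := by
      have := nm_smul D (x t).1 (-1) (x s - x t)
      rw [abs_neg, abs_one, one_mul, neg_one_smul, neg_sub] at this
      exact this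
    rw [h8, norm_sub_rev] at h6
    rw [abs_sub_comm] at h4
    rw [nm_smul, norm_smul, Real.norm_eq_abs, abs_inv, inv_mul_le_iff₀ h7]
    have h9 : |s - t| * (1 + ε / (C + 1) * (|s - t|⁻¹ * ‖x s - x t‖)) =
        |s - t| + ε / (C + 1) * ‖x s - x t‖ := by
      field_simp
    rw [h9]
    linarith
  have h10 : ε / (C + 1) * C ≤ ε := by
    rw [div_mul_eq_mul_div, div_le_iff₀ (by positivity)]
    nlinarith
  linarith

end SpdAux

open SpdAux

theorem spd_proof : Stmt_SPD := by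
  intro D X _ Pr hF c hc t₀ δ x hδ hx hl
  obtain ⟨ε₀, hε₀, hgeo⟩ := hc
  have ht₀ : t₀ ∈ ball t₀ δ := mem_ball_self hδ
  obtain ⟨m, hm, δ₁, hδ₁, hlow⟩ := exists_lower D hF (hl t₀ ht₀).1
  have hcont : ContinuousAt x t₀ := hx.continuousAt (ball_mem_nhds _ hδ)
  obtain ⟨δ₂, hδ₂, hδ₂'⟩ := Metric.continuousAt_iff.1 hcont δ₁ hδ₁
  have hδ' : 0 < min δ (min δ₂ (ε₀ / 2)) := by positivity
  refine ⟨min δ (min δ₂ (ε₀ / 2)), hδ', min_le_left _ _, ?_⟩
  have hsub : ball t₀ (min δ (min δ₂ (ε₀ / 2))) ⊆ ball t₀ δ := ball_subset_ball (min_le_left _ _)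
  have hdist : ∀ s ∈ ball t₀ (min δ (min δ₂ (ε₀ / 2))), ∀ t ∈ ball t₀ (min δ (min δ₂ (ε₀ / 2))),
      dist (Pr (x s)) (Pr (x t)) = |s - t| := by
    intro s hs t ht
    rw [(hl s (hsub hs)).2, (hl t (hsub ht)).2]
    apply hgeo
    rw [mem_ball, Real.dist_eq] at hs ht
    have h1 : |s - t₀| < ε₀ / 2 := hs.trans_le ((min_le_right _ _).trans (min_le_right _ _))
    have h2 : |t - t₀| < ε₀ / 2 := ht.trans_le ((min_le_right _ _).trans (min_le_right _ _))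
    have h3 : |s - t| ≤ |s - t₀| + |t - t₀| := by
      have := abs_sub_le s t₀ t
      rw [abs_sub_comm t₀ t] at this
      exact this
    linarith
  have hlip : ∀ s ∈ ball t₀ (min δ (min δ₂ (ε₀ / 2))), ∀ t ∈ ball t₀ (min δ (min δ₂ (ε₀ / 2))),
      ‖x s - x t‖ ≤ m⁻¹ * |s - t| := by
    intro s hs t ht
    have h1 := hlow (x s) (x t)
      (hδ₂' (lt_of_lt_of_le hs ((min_le_right _ _).trans (min_le_left _ _))))
      (hδ₂' (lt_of_lt_of_le ht ((min_le_right _ _).trans (min_le_left _ _))))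
    rw [hdist s hs t ht] at h1
    rw [inv_mul_eq_div, le_div_iff₀ hm]
    linarith
  have hL1 : LipschitzOnWith ⟨m⁻¹, by positivity⟩ (fun t => (x t).1)
      (ball t₀ (min δ (min δ₂ (ε₀ / 2)))) := by
    refine LipschitzOnWith.of_dist_le_mul fun s hs t ht => ?_
    rw [Real.dist_eq, Real.dist_eq]
    refine le_trans ?_ (hlip s hs t ht)
    have := norm_fst_le (x s - x t)
    rw [Real.norm_eq_abs] at this
    exact this
  have hL2 : LipschitzOnWith ⟨m⁻¹, by positivity⟩ (fun t => (x t).2)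
      (ball t₀ (min δ (min δ₂ (ε₀ / 2)))) := by
    refine LipschitzOnWith.of_dist_le_mul fun s hs t ht => ?_
    rw [Real.dist_eq, Real.dist_eq]
    refine le_trans ?_ (hlip s hs t ht)
    have := norm_snd_le (x s - x t)
    rw [Real.norm_eq_abs] at this
    exact this
  refine ⟨⟨_, hL1⟩, ⟨_, hL2⟩, ?_⟩
  filter_upwards [hL1.ae_differentiableWithinAt_of_mem, hL2.ae_differentiableWithinAt_of_mem]
    with t h1 h2 ht
  have hnh : ball t₀ (min δ (min δ₂ (ε₀ / 2))) ∈ 𝓝 t := isOpen_ball.mem_nhds ht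
  have h3 := (h1 ht).differentiableAt hnh
  have h4 := (h2 ht).differentiableAt hnh
  refine speed D hF (hl t (hsub ht)).1 h3.hasDerivAt h4.hasDerivAt ?_
  filter_upwards [hnh] with s hs
  exact (hdist t ht s hs).le

end Pool.MP8e
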