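import Pool.Agent.Work.MP_8e9dbb.B.Beta

/-!
# Block STR (helper81): every time is a time in the strip or a contact
-/

open MeasureTheory Filter Topology Metric Set
open scoped ContDiff

namespace Pool.MP8e

theorem angAB_bounds (D : QD) : 0 < D.angAB ∧ D.angAB < 2 * Real.pi := by
  have hpi := Real.pi_pos
  unfold QD.angAB
  rcases D.cls with ⟨h1, h2, h3, h4⟩ | ⟨h1, h2, h3⟩
  · constructor
    · nlinarith
    · nlinarith
  · rw [h3]
    constructor
    · nlinarith
    · nlinarith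

/-- points of the floor with angle `jπ` are the corners `A`, `B` -/
theorem str_corner (D : QD) (X : Type) [MetricSpace X] (Pr : ℝ × ℝ → X) (hF : Facts D X Pr) (j : ℤ) :
    Pr (D.fl (j * Real.pi)) = Pr (D.β 0, 0) ∨ Pr (D.fl (j * Real.pi)) = Pr (D.β 0, Real.pi) := by
  have hper : ∀ (n : ℕ) p θ, Pr (p, θ + n * (2 * Real.pi)) = Pr (p, θ) := by
    intro n
    induction n with
    | zero => intro p θ; simp
    | succ n ih =>
      intro p θ
      rw [show θ + ((n + 1 : ℕ) : ℝ) * (2 * Real.pi) = (θ + n * (2 * Real.pi)) + 2 * Real.pi by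
        push_cast; ring, hF.per, ih]
  have hperZ : ∀ (n : ℤ) p θ, Pr (p, θ + n * (2 * Real.pi)) = Pr (p, θ) := by
    intro n p θ
    obtain ⟨k, rfl | rfl⟩ := n.eq_nat_or_neg
    · exact_mod_cast hper k p θ
    · have := hper k p (θ + ((-(k : ℤ) : ℤ) : ℝ) * (2 * Real.pi))
      rw [← this]
      congr 2
      push_cast
      ring
  have hβ : D.βh (j * Real.pi) = D.β 0 := by
    have h1 := D.βh_add_int 0 j
    rw [zero_add] at h1
    rw [h1]
    unfold QD.βh
    rw [fold_of_mem le_rfl (by linarith [Real.pi_pos])]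
  unfold QD.fl
  rw [hβ]
  rcases Int.even_or_odd' j with ⟨k, rfl | rfl⟩
  · left
    rw [← hperZ k (D.β 0) 0]
    congr 2
    push_cast
    ring
  · right
    rw [← hperZ k (D.β 0) Real.pi]
    congr 2
    push_cast
    ring

/-- all points of the floor with angle `π/2 + jπ` are the point `Q` -/
theorem str_Q (D : QD) (X : Type) [MetricSpace X] (Pr : ℝ × ℝ → X) (hF : Facts D X Pr) (j : ℤ) :
    Pr (D.fl (Real.pi / 2 + j * Real.pi)) = Pr (D.fl (Real.pi / 2)) := by
  have hper : ∀ (n : ℕ) p θ, Pr (p, θ + n * (2 * Real.pi)) = Pr (p, θ) := by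
    intro n
    induction n with
    | zero => intro p θ; simp
    | succ n ih =>
      intro p θ
      rw [show θ + ((n + 1 : ℕ) : ℝ) * (2 * Real.pi) = (θ + n * (2 * Real.pi)) + 2 * Real.pi by
        push_cast; ring, hF.per, ih]
  have hperZ : ∀ (n : ℤ) p θ, Pr (p, θ + n * (2 * Real.pi)) = Pr (p, θ) := by
    intro n p θ
    obtain ⟨k, rfl | rfl⟩ := n.eq_nat_or_neg
    · exact_mod_cast hper k p θ
    · have := hper k p (θ + ((-(k : ℤ) : ℤ) : ℝ) * (2 * Real.pi))
      rw [← this]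
      congr 2
      push_cast
      ring
  have hβ : D.βh (Real.pi / 2 + j * Real.pi) = D.βh (Real.pi / 2) := D.βh_add_int _ j
  unfold QD.fl
  rw [hβ]
  rcases Int.even_or_odd' j with ⟨k, rfl | rfl⟩
  · rw [← hperZ k _ (Real.pi / 2)]
    congr 2
    push_cast
    ring
  · rw [← hF.flr (Real.pi / 2), ← hperZ (k + 1) _ (-(Real.pi / 2))]
    congr 2
    push_cast
    ring

theorem str_proof (hCON : Stmt_CON) (hCRR : Stmt_CRR) (hCRQ : Stmt_CRQ) (hNRN : Stmt_NRN) :
    Stmt_STR := by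
  intro D X _ Pr hF c hc t
  have hpi := Real.pi_pos
  obtain ⟨p, θ, h0, h1, hpt⟩ := hF.surj (c t)
  rcases h0.eq_or_lt with h0 | h0
  · -- the pole
    exfalso
    refine hCON X c hc (Pr (0, 0)) (2 * Real.pi * D.kN) hF.coneP
      (mul_pos (by linarith) D.kN_pos) ?_ t ?_
    · have := D.kN_lt
      nlinarith
    · rw [← hpt, ← h0, hF.pole]
  rcases h1.lt_or_eq with h1 | h1
  · exact Or.inl ⟨(p, θ), ⟨h0, h1⟩, hpt.symm⟩
  right
  have hfl : c t = Pr (D.fl θ) := by
    rw [← hpt, h1]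
    rfl
  refine ⟨⟨θ, hfl⟩, ?_⟩
  have hball : ∀ δ : ℝ, Ioo (t - δ) (t + δ) ⊆ ball t δ := by
    intro δ s hs
    rw [Real.ball_eq_Ioo]
    exact hs
  -- not a corner
  have hncorner : ∀ j : ℤ, θ ≠ j * Real.pi := by
    rintro j rfl
    obtain ⟨g1, g2⟩ := angAB_bounds D
    rcases str_corner D X Pr hF j with h | h
    · exact hCON X c hc _ _ hF.coneB g1 g2 t (hfl.trans h)
    · exact hCON X c hc _ _ hF.coneA g1 g2 t (hfl.trans h)
  have hreg : ∀ c₁, D.IsFoot θ c₁ → ContactAt D Pr c t := by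
    intro c₁ hfoot
    rcases hCRR D X Pr hF c hc t θ c₁ hfoot hfl with ⟨δ, hδ, h⟩ | h
    · exact (hNRN D X Pr hF c hc (t - δ) (t + δ) (by linarith)
        (fun s hs => h s (hball δ hs))).elim
    · exact h
  obtain ⟨j, hj⟩ : ∃ j : ℤ, j = ⌊θ / Real.pi⌋ := ⟨_, rfl⟩
  have hj1 : (j : ℝ) * Real.pi ≤ θ := by
    have := Int.floor_le (θ / Real.pi)
    rw [← hj, le_div_iff₀ hpi] at this
    exact this
  have hj2 : θ < (j + 1) * Real.pi := by
    have := Int.lt_floor_add_one (θ / Real.pi)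
    rw [← hj, div_lt_iff₀ hpi] at this
    exact this
  have hj3 : (j : ℝ) * Real.pi < θ := lt_of_le_of_ne hj1 (fun h => hncorner j h.symm)
  rcases lt_trichotomy θ (j * Real.pi + Real.pi / 2) with h | h | h
  · exact hreg (D.θf + j * Real.pi) ⟨j, Or.inl ⟨rfl, hj3, h⟩⟩
  · rcases D.cls with ⟨k1, k2, k3, k4⟩ | ⟨k1, k2, k3⟩
    · have hQ : c t = Pr (D.fl (Real.pi / 2)) := by
        rw [hfl, h, add_comm, str_Q D X Pr hF]
      rcases hCRQ D X Pr hF k1 c hc t hQ with ⟨δ, hδ, h⟩ | ⟨δ, hδ, h⟩ | h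
      · exact (hNRN D X Pr hF c hc (t - δ) t (by linarith) h).elim
      · exact (hNRN D X Pr hF c hc t (t + δ) (by linarith) h).elim
      · exact h
    · exact hreg θ ⟨j, Or.inr (Or.inr ⟨k3, by rw [h]; ring, rfl⟩)⟩
  · refine hreg (-D.θf + ((j + 1 : ℤ) : ℝ) * Real.pi) ⟨j + 1, Or.inr (Or.inl ⟨rfl, ?_, ?_⟩)⟩
    · push_cast
      linarith
    · push_cast
      linarith

end Pool.MP8e
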