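import Pool.Agent.Work.MP_8e9dbb.B.ExcT3
import Pool.Agent.Work.MP_8e9dbb.IfaceB
import Pool.Agent.Work.MP_8e9dbb_h15.TComb

/-!
# MP_8e9dbb_gt, phase T: the lower bound (helper19)
-/

open MeasureTheory Filter Topology Metric Set
open scoped ContDiff

namespace Pool.MP8e

/-- the constants of phase T -/
noncomputable def parT {D : QD} {q₀ : ℝ} (hT : ClassT D q₀) : TComb.Par where
  γ := Real.pi * D.κ
  h := D.ρf / D.κ
  Ra := D.R D.pf
  ρ0 := D.R q₀
  γ_pos := mul_pos Real.pi_pos hT.κ_pos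
  γ_le := by have := hT.κ_le; have := Real.pi_pos; nlinarith
  h_pos := div_pos D.ρf_pos hT.κ_pos
  Ra_pos := D.posR _ ⟨(ClassT.pf_mem D).1, (ClassT.pf_mem D).2.le⟩
  ρ0_pos := D.posR _ ⟨hT.q₀_pos, hT.q₀_le.trans (ClassT.pf_mem D).2.le⟩
  I3 := by
    intro h
    have hpi := Real.pi_pos
    have h5 : 5 * D.κ ≤ 1 := by
      by_contra hn
      push Not at hn
      nlinarith
    have := hT.I3 h5
    have hκ := hT.κ_pos.ne'
    have e : Real.pi * D.κ / Real.pi * (D.ρf / D.κ) = D.ρf := by field_simp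
    rw [e]; exact this

section
variable {D : QD} {q₀ : ℝ} (hT : ClassT D q₀)

theorem parT_κ : (parT hT).κ = D.κ := by
  unfold TComb.Par.κ parT
  simp only
  field_simp

theorem parT_q : (parT hT).q = 1 - 3 * D.κ := by
  unfold TComb.Par.q; rw [parT_κ]

theorem parT_c_cos : (parT hT).c * Real.cos (Real.pi * D.κ / 2) =
    2 * (D.ρf / D.κ) * Real.sin (Real.pi * D.κ / 2) := TComb.c_cos (P := parT hT)

end

namespace ExT

variable {D : QD} {q₀ a b : ℝ} {p θ v w : ℝ → ℝ} {j₀ j₁ : ℤ} {ϑ₀ ϑ₁ : ℝ}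
variable (X : ExT D q₀ a b p θ v w j₀ j₁ ϑ₀ ϑ₁)
include X

/-- projection of a straight excursion on the bisecting direction -/
theorem chord (hs : ∀ t ∈ Ioo a b, D.f (p t) = D.κ) :
    D.κ * (b - a) * Real.cos ((A0 D a v ϑ₀ - A1 D b v ϑ₁) / 2) =
      2 * D.ρf * Real.sin (((j₁ : ℝ) - j₀) * (Real.pi * D.κ) / 2) +
      D.ρf * (Real.tan (D.κ * ϑ₁) - Real.tan (D.κ * ϑ₀)) *
        Real.cos (((j₁ : ℝ) - j₀) * (Real.pi * D.κ) / 2) := by
  have hsum := X.sum
  rw [X.E_zero hs, add_zero] at hsum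
  have hl := X.len hs
  have r0 := X.Rv0
  have r1 := X.Rv1
  have k0 := X.K0
  have k1 := X.K1
  have hK := X.K_eq
  rw [hl, r0, r1]
  rw [k0, k1] at hK
  set x := A0 D a v ϑ₀
  set y := A1 D b v ϑ₁
  rw [← hsum]
  have e1 : Real.sin x = Real.sin ((x + y) / 2 + (x - y) / 2) := by congr 1; ring
  have e2 : Real.cos x = Real.cos ((x + y) / 2 + (x - y) / 2) := by congr 1; ring
  have e3 : Real.sin y = Real.sin ((x + y) / 2 - (x - y) / 2) := by congr 1; ring
  have e4 : Real.cos y = Real.cos ((x + y) / 2 - (x - y) / 2) := by congr 1; ring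
  rw [e1, e2, e3, e4] at hK ⊢
  rw [Real.sin_add, Real.cos_add, Real.sin_sub, Real.cos_sub] at hK ⊢
  have h1 := Real.sin_sq_add_cos_sq ((x - y) / 2)
  set m := (x + y) / 2
  set φ := (x - y) / 2
  linear_combination (Real.sin φ) * hK + (2 * D.ρf * Real.sin m +
    D.ρf * (Real.tan (D.κ * ϑ₁) - Real.tan (D.κ * ϑ₀)) * Real.cos m) * h1

theorem excPos : TComb.ExcPos (parT X.hT) (j₁ - j₀) (A0 D a v ϑ₀) (A1 D b v ϑ₁)
    (D.ρf / D.κ * Real.tan (D.κ * ϑ₀)) (D.ρf / D.κ * Real.tan (D.κ * ϑ₁))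
    (D.R (p a) * w a / D.κ) (b - a) := by
  have hκ := X.hT.κ_pos
  have hcc := parT_c_cos X.hT
  refine ⟨div_pos X.K_pos hκ, ?_⟩
  have hsum := X.sum
  have hstraight : (∀ t ∈ Ioo a b, D.f (p t) = D.κ) →
      (j₁ - j₀ = 1 ∧ A0 D a v ϑ₀ + A1 D b v ϑ₁ = (parT X.hT).γ ∧
        ((parT X.hT).c + D.ρf / D.κ * Real.tan (D.κ * ϑ₁) - D.ρf / D.κ * Real.tan (D.κ * ϑ₀)) *
          Real.cos ((parT X.hT).γ / 2) ≤ b - a) ∨
      (2 ≤ j₁ - j₀ ∧ A0 D a v ϑ₀ + A1 D b v ϑ₁ = ((j₁ - j₀ : ℤ) : ℝ) * (parT X.hT).γ ∧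
        (parT X.hT).c * Real.cos ((parT X.hT).γ / 2) ≤ b - a ∧
        (A0 D a v ϑ₀ = Real.pi / 2 → A1 D b v ϑ₁ = Real.pi / 2 →
          2 * (parT X.hT).h ≤ b - a)) := by
    intro hs
    have hk := X.k_pos hs
    rw [X.E_zero hs, add_zero] at hsum
    rcases hk.eq_or_lt with h1 | h1
    · left
      have h1r : ((j₁ : ℝ) - j₀) = 1 := by exact_mod_cast h1.symm
      refine ⟨h1.symm, by rw [hsum, h1r, one_mul]; rfl, ?_⟩
      have hc := X.chord hs
      rw [h1r, one_mul] at hc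
      have hle : D.κ * (b - a) * Real.cos ((A0 D a v ϑ₀ - A1 D b v ϑ₁) / 2) ≤
          D.κ * (b - a) := by
        have := Real.cos_le_one ((A0 D a v ϑ₀ - A1 D b v ϑ₁) / 2)
        have h2 : 0 ≤ D.κ * (b - a) := mul_nonneg hκ.le (by linarith [X.arc.lt])
        nlinarith
      rw [hc] at hle
      show ((parT X.hT).c + _ - _) * Real.cos (Real.pi * D.κ / 2) ≤ b - a
      have e : ((parT X.hT).c + D.ρf / D.κ * Real.tan (D.κ * ϑ₁) -
          D.ρf / D.κ * Real.tan (D.κ * ϑ₀)) * Real.cos (Real.pi * D.κ / 2) =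
          (2 * D.ρf * Real.sin (Real.pi * D.κ / 2) +
      D.ρf * (Real.tan (D.κ * ϑ₁) - Real.tan (D.κ * ϑ₀)) *
        Real.cos (Real.pi * D.κ / 2)) / D.κ := by
        rw [sub_mul, add_mul, hcc]
        field_simp
        ring
      rw [e, div_le_iff₀ hκ]
      linarith
    · right
      have hk2 : 2 ≤ j₁ - j₀ := by omega
      refine ⟨hk2, by rw [hsum]; push_cast; rfl, ?_, fun h2 h3 => ?_⟩
      · have := X.len_big hs hk2
        show (parT X.hT).c * Real.cos (Real.pi * D.κ / 2) ≤ b - a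
        rw [hcc]
        have e : 2 * (D.ρf / D.κ) * Real.sin (Real.pi * D.κ / 2) =
          2 * D.ρf * Real.sin (Real.pi * D.κ / 2) / D.κ := by ring
        rw [e, div_le_iff₀ hκ]
        linarith
      · have hl := X.len hs
        rw [X.Rv0, X.Rv1, h2, h3, Real.cos_pi_div_two, Real.sin_pi_div_two] at hl
        show 2 * (D.ρf / D.κ) ≤ b - a
        have e : 2 * (D.ρf / D.κ) = 2 * D.ρf / D.κ := by ring
        rw [e, div_le_iff₀ hκ]
        linarith
  rcases X.dich with hv | hs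
  · by_cases h3 : 3 * D.κ < 1
    · right; right
      refine ⟨X.k_nonneg, ?_, E D a b θ v, by rw [hsum]; push_cast; rfl, ?_, ?_, X.E_pos hv h3⟩
      · have := X.len_visit hv h3
        show (parT X.hT).c * Real.cos (Real.pi * D.κ / 2) ≤ b - a
        rw [hcc]
        have e : 2 * (D.ρf / D.κ) * Real.sin (Real.pi * D.κ / 2) =
          2 * D.ρf * Real.sin (Real.pi * D.κ / 2) / D.κ := by ring
        rw [e, div_le_iff₀ hκ]
        linarith
      · have h1 := X.E_ge hv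
        rw [parT_κ, parT_q]
        have e : D.κ * (D.R (p a) * w a / D.κ) = D.R (p a) * w a := by field_simp
        rw [e]; exact h1
      · have h1 := X.E_le' hv
        rw [parT_κ, parT_q]
        have e : D.κ * (D.R (p a) * w a / D.κ) = D.R (p a) * w a := by field_simp
        rw [e]; exact h1
    · rcases hstraight (X.straight_of h3) with h | h
      · exact Or.inl h
      · exact Or.inr (Or.inl h)
  · rcases hstraight hs with h | h
    · exact Or.inl h
    · exact Or.inr (Or.inl h)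

end ExT

end Pool.MP8e
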