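import Pool.Agent.Work.MP_8e9dbb.B.TLow

/-!
# MP_8e9dbb_gt, phase T: excursions of both orientations (helper19)
-/

open MeasureTheory Filter Topology Metric Set
open scoped ContDiff

namespace Pool.MP8e

/-- index of the floor piece -/
noncomputable def jf (x : ℝ) : ℤ := ⌊x / Real.pi⌋

/-- angle with the foot -/
noncomputable def vf (x : ℝ) : ℝ := x - Real.pi / 2 - jf x * Real.pi

theorem jf_vf (x : ℝ) : x = Real.pi / 2 + jf x * Real.pi + vf x := by
  unfold vf; ring

/-- not a corner -/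
def NC (x : ℝ) : Prop := ∀ j : ℤ, x ≠ j * Real.pi

theorem NC.abs_lt {x : ℝ} (h : NC x) : |vf x| < Real.pi / 2 := by
  have hpi := Real.pi_pos
  have h1 : (jf x : ℝ) ≤ x / Real.pi := Int.floor_le _
  have h2 : x / Real.pi < jf x + 1 := Int.lt_floor_add_one _
  rw [le_div_iff₀ hpi] at h1
  rw [div_lt_iff₀ hpi] at h2
  have h3 : (jf x : ℝ) * Real.pi < x := lt_of_le_of_ne h1 (fun h' => h (jf x) h'.symm)
  unfold vf
  rw [_root_.abs_lt]
  constructor <;> linarith

theorem jf_unique {x : ℝ} {j : ℤ} (h1 : j * Real.pi < x) (h2 : x < j * Real.pi + Real.pi) :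
    jf x = j ∧ NC x := by
  have hpi := Real.pi_pos
  constructor
  · unfold jf
    rw [Int.floor_eq_iff]
    constructor
    · rw [le_div_iff₀ hpi]; exact h1.le
    · rw [div_lt_iff₀ hpi]; linarith
  · intro i hi
    rw [hi] at h1 h2
    have h3 : (j : ℝ) < i := lt_of_mul_lt_mul_right h1 hpi.le
    have h4 : (i : ℝ) < j + 1 := by
      have : (i : ℝ) * Real.pi < (j + 1) * Real.pi := by linarith
      exact lt_of_mul_lt_mul_right this hpi.le
    have h5 : j < i := by exact_mod_cast h3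
    have h6 : i < j + 1 := by exact_mod_cast h4
    omega

theorem NC.bounds {x : ℝ} (h : NC x) : jf x * Real.pi < x ∧ x < jf x * Real.pi + Real.pi := by
  have := h.abs_lt
  rw [_root_.abs_lt] at this
  unfold vf at this
  constructor <;> linarith [this.1, this.2]

theorem NC.shift {x : ℝ} (h : NC x) (m : ℤ) : NC (x + m * (2 * Real.pi)) ∧
    jf (x + m * (2 * Real.pi)) = jf x + 2 * m ∧ vf (x + m * (2 * Real.pi)) = vf x := by
  have hb := h.bounds
  have h1 := jf_unique (x := x + m * (2 * Real.pi)) (j := jf x + 2 * m)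
    (by push_cast; linarith [hb.1]) (by push_cast; linarith [hb.2])
  refine ⟨h1.2, h1.1, ?_⟩
  unfold vf
  rw [h1.1]; push_cast; ring

theorem NC.neg {x : ℝ} (h : NC x) (n : ℤ) : NC (-x + n * (2 * Real.pi)) ∧
    jf (-x + n * (2 * Real.pi)) = -jf x - 1 + 2 * n ∧ vf (-x + n * (2 * Real.pi)) = -vf x := by
  have hb := h.bounds
  have h1 := jf_unique (x := -x + n * (2 * Real.pi)) (j := -jf x - 1 + 2 * n)
    (by push_cast; linarith [hb.2]) (by push_cast; linarith [hb.1])
  refine ⟨h1.2, h1.1, ?_⟩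
  unfold vf
  rw [h1.1]; push_cast; ring

theorem NC.neg' {x : ℝ} (h : NC x) : NC (-x) ∧ jf (-x) = -jf x - 1 ∧ vf (-x) = -vf x := by
  have := h.neg 0
  simpa using this

theorem fold_neg (θ : ℝ) : fold (-θ) = fold θ := by
  unfold fold; rw [Real.cos_neg]

/-- cosine of the direction -/
noncomputable def HH (κ x v w : ℝ) : ℝ := w * Real.cos (κ * vf x) + v * Real.sin (κ * vf x)

section
variable {D : QD} {q₀ : ℝ} {a b : ℝ} {p θ v w : ℝ → ℝ}

/-- the Clairaut constant does not vanish -/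
theorem wnz (hT : ClassT D q₀) (h : Exc D a b p θ v w) (ha : NC (θ a)) (hb : NC (θ b)) :
    (∀ t ∈ Icc a b, 0 < w t) ∨ (∀ t ∈ Icc a b, w t < 0) := by
  have ma : a ∈ Icc a b := ⟨le_rfl, h.arc.lt.le⟩
  have mb : b ∈ Icc a b := ⟨h.arc.lt.le, le_rfl⟩
  have hd := dep hT h.arc h.pa h.ins ha.abs_lt (jf (θ a)) (jf_vf _)
  have hr := arr hT h.arc h.pb h.ins hb.abs_lt (jf (θ b)) (jf_vf _)
  rcases lt_trichotomy (D.R (p a) * w a) 0 with hK | hK | hK
  · right
    intro t ht
    have e := h.arc.K_eq ma ht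
    have hR := h.arc.posR ht
    by_contra hn
    push Not at hn
    have := mul_nonneg hR.le hn
    linarith
  · exfalso
    have hw : ∀ t ∈ Icc a b, w t = 0 := by
      intro t ht
      have e := h.arc.K_eq ma ht
      rw [hK] at e
      rcases mul_eq_zero.1 e.symm with h1 | h1
      · exact absurd h1 (h.arc.posR ht).ne'
      · exact h1
    have hv : v a = v b := Arc.const_of h.arc.cv (fun t ht => by
      have := h.arc.dv t ht
      rw [hw t (Ioo_subset_Icc_self ht)] at this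
      exact this.congr_deriv (by ring)) ma mb
    rw [hw a ma] at hd
    rw [hw b mb] at hr
    have c0 := cos_pos_of hT.κ_pos hT.κ_le ha.abs_lt
    have c1 := cos_pos_of hT.κ_pos hT.κ_le hb.abs_lt
    have h1 : v a < 0 := by
      by_contra hn
      push Not at hn
      have := mul_nonneg hn c0.le
      linarith
    have h2 : 0 < v b := by
      by_contra hn
      push Not at hn
      have := mul_nonpos_of_nonpos_of_nonneg hn c1.le
      linarith
    linarith
  · left
    intro t ht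
    have e := h.arc.K_eq ma ht
    have hR := h.arc.posR ht
    by_contra hn
    push Not at hn
    have := mul_nonpos_of_nonneg_of_nonpos hR.le hn
    linarith

theorem tan_bd (hT : ClassT D q₀) {x : ℝ} (hx : NC x) :
    |D.ρf / D.κ * Real.tan (D.κ * vf x)| ≤ (parT hT).c / 2 := by
  have hκ := hT.κ_pos
  have hκ' := hT.κ_le
  have hpi := Real.pi_pos
  have hρ := div_pos D.ρf_pos hκ
  have h1 := _root_.abs_lt.1 hx.abs_lt
  have e : (parT hT).c / 2 = D.ρf / D.κ * Real.tan (Real.pi * D.κ / 2) := by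
    unfold TComb.Par.c parT
    ring
  rw [e, abs_mul, abs_of_pos hρ]
  apply mul_le_mul_of_nonneg_left _ hρ.le
  have hm : ∀ y, |y| < Real.pi / 2 → Real.tan (D.κ * y) ≤ Real.tan (Real.pi * D.κ / 2) := by
    intro y hy
    rw [_root_.abs_lt] at hy
    apply (Real.tan_lt_tan_of_lt_of_lt_pi_div_two _ _ _).le
    · nlinarith [hy.1]
    · nlinarith
    · nlinarith [hy.2]
  rw [abs_le]
  constructor
  · have := hm (-vf x) (by rw [abs_neg]; exact hx.abs_lt)
    rw [mul_neg, Real.tan_neg] at this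
    linarith
  · exact hm _ hx.abs_lt

/-- one excursion, both orientations -/
theorem exc_data (hT : ClassT D q₀) (h : Exc D a b p θ v w) (ha : NC (θ a)) (hb : NC (θ b)) :
    (0 < Real.arccos (HH D.κ (θ a) (v a) (w a)) ∧
      Real.arccos (HH D.κ (θ a) (v a) (w a)) < Real.pi) ∧
    (0 < Real.arccos (HH D.κ (θ b) (v b) (w b)) ∧
      Real.arccos (HH D.κ (θ b) (v b) (w b)) < Real.pi) ∧
    (D.R (p a) * w a / D.κ = D.ρf / D.κ * Real.cos (Real.arccos (HH D.κ (θ a) (v a) (w a))) +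
      D.ρf / D.κ * Real.tan (D.κ * vf (θ a)) *
        Real.sin (Real.arccos (HH D.κ (θ a) (v a) (w a)))) ∧
    (D.R (p a) * w a / D.κ = D.ρf / D.κ * Real.cos (Real.arccos (HH D.κ (θ b) (v b) (w b))) -
      D.ρf / D.κ * Real.tan (D.κ * vf (θ b)) *
        Real.sin (Real.arccos (HH D.κ (θ b) (v b) (w b)))) ∧
    TComb.Exc (parT hT) (jf (θ b) - jf (θ a)) (Real.arccos (HH D.κ (θ a) (v a) (w a)))
      (Real.arccos (HH D.κ (θ b) (v b) (w b))) (D.ρf / D.κ * Real.tan (D.κ * vf (θ a)))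
      (D.ρf / D.κ * Real.tan (D.κ * vf (θ b))) (D.R (p a) * w a / D.κ) (b - a) := by
  have hκ := hT.κ_pos.ne'
  rcases wnz hT h ha hb with hw | hw
  · have X : ExT D q₀ a b p θ v w (jf (θ a)) (jf (θ b)) (vf (θ a)) (vf (θ b)) :=
      ⟨hT, h.arc, hw, h.pa, h.pb, h.ins, ha.abs_lt, hb.abs_lt, jf_vf _, jf_vf _⟩
    have e0 : Real.arccos (HH D.κ (θ a) (v a) (w a)) = ExT.A0 D a v (vf (θ a)) := by
      rw [← Real.arccos_cos X.A0_mem.1.le X.A0_mem.2.le]
      congr 1
      unfold ExT.A0 HH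
      rw [Real.cos_sub, X.arc.cosψ X.hw X.ma, X.arc.sinψ X.hw X.ma]
      ring
    have e1 : Real.arccos (HH D.κ (θ b) (v b) (w b)) = ExT.A1 D b v (vf (θ b)) := by
      rw [← Real.arccos_cos X.A1_mem.1.le X.A1_mem.2.le]
      congr 1
      unfold ExT.A1 HH
      rw [Real.cos_sub, X.arc.cosψ X.hw X.mb, X.arc.sinψ X.hw X.mb]
    rw [e0, e1]
    refine ⟨X.A0_mem, X.A1_mem, ?_, ?_, Or.inl X.excPos⟩
    · rw [X.K0]; ring
    · rw [X.K_eq, X.K1]; ring
  · have na := ha.neg'
    have nb := hb.neg'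
    have X : ExT D q₀ a b p (fun t => -θ t) v (fun t => -w t) (jf (-θ a)) (jf (-θ b))
        (vf (-θ a)) (vf (-θ b)) := by
      refine ⟨hT, h.arc.mirror, fun t ht => by linarith [hw t ht], ?_, ?_, ?_, na.1.abs_lt,
        nb.1.abs_lt, jf_vf _, jf_vf _⟩
      · show p a = D.βh (-θ a)
        unfold QD.βh; rw [fold_neg]; exact h.pa
      · show p b = D.βh (-θ b)
        unfold QD.βh; rw [fold_neg]; exact h.pb
      · intro t ht
        show p t < D.βh (-θ t)
        unfold QD.βh; rw [fold_neg]; exact h.ins t ht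
    have e0 : Real.pi - Real.arccos (HH D.κ (θ a) (v a) (w a)) = ExT.A0 D a v (vf (-θ a)) := by
      rw [← Real.arccos_cos X.A0_mem.1.le X.A0_mem.2.le, ← Real.arccos_neg]
      congr 1
      unfold ExT.A0 HH
      rw [Real.cos_sub, X.arc.cosψ X.hw X.ma, X.arc.sinψ X.hw X.ma, na.2.2,
        show D.κ * -vf (θ a) = -(D.κ * vf (θ a)) by ring, Real.cos_neg, Real.sin_neg]
      ring
    have e1 : Real.pi - Real.arccos (HH D.κ (θ b) (v b) (w b)) = ExT.A1 D b v (vf (-θ b)) := by
      rw [← Real.arccos_cos X.A1_mem.1.le X.A1_mem.2.le, ← Real.arccos_neg]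
      congr 1
      unfold ExT.A1 HH
      rw [Real.cos_sub, X.arc.cosψ X.hw X.mb, X.arc.sinψ X.hw X.mb, nb.2.2,
        show D.κ * -vf (θ b) = -(D.κ * vf (θ b)) by ring, Real.cos_neg, Real.sin_neg]
      ring
    have m0 := X.A0_mem
    have m1 := X.A1_mem
    have hP := X.excPos
    have k0 := X.K0
    have k1 := X.K1
    have kk := X.K_eq
    rw [← e0] at m0 k0 hP
    rw [← e1] at m1 k1 hP
    rw [na.2.2, show D.κ * -vf (θ a) = -(D.κ * vf (θ a)) by ring, Real.tan_neg,
      Real.cos_pi_sub, Real.sin_pi_sub] at k0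
    rw [nb.2.2, show D.κ * -vf (θ b) = -(D.κ * vf (θ b)) by ring, Real.tan_neg,
      Real.cos_pi_sub, Real.sin_pi_sub] at k1
    refine ⟨⟨by linarith [m0.2], by linarith [m0.1]⟩, ⟨by linarith [m1.2], by linarith [m1.1]⟩,
      ?_, ?_, Or.inr ?_⟩
    · field_simp
      linarith
    · field_simp
      linarith
    · have ek : -(jf (θ b) - jf (θ a)) = jf (-θ b) - jf (-θ a) := by
        rw [na.2.1, nb.2.1]; ring
      have ew0 : -(D.ρf / D.κ * Real.tan (D.κ * vf (θ a))) =
          D.ρf / D.κ * Real.tan (D.κ * vf (-θ a)) := by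
        rw [na.2.2, show D.κ * -vf (θ a) = -(D.κ * vf (θ a)) by ring, Real.tan_neg]; ring
      have ew1 : -(D.ρf / D.κ * Real.tan (D.κ * vf (θ b))) =
          D.ρf / D.κ * Real.tan (D.κ * vf (-θ b)) := by
        rw [nb.2.2, show D.κ * -vf (θ b) = -(D.κ * vf (θ b)) by ring, Real.tan_neg]; ring
      have eJ : -(D.R (p a) * w a / D.κ) = D.R (p a) * (-w a) / D.κ := by ring
      rw [ek, ew0, ew1, eJ]
      exact hP

end

end Pool.MP8e
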