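import Pool.Agent.Work.MP_8e9dbb.B.TLow2
import Pool.Agent.Work.MP_8e9dbb.IfaceT

/-!
# MP_8e9dbb_gt, phase T: the lower bound, assembly (helper19)
-/

open MeasureTheory Filter Topology Metric Set
open scoped ContDiff

namespace Pool.MP8e

/-! ### the class -/

theorem DataT.class {D : QD} (h : DataT D) : ∃ q₀, ClassT D q₀ := by
  obtain ⟨q₀, h0, h1, h2, h3⟩ := h.third
  have hpf := ClassT.pf_mem D
  have hκ3 : 3 * D.κ ≤ 1 := by
    rcases D.cls with h' | h'
    · have := h.κ_pos; linarith [h'.1]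
    · linarith [h'.2.1]
  have hN : D.kN = 1 / 3 := by
    set m := min q₀ D.e₀ with hm
    have hm0 : 0 < m := lt_min h0 D.e₀_pos
    have e1 := h2 m ⟨hm0, min_le_left _ _⟩
    have e2 := D.cone0 m ⟨hm0.le, min_le_right _ _⟩
    have hA := D.posA m ⟨hm0.le, (min_le_left _ _).trans (h1.trans hpf.2.le)⟩
    unfold QD.f at e1
    rw [e2] at e1
    rwa [mul_div_assoc, div_self hA.ne', mul_one] at e1
  have e0 : deriv D.R 0 = 1 / 3 * D.A 0 := by
    rw [← hN]; exact D.cone0 0 ⟨le_rfl, D.e₀_pos.le⟩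
  have hℓ : 0 ≤ D.ℓ := hpf.1.le.trans hpf.2.le
  have hA0 := D.posA 0 ⟨le_rfl, hℓ⟩
  refine ⟨q₀, h.κ_pos, ?_, ?_, ?_, h0, h1, ?_, ?_, ?_⟩
  · intro p hp
    rcases hp.1.eq_or_lt with h' | h'
    · rw [← h', e0]; linarith
    · have := h.f_le p ⟨h', hp.2⟩
      have hA := D.posA p hp
      unfold QD.f at this
      rw [div_le_iff₀ hA] at this
      linarith
  · intro p hp
    rcases hp.1.eq_or_lt with h' | h'
    · rw [← h', e0]; nlinarith
    · have := h.f_ge p ⟨h', hp.2⟩
      have hA := D.posA p hp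
      unfold QD.f at this
      rwa [le_div_iff₀ hA] at this
  · intro h3' p hp
    rcases hp.1.eq_or_lt with h' | h'
    · rw [← h', e0]; nlinarith
    · have := h.f_gt (by linarith) p ⟨h', hp.2⟩
      have hA := D.posA p ⟨hp.1, hp.2.le.trans hpf.2.le⟩
      unfold QD.f at this
      rwa [lt_div_iff₀ hA] at this
  · intro p hp
    rcases hp.1.eq_or_lt with h' | h'
    · rw [← h', e0]; ring
    · have := h2 p ⟨h', hp.2⟩
      have hA := D.posA p ⟨hp.1, hp.2.trans (h1.trans hpf.2.le)⟩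
      unfold QD.f at this
      rw [div_eq_iff hA.ne'] at this
      linarith
  · intro h'
    have := h.num1 (by linarith)
    rwa [mul_comm Real.pi D.κ]
  · intro h'
    have := h3 h'
    rwa [mul_comm Real.pi D.κ]

/-! ### contacts -/

theorem foot_T {D : QD} (hθ : D.θf = Real.pi / 2) {x c : ℝ} (h : D.IsFoot x c) :
    NC x ∧ x - c = vf x := by
  obtain ⟨j, hj⟩ := h
  rw [hθ] at hj
  have hpi := Real.pi_pos
  rcases hj with ⟨h1, h2, h3⟩ | ⟨h1, h2, h3⟩ | ⟨-, h1, h2⟩
  · have := jf_unique h2 (by linarith)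
    refine ⟨this.2, ?_⟩
    unfold vf
    rw [this.1, h1]; ring
  · have := jf_unique (x := x) (j := j - 1) (by push_cast; linarith) (by push_cast; linarith)
    refine ⟨this.2, ?_⟩
    unfold vf
    rw [this.1, h1]; push_cast; ring
  · have := jf_unique (x := x) (j := j) (by rw [h2, h1]; linarith) (by rw [h2, h1]; linarith)
    refine ⟨this.2, ?_⟩
    unfold vf
    rw [this.1, h2, h1]; ring

theorem contact_T {D : QD} (hκ : 0 < D.κ) (hθ : D.θf = Real.pi / 2)
    {θm vm wm θp vp wp : ℝ} (h : Contact D θm vm wm θp vp wp) :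
    NC θm ∧ NC θp ∧ (∃ n : ℤ, jf θp = -jf θm - 1 + 2 * n) ∧ vf θp = -vf θm ∧
      HH D.κ θp vp wp = -HH D.κ θm vm wm := by
  rcases h with h | ⟨h, -⟩
  swap
  · exact absurd h (by linarith)
  obtain ⟨c₀, n, h1, h2, -, h4⟩ := h
  obtain ⟨hm, hc⟩ := foot_T hθ h1
  have hp := hm.neg n
  rw [← h2] at hp
  refine ⟨hm, hp.1, ⟨n, hp.2.1⟩, hp.2.2, ?_⟩
  rw [show (2 * D.κ * (θm - c₀) : ℝ) = 2 * (D.κ * vf θm) by rw [hc]; ring] at h4
  have e1 := congrArg Complex.re h4
  have e2 := congrArg Complex.im h4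
  simp only [Complex.add_re, Complex.add_im, Complex.ofReal_re, Complex.ofReal_im,
    Complex.mul_re, Complex.mul_im, Complex.I_re, Complex.I_im, Complex.neg_re, Complex.neg_im,
    Complex.exp_ofReal_mul_I_re, Complex.exp_ofReal_mul_I_im] at e1 e2
  unfold HH
  rw [hp.2.2, show D.κ * -vf θm = -(D.κ * vf θm) by ring, Real.cos_neg, Real.sin_neg]
  have e1' : vp = -(Real.cos (2 * (D.κ * vf θm)) * vm - Real.sin (2 * (D.κ * vf θm)) * wm) := by
    linarith
  have e2' : wp = -(Real.cos (2 * (D.κ * vf θm)) * wm + Real.sin (2 * (D.κ * vf θm)) * vm) := by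
    linarith
  rw [e1', e2', Real.cos_two_mul, Real.sin_two_mul]
  have hs := Real.sin_sq_add_cos_sq (D.κ * vf θm)
  set s := Real.sin (D.κ * vf θm)
  set c := Real.cos (D.κ * vf θm)
  linear_combination (-(2 * c * wm)) * hs

/-! ### periodic sequences -/

/-- extension of a periodic sequence to the integers -/
def ext {M : Type} (n : ℕ) (f : ℕ → M) (i : ℤ) : M := f (i % n).toNat

section ext
variable {M : Type} {n : ℕ} (f : ℕ → M)

theorem ext_add (i : ℤ) : ext n f (i + n) = ext n f i := by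
  unfold ext
  rw [Int.add_emod_right]

theorem ext_nat (hf : ∀ i, f (i + n) = f i) (i : ℕ) : ext n f i = f i := by
  unfold ext
  rw [← Int.natCast_mod, Int.toNat_natCast]
  have h1 : ∀ k m : ℕ, f (m + k * n) = f m := by
    intro k
    induction k with
    | zero => intro m; simp
    | succ k ih =>
      intro m
      rw [← ih m, ← hf (m + k * n)]
      congr 1
      ring
  conv_rhs => rw [← Nat.mod_add_div i n, mul_comm]
  rw [h1]

theorem ext_eq (hn : 0 < n) (hf : ∀ i, f (i + n) = f i) (i : ℤ) :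
    ∃ m : ℕ, (m : ℤ) = i % n ∧ ext n f i = f m ∧ ext n f (i + 1) = f (m + 1) := by
  have hn' : (0 : ℤ) < n := by exact_mod_cast hn
  have h0 := Int.emod_nonneg i hn'.ne'
  refine ⟨(i % n).toNat, Int.toNat_of_nonneg h0, rfl, ?_⟩
  have e : ext n f (i + 1) = ext n f (((i % n).toNat + 1 : ℕ) : ℤ) := by
    unfold ext
    push_cast
    rw [Int.toNat_of_nonneg h0, Int.emod_add_emod]
  rw [e, ext_nat f hf]

end ext

/-! ### closed geodesics with contacts -/

section hit
variable {D : QD} {q₀ L : ℝ} {n : ℕ} {τ : ℕ → ℝ} {p θ v w : ℕ → ℝ → ℝ}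

theorem hit_start (hT : ClassT D q₀) (H : HitData D L n τ p θ v w) (i : ℕ) :
    NC (θ i (τ i)) := by
  obtain ⟨hn, hτ, hp, -, hc, -, hm⟩ := H
  have key : ∀ i, NC (θ (i + 1) (τ (i + 1))) := fun i =>
    (contact_T hT.κ_pos hT.θf_eq (hc i)).2.1
  rcases i with _ | i
  · obtain ⟨n', rfl⟩ : ∃ n', n = n' + 1 := ⟨n - 1, by omega⟩
    obtain ⟨m, hm⟩ := hm 0
    have h1 := hm (τ 0) ⟨le_rfl, (hτ (by norm_num)).le⟩
    have h2 := key n'
    rw [← hp 0, zero_add] at h1
    rw [h1] at h2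
    have h3 := (h2.shift (-m)).1
    have e : θ 0 (τ 0) + m * (2 * Real.pi) + ((-m : ℤ) : ℝ) * (2 * Real.pi) = θ 0 (τ 0) := by
      push_cast; ring
    rwa [e] at h3
  · exact key i

theorem hit_end (hT : ClassT D q₀) (H : HitData D L n τ p θ v w) (i : ℕ) :
    NC (θ i (τ (i + 1))) :=
  (contact_T hT.κ_pos hT.θf_eq (H.2.2.2.2.1 i)).1

/-- sequences: at the start -/
theorem hit_per_start (hT : ClassT D q₀) (H : HitData D L n τ p θ v w) (i : ℕ) :
    vf (θ (i + n) (τ (i + n))) = vf (θ i (τ i)) ∧ v (i + n) (τ (i + n)) = v i (τ i) ∧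
      w (i + n) (τ (i + n)) = w i (τ i) ∧ p (i + n) (τ (i + n)) = p i (τ i) := by
  have hs := hit_start hT H i
  obtain ⟨hn, hτ, hp, -, hc, h6, hm⟩ := H
  obtain ⟨m, hm⟩ := hm i
  have hI : τ i ∈ Icc (τ i) (τ (i + 1)) := ⟨le_rfl, (hτ (Nat.lt_succ_self i)).le⟩
  have h1 := hm (τ i) hI
  have h2 := h6 i (τ i) hI
  rw [hp i, h1]
  exact ⟨(hs.shift m).2.2, h2.2.1, h2.2.2, h2.1⟩

theorem hit_per_end (hT : ClassT D q₀) (H : HitData D L n τ p θ v w) (i : ℕ) :
    vf (θ (i + n) (τ (i + n + 1))) = vf (θ i (τ (i + 1))) ∧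
      v (i + n) (τ (i + n + 1)) = v i (τ (i + 1)) ∧
      w (i + n) (τ (i + n + 1)) = w i (τ (i + 1)) ∧
      jf (θ (i + n) (τ (i + n + 1))) - jf (θ (i + n) (τ (i + n))) =
        jf (θ i (τ (i + 1))) - jf (θ i (τ i)) := by
  have hs := hit_start hT H i
  have he := hit_end hT H i
  obtain ⟨hn, hτ, hp, -, hc, h6, hm⟩ := H
  obtain ⟨m, hm⟩ := hm i
  have hlt := hτ (Nat.lt_succ_self i)
  have hI : τ (i + 1) ∈ Icc (τ i) (τ (i + 1)) := ⟨hlt.le, le_rfl⟩
  have hI0 : τ i ∈ Icc (τ i) (τ (i + 1)) := ⟨le_rfl, hlt.le⟩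
  have e : τ (i + n + 1) = τ (i + 1) + L := by
    rw [← hp (i + 1)]; congr 1; omega
  have h1 := hm _ hI
  have h0 := hm _ hI0
  have h2 := h6 i _ hI
  rw [e, hp i, h1, h0]
  refine ⟨(he.shift m).2.2, h2.2.1, h2.2.2, ?_⟩
  rw [(he.shift m).2.1, (hs.shift m).2.1]
  ring

/-- the total rotation -/
theorem hit_rot (hT : ClassT D q₀) (H : HitData D L n τ p θ v w) :
    ∃ m : ℤ, jf (θ n (τ n)) = jf (θ 0 (τ 0)) + 2 * m := by
  have hs := hit_start hT H 0
  obtain ⟨hn, hτ, hp, -, hc, h6, hm⟩ := H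
  obtain ⟨m, hm⟩ := hm 0
  have h1 := hm (τ 0) ⟨le_rfl, (hτ (by norm_num)).le⟩
  rw [← hp 0, zero_add] at h1
  exact ⟨m, by rw [h1]; exact (hs.shift m).2.1⟩

theorem hit_low (hT : ClassT D q₀) (H : HitData D L n τ p θ v w) :
    2 * ((parT hT).c * Real.cos ((parT hT).γ / 2)) ≤ L := by
  have hn : 0 < n := H.1
  have hτ := H.2.1
  have hp := H.2.2.1
  set k : ℕ → ℤ := fun i => jf (θ i (τ (i + 1))) - jf (θ i (τ i)) with hk
  set aa : ℕ → ℝ := fun i => Real.arccos (HH D.κ (θ i (τ i)) (v i (τ i)) (w i (τ i))) with haa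
  set bb : ℕ → ℝ := fun i => Real.arccos (HH D.κ (θ i (τ (i + 1))) (v i (τ (i + 1)))
    (w i (τ (i + 1)))) with hbb
  set W : ℕ → ℝ := fun i => D.ρf / D.κ * Real.tan (D.κ * vf (θ i (τ i))) with hW
  set W' : ℕ → ℝ := fun i => D.ρf / D.κ * Real.tan (D.κ * vf (θ i (τ (i + 1)))) with hW'
  set J : ℕ → ℝ := fun i => D.R (p i (τ i)) * w i (τ i) / D.κ with hJ
  set l : ℕ → ℝ := fun i => τ (i + 1) - τ i with hl
  have hdat := fun i => exc_data hT (H.2.2.2.1 i) (hit_start hT H i) (hit_end hT H i)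
  have hcon := fun i => contact_T hT.κ_pos hT.θf_eq (H.2.2.2.2.1 i)
  have pk : ∀ i, k (i + n) = k i := fun i => (hit_per_end hT H i).2.2.2
  have paa : ∀ i, aa (i + n) = aa i := fun i => by
    have h := hit_per_start hT H i
    simp only [haa, HH, h.1, h.2.1, h.2.2.1]
  have pbb : ∀ i, bb (i + n) = bb i := fun i => by
    have h := hit_per_end hT H i
    simp only [hbb, HH, h.1, h.2.1, h.2.2.1]
  have pW : ∀ i, W (i + n) = W i := fun i => by
    have h := hit_per_start hT H i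
    simp only [hW, h.1]
  have pW' : ∀ i, W' (i + n) = W' i := fun i => by
    have h := hit_per_end hT H i
    simp only [hW', h.1]
  have pJ : ∀ i, J (i + n) = J i := fun i => by
    have h := hit_per_start hT H i
    simp only [hJ, h.2.2.2, h.2.2.1]
  have pl : ∀ i, l (i + n) = l i := fun i => by
    simp only [hl]
    rw [hp i, show i + n + 1 = i + 1 + n by omega, hp (i + 1)]
    ring
  have cW : ∀ i, W (i + 1) = -W' i := fun i => by
    simp only [hW, hW']
    rw [(hcon i).2.2.2.1, show D.κ * -vf (θ i (τ (i + 1))) = -(D.κ * vf (θ i (τ (i + 1)))) by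
      ring, Real.tan_neg]
    ring
  have ca : ∀ i, aa (i + 1) = Real.pi - bb i := fun i => by
    simp only [haa, hbb]
    rw [(hcon i).2.2.2.2, Real.arccos_neg]
  have hC : TComb.Chain (parT hT) n (ext n k) (ext n aa) (ext n bb) (ext n W) (ext n W')
      (ext n J) (ext n l) := by
    refine ⟨hn, ext_add _, ext_add _, ext_add _, ext_add _, ext_add _, ext_add _, ext_add _,
      fun i => (hdat _).1, fun i => (hdat _).2.1, fun i => tan_bd hT (hit_start hT H _),
      fun i => tan_bd hT (hit_end hT H _), fun i => ?_, fun i => (hdat _).2.2.1,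
      fun i => (hdat _).2.2.2.1, fun i => ?_, fun i => ?_, fun i => (hdat _).2.2.2.2, ?_⟩
    · show 0 ≤ l _
      simp only [hl]
      have := hτ (Nat.lt_succ_self (i % n).toNat)
      simp only [Nat.succ_eq_add_one] at this
      linarith
    · obtain ⟨m, hm0, hm1, hm2⟩ := ext_eq W hn pW i
      obtain ⟨m', hm0', hm1', hm2'⟩ := ext_eq W' hn pW' i
      have : m = m' := by omega
      rw [hm2, hm1', ← this]
      exact cW m
    · obtain ⟨m, hm0, hm1, hm2⟩ := ext_eq aa hn paa i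
      obtain ⟨m', hm0', hm1', hm2'⟩ := ext_eq bb hn pbb i
      have : m = m' := by omega
      rw [hm2, hm1', ← this]
      exact ca m
    · have e : ∑ i ∈ Finset.range n, (ext n k i + 1) = ∑ i ∈ Finset.range n, (k i + 1) :=
        Finset.sum_congr rfl (fun i _ => by rw [ext_nat k pk])
      rw [e]
      choose z hz using fun i => (hcon i).2.2.1
      have e2 : ∑ i ∈ Finset.range n, (k i + 1) =
          ∑ i ∈ Finset.range n, (jf (θ (i + 1) (τ (i + 1))) - jf (θ i (τ i))) +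
          2 * ∑ i ∈ Finset.range n, (z i - jf (θ (i + 1) (τ (i + 1)))) := by
        rw [Finset.mul_sum, ← Finset.sum_add_distrib]
        refine Finset.sum_congr rfl (fun i _ => ?_)
        simp only [hk]
        have := hz i
        linarith
      rw [e2, Finset.sum_range_sub (fun i => jf (θ i (τ i)))]
      obtain ⟨m, hm⟩ := hit_rot hT H
      rw [hm]
      exact ⟨m + ∑ i ∈ Finset.range n, (z i - jf (θ (i + 1) (τ (i + 1)))), by ring⟩
  have hmain := hC.main
  have e : ∑ i ∈ Finset.range n, ext n l i = L := by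
    have e1 : ∑ i ∈ Finset.range n, ext n l i = ∑ i ∈ Finset.range n, (τ (i + 1) - τ i) :=
      Finset.sum_congr rfl (fun i _ => by rw [ext_nat l pl])
    rw [e1, Finset.sum_range_sub]
    have := hp 0
    rw [zero_add] at this
    linarith
  rw [e] at hmain
  exact hmain

end hit

/-! ### no contact -/

theorem free_T {D : QD} {q₀ L : ℝ} (hT : ClassT D q₀) (hL : 0 < L) (h : FreeData D L) :
    False := by
  obtain ⟨p, θ, v, w, h1, h2, -⟩ := h
  have hpl : ∀ t, p t ∈ Icc 0 D.ℓ := fun t =>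
    ⟨(h1 t).1.1.le, (h1 t).1.2.le.trans (D.βh_mem _).2⟩
  have hR : ∀ t, 0 < D.R (p t) := fun t => D.posR _ ⟨(h1 t).1.1, (hpl t).2⟩
  have hA : ∀ t, 0 < D.A (p t) := fun t => D.posA _ (hpl t)
  have hf : ∀ t, 0 < D.f (p t) := fun t => hT.κ_pos.trans_le (hT.f_ge (hpl t))
  have hm : Monotone v := by
    refine monotone_of_deriv_nonneg (fun t => (h1 t).2.dv.differentiableAt) (fun t => ?_)
    rw [(h1 t).2.dv.deriv]
    have := hR t
    have := hf t
    positivity
  have hv : ∀ t ∈ Icc 0 L, v t = v 0 := by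
    intro t ht
    have e1 := hm ht.1
    have e2 := hm ht.2
    have e3 := (h2 0).2.1
    rw [zero_add] at e3
    linarith
  have hw : ∀ t ∈ Ioo 0 L, w t = 0 := by
    intro t ht
    have hd := (h1 t).2.dv
    have hc : HasDerivAt v 0 t := by
      refine (hasDerivAt_const t (v 0)).congr_of_eventuallyEq ?_
      filter_upwards [Ioo_mem_nhds ht.1 ht.2] with x hx
      exact hv x (Ioo_subset_Icc_self hx)
    have he := hd.unique hc
    have hR' := (hR t).ne'
    have hf' := (hf t).ne'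
    rw [div_eq_zero_iff] at he
    rcases he with he | he
    · rcases mul_eq_zero.1 he with h' | h'
      · exact absurd h' hf'
      · exact pow_eq_zero_iff (two_ne_zero) |>.1 h'
    · exact absurd he hR'
  have hcp : ContinuousOn p (Icc 0 L) := fun t _ => (h1 t).2.dp.continuousAt.continuousWithinAt
  obtain ⟨t, ht, hte⟩ := exists_hasDerivAt_eq_slope p (fun t => v t / D.A (p t)) hL hcp
    (fun t _ => (h1 t).2.dp)
  have e3 := (h2 0).1
  rw [zero_add] at e3
  rw [e3, sub_self, zero_div, div_eq_zero_iff] at hte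
  have hu := (h1 t).2.unit
  rw [hw t ht] at hu
  rcases hte with h' | h'
  · rw [h'] at hu; norm_num at hu
  · exact absurd h' (hA t).ne'

/-- **Phase T, lower bound.** -/
theorem tlow_proof : Stmt_TLOW := by
  intro D hD L hG
  obtain ⟨q₀, hT⟩ := hD.class
  rcases hG.2 with h | ⟨n, τ, p, θ, v, w, H⟩
  · exact absurd (free_T hT hG.1 h) id
  · have h1 := hit_low hT H
    have h2 : (parT hT).c * Real.cos ((parT hT).γ / 2) =
      2 * (D.ρf / D.κ) * Real.sin (Real.pi * D.κ / 2) := parT_c_cos hT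
    rw [h2] at h1
    have e : 4 * D.ρf / D.κ * Real.sin (D.κ * Real.pi / 2) =
      2 * (2 * (D.ρf / D.κ) * Real.sin (Real.pi * D.κ / 2)) := by
      rw [mul_comm D.κ Real.pi]; ring
    rw [e]; exact h1

end Pool.MP8e
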