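import Pool.Agent.Work.MP_8e9dbb.IfaceB

/-!
# Block UNC (helper81): two lifts of the same arc agree up to `2πm`
-/

open MeasureTheory Filter Topology Metric Set
open scoped ContDiff

namespace Pool.MP8e

theorem unc_proof (hUNI : Stmt_UNI) : Stmt_UNC := by
  intro D X _ Pr hF c a b p θ v w p' θ' v' w' h h'
  have hab := h.arc.lt
  have hsub : Ioo a b ⊆ Icc a b := Ioo_subset_Icc_self
  obtain ⟨m, hm⟩ := hUNI D X Pr hF (Ioo a b) isPreconnected_Ioo p θ p' θ'
    (h.arc.cθ.mono hsub) (h'.arc.cθ.mono hsub) (fun t ht =>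
      ⟨⟨(h.arc.pos t (hsub ht)).1, h.ins t ht⟩, ⟨(h'.arc.pos t (hsub ht)).1, h'.ins t ht⟩,
        (h.eq t (hsub ht)).trans (h'.eq t (hsub ht)).symm⟩)
  have hA : ∀ t ∈ Icc a b, 0 < D.A (p t) := fun t ht =>
    D.posA _ ⟨(h.arc.pos t ht).1.le, (h.arc.pos t ht).2⟩
  have hR : ∀ t ∈ Icc a b, 0 < D.R (p t) := fun t ht =>
    D.posR _ ⟨(h.arc.pos t ht).1, (h.arc.pos t ht).2⟩
  have hcl : Icc a b ⊆ closure (Ioo a b) := by rw [closure_Ioo hab.ne]
  have hnhds : ∀ t ∈ Ioo a b, Ioo a b ∈ 𝓝 t := fun t ht => Ioo_mem_nhds ht.1 ht.2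
  -- the velocities agree inside
  have hv : ∀ t ∈ Ioo a b, v' t = v t := by
    intro t ht
    have e1 : p' =ᶠ[𝓝 t] p := by
      filter_upwards [hnhds t ht] with s hs using (hm s hs).1
    have d1 := h.arc.dp t ht
    have d2 := (h'.arc.dp t ht).congr_of_eventuallyEq e1.symm
    have d3 := d1.unique d2
    rw [(hm t ht).1] at d3
    have hA' := hA t (hsub ht)
    field_simp at d3
    exact d3.symm
  have hw : ∀ t ∈ Ioo a b, w' t = w t := by
    intro t ht
    have e1 : θ' =ᶠ[𝓝 t] fun s => θ s + m * (2 * Real.pi) := by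
      filter_upwards [hnhds t ht] with s hs using (hm s hs).2
    have d1 : HasDerivAt (fun s => θ s + m * (2 * Real.pi)) (w t / D.R (p t)) t :=
      (h.arc.dθ t ht).add_const _
    have d2 := (h'.arc.dθ t ht).congr_of_eventuallyEq e1.symm
    have d3 := d1.unique d2
    rw [(hm t ht).1] at d3
    have hR' := hR t (hsub ht)
    field_simp at d3
    exact d3.symm
  have Hp : EqOn p' p (Icc a b) :=
    EqOn.of_subset_closure (fun t ht => (hm t ht).1) h'.arc.cp h.arc.cp hsub hcl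
  have Hv : EqOn v' v (Icc a b) := EqOn.of_subset_closure hv h'.arc.cv h.arc.cv hsub hcl
  have Hw : EqOn w' w (Icc a b) := EqOn.of_subset_closure hw h'.arc.cw h.arc.cw hsub hcl
  have Hθ : EqOn θ' (fun t => θ t + m * (2 * Real.pi)) (Icc a b) :=
    EqOn.of_subset_closure (fun t ht => (hm t ht).2) h'.arc.cθ
      (h.arc.cθ.add continuousOn_const) hsub hcl
  exact ⟨m, fun t ht => ⟨Hp ht, Hv ht, Hw ht, Hθ ht⟩⟩

end Pool.MP8e
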