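import Mathlib
import Pool.Agent.Work.MP_8e9dbb.IfaceB

/-!
# Block UNI: uniqueness of lifts
-/

open MeasureTheory Filter Topology Metric Set
open scoped ContDiff

namespace Pool.MP8e

theorem blk_UNI : Stmt_UNI := by
  intro D X _ Pr hF I hI p θ p' θ' hθ hθ' h
  have hpi := Real.pi_pos
  have key : ∀ t ∈ I, p' t = p t ∧ ∃ n : ℤ, θ' t = θ t + n * (2 * Real.pi) := by
    intro t ht
    obtain ⟨h1, h2, h3⟩ := h t ht
    exact hF.inj (p t) (θ t) (p' t) (θ' t) h1.1 h1.2 h2.1.le h2.2.le h3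
  rcases I.eq_empty_or_nonempty with rfl | ⟨t₀, ht₀⟩
  · exact ⟨0, fun t ht => absurd ht (notMem_empty t)⟩
  obtain ⟨-, m, hm⟩ := key t₀ ht₀
  refine ⟨m, fun t ht => ⟨(key t ht).1, ?_⟩⟩
  obtain ⟨-, n, hn⟩ := key t ht
  set g : ℝ → ℝ := fun s => (θ' s - θ s) / (2 * Real.pi) with hg
  have hgc : ContinuousOn g I := (hθ'.sub hθ).div_const _
  have hint : ∀ s ∈ I, ∃ k : ℤ, g s = k := by
    intro s hs
    obtain ⟨-, k, hk⟩ := key s hs
    refine ⟨k, ?_⟩
    simp only [hg, hk]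
    field_simp
    ring
  have g0 : g t₀ = m := by
    simp only [hg, hm]; field_simp; ring
  have g1 : g t = n := by
    simp only [hg, hn]; field_simp; ring
  have hmn : m = n := by
    by_contra hne
    rcases lt_or_gt_of_ne hne with hlt | hlt
    · have hlt' : (m : ℝ) + 1 ≤ n := by exact_mod_cast hlt
      have hmem : (m : ℝ) + 1 / 2 ∈ Icc (g t₀) (g t) := by
        rw [g0, g1]; constructor <;> linarith
      obtain ⟨s, hs, hs2⟩ := hI.intermediate_value ht₀ ht hgc hmem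
      obtain ⟨k, hk⟩ := hint s hs
      rw [hk] at hs2
      have h2 : ((2 * k : ℤ) : ℝ) = ((2 * m + 1 : ℤ) : ℝ) := by push_cast; linarith
      have h3 : 2 * k = 2 * m + 1 := by exact_mod_cast h2
      omega
    · have hlt' : (n : ℝ) + 1 ≤ m := by exact_mod_cast hlt
      have hmem : (n : ℝ) + 1 / 2 ∈ Icc (g t) (g t₀) := by
        rw [g0, g1]; constructor <;> linarith
      obtain ⟨s, hs, hs2⟩ := hI.intermediate_value ht ht₀ hgc hmem
      obtain ⟨k, hk⟩ := hint s hs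
      rw [hk] at hs2
      have h2 : ((2 * k : ℤ) : ℝ) = ((2 * n + 1 : ℤ) : ℝ) := by push_cast; linarith
      have h3 : 2 * k = 2 * n + 1 := by exact_mod_cast h2
      omega
  rw [hn, hmn]

end Pool.MP8e
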