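import Pool.Agent.Work.MP_8e9dbb.IfaceB

/-! Block VAR: the calculus of variations behind the geodesic equations. -/

open MeasureTheory Filter Topology Metric Set
open scoped ContDiff

namespace Pool.MP8e

namespace VARAux

/-- bounded measurable functions are interval integrable -/
theorem int_of_bdd {a b : ℝ} {g : ℝ → ℝ} {M : ℝ} (hab : a ≤ b)
    (hg : AEStronglyMeasurable g (volume.restrict (Ioc a b))) (hM : ∀ t ∈ Icc a b, |g t| ≤ M) :
    IntervalIntegrable g volume a b := by
  rw [intervalIntegrable_iff_integrableOn_Ioc_of_le hab]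
  refine Integrable.of_bound hg M ?_
  rw [ae_restrict_iff' measurableSet_Ioc]
  refine Eventually.of_forall fun t ht => ?_
  exact hM t ⟨ht.1.le, ht.2⟩

/-- the lemma of du Bois-Reymond -/
theorem dbr {a b : ℝ} (hab : a < b) {g : ℝ → ℝ} {M : ℝ}
    (hg : AEStronglyMeasurable g (volume.restrict (Ioc a b))) (hM : ∀ t ∈ Icc a b, |g t| ≤ M)
    (h : ∀ ψ : ℝ → ℝ, (∃ C, LipschitzWith C ψ) → ψ a = 0 → ψ b = 0 →
      ∫ t in a..b, g t * deriv ψ t = 0) :
    ∃ K : ℝ, ∀ᵐ t, t ∈ Ioc a b → g t = K := by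
  have hgi := int_of_bdd hab.le hg hM
  set K : ℝ := (b - a)⁻¹ * ∫ t in a..b, g t with hK
  have hba : b - a ≠ 0 := (sub_pos.mpr hab).ne'
  have hM0 : 0 ≤ M := (abs_nonneg _).trans (hM a ⟨le_rfl, hab.le⟩)
  set k : ℝ → ℝ := (Ioc a b).indicator fun t => g t - K with hk
  have hk1 : ∀ t ∈ Ioc a b, k t = g t - K := fun t ht => indicator_of_mem ht _
  have hk2 : ∀ t, t ∉ Ioc a b → k t = 0 := fun t ht => indicator_of_notMem ht _
  have hkb : ∀ t, ‖k t‖ ≤ M + |K| := by
    intro t
    by_cases ht : t ∈ Ioc a b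
    · rw [hk1 t ht]
      exact (abs_sub _ _).trans (add_le_add (hM t ⟨ht.1.le, ht.2⟩) le_rfl)
    · rw [hk2 t ht, norm_zero]
      positivity
  have hgK : IntervalIntegrable (fun t => g t - K) volume a b :=
    hgi.sub intervalIntegrable_const
  have hkI : Integrable k volume := by
    rw [hk, integrable_indicator_iff measurableSet_Ioc]
    exact (intervalIntegrable_iff_integrableOn_Ioc_of_le hab.le).mp hgK
  have hki : ∀ x y : ℝ, IntervalIntegrable k volume x y := fun x y => hkI.intervalIntegrable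
  set ψ : ℝ → ℝ := fun x => ∫ t in a..x, k t with hψ
  have hψL : LipschitzWith (Real.toNNReal (M + |K|)) ψ := by
    apply LipschitzWith.of_dist_le_mul
    intro x y
    rw [hψ, dist_eq_norm]
    simp only
    rw [intervalIntegral.integral_interval_sub_left (hki _ _) (hki _ _)]
    have := intervalIntegral.norm_integral_le_of_norm_le_const (a := y) (b := x) (f := k)
      (C := M + |K|) (fun t _ => hkb t)
    rw [Real.coe_toNNReal _ (by positivity), Real.dist_eq]
    exact this
  have hψa : ψ a = 0 := intervalIntegral.integral_same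
  have hkeq : ∫ t in a..b, k t = ∫ t in a..b, (g t - K) := by
    rw [intervalIntegral.integral_of_le hab.le, intervalIntegral.integral_of_le hab.le]
    exact setIntegral_congr_fun measurableSet_Ioc hk1
  have hk0 : ∫ t in a..b, k t = 0 := by
    rw [hkeq, intervalIntegral.integral_sub hgi intervalIntegrable_const,
      intervalIntegral.integral_const, hK, smul_eq_mul]
    field_simp
    ring
  have hψb : ψ b = 0 := hk0
  have h1 := h ψ ⟨_, hψL⟩ hψa hψb
  have hder : ∀ᵐ t, t ∈ uIcc a b → deriv ψ t = k t := by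
    filter_upwards [(hki a b).ae_hasDerivAt_integral] with t ht htm
    exact (ht htm a left_mem_uIcc).deriv
  have h2 : ∫ t in a..b, g t * k t = 0 := by
    rw [← h1]
    apply intervalIntegral.integral_congr_ae
    filter_upwards [hder] with t ht htm
    rw [ht (uIoc_subset_uIcc htm)]
  have hgk : IntervalIntegrable (fun t => g t * k t) volume a b := by
    refine int_of_bdd (M := M * (M + |K|)) hab.le (hg.mul hkI.aestronglyMeasurable.restrict) ?_
    intro t ht
    rw [abs_mul]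
    exact mul_le_mul (hM t ht) (hkb t) (abs_nonneg _) hM0
  have h3 : ∫ t in a..b, k t ^ 2 = 0 := by
    have e1 : ∫ t in a..b, k t ^ 2 = ∫ t in a..b, (g t * k t - K * k t) := by
      rw [intervalIntegral.integral_of_le hab.le, intervalIntegral.integral_of_le hab.le]
      refine setIntegral_congr_fun measurableSet_Ioc fun t ht => ?_
      rw [hk1 t ht]
      ring
    rw [e1, intervalIntegral.integral_sub hgk ((hki a b).const_mul K), h2,
      intervalIntegral.integral_const_mul, hk0, mul_zero, sub_zero]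
  have h4 : ∀ᵐ t, t ∈ Ioc a b → k t ^ 2 = 0 := by
    rw [intervalIntegral.integral_of_le hab.le] at h3
    have hint : IntegrableOn (fun t => k t ^ 2) (Ioc a b) volume := by
      refine Measure.integrableOn_of_bounded (M := (M + |K|) ^ 2) (by simp)
        (hkI.aestronglyMeasurable.pow 2) ?_
      refine Eventually.of_forall fun t => ?_
      rw [norm_pow]
      exact pow_le_pow_left₀ (norm_nonneg _) (hkb t) 2
    have h5 := (setIntegral_eq_zero_iff_of_nonneg_ae
      (Eventually.of_forall fun t => sq_nonneg (k t)) hint).mp h3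
    exact (ae_restrict_iff' measurableSet_Ioc).mp h5
  refine ⟨K, ?_⟩
  filter_upwards [h4] with t ht htm
  have h5 := ht htm
  rw [hk1 t htm] at h5
  exact sub_eq_zero.mp (pow_eq_zero_iff (two_ne_zero) |>.mp h5)

/-- the energy density -/
noncomputable def Fe (D : QD) (ε p φ p' φ' θ' ψ' : ℝ) : ℝ :=
  (D.A (p + ε * φ) * (p' + ε * φ')) ^ 2 + (D.R (p + ε * φ) * (θ' + ε * ψ')) ^ 2

/-- its derivative -/
noncomputable def Fd (D : QD) (ε p φ p' φ' θ' ψ' : ℝ) : ℝ :=
  2 * (D.A (p + ε * φ) * (p' + ε * φ')) *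
      (deriv D.A (p + ε * φ) * φ * (p' + ε * φ') + D.A (p + ε * φ) * φ') +
    2 * (D.R (p + ε * φ) * (θ' + ε * ψ')) *
      (deriv D.R (p + ε * φ) * φ * (θ' + ε * ψ') + D.R (p + ε * φ) * ψ')

theorem dA (D : QD) (x : ℝ) : HasDerivAt D.A (deriv D.A x) x :=
  ((D.smA.differentiable (by simp)) x).hasDerivAt

theorem dR (D : QD) (x : ℝ) : HasDerivAt D.R (deriv D.R x) x :=
  ((D.smR.differentiable (by simp)) x).hasDerivAt

theorem cA (D : QD) : Continuous D.A := D.smA.continuous

theorem cR (D : QD) : Continuous D.R := D.smR.continuous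

theorem cA' (D : QD) : Continuous (deriv D.A) := D.smA.continuous_deriv (by simp)

theorem cR' (D : QD) : Continuous (deriv D.R) := D.smR.continuous_deriv (by simp)

theorem Fe_deriv (D : QD) (ε p φ p' φ' θ' ψ' : ℝ) :
    HasDerivAt (fun ε => Fe D ε p φ p' φ' θ' ψ') (Fd D ε p φ p' φ' θ' ψ') ε := by
  unfold Fe Fd
  have h1 : HasDerivAt (fun ε : ℝ => p + ε * φ) φ ε := by
    simpa using ((hasDerivAt_id ε).mul_const φ).const_add p
  have h2 : HasDerivAt (fun ε : ℝ => p' + ε * φ') φ' ε := by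
    simpa using ((hasDerivAt_id ε).mul_const φ').const_add p'
  have h3 : HasDerivAt (fun ε : ℝ => θ' + ε * ψ') ψ' ε := by
    simpa using ((hasDerivAt_id ε).mul_const ψ').const_add θ'
  have h4 := (dA D (p + ε * φ)).comp ε h1
  have h5 := (dR D (p + ε * φ)).comp ε h1
  have h6 := ((h4.mul h2).pow 2).add ((h5.mul h3).pow 2)
  refine h6.congr_deriv ?_
  simp only [Function.comp, Nat.cast_ofNat, Nat.add_one_sub_one, pow_one, Pi.mul_apply]

theorem Fe_bound (D : QD) (M : ℝ) : ∃ C : ℝ, ∀ ε p φ p' φ' θ' ψ' : ℝ, |ε| ≤ M → |p| ≤ M →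
    |φ| ≤ M → |p'| ≤ M → |φ'| ≤ M → |θ'| ≤ M → |ψ'| ≤ M →
    |Fe D ε p φ p' φ' θ' ψ'| ≤ C ∧ |Fd D ε p φ p' φ' θ' ψ'| ≤ C := by
  have hA := cA D
  have hR := cR D
  have hA' := cA' D
  have hR' := cR' D
  have hK : IsCompact (Set.pi univ fun _ : Fin 7 => Icc (-M) M) :=
    isCompact_univ_pi fun _ => isCompact_Icc
  have h1 : Continuous fun x : Fin 7 → ℝ => Fe D (x 0) (x 1) (x 2) (x 3) (x 4) (x 5) (x 6) := by
    unfold Fe
    fun_prop
  have h2 : Continuous fun x : Fin 7 → ℝ => Fd D (x 0) (x 1) (x 2) (x 3) (x 4) (x 5) (x 6) := by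
    unfold Fd
    fun_prop
  obtain ⟨C₁, hC₁⟩ := hK.exists_bound_of_continuousOn h1.continuousOn
  obtain ⟨C₂, hC₂⟩ := hK.exists_bound_of_continuousOn h2.continuousOn
  refine ⟨max C₁ C₂, ?_⟩
  intro ε p φ p' φ' θ' ψ' e1 e2 e3 e4 e5 e6 e7
  have hm : ![ε, p, φ, p', φ', θ', ψ'] ∈ Set.pi univ fun _ : Fin 7 => Icc (-M) M := by
    intro i _
    fin_cases i
    · exact abs_le.mp e1
    · exact abs_le.mp e2
    · exact abs_le.mp e3
    · exact abs_le.mp e4
    · exact abs_le.mp e5
    · exact abs_le.mp e6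
    · exact abs_le.mp e7
  exact ⟨(hC₁ _ hm).trans (le_max_left _ _), (hC₂ _ hm).trans (le_max_right _ _)⟩

theorem deriv_bound {p : ℝ → ℝ} {C : NNReal} (hp : LipschitzWith C p) (t : ℝ) :
    |deriv p t| ≤ C := norm_deriv_le_of_lipschitz hp

theorem nm_sq (D : QD) (p : ℝ) (u : ℝ × ℝ) :
    D.nm p u ^ 2 = (D.A p * u.1) ^ 2 + (D.R p * u.2) ^ 2 := by
  unfold QD.nm
  exact Real.sq_sqrt (by positivity)

theorem nm_nonneg (D : QD) (p : ℝ) (u : ℝ × ℝ) : 0 ≤ D.nm p u := Real.sqrt_nonneg _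

/-- the first variation of the energy vanishes -/
theorem first_var (D : QD) {a b : ℝ} (hab : a < b) {p θ φ ψ : ℝ → ℝ} {Cp Ct Cf Cs : NNReal}
    (hp : LipschitzWith Cp p) (hθ : LipschitzWith Ct θ) (hφ : LipschitzWith Cf φ)
    (hψ : LipschitzWith Cs ψ)
    (h1 : ∀ᵐ t, t ∈ Ioc a b → D.nm (p t) (deriv p t, deriv θ t) ≤ 1)
    (h2 : ∃ ε₀ > 0, ∀ ε : ℝ, |ε| < ε₀ → b - a ≤ ∫ t in a..b, D.nm (p t + ε * φ t)
      (deriv p t + ε * deriv φ t, deriv θ t + ε * deriv ψ t)) :
    ∫ t in a..b, Fd D 0 (p t) (φ t) (deriv p t) (deriv φ t) (deriv θ t) (deriv ψ t) = 0 := by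
  obtain ⟨P, hP⟩ := (isCompact_Icc (a := a) (b := b)).exists_bound_of_continuousOn
    hp.continuous.continuousOn
  obtain ⟨Q, hQ⟩ := (isCompact_Icc (a := a) (b := b)).exists_bound_of_continuousOn
    hφ.continuous.continuousOn
  set M : ℝ := 1 + |P| + |Q| + Cp + Ct + Cf + Cs with hM
  have nP := abs_nonneg P
  have nQ := abs_nonneg Q
  have n1 : (0 : ℝ) ≤ Cp := Cp.2
  have n2 : (0 : ℝ) ≤ Ct := Ct.2
  have n3 : (0 : ℝ) ≤ Cf := Cf.2
  have n4 : (0 : ℝ) ≤ Cs := Cs.2
  obtain ⟨C, hC⟩ := Fe_bound D M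
  have hCt : ∀ ε : ℝ, |ε| ≤ 1 → ∀ t ∈ Icc a b,
      |Fe D ε (p t) (φ t) (deriv p t) (deriv φ t) (deriv θ t) (deriv ψ t)| ≤ C ∧
      |Fd D ε (p t) (φ t) (deriv p t) (deriv φ t) (deriv θ t) (deriv ψ t)| ≤ C := by
    intro ε hε t ht
    apply hC
    · linarith
    · exact (hP t ht).trans (by linarith [le_abs_self P])
    · exact (hQ t ht).trans (by linarith [le_abs_self Q])
    · exact (deriv_bound hp t).trans (by linarith)
    · exact (deriv_bound hφ t).trans (by linarith)
    · exact (deriv_bound hθ t).trans (by linarith)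
    · exact (deriv_bound hψ t).trans (by linarith)
  have hA := (cA D).measurable
  have hR := (cR D).measurable
  have hA' := (cA' D).measurable
  have hR' := (cR' D).measurable
  have mp := hp.continuous.measurable
  have mφ := hφ.continuous.measurable
  have mp' := measurable_deriv p
  have mφ' := measurable_deriv φ
  have mθ' := measurable_deriv θ
  have mψ' := measurable_deriv ψ
  have hmF : ∀ ε : ℝ, Measurable fun t =>
      Fe D ε (p t) (φ t) (deriv p t) (deriv φ t) (deriv θ t) (deriv ψ t) := by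
    intro ε
    unfold Fe
    fun_prop
  have hmD : Measurable fun t =>
      Fd D 0 (p t) (φ t) (deriv p t) (deriv φ t) (deriv θ t) (deriv ψ t) := by
    unfold Fd
    fun_prop
  have hint : ∀ ε : ℝ, |ε| ≤ 1 → IntervalIntegrable (fun t =>
      Fe D ε (p t) (φ t) (deriv p t) (deriv φ t) (deriv θ t) (deriv ψ t)) volume a b :=
    fun ε hε => int_of_bdd hab.le (hmF ε).aestronglyMeasurable fun t ht => (hCt ε hε t ht).1
  have hE := intervalIntegral.hasDerivAt_integral_of_dominated_loc_of_deriv_le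
    (μ := volume) (a := a) (b := b) (x₀ := (0 : ℝ)) (s := ball (0 : ℝ) 1)
    (F := fun ε t => Fe D ε (p t) (φ t) (deriv p t) (deriv φ t) (deriv θ t) (deriv ψ t))
    (F' := fun ε t => Fd D ε (p t) (φ t) (deriv p t) (deriv φ t) (deriv θ t) (deriv ψ t))
    (bound := fun _ => C) (ball_mem_nhds _ one_pos)
    (Eventually.of_forall fun ε => (hmF ε).aestronglyMeasurable)
    (hint 0 (by simp)) hmD.aestronglyMeasurable
    (Eventually.of_forall fun t ht ε hε => by
      rw [uIoc_of_le hab.le] at ht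
      rw [mem_ball_zero_iff] at hε
      exact (hCt ε hε.le t ⟨ht.1.le, ht.2⟩).2)
    intervalIntegrable_const
    (Eventually.of_forall fun t _ ε _ => Fe_deriv D ε _ _ _ _ _ _)
  have hderiv := hE.2
  apply IsLocalMin.hasDerivAt_eq_zero ?_ hderiv
  obtain ⟨ε₀, hε₀, hle⟩ := h2
  have hE0 : ∫ t in a..b, Fe D 0 (p t) (φ t) (deriv p t) (deriv φ t) (deriv θ t) (deriv ψ t) ≤
      b - a := by
    have e1 : ∫ t in a..b, (1 : ℝ) = b - a := by simp
    rw [← e1]
    apply intervalIntegral.integral_mono_ae_restrict hab.le (hint 0 (by simp))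
      intervalIntegrable_const
    rw [← restrict_Ioc_eq_restrict_Icc]
    rw [EventuallyLE, ae_restrict_iff' measurableSet_Ioc]
    filter_upwards [h1] with t ht htm
    have h3 := ht htm
    have h4 := nm_sq D (p t) (deriv p t, deriv θ t)
    have h5 : Fe D 0 (p t) (φ t) (deriv p t) (deriv φ t) (deriv θ t) (deriv ψ t) =
        D.nm (p t) (deriv p t, deriv θ t) ^ 2 := by
      rw [h4]
      unfold Fe
      simp
    rw [h5]
    exact pow_le_one₀ (nm_nonneg _ _ _) h3
  have hEe : ∀ ε : ℝ, |ε| < min ε₀ 1 → b - a ≤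
      ∫ t in a..b, Fe D ε (p t) (φ t) (deriv p t) (deriv φ t) (deriv θ t) (deriv ψ t) := by
    intro ε hε
    have hε1 : |ε| ≤ 1 := hε.le.trans (min_le_right _ _)
    have h3 := hle ε (hε.trans_le (min_le_left _ _))
    set n : ℝ → ℝ := fun t => D.nm (p t + ε * φ t)
      (deriv p t + ε * deriv φ t, deriv θ t + ε * deriv ψ t) with hn
    have hn2 : ∀ t, Fe D ε (p t) (φ t) (deriv p t) (deriv φ t) (deriv θ t) (deriv ψ t) =
        n t ^ 2 := by
      intro t
      rw [hn]
      simp only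
      rw [nm_sq]
      rfl
    have hnm : Measurable n := by
      rw [hn]
      unfold QD.nm
      fun_prop
    have hnC : ∀ t ∈ Icc a b, |n t| ≤ C + 1 := by
      intro t ht
      have h4 := (hCt ε hε1 t ht).1
      rw [hn2 t] at h4
      have h5 := (le_abs_self _).trans h4
      have h6 : |n t| ^ 2 ≤ C := by rwa [sq_abs]
      nlinarith [abs_nonneg (n t), sq_nonneg (|n t| - 1)]
    have hni : IntervalIntegrable n volume a b :=
      int_of_bdd hab.le hnm.aestronglyMeasurable hnC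
    have hn2i : IntervalIntegrable (fun t => n t ^ 2) volume a b :=
      (hint ε hε1).congr fun t _ => hn2 t
    have h4 : 0 ≤ ∫ t in a..b, (n t - 1) ^ 2 :=
      intervalIntegral.integral_nonneg hab.le fun t _ => sq_nonneg _
    have h5 : ∫ t in a..b, (n t - 1) ^ 2 = (∫ t in a..b, n t ^ 2) - 2 * (∫ t in a..b, n t) +
        (b - a) := by
      have e1 : (fun t => (n t - 1) ^ 2) = fun t => n t ^ 2 - 2 * n t + 1 := by
        funext t
        ring
      rw [e1, intervalIntegral.integral_add (hn2i.sub (hni.const_mul 2)) intervalIntegrable_const,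
        intervalIntegral.integral_sub hn2i (hni.const_mul 2), intervalIntegral.integral_const_mul]
      simp
    have h6 : ∫ t in a..b, Fe D ε (p t) (φ t) (deriv p t) (deriv φ t) (deriv θ t) (deriv ψ t) =
        ∫ t in a..b, n t ^ 2 := intervalIntegral.integral_congr fun t _ => hn2 t
    rw [h6]
    linarith
  filter_upwards [ball_mem_nhds (0 : ℝ) (lt_min hε₀ one_pos)] with ε hε
  rw [mem_ball_zero_iff] at hε
  exact hE0.trans (hEe ε hε)

/-- a primitive of a function a.e. equal to a continuous function -/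
theorem prim_deriv {a b : ℝ} (hab : a < b) {g k : ℝ → ℝ} (hk : ContinuousOn k (Icc a b))
    (hgk : ∀ᵐ t, t ∈ Ioc a b → g t = k t) {x : ℝ} (hx : x ∈ Ioo a b) :
    HasDerivAt (fun y => ∫ t in a..y, g t) (k x) x := by
  have h1 : ∀ y ∈ Ioo a b, ∫ t in a..y, g t = ∫ t in a..y, k t := by
    intro y hy
    apply intervalIntegral.integral_congr_ae
    filter_upwards [hgk] with t ht htm
    rw [uIoc_of_le hy.1.le] at htm
    exact ht ⟨htm.1, htm.2.trans hy.2.le⟩
  have h2 : HasDerivAt (fun y => ∫ t in a..y, k t) (k x) x := by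
    apply intervalIntegral.integral_hasDerivAt_right
    · apply ContinuousOn.intervalIntegrable
      rw [uIcc_of_le hx.1.le]
      exact hk.mono (Icc_subset_Icc_right hx.2.le)
    · exact ContinuousOn.stronglyMeasurableAtFilter isOpen_Ioo (hk.mono Ioo_subset_Icc_self) x hx
    · exact hk.continuousAt (Icc_mem_nhds hx.1 hx.2)
  refine h2.congr_of_eventuallyEq ?_
  filter_upwards [Ioo_mem_nhds hx.1 hx.2] with y hy
  exact h1 y hy

theorem main (D : QD) {a b : ℝ} (hab : a < b) {p θ : ℝ → ℝ} {Cp Ct : NNReal}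
    (hp : LipschitzWith Cp p) (hθ : LipschitzWith Ct θ)
    (hpos : ∀ t ∈ Icc a b, 0 < p t ∧ p t < D.ℓ)
    (h1 : ∀ᵐ t, t ∈ Ioc a b → D.nm (p t) (deriv p t, deriv θ t) ≤ 1)
    (h2 : ∀ φ ψ : ℝ → ℝ, (∃ C, LipschitzWith C φ) → (∃ C, LipschitzWith C ψ) →
      φ a = 0 → φ b = 0 → ψ a = 0 → ψ b = 0 → ∃ ε₀ > 0, ∀ ε : ℝ, |ε| < ε₀ →
        b - a ≤ ∫ t in a..b, D.nm (p t + ε * φ t) (deriv p t + ε * deriv φ t,
          deriv θ t + ε * deriv ψ t)) :
    ∃ v w : ℝ → ℝ, ∀ t ∈ Ioo a b, EqAt D p θ v w t := by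
  have hA := (cA D).measurable
  have hR := (cR D).measurable
  have hA' := (cA' D).measurable
  have hR' := (cR' D).measurable
  have mp := hp.continuous.measurable
  have mp' := measurable_deriv p
  have mθ' := measurable_deriv θ
  have hAp : ∀ t ∈ Icc a b, 0 < D.A (p t) := fun t ht =>
    D.posA _ ⟨(hpos t ht).1.le, (hpos t ht).2.le⟩
  have hRp : ∀ t ∈ Icc a b, 0 < D.R (p t) := fun t ht =>
    D.posR _ ⟨(hpos t ht).1, (hpos t ht).2.le⟩
  -- bounds
  obtain ⟨P, hP⟩ := (isCompact_Icc (a := a) (b := b)).exists_bound_of_continuousOn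
    hp.continuous.continuousOn
  have cpt : IsCompact (Icc (-|P|) |P|) := isCompact_Icc
  have hPm : ∀ t ∈ Icc a b, p t ∈ Icc (-|P|) |P| := fun t ht =>
    abs_le.mp ((hP t ht).trans (le_abs_self P))
  obtain ⟨B₁, hB₁⟩ := cpt.exists_bound_of_continuousOn (cA D).continuousOn
  obtain ⟨B₂, hB₂⟩ := cpt.exists_bound_of_continuousOn (cR D).continuousOn
  obtain ⟨B₃, hB₃⟩ := cpt.exists_bound_of_continuousOn (cA' D).continuousOn
  obtain ⟨B₄, hB₄⟩ := cpt.exists_bound_of_continuousOn (cR' D).continuousOn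
  have b1 : ∀ t ∈ Icc a b, |D.A (p t)| ≤ B₁ := fun t ht => hB₁ _ (hPm t ht)
  have b2 : ∀ t ∈ Icc a b, |D.R (p t)| ≤ B₂ := fun t ht => hB₂ _ (hPm t ht)
  have b3 : ∀ t ∈ Icc a b, |deriv D.A (p t)| ≤ B₃ := fun t ht => hB₃ _ (hPm t ht)
  have b4 : ∀ t ∈ Icc a b, |deriv D.R (p t)| ≤ B₄ := fun t ht => hB₄ _ (hPm t ht)
  have b5 : ∀ t, |deriv p t| ≤ Cp := deriv_bound hp
  have b6 : ∀ t, |deriv θ t| ≤ Ct := deriv_bound hθ
  have n5 : (0 : ℝ) ≤ Cp := Cp.2
  have n6 : (0 : ℝ) ≤ Ct := Ct.2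
  have ha : a ∈ Icc a b := ⟨le_rfl, hab.le⟩
  have n1 : 0 ≤ B₁ := (abs_nonneg _).trans (b1 a ha)
  have n2 : 0 ≤ B₂ := (abs_nonneg _).trans (b2 a ha)
  have n3 : 0 ≤ B₃ := (abs_nonneg _).trans (b3 a ha)
  have n4 : 0 ≤ B₄ := (abs_nonneg _).trans (b4 a ha)
  -- angular equation
  obtain ⟨K₁, hK₁⟩ : ∃ K : ℝ, ∀ᵐ t, t ∈ Ioc a b → D.R (p t) ^ 2 * deriv θ t = K := by
    apply dbr (M := B₂ ^ 2 * Ct) hab
    · exact ((by fun_prop : Measurable fun t => D.R (p t) ^ 2 * deriv θ t)).aestronglyMeasurable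
    · intro t ht
      rw [abs_mul, abs_pow]
      exact mul_le_mul (pow_le_pow_left₀ (abs_nonneg _) (b2 t ht) 2) (b6 t) (abs_nonneg _)
        (by positivity)
    · rintro ψ ⟨C, hψ⟩ hψa hψb
      have h0 : LipschitzWith 0 (fun _ : ℝ => (0 : ℝ)) := LipschitzWith.const 0
      have h3 := first_var D hab hp hθ h0 hψ h1
        (h2 (fun _ => 0) ψ ⟨0, h0⟩ ⟨C, hψ⟩ rfl rfl hψa hψb)
      have h4 : ∫ t in a..b, Fd D 0 (p t) 0 (deriv p t) (deriv (fun _ : ℝ => (0 : ℝ)) t)
          (deriv θ t) (deriv ψ t) = ∫ t in a..b, 2 * (D.R (p t) ^ 2 * deriv θ t * deriv ψ t) := by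
        apply intervalIntegral.integral_congr
        intro t _
        simp only [Fd, deriv_const]
        ring
      rw [h4, intervalIntegral.integral_const_mul] at h3
      linarith
  -- radial equation
  set G : ℝ → ℝ := fun t => D.A (p t) * deriv D.A (p t) * deriv p t ^ 2 +
    D.R (p t) * deriv D.R (p t) * deriv θ t ^ 2 with hG
  have mG : Measurable G := by
    rw [hG]
    fun_prop
  have bG : ∀ t ∈ Icc a b, |G t| ≤ B₁ * B₃ * Cp ^ 2 + B₂ * B₄ * Ct ^ 2 := by
    intro t ht
    refine (abs_add_le _ _).trans (add_le_add ?_ ?_)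
    · rw [abs_mul, abs_mul, abs_pow]
      exact mul_le_mul (mul_le_mul (b1 t ht) (b3 t ht) (abs_nonneg _) n1)
        (pow_le_pow_left₀ (abs_nonneg _) (b5 t) 2) (by positivity) (by positivity)
    · rw [abs_mul, abs_mul, abs_pow]
      exact mul_le_mul (mul_le_mul (b2 t ht) (b4 t ht) (abs_nonneg _) n2)
        (pow_le_pow_left₀ (abs_nonneg _) (b6 t) 2) (by positivity) (by positivity)
  have iG : IntervalIntegrable G volume a b := int_of_bdd hab.le mG.aestronglyMeasurable bG
  set H : ℝ → ℝ := fun x => ∫ t in a..x, G t with hH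
  have acH : AbsolutelyContinuousOnInterval H a b :=
    iG.absolutelyContinuousOnInterval_intervalIntegral (by simp)
  have cH : ContinuousOn H (Icc a b) := by
    have := acH.continuousOn
    rwa [uIcc_of_le hab.le] at this
  obtain ⟨BH, hBH⟩ := (isCompact_Icc (a := a) (b := b)).exists_bound_of_continuousOn cH
  have dH : ∀ᵐ t, t ∈ uIcc a b → deriv H t = G t := by
    filter_upwards [iG.ae_hasDerivAt_integral] with t ht htm
    exact (ht htm a left_mem_uIcc).deriv
  obtain ⟨K₂, hK₂⟩ : ∃ K : ℝ, ∀ᵐ t, t ∈ Ioc a b → D.A (p t) ^ 2 * deriv p t - H t = K := by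
    have m1 : Measurable fun t => D.A (p t) ^ 2 * deriv p t := by fun_prop
    have mH : AEStronglyMeasurable H (volume.restrict (Ioc a b)) :=
      (cH.mono Ioc_subset_Icc_self).aestronglyMeasurable measurableSet_Ioc
    apply dbr (M := B₁ ^ 2 * Cp + BH) hab
    · exact m1.aestronglyMeasurable.sub mH
    · intro t ht
      refine (abs_sub _ _).trans (add_le_add ?_ (hBH t ht))
      rw [abs_mul, abs_pow]
      exact mul_le_mul (pow_le_pow_left₀ (abs_nonneg _) (b1 t ht) 2) (b5 t) (abs_nonneg _)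
        (by positivity)
    · rintro φ ⟨C, hφ⟩ hφa hφb
      have h0 : LipschitzWith 0 (fun _ : ℝ => (0 : ℝ)) := LipschitzWith.const 0
      have h3 := first_var D hab hp hθ hφ h0 h1
        (h2 φ (fun _ => 0) ⟨C, hφ⟩ ⟨0, h0⟩ hφa hφb rfl rfl)
      have mφ := hφ.continuous.measurable
      have mφ' := measurable_deriv φ
      obtain ⟨Bf, hBf⟩ := (isCompact_Icc (a := a) (b := b)).exists_bound_of_continuousOn
        hφ.continuous.continuousOn
      have nC : (0 : ℝ) ≤ C := C.2
      have i1 : IntervalIntegrable (fun t => D.A (p t) ^ 2 * deriv p t * deriv φ t) volume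
          a b := by
        refine int_of_bdd (M := B₁ ^ 2 * Cp * C) hab.le
          ((by fun_prop : Measurable fun t => D.A (p t) ^ 2 * deriv p t * deriv φ t)
            ).aestronglyMeasurable ?_
        intro t ht
        rw [abs_mul, abs_mul, abs_pow]
        exact mul_le_mul (mul_le_mul (pow_le_pow_left₀ (abs_nonneg _) (b1 t ht) 2) (b5 t)
          (abs_nonneg _) (by positivity)) (deriv_bound hφ t) (abs_nonneg _) (by positivity)
      have i2 : IntervalIntegrable (fun t => G t * φ t) volume a b :=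
        iG.mul_continuousOn hφ.continuous.continuousOn
      have acφ : AbsolutelyContinuousOnInterval φ a b :=
        (hφ.lipschitzOnWith (s := uIcc a b)).absolutelyContinuousOnInterval
      have i3 : IntervalIntegrable (fun t => H t * deriv φ t) volume a b :=
        acφ.intervalIntegrable_deriv.continuousOn_mul acH.continuousOn
      have h4 : ∫ t in a..b, Fd D 0 (p t) (φ t) (deriv p t) (deriv φ t)
          (deriv θ t) (deriv (fun _ : ℝ => (0 : ℝ)) t) =
          ∫ t in a..b, 2 * (G t * φ t + D.A (p t) ^ 2 * deriv p t * deriv φ t) := by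
        apply intervalIntegral.integral_congr
        intro t _
        simp only [Fd, deriv_const, hG, zero_mul, add_zero, mul_zero]
        ring
      have h5 := acH.integral_mul_deriv_eq_deriv_mul acφ
      have h6 : ∫ t in a..b, deriv H t * φ t = ∫ t in a..b, G t * φ t := by
        apply intervalIntegral.integral_congr_ae
        filter_upwards [dH] with t ht htm
        rw [ht (uIoc_subset_uIcc htm)]
      rw [hφa, hφb, h6] at h5
      rw [h4, intervalIntegral.integral_const_mul, intervalIntegral.integral_add i2 i1] at h3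
      have h7 : ∫ t in a..b, (D.A (p t) ^ 2 * deriv p t - H t) * deriv φ t =
          (∫ t in a..b, D.A (p t) ^ 2 * deriv p t * deriv φ t) -
            ∫ t in a..b, H t * deriv φ t := by
        rw [← intervalIntegral.integral_sub i1 i3]
        apply intervalIntegral.integral_congr
        intro t _
        simp only
        ring
      rw [h7]
      linarith
  -- the velocities
  set w : ℝ → ℝ := fun t => K₁ / D.R (p t) with hw
  set v : ℝ → ℝ := fun t => (K₂ + H t) / D.A (p t) with hv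
  have cpI : ContinuousOn p (Icc a b) := hp.continuous.continuousOn
  have cAp : ContinuousOn (fun t => D.A (p t)) (Icc a b) := (cA D).comp_continuousOn cpI
  have cRp : ContinuousOn (fun t => D.R (p t)) (Icc a b) := (cR D).comp_continuousOn cpI
  have cAp' : ContinuousOn (fun t => deriv D.A (p t)) (Icc a b) := (cA' D).comp_continuousOn cpI
  have cRp' : ContinuousOn (fun t => deriv D.R (p t)) (Icc a b) := (cR' D).comp_continuousOn cpI
  have nA : ∀ t ∈ Icc a b, D.A (p t) ≠ 0 := fun t ht => (hAp t ht).ne'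
  have nR : ∀ t ∈ Icc a b, D.R (p t) ≠ 0 := fun t ht => (hRp t ht).ne'
  have cw : ContinuousOn w (Icc a b) := continuousOn_const.div cRp nR
  have cv : ContinuousOn v (Icc a b) := (continuousOn_const.add cH).div cAp nA
  have e1 : ∀ᵐ t, t ∈ Ioc a b → deriv p t = v t / D.A (p t) := by
    filter_upwards [hK₂] with t ht htm
    have h3 := ht htm
    have h4 := nA t ⟨htm.1.le, htm.2⟩
    rw [hv]
    simp only
    rw [← h3]
    field_simp
    ring
  have e2 : ∀ᵐ t, t ∈ Ioc a b → deriv θ t = w t / D.R (p t) := by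
    filter_upwards [hK₁] with t ht htm
    have h3 := ht htm
    have h4 := nR t ⟨htm.1.le, htm.2⟩
    rw [hw]
    simp only
    rw [← h3]
    field_simp
  have e3 : ∀ᵐ t, t ∈ Ioc a b → G t =
      deriv D.A (p t) * v t ^ 2 / D.A (p t) + deriv D.R (p t) * w t ^ 2 / D.R (p t) := by
    filter_upwards [e1, e2] with t ht1 ht2 htm
    have h3 := nA t ⟨htm.1.le, htm.2⟩
    have h4 := nR t ⟨htm.1.le, htm.2⟩
    rw [hG]
    simp only
    rw [ht1 htm, ht2 htm]
    field_simp
  have acI : ∀ x ∈ Icc a b, p x = p a + ∫ t in a..x, deriv p t := by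
    intro x hx
    have := (hp.lipschitzOnWith (s := uIcc a x)).absolutelyContinuousOnInterval.integral_deriv_eq_sub
    linarith
  have acJ : ∀ x ∈ Icc a b, θ x = θ a + ∫ t in a..x, deriv θ t := by
    intro x hx
    have := (hθ.lipschitzOnWith (s := uIcc a x)).absolutelyContinuousOnInterval.integral_deriv_eq_sub
    linarith
  have dp : ∀ t ∈ Ioo a b, HasDerivAt p (v t / D.A (p t)) t := by
    intro t ht
    have h3 := prim_deriv hab (cv.div cAp nA) e1 ht
    refine (h3.const_add (p a)).congr_of_eventuallyEq ?_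
    filter_upwards [Ioo_mem_nhds ht.1 ht.2] with x hx
    exact acI x (Ioo_subset_Icc_self hx)
  have dθ : ∀ t ∈ Ioo a b, HasDerivAt θ (w t / D.R (p t)) t := by
    intro t ht
    have h3 := prim_deriv hab (cw.div cRp nR) e2 ht
    refine (h3.const_add (θ a)).congr_of_eventuallyEq ?_
    filter_upwards [Ioo_mem_nhds ht.1 ht.2] with x hx
    exact acJ x (Ioo_subset_Icc_self hx)
  have dHH : ∀ t ∈ Ioo a b, HasDerivAt H
      (deriv D.A (p t) * v t ^ 2 / D.A (p t) + deriv D.R (p t) * w t ^ 2 / D.R (p t)) t := by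
    intro t ht
    refine prim_deriv hab ?_ e3 ht
    exact ((cAp'.mul (cv.pow 2)).div cAp nA).add ((cRp'.mul (cw.pow 2)).div cRp nR)
  have dv : ∀ t ∈ Ioo a b, HasDerivAt v (D.f (p t) * w t ^ 2 / D.R (p t)) t := by
    intro t ht
    have h3 := nA t (Ioo_subset_Icc_self ht)
    have h4 := nR t (Ioo_subset_Icc_self ht)
    have h5 := (dA D (p t)).comp t (dp t ht)
    have h6 := ((dHH t ht).const_add K₂).div h5 h3
    refine h6.congr_deriv ?_
    have h7 : K₂ + H t = v t * D.A (p t) := by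
      rw [hv]
      simp only
      rw [div_mul_cancel₀ _ h3]
    rw [h7]
    unfold QD.f
    simp only [Function.comp]
    field_simp
    ring
  have dw : ∀ t ∈ Ioo a b, HasDerivAt w (-(D.f (p t) * v t * w t / D.R (p t))) t := by
    intro t ht
    have h3 := nA t (Ioo_subset_Icc_self ht)
    have h4 := nR t (Ioo_subset_Icc_self ht)
    have h5 := (dR D (p t)).comp t (dp t ht)
    have h6 := (hasDerivAt_const t K₁).div h5 h4
    refine h6.congr_deriv ?_
    have h7 : K₁ = w t * D.R (p t) := by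
      rw [hw]
      simp only
      rw [div_mul_cancel₀ _ h4]
    rw [h7]
    unfold QD.f
    simp only [Function.comp]
    field_simp
    ring
  -- unit speed
  have du : ∀ t ∈ Ioo a b, HasDerivAt (fun t => v t ^ 2 + w t ^ 2) 0 t := by
    intro t ht
    have h3 := ((dv t ht).pow 2).add ((dw t ht).pow 2)
    refine h3.congr_deriv ?_
    simp only [Nat.cast_ofNat, Nat.add_one_sub_one, pow_one]
    ring
  have hconst : ∀ x ∈ Ioo a b, ∀ y ∈ Ioo a b, v y ^ 2 + w y ^ 2 = v x ^ 2 + w x ^ 2 := by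
    intro x hx y hy
    have h3 := (convex_Ioo a b).norm_image_sub_le_of_norm_hasDerivWithin_le
      (f := fun t => v t ^ 2 + w t ^ 2) (f' := fun _ => 0) (C := 0)
      (fun t ht => (du t ht).hasDerivWithinAt) (fun t _ => by simp) hx hy
    rw [zero_mul, norm_le_zero_iff, sub_eq_zero] at h3
    exact h3
  set t₀ := (a + b) / 2 with ht₀
  have hm : t₀ ∈ Ioo a b := ⟨by linarith, by linarith⟩
  set c₀ := v t₀ ^ 2 + w t₀ ^ 2 with hc₀
  have hnm : ∀ᵐ t, t ∈ Ioo a b → D.nm (p t) (deriv p t, deriv θ t) = √c₀ := by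
    filter_upwards [e1, e2] with t ht1 ht2 htm
    have htm' := Ioo_subset_Ioc_self htm
    have h3 := nA t (Ioo_subset_Icc_self htm)
    have h4 := nR t (Ioo_subset_Icc_self htm)
    unfold QD.nm
    congr 1
    rw [hc₀, ← hconst t₀ hm t htm, ht1 htm', ht2 htm']
    simp only
    field_simp
  have hle : √c₀ ≤ 1 := by
    have h3 : ∀ᵐ t, t ∈ Ioo a b → √c₀ ≤ 1 := by
      filter_upwards [hnm, h1] with t ht1 ht2 htm
      rw [← ht1 htm]
      exact ht2 (Ioo_subset_Ioc_self htm)
    by_contra hcon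
    have h4 : ∀ᵐ t, t ∉ Ioo a b := by
      filter_upwards [h3] with t ht htm
      exact hcon (ht htm)
    have h5 : volume (Ioo a b) = 0 := by
      have := measure_eq_zero_iff_ae_notMem.mpr h4
      exact this
    rw [Real.volume_Ioo, ENNReal.ofReal_eq_zero] at h5
    linarith
  have hge : 1 ≤ √c₀ := by
    have h0 : LipschitzWith 0 (fun _ : ℝ => (0 : ℝ)) := LipschitzWith.const 0
    obtain ⟨ε₀, hε₀, h3⟩ := h2 (fun _ => 0) (fun _ => 0) ⟨0, h0⟩ ⟨0, h0⟩ rfl rfl rfl rfl
    have h4 := h3 0 (by simpa using hε₀)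
    have h5 : ∫ t in a..b, D.nm (p t + 0 * 0) (deriv p t + 0 * deriv (fun _ : ℝ => (0 : ℝ)) t,
        deriv θ t + 0 * deriv (fun _ : ℝ => (0 : ℝ)) t) = ∫ _ in a..b, √c₀ := by
      rw [intervalIntegral.integral_of_le hab.le, intervalIntegral.integral_of_le hab.le,
        integral_Ioc_eq_integral_Ioo, integral_Ioc_eq_integral_Ioo]
      apply setIntegral_congr_ae measurableSet_Ioo
      filter_upwards [hnm] with t ht htm
      rw [← ht htm]
      simp
    rw [h5, intervalIntegral.integral_const, smul_eq_mul] at h4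
    have h6 : 0 < b - a := sub_pos.mpr hab
    nlinarith
  have hc1 : c₀ = 1 := by
    have h3 : √c₀ = 1 := le_antisymm hle hge
    exact Real.sqrt_eq_one.mp h3
  refine ⟨v, w, fun t ht => ⟨?_, dp t ht, dθ t ht, dv t ht, dw t ht⟩⟩
  rw [hconst t₀ hm t ht]
  exact hc1

end VARAux

open VARAux in
theorem var_proof : Stmt_VAR := by
  rintro D a b hab p θ ⟨Cp, hp⟩ ⟨Ct, hθ⟩ hpos h1 h2
  obtain ⟨P, hP, hPe⟩ := hp.extend_real
  obtain ⟨Q, hQ, hQe⟩ := hθ.extend_real
  have ev : ∀ (f g : ℝ → ℝ), EqOn f g (Icc a b) → ∀ t ∈ Ioo a b, f =ᶠ[𝓝 t] g := by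
    intro f g hfg t ht
    filter_upwards [Ioo_mem_nhds ht.1 ht.2] with x hx
    exact hfg (Ioo_subset_Icc_self hx)
  have dP : ∀ t ∈ Ioo a b, deriv P t = deriv p t := fun t ht => (ev p P hPe t ht).deriv_eq.symm
  have dQ : ∀ t ∈ Ioo a b, deriv Q t = deriv θ t := fun t ht => (ev θ Q hQe t ht).deriv_eq.symm
  have hb : ∀ᵐ t : ℝ, t ≠ b := by simp [ae_iff, measure_singleton]
  obtain ⟨v, w, hvw⟩ := main D hab hP hQ (p := P) (θ := Q)
    (fun t ht => by rw [← hPe ht]; exact hpos t ht)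
    (by
      filter_upwards [h1, hb] with t ht htb htm
      have htm' : t ∈ Ioo a b := ⟨htm.1, lt_of_le_of_ne htm.2 htb⟩
      rw [dP t htm', dQ t htm', ← hPe (Ioo_subset_Icc_self htm')]
      exact ht (Ioo_subset_Icc_self htm'))
    (by
      intro φ ψ hφ hψ a1 a2 a3 a4
      obtain ⟨ε₀, hε₀, h3⟩ := h2 φ ψ hφ hψ a1 a2 a3 a4
      refine ⟨ε₀, hε₀, fun ε hε => (h3 ε hε).trans (le_of_eq ?_)⟩
      rw [intervalIntegral.integral_of_le hab.le, intervalIntegral.integral_of_le hab.le,
        integral_Ioc_eq_integral_Ioo, integral_Ioc_eq_integral_Ioo]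
      refine setIntegral_congr_fun measurableSet_Ioo fun t ht => ?_
      rw [dP t ht, dQ t ht, ← hPe (Ioo_subset_Icc_self ht)])
  refine ⟨v, w, fun t ht => ?_⟩
  have h3 := hvw t ht
  have e1 : P t = p t := (hPe (Ioo_subset_Icc_self ht)).symm
  constructor
  · exact h3.unit
  · rw [← e1]
    exact h3.dp.congr_of_eventuallyEq (ev p P hPe t ht)
  · rw [← e1]
    exact h3.dθ.congr_of_eventuallyEq (ev θ Q hQe t ht)
  · rw [← e1]
    exact h3.dv
  · rw [← e1]
    exact h3.dw

end Pool.MP8e
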