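import Pool.Agent.Work.MP_8e9dbb.IfaceB

/-! Block WST of MP_8e9dbb: the waist circle is a closed geodesic. -/

open MeasureTheory Filter Topology Metric Set
open scoped ContDiff

namespace Pool.MP8e

theorem wst_proof (hLEB : Stmt_LEB) (hCMP : Stmt_CMP) (hCAL : Stmt_CAL) : Stmt_WST := by
  intro D X _ _ Pr hF hmid p₁ η hη hp₁ hβ hR
  have hR1 : D.R p₁ = 1 := hR p₁ (by simpa using hη)
  refine hLEB X (fun t => Pr (p₁, t)) (2 * Real.pi) (by positivity) (fun t => hF.per p₁ t) ?_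
  intro t
  obtain ⟨δ, hδ, hcal⟩ := hCAL D X Pr hF hmid (p₁, t) ⟨hp₁, hβ t⟩ (fun x => x.2) η hη
    contDiff_snd.contDiffOn (by
      intro x hx u
      have h1 : fderiv ℝ (fun x : ℝ × ℝ => x.2) x u = u.2 := by
        rw [show (fun x : ℝ × ℝ => x.2) = Prod.snd from rfl, fderiv_snd]
        rfl
      rw [h1]
      have h2 : |x.1 - p₁| < η := by
        have h3 := mem_ball.1 hx
        rw [Prod.dist_eq] at h3
        exact lt_of_le_of_lt (le_max_left _ _) h3
      unfold QD.nm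
      apply Real.abs_le_sqrt
      rw [hR _ h2, one_mul]
      nlinarith [sq_nonneg (D.A x.1 * u.1)])
  have hup : ∀ a b : ℝ, a ≤ b → dist (Pr (p₁, a)) (Pr (p₁, b)) ≤ b - a := by
    intro a b hab
    have h1 := hCMP D X Pr hF a b hab (fun _ => p₁) (fun s => s)
      ⟨1, (LipschitzWith.const p₁).lipschitzOnWith.weaken (by simp)⟩
      ⟨1, (LipschitzWith.id).lipschitzOnWith⟩ (fun s _ => ⟨hp₁, hβ s⟩)
    have h2 : ∀ s : ℝ, D.nm p₁ (deriv (fun _ : ℝ => p₁) s, deriv (fun s : ℝ => s) s) = 1 := by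
      intro s
      unfold QD.nm
      simp [hR1]
    simp only [h2] at h1
    simpa using h1
  refine ⟨δ, hδ, fun s hs s' hs' => ?_⟩
  apply le_antisymm
  · rcases le_total s s' with h | h
    · rw [abs_sub_comm, abs_of_nonneg (by linarith : 0 ≤ s' - s)]
      exact hup s s' h
    · rw [abs_of_nonneg (by linarith : 0 ≤ s - s'), dist_comm]
      exact hup s' s h
  · have hb : ∀ u ∈ ball t δ, ((p₁, u) : ℝ × ℝ) ∈ ball ((p₁, t) : ℝ × ℝ) δ := by
      intro u hu
      rw [mem_ball, Prod.dist_eq]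
      simp only [dist_self]
      exact max_lt hδ hu
    exact hcal _ (hb s hs) _ (hb s' hs')

end Pool.MP8e
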